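import Pool.Agent.Work.MP_def58e_co.Radial3

/-!
# MP_def58e_co, gap class: interface of parts (A) (cap inequality) and (E) (density)  (helper11)

`Gap u`: eleven unit vectors of three-space whose pairwise inner products are `1/2` or `≤ 0`.
-/

open MeasureTheory Set
open scoped ENNReal

namespace MPdef58eGap

open MPdef58e

noncomputable section

/-- eleven unit vectors whose pairwise inner products are `1/2` or at most `0` -/
def Gap (u : Fin 11 → E3) : Prop :=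
  (∀ i, ‖u i‖ = 1) ∧
    ∀ i j, i ≠ j → inner ℝ (u i) (u j) = (1 / 2 : ℝ) ∨ inner ℝ (u i) (u j) ≤ (0 : ℝ)

open Classical in
/-- number of the vectors adjacent to `u i` (inner product `1/2`) -/
def dg (u : Fin 11 → E3) (i : Fin 11) : ℕ :=
  (Finset.univ.filter fun j : Fin 11 => inner ℝ (u i) (u j) = (1 / 2 : ℝ)).card

open Classical in
/-- number of the triangles at `u i` -/
def tv (u : Fin 11 → E3) (i : Fin 11) : ℕ :=
  (Finset.univ.filter fun p : Fin 11 × Fin 11 => p.1 < p.2 ∧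
    inner ℝ (u i) (u p.1) = (1 / 2 : ℝ) ∧ inner ℝ (u i) (u p.2) = (1 / 2 : ℝ) ∧
    inner ℝ (u p.1) (u p.2) = (1 / 2 : ℝ)).card

/-- no two neighbours of a ball have their centres at a distance strictly between `2` and
`2 √2` (radius one) -/
def GapPacking (C : Set E3) : Prop :=
  ∀ x ∈ C, ∀ y ∈ neighbours C x, ∀ z ∈ neighbours C x, dist y z ≤ 2 ∨ 2 * Real.sqrt 2 ≤ dist y z

/-! ## the three solid angles (`/3` = volume inside the unit ball) -/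

/-- the `45°` cap (cone, inside the unit ball) -/
def capS (v : E3) : Set E3 := {x | ‖x‖ ≤ 1 ∧ ‖x‖ / Real.sqrt 2 < inner ℝ v x}

/-- the part of the cap of `v` where `n` is at least as near as `v` -/
def lensS (v n : E3) : Set E3 :=
  {x | ‖x‖ ≤ 1 ∧ ‖x‖ / Real.sqrt 2 < inner ℝ v x ∧ inner ℝ v x ≤ inner ℝ n x}

/-- the part of the cap of `v` where `n` and `n'` are nearer than `v` -/
def triS (v n n' : E3) : Set E3 :=
  {x | ‖x‖ ≤ 1 ∧ ‖x‖ / Real.sqrt 2 < inner ℝ v x ∧ inner ℝ v x < inner ℝ n x ∧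
    inner ℝ v x < inner ℝ n' x}

/-- `.9553166...` -/
def bb : ℝ := Real.arctan (Real.sqrt 2)
/-- solid angle of the cap, `1.840302` -/
def cc : ℝ := 2 * Real.pi - Real.sqrt 2 * Real.pi
/-- solid angle of the lens, `.219775` -/
def hh : ℝ := Real.pi / 2 - Real.sqrt 2 * bb
/-- solid angle of the triangle, `.042997` -/
def kk : ℝ := Real.pi / 6 + Real.pi / Real.sqrt 2 - 2 * Real.sqrt 2 * bb

/-- orthonormal coordinates with first axis `v` and second axis `e`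
(proved in `InterfaceA2.lean`: `exists_coord2`) -/
def Coord (v e : E3) (M : E3 → ℝ × (ℝ × ℝ)) : Prop :=
  MeasurePreserving M volume volume ∧ (∀ x, (M x).1 = inner ℝ v x) ∧
    (∀ x, (M x).2.1 = inner ℝ e x) ∧
    (∀ x y, inner ℝ x y = (M x).1 * (M y).1 + ((M x).2.1 * (M y).2.1 + (M x).2.2 * (M y).2.2))

/-- GNO (helper11, `InterfaceA2.lean`, being proved): volume in gnomonic coordinates, then polar
coordinates: `w = x⊥ / (v·x)`, the density is `(1+|w|²)^(-3/2)/3`.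
For `F` measurable in the plane. -/
def Stmt_GNO : Prop :=
  ∀ (v e : E3), ‖v‖ = 1 → ‖e‖ = 1 → inner ℝ v e = (0 : ℝ) → ∃ M, Coord v e M ∧
    ∀ F : Set (ℝ × ℝ), MeasurableSet F →
      volume {x : E3 | ‖x‖ ≤ 1 ∧ 0 < inner ℝ v x ∧ (M x).1⁻¹ • (M x).2 ∈ F} =
        ∫⁻ φ in Set.Ioo (-Real.pi) Real.pi,
          ∫⁻ r in {r : ℝ | 0 < r ∧ (r * Real.cos φ, r * Real.sin φ) ∈ F},
            ENNReal.ofReal (r * (1 / Real.sqrt (1 + r ^ 2)) ^ 3 / 3)

/-- CAPV. Proof: `F = {w | |w|² < 1}`: for every `φ` the inner integral is over `(0,1)` and equals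
`(1 - 1/√2)/3` (`lint_c` of `Radial.lean`). -/
def Stmt_CAPV : Prop := ∀ v : E3, ‖v‖ = 1 → ENNReal.ofReal (cc / 3) ≤ volume (capS v)

/-- LENSV. Proof: `e = (2n - v)/√3`, so `n` has the coordinates `(1/2, √3/2, 0)`;
`F = {w | |w|² < 1, 1/√3 ≤ w.1}`; in polar coordinates: `cos φ > 0`, `1/(√3 cos φ) ≤ r < 1`, inner
integral `= (cos φ/√(cos²φ + 1/3) - 1/√2)/3` if `|φ| < bb`, `0` otherwise;
`∫ cos φ/√(cos²φ+1/3) dφ = arcsin (√3/2 sin φ)`, `sin bb = √(2/3)`, `cos bb = 1/√3`, so the total is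
`(2 (π/4 - bb/√2))/3 = hh/3`. -/
def Stmt_LENSV : Prop := ∀ v n : E3, ‖v‖ = 1 → ‖n‖ = 1 → inner ℝ v n = (1 / 2 : ℝ) →
  volume (lensS v n) ≤ ENNReal.ofReal (hh / 3)

/-- TRIV. Proof: `e = (n + n' - v)/√2`; `n = (1/2, 1/√2, y)`, `n' = (1/2, 1/√2, -y)`, `y = ±1/2`;
`F = {w | |w|² < 1, 1 < √2 w.1 - |w.2|}`; for `0 ≤ |φ| < 2bb - π/2` put `θ = |φ| + (π/2 - bb)`:
`√2 cos φ - sin |φ| = √3 cos θ`, so the inner integral is over `1/(√3 cos θ) < r < 1`, equal to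
`(cos θ/√(cos²θ+1/3) - 1/√2)/3`, primitive `arcsin (√3/2 sin θ)` from `π/6` (at `θ = π/2 - bb`,
`sin θ = 1/√3`) to `π/4` (at `θ = bb`): total `2 (π/4 - π/6 - (2bb - π/2)/√2)/3 = kk/3`. -/
def Stmt_TRIV : Prop := ∀ v n n' : E3, ‖v‖ = 1 → ‖n‖ = 1 → ‖n'‖ = 1 →
  inner ℝ v n = (1 / 2 : ℝ) → inner ℝ v n' = (1 / 2 : ℝ) → inner ℝ n n' = (1 / 2 : ℝ) →
  ENNReal.ofReal (kk / 3) ≤ volume (triS v n n')

/-- NUM: the numerics (`bb = arctan √2 ∈ (.95531, .95532)`, for instance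
`arctan √2 = π/2 - arctan (1/√2)` or `arctan √2 = 2 arctan ((√3-1)/√2)`, `π` by `Real.pi_gt_d6`,
`Real.pi_lt_d6`). -/
def Stmt_NUM : Prop :=
  0 < cc ∧ 0 < hh ∧ 0 < kk ∧ 34 * hh + 4 * Real.pi < 11 * cc ∧
    36 * hh + 4 * Real.pi < 11 * cc + 6 * kk ∧ 38 * hh + 4 * Real.pi < 11 * cc + 16 * kk

/-- PW: the inequality of one cell (helper11). -/
def Stmt_PW : Prop :=
  ∀ u : Fin 11 → E3, Gap u → ∀ i : Fin 11,
    ENNReal.ofReal (cc / 3) + tv u i * ENNReal.ofReal (kk / 3) ≤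
      volume (cell u i ∩ Metric.closedBall 0 1) + dg u i * ENNReal.ofReal (hh / 3)

/-- A (helper11): the cap inequality. -/
def Stmt_A : Prop :=
  ∀ u : Fin 11 → E3, Gap u → 35 ≤ ∑ i, dg u i ∧ (∑ i, dg u i ≤ 36 → ∑ i, tv u i ≤ 5) ∧
    (∑ i, dg u i ≤ 38 → ∑ i, tv u i ≤ 15)

/-- E (helper11): from the volume of the polytope to the density. -/
def Stmt_E : Prop :=
  (∀ u : Fin 11 → E3, Gap u →
    volume.real {x : E3 | ∀ i, inner ℝ (u i) x ≤ (1 : ℝ)} ≤ 13 * Real.sqrt 2 / 3) →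
  ∀ C : Set E3, IsNeighbourPacking 11 C → GapPacking C →
    12 / 13 * (Real.pi / Real.sqrt 18) ≤ lowerDensity C

end

end MPdef58eGap
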