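import Pool.Agent.Work.MP_def58e_co.Barlow
import Pool.Agent.Work.MP_def58e_gap.InterfaceA

/-!
# MP_def58e_co: the distances in a Barlow packing are `2` or at least `2 √2` (helper90)
-/

namespace MPdef58eGap

open MPdef58e

theorem Q_six {τ : ℤ → ℤ} (hτ : IsStacking τ) {v w : Fin 3 → ℤ} (hne : v ≠ w) :
    Q (v 0 - w 0) (v 1 - w 1) (τ (v 2) - τ (w 2)) (v 2 - w 2) = 3 ∨
      6 ≤ Q (v 0 - w 0) (v 1 - w 1) (τ (v 2) - τ (w 2)) (v 2 - w 2) := by
  have h3 := Q_ge hτ hne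
  have key : ∀ q n : ℤ, 3 ≤ q → q = 3 * n → q = 3 ∨ 6 ≤ q := by
    intro q n h1 h2
    omega
  generalize hx : v 0 - w 0 = x at *
  generalize hy : v 1 - w 1 = y at *
  by_cases hm : v 2 - w 2 = 0
  · have e : v 2 = w 2 := by omega
    rw [hm, e, sub_self] at h3 ⊢
    refine key _ (x ^ 2 + x * y + y ^ 2) h3 ?_
    unfold Q
    ring
  · by_cases hm1 : v 2 - w 2 = 1 ∨ v 2 - w 2 = -1
    · have hm2 : (v 2 - w 2) ^ 2 = 1 := by
        rcases hm1 with h | h <;> rw [h] <;> norm_num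
      have hs2 : (τ (v 2) - τ (w 2)) ^ 2 = 1 := by
        rcases tau_step hτ hm1 with h | h <;> rw [h] <;> norm_num
      refine key _ (x ^ 2 + x * y + y ^ 2 + x * (τ (v 2) - τ (w 2)) +
        y * (τ (v 2) - τ (w 2)) + 1) h3 ?_
      unfold Q
      rw [hm2, hs2]
      ring
    · right
      have hm2 : 4 ≤ (v 2 - w 2) ^ 2 := by
        rcases le_or_gt 2 (v 2 - w 2) with h | h
        · nlinarith
        · have : v 2 - w 2 ≤ -2 := by omega
          nlinarith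
      unfold Q
      nlinarith [sq_nonneg (3 * x + 3 * y + 2 * (τ (v 2) - τ (w 2))), sq_nonneg (x - y),
        sq_nonneg (x + y + (τ (v 2) - τ (w 2))), sq_nonneg (2 * x + y + (τ (v 2) - τ (w 2)))]

theorem dist_barlow {τ : ℤ → ℤ} (hτ : IsStacking τ) (v w : Fin 3 → ℤ) :
    dist (bpt τ v) (bpt τ w) ≤ 2 ∨ 2 * Real.sqrt 2 ≤ dist (bpt τ v) (bpt τ w) := by
  by_cases hne : v = w
  · left
    rw [hne, dist_self]
    norm_num
  · have h0 : 0 ≤ dist (bpt τ v) (bpt τ w) := dist_nonneg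
    have hd := dist_bpt τ v w
    rcases Q_six hτ hne with h | h
    · left
      exact ((N_iff τ v w).2 h).le
    · right
      have h1 : (6 : ℝ) ≤ (Q (v 0 - w 0) (v 1 - w 1) (τ (v 2) - τ (w 2)) (v 2 - w 2) : ℝ) := by
        exact_mod_cast h
      have h2 : Real.sqrt 2 ^ 2 = 2 := Real.sq_sqrt (by norm_num)
      refine le_of_sq_le_sq ?_ h0
      rw [mul_pow, h2, hd]
      linarith

/-- every set of centres inside an isometric copy of a Barlow packing is a gap packing -/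
theorem gap_barlow {τ : ℤ → ℤ} (hτ : IsStacking τ) (g : E3 ≃ᵢ E3) {C : Set E3}
    (hC : C ⊆ g '' barlow τ) : GapPacking C := by
  intro x _ y hy z hz
  obtain ⟨_, ⟨v, rfl⟩, rfl⟩ := hC hy.1
  obtain ⟨_, ⟨w, rfl⟩, rfl⟩ := hC hz.1
  rw [g.dist_eq]
  exact dist_barlow hτ v w

end MPdef58eGap
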