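import Pool.Agent.Work.MP_def58e_gap.InterfaceA

/-!
# MP_def58e_co, gap class: block A (helper11): the cap inequality and its consequences
-/

open MeasureTheory Set
open scoped ENNReal

namespace MPdef58eGap

open MPdef58e

noncomputable section

/-- the sum of the cell inequalities -/
theorem cap_sum (h1 : Stmt_PW) (h2 : Stmt_NUM) {u : Fin 11 → E3} (hu : Gap u) :
    11 * cc + (∑ i, tv u i : ℕ) * kk ≤ 4 * Real.pi + (∑ i, dg u i : ℕ) * hh := by
  obtain ⟨hc, hh0, hk, -⟩ := h2
  have hsum : ∑ i : Fin 11, volume (cell u i ∩ Metric.closedBall 0 1) ≤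
      volume (Metric.closedBall (0 : E3) 1) := by
    rw [← measure_biUnion_finset]
    · exact measure_mono (Set.iUnion₂_subset fun i _ => Set.inter_subset_right)
    · intro i _ j _ hij
      exact (cell_disjoint u hij).mono Set.inter_subset_left Set.inter_subset_left
    · intro i _
      exact (cell_measurable u i).inter Metric.isClosed_closedBall.measurableSet
  have hB : volume (Metric.closedBall (0 : E3) 1) = ENNReal.ofReal V1 := by
    have := vol_closedBall (0 : E3) (zero_le_one' ℝ)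
    rw [one_pow, one_mul] at this
    rw [← this, Measure.real, ENNReal.ofReal_toReal]
    exact measure_closedBall_lt_top.ne
  have key : ∑ i : Fin 11, (ENNReal.ofReal (cc / 3) + tv u i * ENNReal.ofReal (kk / 3)) ≤
      ENNReal.ofReal V1 + ∑ i : Fin 11, (dg u i : ℝ≥0∞) * ENNReal.ofReal (hh / 3) := by
    refine (Finset.sum_le_sum fun i _ => h1 u hu i).trans ?_
    rw [Finset.sum_add_distrib, ← hB]
    exact add_le_add hsum le_rfl
  rw [Finset.sum_add_distrib, ← Finset.sum_mul, ← Finset.sum_mul, Finset.sum_const,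
    Finset.card_univ, Fintype.card_fin, nsmul_eq_mul, ← Nat.cast_sum, ← Nat.cast_sum] at key
  have c3 : (0 : ℝ) ≤ cc / 3 := by positivity
  have h3 : (0 : ℝ) ≤ hh / 3 := by positivity
  have k3 : (0 : ℝ) ≤ kk / 3 := by positivity
  have e1 : ∀ (n : ℕ) (r : ℝ), 0 ≤ r → (n : ℝ≥0∞) * ENNReal.ofReal r = ENNReal.ofReal (n * r) := by
    intro n r _
    rw [ENNReal.ofReal_mul (Nat.cast_nonneg n), ENNReal.ofReal_natCast]
  rw [e1 _ _ c3, e1 _ _ k3, e1 _ _ h3, ← ENNReal.ofReal_add (by positivity) (by positivity),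
    ← ENNReal.ofReal_add V1_pos.le (by positivity)] at key
  have hV := V1_pos
  have key2 := (ENNReal.ofReal_le_ofReal_iff (by positivity)).1 key
  rw [V1_eq] at key2
  push_cast at key2 ⊢
  linarith

theorem stmt_A (h1 : Stmt_PW) (h2 : Stmt_NUM) : Stmt_A := by
  intro u hu
  have key := cap_sum h1 h2 hu
  obtain ⟨hc, hh0, hk, n1, n2, n3⟩ := h2
  set D : ℕ := ∑ i, dg u i
  set S : ℕ := ∑ i, tv u i
  refine ⟨?_, fun hD => ?_, fun hD => ?_⟩
  · by_contra hlt
    push Not at hlt
    have h3 : (D : ℝ) ≤ 34 := by exact_mod_cast Nat.le_of_lt_succ hlt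
    have h4 : (D : ℝ) * hh ≤ 34 * hh := mul_le_mul_of_nonneg_right h3 hh0.le
    have h5 : 0 ≤ (S : ℝ) * kk := by positivity
    linarith
  · by_contra hlt
    push Not at hlt
    have h3 : (D : ℝ) ≤ 36 := by exact_mod_cast hD
    have h4 : (D : ℝ) * hh ≤ 36 * hh := mul_le_mul_of_nonneg_right h3 hh0.le
    have h6 : (6 : ℝ) ≤ S := by exact_mod_cast hlt
    have h5 : 6 * kk ≤ (S : ℝ) * kk := mul_le_mul_of_nonneg_right h6 hk.le
    linarith
  · by_contra hlt
    push Not at hlt
    have h3 : (D : ℝ) ≤ 38 := by exact_mod_cast hD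
    have h4 : (D : ℝ) * hh ≤ 38 * hh := mul_le_mul_of_nonneg_right h3 hh0.le
    have h6 : (16 : ℝ) ≤ S := by exact_mod_cast hlt
    have h5 : 16 * kk ≤ (S : ℝ) * kk := mul_le_mul_of_nonneg_right h6 hk.le
    linarith

end

end MPdef58eGap
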