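import Pool.Agent.Work.MP_def58e_gap.GNO

/-!
# MP_def58e_co, gap class: block CAPV (helper42)
-/

open MeasureTheory Set
open scoped ENNReal

namespace MPdef58eGap

open MPdef58e

noncomputable section

/-- the radial integral between two radii -/
theorem lint_ab42 {a b : ℝ} (hab : a ≤ b) (ha : 0 ≤ a) :
    ∫⁻ r in Set.Ioc a b, ENNReal.ofReal (r * (1 / Real.sqrt (1 + r ^ 2)) ^ 3 / 3) =
      ENNReal.ofReal ((1 / Real.sqrt (1 + a ^ 2) - 1 / Real.sqrt (1 + b ^ 2)) / 3) := by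
  have hcont : Continuous fun r : ℝ => r * (1 / Real.sqrt (1 + r ^ 2)) ^ 3 / 3 := by
    refine (continuous_id.mul ((continuous_const.div ?_ fun r => ?_).pow 3)).div_const 3
    · exact Real.continuous_sqrt.comp (by fun_prop)
    · exact (Real.sqrt_pos.2 (by positivity)).ne'
  rw [← ofReal_integral_eq_lintegral_ofReal]
  · rw [← intervalIntegral.integral_of_le hab]
    rw [intervalIntegral.integral_eq_sub_of_hasDerivAt
      (fun r _ => (hasDeriv_c r).div_const 3) (hcont.intervalIntegrable a b)]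
    congr 1
    ring
  · exact (hcont.integrableOn_Icc (a := a) (b := b)).mono_set Set.Ioc_subset_Icc_self
  · filter_upwards [ae_restrict_mem measurableSet_Ioc] with r hr
    have : 0 < r := lt_of_le_of_lt ha hr.1
    positivity

/-- the cap in gnomonic coordinates -/
theorem cap_iff42 {v e : E3} {M : E3 → ℝ × (ℝ × ℝ)} (hM : Coord v e M) {x : E3}
    (hx : 0 < (M x).1) : ‖x‖ / Real.sqrt 2 < inner ℝ v x ↔
      ((M x).1⁻¹ • (M x).2).1 ^ 2 + ((M x).1⁻¹ • (M x).2).2 ^ 2 < 1 := by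
  rw [← hM.2.1, coord_norm_eq hM hx]
  set q := ((M x).1⁻¹ • (M x).2).1 ^ 2 + ((M x).1⁻¹ • (M x).2).2 ^ 2 with hq
  have hq0 : 0 ≤ q := by positivity
  have hs : (0 : ℝ) < Real.sqrt 2 := by positivity
  rw [div_lt_iff₀ hs, mul_lt_mul_iff_right₀ hx, Real.sqrt_lt_sqrt_iff (by positivity)]
  constructor <;> intro h <;> linarith

theorem exists_perp42 {v : E3} (hv : ‖v‖ = 1) : ∃ e : E3, ‖e‖ = 1 ∧ inner ℝ v e = (0 : ℝ) := by
  obtain ⟨M, -, h1, h2, h3⟩ := exists_coord hv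
  obtain ⟨e, he⟩ := h3 (0, (1, 0))
  refine ⟨e, ?_, ?_⟩
  · have h := h2 e e
    rw [he, real_inner_self_eq_norm_sq] at h
    have h4 : ‖e‖ ^ 2 = 1 ^ 2 := by rw [h]; norm_num
    exact (pow_left_inj₀ (norm_nonneg e) (by norm_num) two_ne_zero).1 h4
  · rw [← h1, he]

theorem stmt_CAPV (h : Stmt_GNO) : Stmt_CAPV := by
  intro v hv
  obtain ⟨e, he, hve⟩ := exists_perp42 hv
  obtain ⟨M, hM, hF⟩ := h v e hv he hve
  have hset : capS v = {x : E3 | ‖x‖ ≤ 1 ∧ 0 < inner ℝ v x ∧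
      (M x).1⁻¹ • (M x).2 ∈ {w : ℝ × ℝ | w.1 ^ 2 + w.2 ^ 2 < 1}} := by
    ext x
    constructor
    · rintro ⟨h1, h2⟩
      have h0 : 0 < (M x).1 := by
        rw [hM.2.1]
        exact lt_of_le_of_lt (by positivity) h2
      exact ⟨h1, by rw [← hM.2.1]; exact h0, (cap_iff42 hM h0).1 h2⟩
    · rintro ⟨h1, h2, h3⟩
      exact ⟨h1, (cap_iff42 hM (by rw [hM.2.1]; exact h2)).2 h3⟩
  rw [hset, hF _ (measurableSet_lt (by fun_prop) measurable_const)]
  have hin : ∀ φ : ℝ, ∫⁻ r in {r : ℝ | 0 < r ∧ (r * Real.cos φ, r * Real.sin φ) ∈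
      {w : ℝ × ℝ | w.1 ^ 2 + w.2 ^ 2 < 1}},
        ENNReal.ofReal (r * (1 / Real.sqrt (1 + r ^ 2)) ^ 3 / 3) =
      ENNReal.ofReal ((1 - 1 / Real.sqrt 2) / 3) := by
    intro φ
    have hs : {r : ℝ | 0 < r ∧ (r * Real.cos φ, r * Real.sin φ) ∈
      {w : ℝ × ℝ | w.1 ^ 2 + w.2 ^ 2 < 1}} = Set.Ioo 0 1 := by
      ext r
      have hsc := Real.sin_sq_add_cos_sq φ
      have hr : (r * Real.cos φ) ^ 2 + (r * Real.sin φ) ^ 2 = r ^ 2 := by
        calc (r * Real.cos φ) ^ 2 + (r * Real.sin φ) ^ 2 =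
          r ^ 2 * (Real.sin φ ^ 2 + Real.cos φ ^ 2) := by ring
          _ = r ^ 2 := by rw [hsc, mul_one]
      simp only [Set.mem_ofPred_eq, Set.mem_Ioo]
      rw [hr]
      constructor
      · rintro ⟨h1, h2⟩
        exact ⟨h1, by nlinarith⟩
      · rintro ⟨h1, h2⟩
        exact ⟨h1, by nlinarith⟩
    rw [hs, setLIntegral_congr (Ioo_ae_eq_Ioc (a := (0 : ℝ)) (b := 1)),
      lint_ab42 zero_le_one le_rfl]
    congr 2
    norm_num
  simp only [hin]
  rw [setLIntegral_const, Real.volume_Ioo, ← ENNReal.ofReal_mul]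
  · refine ENNReal.ofReal_le_ofReal (le_of_eq ?_)
    unfold cc
    have hs : Real.sqrt 2 ^ 2 = 2 := Real.sq_sqrt (by norm_num)
    have hs0 : Real.sqrt 2 ≠ 0 := by positivity
    have h1 : 1 / Real.sqrt 2 = Real.sqrt 2 / 2 := by
      rw [div_eq_div_iff hs0 two_ne_zero]; nlinarith
    rw [h1]
    ring
  · have h1 : 1 / Real.sqrt 2 ≤ 1 := by
      rw [div_le_one (by positivity)]
      exact Real.one_le_sqrt.2 (by norm_num)
    linarith

end

end MPdef58eGap
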