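import Pool.Agent.Work.MP_def58e_gap.InterfaceA

/-!
# MP_def58e_co, gap class: block E (helper11): from the volume of the polytope to the density
-/

open MeasureTheory Set Filter Topology Metric
open scoped ENNReal

namespace MPdef58eGap

open MPdef58e

noncomputable section

theorem gap_uv {C : Set E3} (hG : GapPacking C) {c : E3} (hc : c ∈ C) {y : Fin 11 → E3}
    (h0 : ∀ i, y i ∈ C) (h2 : ∀ i, dist c (y i) = 2)
    (hy : ∀ i j, i ≠ j → 2 ≤ dist (y i) (y j)) : Gap (uv c y) := by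
  refine ⟨norm_uv h2, fun i j hij => ?_⟩
  have h1 : ‖uv c y i - uv c y j‖ ^ 2 = ‖uv c y i‖ ^ 2 - 2 * inner ℝ (uv c y i) (uv c y j) +
      ‖uv c y j‖ ^ 2 := norm_sub_sq_real _ _
  have h3 : ‖uv c y i - uv c y j‖ = dist (y i) (y j) / 2 := by
    unfold uv
    rw [← smul_sub, norm_smul, dist_eq_norm, show y i - c - (y j - c) = y i - y j by abel,
      Real.norm_of_nonneg (by norm_num)]
    ring
  rw [norm_uv h2, norm_uv h2, h3] at h1
  have h4 := hy i j hij
  rcases hG c hc (y i) ⟨h0 i, h2 i⟩ (y j) ⟨h0 j, h2 j⟩ with h5 | h5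
  · left
    have h6 : dist (y i) (y j) = 2 := le_antisymm h5 h4
    rw [h6] at h1
    linarith
  · right
    have h7 : Real.sqrt 2 ^ 2 = 2 := Real.sq_sqrt (by norm_num)
    have h8 : (2 * Real.sqrt 2) ^ 2 ≤ dist (y i) (y j) ^ 2 :=
      pow_le_pow_left₀ (by positivity) h5 2
    nlinarith

theorem vol_reg_gap {c : E3} {y : Fin 11 → E3} (h2 : ∀ i, dist c (y i) = 2)
    (hy : ∀ i j, i ≠ j → 2 ≤ dist (y i) (y j)) {X : ℝ}
    (hX : volume.real {x : E3 | ∀ i, inner ℝ (uv c y i) x ≤ (1 : ℝ)} ≤ X) :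
    volume (reg c y) ≠ ⊤ ∧ volume.real (reg c y) ≤ X := by
  refine ⟨(vol_reg h2 hy (h := 7 / 30) (by norm_num) (by norm_num) hole_one).1, ?_⟩
  have hv : volume (reg c y) = volume {x : E3 | ∀ i, inner ℝ (uv c y i) x ≤ 1} := by
    have e : (fun p : E3 => p - c) = fun p => p + (-c) := by
      ext p : 1
      rw [sub_eq_add_neg]
    rw [reg_eq h2, e]
    exact measure_preimage_add_right volume (-c) _
  unfold Measure.real at hX ⊢
  rw [hv]
  exact hX

theorem ratio_gap {C : Set E3} (hC : IsNeighbourPacking 11 C) (hG : GapPacking C) {X : ℝ}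
    (hX0 : 0 < X) (hX : ∀ u : Fin 11 → E3, Gap u →
      volume.real {x : E3 | ∀ i, inner ℝ (u i) x ≤ (1 : ℝ)} ≤ X) {R : ℝ} (hR : 30 / 7 + 1 ≤ R) :
    V1 / X * ((R - (30 / 7 + 1)) ^ 3 / R ^ 3) ≤
      volume.real (closedBall (0 : E3) R ∩ body C) / volume.real (closedBall (0 : E3) R) := by
  obtain ⟨hne, hP, hN⟩ := hC
  have hfin := finite_inter hP (R - 1)
  choose! Y hY using fun c (hc : c ∈ C) => exists_eleven hP (hN c hc)
  set T := hfin.toFinset with hT
  have hTmem : ∀ c, c ∈ T ↔ c ∈ C ∧ dist c 0 ≤ R - 1 := by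
    intro c
    rw [hT, Set.Finite.mem_toFinset]
    simp [mem_closedBall]
  have hcover : closedBall (0 : E3) (R - (30 / 7 + 1)) ⊆ ⋃ c ∈ T, reg c (Y c) := by
    intro p hp
    obtain ⟨c, hc, hnear⟩ := exists_nearest hne hP p
    have hm : p ∈ reg c (Y c) := fun i => hnear _ ((hY c hc).1 i)
    rw [Set.mem_iUnion₂]
    refine ⟨c, ?_, hm⟩
    rw [hTmem]
    refine ⟨hc, ?_⟩
    have h1 := reg_sub (hY c hc).2.1 (hY c hc).2.2 (h := 7 / 30) (by norm_num) hole_one hm
    rw [mem_closedBall] at hp h1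
    have := dist_triangle_left c 0 p
    norm_num at h1
    linarith
  have hvol : ∀ c ∈ C, volume (reg c (Y c)) ≠ ⊤ ∧ volume.real (reg c (Y c)) ≤ X := fun c hc =>
    vol_reg_gap (hY c hc).2.1 (hY c hc).2.2
      (hX _ (gap_uv hG hc (hY c hc).1 (hY c hc).2.1 (hY c hc).2.2))
  have h1 : (R - (30 / 7 + 1)) ^ 3 * V1 ≤ T.card * X := by
    rw [← vol_closedBall (0 : E3) (by linarith : 0 ≤ R - (30 / 7 + 1))]
    refine le_card_mul T (fun c => reg c (Y c)) _ _ hcover ?_ ?_
    · intro c hc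
      exact (hvol c ((hTmem c).1 hc).1).2
    · intro c hc
      exact (hvol c ((hTmem c).1 hc).1).1
  have h2 : (T.card : ℝ) * V1 ≤ volume.real (closedBall (0 : E3) R ∩ body C) := by
    refine card_mul_le T (fun c => ball c 1) _ V1 (fun c _ => measurableSet_ball) ?_ ?_ ?_ ?_
    · intro c hc c' hc' hcc'
      refine ball_disjoint_ball ?_
      have := hP c ((hTmem c).1 hc).1 c' ((hTmem c').1 hc').1 hcc'
      linarith
    · intro c hc x hx
      rw [mem_ball] at hx
      have hc' := (hTmem c).1 hc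
      refine ⟨?_, ?_⟩
      · rw [mem_closedBall]
        have := dist_triangle x c 0
        linarith
      · unfold body
        rw [Set.mem_iUnion₂]
        exact ⟨c, hc'.1, by rw [mem_closedBall]; exact hx.le⟩
    · intro c _
      rw [vol_ball _ zero_le_one]
      ring
    · exact ne_top_of_le_ne_top measure_closedBall_lt_top.ne (measure_mono Set.inter_subset_left)
  have hRpos : 0 < R := by linarith
  have hV := V1_pos
  rw [vol_closedBall _ hRpos.le, le_div_iff₀ (mul_pos (pow_pos hRpos 3) V1_pos)]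
  have e : V1 / X * ((R - (30 / 7 + 1)) ^ 3 / R ^ 3) * (R ^ 3 * V1)
      = V1 / X * ((R - (30 / 7 + 1)) ^ 3 * V1) := by
    field_simp
  rw [e]
  have h3 : V1 / X * ((R - (30 / 7 + 1)) ^ 3 * V1) ≤ V1 / X * (T.card * X) :=
    mul_le_mul_of_nonneg_left h1 (by positivity)
  have h4 : V1 / X * (T.card * X) = T.card * V1 := by
    field_simp
  linarith

theorem stmt_E : Stmt_E := by
  intro hX C hC hG
  have hX0 : 0 < 13 * Real.sqrt 2 / 3 := by positivity
  have h1 : Tendsto (fun R : ℝ => V1 / (13 * Real.sqrt 2 / 3) *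
      ((R - (30 / 7 + 1)) ^ 3 / R ^ 3)) atTop (𝓝 (V1 / (13 * Real.sqrt 2 / 3))) := by
    simpa using (tendsto_shift (30 / 7 + 1)).const_mul (V1 / (13 * Real.sqrt 2 / 3))
  have h2 : V1 / (13 * Real.sqrt 2 / 3) ≤ lowerDensity C := by
    refine le_lowerDensity h1 ?_
    filter_upwards [eventually_ge_atTop (30 / 7 + 1)] with R hR
    exact ratio_gap hC hG hX0 hX hR
  refine le_trans (le_of_eq ?_) h2
  have h18 : Real.sqrt 18 = 3 * Real.sqrt 2 := by
    rw [show (18 : ℝ) = 3 ^ 2 * 2 by norm_num, Real.sqrt_mul (by positivity),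
      Real.sqrt_sq (by norm_num)]
  have hs : 0 < Real.sqrt 2 := by positivity
  rw [h18, V1_eq]
  field_simp
  ring

end

end MPdef58eGap
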