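import Pool.Agent.Work.MP_def58e_gap.InterfaceA

/-!
# MP_def58e_co, gap class: block GNO (helper11)
-/

open MeasureTheory Set
open scoped ENNReal

namespace MPdef58eGap

open MPdef58e

noncomputable section

/-- coordinates adapted to an orthonormal pair -/
theorem exists_coord2 {v e : E3} (hv : ‖v‖ = 1) (he : ‖e‖ = 1) (hve : inner ℝ v e = (0 : ℝ)) :
    ∃ M, Coord v e M := by
  have hev : inner ℝ e v = (0 : ℝ) := by rw [real_inner_comm]; exact hve
  have hon : Orthonormal ℝ (({0, 1} : Set (Fin 3)).domRestrict (![v, e, 0] : Fin 3 → E3)) := by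
    refine ⟨?_, ?_⟩
    · rintro ⟨i, hi⟩
      rcases hi with hi | hi
      · subst hi; exact hv
      · have hi' : i = 1 := hi
        subst hi'; exact he
    · rintro ⟨i, hi⟩ ⟨j, hj⟩ hij
      have hij' : i ≠ j := fun h => hij (Subtype.ext h)
      have hi' : i = 0 ∨ i = 1 := hi
      have hj' : j = 0 ∨ j = 1 := hj
      show inner ℝ ((![v, e, 0] : Fin 3 → E3) i) ((![v, e, 0] : Fin 3 → E3) j) = (0 : ℝ)
      rcases hi' with rfl | rfl <;> rcases hj' with rfl | rfl
      · exact absurd rfl hij'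
      · exact hve
      · exact hev
      · exact absurd rfl hij'
  obtain ⟨b, hb⟩ := hon.exists_orthonormalBasis_extension_of_card_eq (by simp)
  have hb0 : b 0 = v := hb 0 (Or.inl rfl)
  have hb1 : b 1 = e := hb 1 (Or.inr rfl)
  refine ⟨fun x => (b.repr x 0, (b.repr x 1, b.repr x 2)), ?_, fun x => ?_, fun x => ?_,
    fun x y => ?_⟩
  · have h1 := b.measurePreserving_repr
    have h2 := PiLp.volume_preserving_ofLp (Fin 3)
    have h3 := volume_preserving_piFinSuccAbove (fun _ : Fin 3 => ℝ) 0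
    have h4 := volume_preserving_finTwoArrow ℝ
    have h5 : MeasurePreserving (Prod.map (id : ℝ → ℝ) (MeasurableEquiv.finTwoArrow (α := ℝ)))
        (volume.prod volume) (volume.prod volume) := (MeasurePreserving.id volume).prod h4
    exact h5.comp (h3.comp (h2.comp h1))
  · change b.repr x 0 = _
    rw [b.repr_apply_apply, hb0]
  · change b.repr x 1 = _
    rw [b.repr_apply_apply, hb1]
  · rw [← b.repr.inner_map_map x y, PiLp.inner_apply, Fin.sum_univ_three]
    simp only [RCLike.inner_apply, conj_trivial]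
    ring

theorem coord_norm {v e : E3} {M : E3 → ℝ × (ℝ × ℝ)} (hM : Coord v e M) (x : E3) :
    ‖x‖ ^ 2 = (M x).1 ^ 2 + ((M x).2.1 ^ 2 + (M x).2.2 ^ 2) := by
  rw [← real_inner_self_eq_norm_sq, hM.2.2.2]
  ring

/-- the norm in gnomonic coordinates -/
theorem coord_norm_eq {v e : E3} {M : E3 → ℝ × (ℝ × ℝ)} (hM : Coord v e M) {x : E3}
    (hx : 0 < (M x).1) : ‖x‖ = (M x).1 *
      Real.sqrt (1 + (((M x).1⁻¹ • (M x).2).1 ^ 2 + ((M x).1⁻¹ • (M x).2).2 ^ 2)) := by
  have e2 : ‖x‖ ^ 2 = ((M x).1 *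
    Real.sqrt (1 + (((M x).1⁻¹ • (M x).2).1 ^ 2 + ((M x).1⁻¹ • (M x).2).2 ^ 2))) ^ 2 := by
    rw [mul_pow, Real.sq_sqrt (by positivity), coord_norm hM]
    simp only [Prod.smul_fst, Prod.smul_snd, smul_eq_mul]
    field_simp
  exact (pow_left_inj₀ (norm_nonneg x) (by positivity) two_ne_zero).1 e2

/-- an inner product in gnomonic coordinates -/
theorem coord_inner {v e : E3} {M : E3 → ℝ × (ℝ × ℝ)} (hM : Coord v e M) {x : E3}
    (hx : 0 < (M x).1) (n : E3) : inner ℝ n x =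
      (M x).1 * ((M n).1 + ((M n).2.1 * ((M x).1⁻¹ • (M x).2).1 +
        (M n).2.2 * ((M x).1⁻¹ • (M x).2).2)) := by
  rw [hM.2.2.2]
  simp only [Prod.smul_fst, Prod.smul_snd, smul_eq_mul]
  field_simp

theorem gno_plane {v e : E3} {M : E3 → ℝ × (ℝ × ℝ)} (hM : Coord v e M) {F : Set (ℝ × ℝ)}
    (hF : MeasurableSet F) :
    volume {x : E3 | ‖x‖ ≤ 1 ∧ 0 < inner ℝ v x ∧ (M x).1⁻¹ • (M x).2 ∈ F} =
      ∫⁻ w in F, ENNReal.ofReal (cn w ^ 3 / 3) := by
  rw [← gnomonic hF cn_cont.measurable fun w => (cn_pos w).le]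
  rw [← hM.1.measure_preimage]
  · congr 1
    ext x
    simp only [Set.mem_ofPred_eq, Set.mem_preimage]
    rw [← hM.2.1]
    have key : 0 < (M x).1 → (‖x‖ ≤ 1 ↔ (M x).1 ≤ cn ((M x).1⁻¹ • (M x).2)) := by
      intro hx
      have hs : 0 < Real.sqrt (1 + (((M x).1⁻¹ • (M x).2).1 ^ 2 + ((M x).1⁻¹ • (M x).2).2 ^ 2)) :=
        Real.sqrt_pos.2 (by positivity)
      rw [coord_norm_eq hM hx]
      unfold cn
      rw [le_div_iff₀ hs]
    constructor
    · rintro ⟨h1, h2, h3⟩
      exact ⟨h2, (key h2).1 h1, h3⟩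
    · rintro ⟨h1, h2, h3⟩
      exact ⟨(key h1).2 h2, h1, h3⟩
  · refine MeasurableSet.nullMeasurableSet ?_
    refine (measurableSet_lt measurable_const measurable_fst).inter ?_
    refine (measurableSet_le measurable_fst (cn_cont.measurable.comp (by fun_prop))).inter ?_
    exact hF.preimage (by fun_prop)

theorem stmt_GNO : Stmt_GNO := by
  intro v e hv he hve
  obtain ⟨M, hM⟩ := exists_coord2 hv he hve
  refine ⟨M, hM, fun F hF => ?_⟩
  have hf : Measurable fun w : ℝ × ℝ => ENNReal.ofReal (cn w ^ 3 / 3) :=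
    ENNReal.measurable_ofReal.comp ((cn_cont.measurable.pow_const 3).div_const 3)
  rw [gno_plane hM hF, polar_lint hF hf]
  refine lintegral_congr fun φ => ?_
  have hms : MeasurableSet {r : ℝ | 0 < r ∧ (r * Real.cos φ, r * Real.sin φ) ∈ F} := by
    refine (measurableSet_Ioi (a := (0 : ℝ))).inter ?_
    exact hF.preimage (by fun_prop)
  refine setLIntegral_congr_fun hms fun r hr => ?_
  rw [cn_polar, ← ENNReal.ofReal_mul hr.1.le]
  congr 1
  ring

end

end MPdef58eGap
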