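import Pool.Agent.Work.MP_def58e_gap.Interface

/-! MP_def58e_co, gap theorem, block ANTI (helper78) -/

namespace MPgap

open Finset

namespace ANTI_

def ip (a b : Z3) : ℤ :=
  2 * a.1 * b.1 + a.1 * b.2.1 + a.2.1 * b.1 + 2 * a.2.1 * b.2.1 + 3 * a.2.2 * b.2.2

theorem dt_comb {v f : R3} (hv : dt v v = 2) (hf : dt f f = 2) (hvf : dt v f = 1) (a b : Z3) :
    dt (comb a v f) (comb b v f) = (ip a b : ℝ) / 729 := by
  have key : dt (comb a v f) (comb b v f) =
      ((a.1 : ℝ) * b.1 * dt v v + ((a.1 : ℝ) * b.2.1 + a.2.1 * b.1) * dt v f +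
        (a.2.1 : ℝ) * b.2.1 * dt f f +
        (a.2.2 : ℝ) * b.2.2 * (dt v v * dt f f - dt v f * dt v f)) / 729 := by
    simp only [dt, comb, crs]
    ring
  rw [key, hv, hf, hvf]
  simp only [ip]
  push_cast
  ring

theorem dt_f_comb {v f : R3} (hf : dt f f = 2) (hvf : dt v f = 1) (a : Z3) :
    dt f (comb a v f) = ((a.1 + 2 * a.2.1 : ℤ) : ℝ) / 27 := by
  have key : dt f (comb a v f) = ((a.1 : ℝ) * dt v f + (a.2.1 : ℝ) * dt f f) / 27 := by
    simp only [dt, comb, crs]
    ring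
  rw [key, hf, hvf]
  push_cast
  ring

theorem nbf : ∀ pt ∈ pats, ∀ e ∈ pt, e.1 + 2 * e.2.1 = 27 → e = pT ∨ e = nT := by decide

theorem third' : ∀ pt ∈ pats, ∀ e ∈ pt, pT ∉ pt ∨ nT ∉ pt ∨
    e = pT ∨ e = nT ∨ e = pPi ∨ ip e pT = 729 ∨ ip e nT = 729 := by decide

theorem third (pt : List Z3) (hpt : pt ∈ pats) (h1 : pT ∈ pt) (h2 : nT ∈ pt) (e : Z3)
    (he : e ∈ pt) : e = pT ∨ e = nT ∨ e = pPi ∨ ip e pT = 729 ∨ ip e nT = 729 := by
  rcases third' pt hpt e he with h | h | h
  · exact absurd h1 h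
  · exact absurd h2 h
  · exact h

theorem inj {X : Fin 11 → R3} (hX : GapR X) {i j : Fin 11} (hij : i ≠ j) : X i ≠ X j := by
  intro h
  have h1 := hX.nrm i
  rcases hX.ips i j hij with h2 | h2
  · rw [← h] at h2; linarith
  · rw [← h] at h2; linarith

theorem dt_comm (x y : R3) : dt x y = dt y x := by simp only [dt]; ring

end ANTI_

open ANTI_ in
theorem stmt_ANTI (h1 : Stmt_STAR) : Stmt_ANTI := by
  intro X hX v b c d p hdg hvb hvc hvd hvp hbc' hbd' hcd' hbp' hcp' hdp' hbc hbd hcp hdp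
  obtain ⟨pt, hpt, -, hall⟩ := h1 X hX v b hvb hdg
  have hv := hX.nrm v
  have hf := hX.nrm b
  have hvf : dt (X v) (X b) = 1 := hvb
  have get : ∀ j, adj X v j → b ≠ j → ∃ e ∈ pt, X j = comb e (X v) (X b) := by
    intro j hj hbj
    rcases hall j hj with h | h
    · exact absurd h.symm hbj
    · exact h
  have getf : ∀ j, adj X v j → b ≠ j → adj X b j →
      ∃ e ∈ pt, X j = comb e (X v) (X b) ∧ (e = pT ∨ e = nT) := by
    intro j hj hbj hadj
    obtain ⟨e, he, hXe⟩ := get j hj hbj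
    refine ⟨e, he, hXe, nbf pt hpt e he ?_⟩
    have h2 : dt (X b) (X j) = 1 := hadj
    rw [hXe, dt_f_comb hf hvf] at h2
    have h3 : ((e.1 + 2 * e.2.1 : ℤ) : ℝ) = 27 := by linarith
    exact_mod_cast h3
  obtain ⟨ec, hec, hXc, hc⟩ := getf c hvc hbc' hbc
  obtain ⟨ed, hed, hXd, hd⟩ := getf d hvd hbd' hbd
  obtain ⟨ep, hep, hXp⟩ := get p hvp hbp'
  have hne : ec ≠ ed := by
    intro h; apply inj hX hcd'; rw [hXc, hXd, h]
  have hcpne : ep ≠ ec := by
    intro h; apply inj hX hcp'; rw [hXc, hXp, h]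
  have hdpne : ep ≠ ed := by
    intro h; apply inj hX hdp'; rw [hXd, hXp, h]
  have hcne : ip ep ec ≠ 729 := by
    intro h
    apply hcp
    show dt (X c) (X p) = 1
    rw [dt_comm, hXp, hXc, dt_comb hv hf hvf, h]
    norm_num
  have hdne : ip ep ed ≠ 729 := by
    intro h
    apply hdp
    show dt (X d) (X p) = 1
    rw [dt_comm, hXp, hXd, dt_comb hv hf hvf, h]
    norm_num
  have hPi : ep = pPi := by
    rcases hc with hc | hc <;> rcases hd with hd | hd
    · exact absurd (hc.trans hd.symm) hne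
    · rw [hc] at hec hcpne hcne
      rw [hd] at hed hdpne hdne
      rcases third pt hpt hec hed ep hep with h | h | h | h | h
      · exact absurd h hcpne
      · exact absurd h hdpne
      · exact h
      · exact absurd h hcne
      · exact absurd h hdne
    · rw [hc] at hec hcpne hcne
      rw [hd] at hed hdpne hdne
      rcases third pt hpt hed hec ep hep with h | h | h | h | h
      · exact absurd h hdpne
      · exact absurd h hcpne
      · exact h
      · exact absurd h hdne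
      · exact absurd h hcne
    · exact absurd (hc.trans hd.symm) hne
  rw [hXp, hPi]
  simp only [comb, pPi]
  ext <;> simp <;> ring

end MPgap
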