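import Pool.Agent.Work.MP_def58e_gap.Interface

/-!
# MP_def58e_co, gap theorem: block BC (helper9)

Counting the marks of a realised state: the vectors of the list with a given mark correspond to
different indices.
-/

namespace MPgap

open Finset

theorem stmt_BC (h1 : Stmt_TOR) : Stmt_BC := by
  intro X hX L hL q A hA
  classical
  have hinj := h1.1
  have hex : ∀ z : Z3 × ℕ, z ∈ L → ∃ i, X i = toR z.1 := fun z hz => by
    obtain ⟨i, hi, _⟩ := hL.mem z hz
    exact ⟨i, hi⟩
  choose! f hf using hex
  have hnd : (L.filter q).Pairwise (fun a b => a.1 ≠ b.1) := by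
    have h0 : L.Pairwise (fun a b => a.1 ≠ b.1) := List.pairwise_map.mp hL.nodup
    exact h0.sublist List.filter_sublist
  have h2 : ((L.filter q).map f).Nodup := by
    refine List.pairwise_map.mpr ?_
    refine hnd.imp_of_mem ?_
    intro a b ha hb hab he
    apply hab
    apply hinj
    rw [← hf a (List.mem_of_mem_filter ha), ← hf b (List.mem_of_mem_filter hb), he]
  have h3 : ((L.filter q).map f).toFinset ⊆ A := by
    intro i hi
    simp only [List.mem_toFinset, List.mem_map] at hi
    obtain ⟨z, hz, rfl⟩ := hi
    rw [List.mem_filter] at hz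
    exact hA z hz.1 hz.2 _ (hf z hz.1)
  calc (L.filter q).length = ((L.filter q).map f).length := by rw [List.length_map]
    _ = ((L.filter q).map f).toFinset.card := (List.toFinset_card_of_nodup h2).symm
    _ ≤ A.card := Finset.card_le_card h3

end MPgap
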