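import Pool.Agent.Work.MP_def58e_gap.Interface

/-!
# MP_def58e_co, gap theorem: block BR (bridge between lists and indices), helper11
-/

namespace MPgap.BR_

open Finset

theorem X_inj {X : Fin 11 → R3} (h : GapR X) : Function.Injective X := by
  intro i j hij
  by_contra hne
  have h1 := h.ips i j hne
  have h2 := h.nrm i
  rw [← hij, h2] at h1
  rcases h1 with h1 | h1 <;> norm_num at h1

open Classical in
/-- the index of a vector of a state -/
noncomputable def idx (X : Fin 11 → R3) (z : Z3 × ℕ) : Fin 11 :=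
  if h : ∃ i, X i = toR z.1 then h.choose else 0

theorem idx_eq {X : Fin 11 → R3} (h : GapR X) {z : Z3 × ℕ} {i : Fin 11} (hi : X i = toR z.1) :
    idx X z = i := by
  have he : ∃ i, X i = toR z.1 := ⟨i, hi⟩
  unfold idx
  rw [dif_pos he]
  exact X_inj h (he.choose_spec.trans hi.symm)

theorem idx_spec {X : Fin 11 → R3} {L : St} (hL : Inv X L) {z : Z3 × ℕ} (hz : z ∈ L) :
    X (idx X z) = toR z.1 := by
  obtain ⟨i, hi, -⟩ := hL.mem z hz
  have he : ∃ i, X i = toR z.1 := ⟨i, hi⟩
  unfold idx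
  rw [dif_pos he]
  exact he.choose_spec

theorem idx_inj (h1 : Stmt_TOR) {X : Fin 11 → R3} {L : St} (hL : Inv X L) {z y : Z3 × ℕ}
    (hz : z ∈ L) (hy : y ∈ L) (hzy : idx X z = idx X y) : z = y := by
  have h2 : toR z.1 = toR y.1 := by
    rw [← idx_spec hL hz, ← idx_spec hL hy, hzy]
  exact List.inj_on_of_nodup_map hL.nodup hz hy (h1.1 _ _ h2)

theorem mem_ix {X : Fin 11 → R3} {L : St} {i : Fin 11} :
    i ∈ ix X L ↔ ∃ z ∈ L, X i = toR z.1 := by
  unfold ix
  rw [mem_filter]
  exact ⟨fun h => h.2, fun h => ⟨mem_univ _, h⟩⟩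

theorem nodup_L {X : Fin 11 → R3} {L : St} (hL : Inv X L) : L.Nodup := hL.nodup.of_map

theorem nodup_map (h1 : Stmt_TOR) {X : Fin 11 → R3} {L : St} (hL : Inv X L)
    (q : Z3 × ℕ → Bool) : ((L.filter q).map (idx X)).Nodup := by
  apply List.Nodup.map_on
  · intro z hz y hy hzy
    exact idx_inj h1 hL (List.mem_of_mem_filter hz) (List.mem_of_mem_filter hy) hzy
  · exact (nodup_L hL).filter _

open Classical in
theorem toFinset_eq {X : Fin 11 → R3} (h : GapR X) {L : St}
    (hL : Inv X L) (q : Z3 × ℕ → Bool) (Q : Fin 11 → Prop)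
    (hq : ∀ z ∈ L, ∀ i, X i = toR z.1 → (q z = true ↔ Q i)) :
    ((L.filter q).map (idx X)).toFinset = (ix X L).filter Q := by
  ext i
  rw [List.mem_toFinset, List.mem_map, mem_filter, mem_ix]
  constructor
  · rintro ⟨z, hz, rfl⟩
    rw [List.mem_filter] at hz
    have h2 := idx_spec hL hz.1
    exact ⟨⟨z, hz.1, h2⟩, (hq z hz.1 _ h2).mp hz.2⟩
  · rintro ⟨⟨z, hz, hi⟩, hQ⟩
    refine ⟨z, ?_, idx_eq h hi⟩
    rw [List.mem_filter]
    exact ⟨hz, (hq z hz i hi).mpr hQ⟩

open Classical in
theorem filter_card (h1 : Stmt_TOR) {X : Fin 11 → R3} (h : GapR X) {L : St}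
    (hL : Inv X L) (q : Z3 × ℕ → Bool) (Q : Fin 11 → Prop)
    (hq : ∀ z ∈ L, ∀ i, X i = toR z.1 → (q z = true ↔ Q i)) :
    (L.filter q).length = ((ix X L).filter Q).card := by
  rw [← toFinset_eq h hL q Q hq, List.toFinset_card_of_nodup (nodup_map h1 hL q), List.length_map]

open Classical in
theorem filter_sum (h1 : Stmt_TOR) {X : Fin 11 → R3} (h : GapR X) {L : St}
    (hL : Inv X L) (q : Z3 × ℕ → Bool) (Q : Fin 11 → Prop)
    (hq : ∀ z ∈ L, ∀ i, X i = toR z.1 → (q z = true ↔ Q i)) (g : Z3 × ℕ → ℕ) (f : Fin 11 → ℕ)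
    (hg : ∀ z ∈ L, ∀ i, X i = toR z.1 → g z = f i) :
    ((L.filter q).map g).sum = ∑ i ∈ (ix X L).filter Q, f i := by
  rw [← toFinset_eq h hL q Q hq, List.sum_toFinset _ (nodup_map h1 hL q), List.map_map]
  congr 1
  apply List.map_congr_left
  intro z hz
  have hz' := List.mem_of_mem_filter hz
  exact hg z hz' _ (idx_spec hL hz')

theorem dt_comm (x y : R3) : dt x y = dt y x := by
  unfold dt; ring

theorem adj_symm {X : Fin 11 → R3} {i j : Fin 11} (h : adj X i j) : adj X j i := by
  unfold adj at h ⊢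
  rw [dt_comm]; exact h

open Classical in
theorem mem_nb {X : Fin 11 → R3} {i j : Fin 11} : j ∈ nb X i ↔ adj X i j := by
  unfold nb
  rw [mem_filter]
  exact ⟨fun h => h.2, fun h => ⟨mem_univ _, h⟩⟩

open Classical in
/-- ordered pairs are twice the unordered pairs -/
theorem ordered_pairs {X : Fin 11 → R3} (h : GapR X) (A : Finset (Fin 11)) :
    ∑ a ∈ A, (A.filter fun b => adj X a b).card = 2 * prs X A := by
  have hirr : ∀ a, ¬ adj X a a := by
    intro a ha
    unfold adj at ha
    rw [h.nrm a] at ha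
    norm_num at ha
  have h1 : ∑ a ∈ A, (A.filter fun b => adj X a b).card =
      ((A ×ˢ A).filter fun p => adj X p.1 p.2).card := by
    rw [card_filter, sum_product]
    apply sum_congr rfl
    intro a _
    rw [card_filter]
  have h2 : (A ×ˢ A).filter (fun p => adj X p.1 p.2) =
      ((A ×ˢ A).filter fun p => p.1 < p.2 ∧ adj X p.1 p.2) ∪
      ((A ×ˢ A).filter fun p => p.2 < p.1 ∧ adj X p.1 p.2) := by
    ext p
    simp only [mem_filter, mem_union, mem_product]
    constructor
    · rintro ⟨hp, ha⟩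
      rcases lt_trichotomy p.1 p.2 with hlt | heq | hgt
      · exact Or.inl ⟨hp, hlt, ha⟩
      · rw [heq] at ha
        exact absurd ha (hirr _)
      · exact Or.inr ⟨hp, hgt, ha⟩
    · rintro (⟨hp, -, ha⟩ | ⟨hp, -, ha⟩)
      · exact ⟨hp, ha⟩
      · exact ⟨hp, ha⟩
  have h3 : Disjoint ((A ×ˢ A).filter fun p => p.1 < p.2 ∧ adj X p.1 p.2)
      ((A ×ˢ A).filter fun p => p.2 < p.1 ∧ adj X p.1 p.2) := by
    rw [Finset.disjoint_left]
    intro p hp hp'
    rw [mem_filter] at hp hp'
    exact absurd hp.2.1 (not_lt.mpr hp'.2.1.le)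
  have h4 : ((A ×ˢ A).filter fun p => p.2 < p.1 ∧ adj X p.1 p.2).card =
      ((A ×ˢ A).filter fun p => p.1 < p.2 ∧ adj X p.1 p.2).card := by
    apply card_bij (fun p _ => (p.2, p.1))
    · intro p hp
      rw [mem_filter, mem_product] at hp ⊢
      exact ⟨⟨hp.1.2, hp.1.1⟩, hp.2.1, adj_symm hp.2.2⟩
    · intro p _ q _ hpq
      have h5 := congrArg Prod.fst hpq
      have h6 := congrArg Prod.snd hpq
      exact Prod.ext h6 h5
    · intro q hq
      rw [mem_filter, mem_product] at hq
      refine ⟨(q.2, q.1), ?_, rfl⟩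
      rw [mem_filter, mem_product]
      exact ⟨⟨hq.1.2, hq.1.1⟩, hq.2.1, adj_symm hq.2.2⟩
  rw [h1, h2, card_union_of_disjoint h3, h4]
  unfold prs
  ring

end MPgap.BR_

namespace MPgap

open Finset BR_

theorem stmt_BR (h1 : Stmt_TOR) : Stmt_BR := by
  classical
  intro X h L hL
  have hadz : ∀ z ∈ L, ∀ i, X i = toR z.1 → ∀ y ∈ L, ∀ j, X j = toR y.1 →
      (adz y.1 z.1 = true ↔ adj X i j) := by
    intro z _ i hi y _ j hj
    rw [h1.2.2.1, ← hi, ← hj, dt_comm]
    exact Iff.rfl
  have hnb : ∀ i, (ix X L).filter (fun j => adj X i j) = nb X i ∩ ix X L := by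
    intro i
    ext j
    rw [mem_filter, mem_inter, mem_nb]
    exact and_comm
  refine ⟨?_, fun i => mem_ix, ?_⟩
  · have h2 := filter_card h1 h hL (fun _ => true) (fun _ => True) (by intro z _ i _; simp)
    rw [List.filter_true, filter_true] at h2
    exact h2.symm
  · intro z hz i hi
    constructor
    · unfold dgz
      rw [filter_card h1 h hL (fun y => adz y.1 z.1) (fun j => adj X i j)
        (fun y hy j hj => hadz z hz i hi y hy j hj), hnb]
    · unfold tvz
      have h3 : ∀ y ∈ L, ∀ j, X j = toR y.1 →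
          (L.filter fun x => adz x.1 z.1 && adz x.1 y.1).length =
            ((nb X i ∩ ix X L).filter fun k => adj X j k).card := by
        intro y hy j hj
        rw [filter_card h1 h hL (fun x => adz x.1 z.1 && adz x.1 y.1)
          (fun k => adj X i k ∧ adj X j k)]
        · congr 1
          ext k
          simp only [mem_filter, mem_inter, mem_nb]
          tauto
        · intro x hx k hk
          rw [Bool.and_eq_true, hadz z hz i hi x hx k hk, hadz y hy j hj x hx k hk]
      have h4 := filter_sum h1 h hL (fun y => adz y.1 z.1) (fun j => adj X i j)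
        (fun y hy j hj => hadz z hz i hi y hy j hj)
        (fun y => (L.filter fun x => adz x.1 z.1 && adz x.1 y.1).length)
        (fun j => ((nb X i ∩ ix X L).filter fun k => adj X j k).card) h3
      rw [h4, hnb, ordered_pairs h]
      omega

end MPgap
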