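import Pool.Agent.Work.MP_def58e_gap.G_BR

namespace MPgap

open Finset BR_

theorem stmt_BS (h1 : Stmt_TOR) : Stmt_BS := by
  classical
  intro X h L hL g f
  have key : ∀ g' : Z3 × ℕ → ℕ, (∀ z ∈ L, ∀ i, X i = toR z.1 → g' z = f i) →
      (L.map g').sum = ∑ i ∈ ix X L, f i := by
    intro g' hg
    have h2 := filter_sum h1 h hL (fun _ => true) (fun _ => True) (by intro z _ i _; simp) g' f hg
    rw [List.filter_true, filter_true] at h2
    exact h2
  refine ⟨key g, ?_⟩
  intro hg
  rw [← key (fun z => f (idx X z)) (fun z _ i hi => by rw [idx_eq h hi])]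
  apply List.sum_le_sum
  intro z hz
  exact hg z hz _ (idx_spec hL hz)

end MPgap
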