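import Pool.Agent.Work.MP_def58e_gap.Interface

/-!
# MP_def58e_co, gap theorem: the classification (assembly), helper90
-/

namespace MPgap

theorem stmt_CLS (hC : Stmt_CASES) (hS : Stmt_START) (hR : Stmt_ROT) (hG : Stmt_GRAM)
    (hI : Stmt_INIT) (hE : Stmt_ENGINE) (hPA : Stmt_PRA) (hPB : Stmt_PRB) (hLA : Stmt_LFA)
    (hLB : Stmt_LFB) (hRA : Stmt_RUNA) (hRB : Stmt_RUNB) (hT : Stmt_TAB) : Stmt_CLS := by
  intro X hX
  have hc := hC X hX
  obtain ⟨v, f, g, dv, df, dgg, avf, avg, hfg⟩ := hS X hc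
  obtain ⟨X', hG', hv, hf⟩ := hR X hX.gap v f avf
  obtain ⟨gg, ga, gd, -, gA, gB⟩ := hG X X' hG'
  have gX' := gg hX.gap
  obtain ⟨pt, hpt, k, hk, L, hL, hInv⟩ := hI X' gX' v f g hv hf ((ga v f).2 avf) ((ga v g).2 avg)
    hfg (by rw [gd]; exact dv) (by rw [gd]; exact df) (by rw [gd]; exact dgg)
  rcases hc with hA | hB
  · have h1 := hRA pt hpt k hk
    unfold runA at h1
    rw [hL] at h1
    obtain ⟨M, hM, h2⟩ := hE X' gX' prA (lfA tab) (∃ M ∈ tab, ∀ i, ∃ v ∈ M, X' i = toR v)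
      (hPA X' (gA hA)) (hLA X' (gA hA)) 12 L hInv h1
    obtain ⟨k', hk', p, hp, h3⟩ := hT X' gX' M hM h2
    exact ⟨k', hk', p, hp, fun i j => by rw [← hG', h3]⟩
  · have h1 := hRB pt hpt k hk
    unfold runB at h1
    rw [hL] at h1
    exact (hE X' gX' prB lfB False (hPB X' (gB hB)) (hLB X' (gB hB)) 12 L hInv h1).elim

end MPgap
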