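import Pool.Agent.Work.MP_def58e_gap.Interface

/-!
# MP_def58e_co, gap theorem: block CNT (double counting of the edges relative to a set)
-/

namespace MPgap

open Finset

namespace CNT_

theorem adj_symm {X : Fin 11 → R3} {i j : Fin 11} (h : adj X i j) : adj X j i := by
  unfold adj dt at *
  rw [← h]
  ring

theorem mem_nb {X : Fin 11 → R3} {i j : Fin 11} : j ∈ nb X i ↔ adj X i j := by
  classical
  unfold nb
  exact ⟨fun h => (Finset.mem_filter.1 h).2, fun h => Finset.mem_filter.2 ⟨Finset.mem_univ _, h⟩⟩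

theorem not_adj_self {X : Fin 11 → R3} (hX : GapR X) (i : Fin 11) : ¬ adj X i i := by
  unfold adj
  rw [hX.nrm i]
  norm_num

/-- double counting of the edges between a set and its complement -/
theorem swap (X : Fin 11 → R3) (F : Finset (Fin 11)) :
    ∑ v ∈ F, (nb X v \ F).card = ∑ u ∈ Fᶜ, (nb X u ∩ F).card := by
  classical
  have h1 : ∀ v, (nb X v \ F).card = ∑ u ∈ Fᶜ, if adj X v u then 1 else 0 := by
    intro v
    rw [← Finset.sum_filter, Finset.sum_const, smul_eq_mul, mul_one]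
    congr 1
    ext u
    rw [Finset.mem_sdiff, mem_nb, Finset.mem_filter, Finset.mem_compl]
    exact and_comm
  have h2 : ∀ u, (nb X u ∩ F).card = ∑ v ∈ F, if adj X v u then 1 else 0 := by
    intro u
    rw [← Finset.sum_filter, Finset.sum_const, smul_eq_mul, mul_one]
    congr 1
    ext v
    rw [Finset.mem_inter, mem_nb, Finset.mem_filter]
    exact ⟨fun h => ⟨h.2, adj_symm h.1⟩, fun h => ⟨adj_symm h.2, h.1⟩⟩
  rw [Finset.sum_congr rfl fun v _ => h1 v, Finset.sum_congr rfl fun u _ => h2 u,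
    Finset.sum_comm]

/-- the handshake inside of a set -/
theorem inside {X : Fin 11 → R3} (hX : GapR X) (Q : Finset (Fin 11)) :
    ∑ v ∈ Q, (nb X v ∩ Q).card = 2 * prs X Q := by
  classical
  have h0 : ∑ v ∈ Q, (nb X v ∩ Q).card = ((Q ×ˢ Q).filter fun p => adj X p.1 p.2).card := by
    rw [Finset.card_filter, Finset.sum_product]
    refine Finset.sum_congr rfl fun v _ => ?_
    rw [← Finset.sum_filter, Finset.sum_const, smul_eq_mul, mul_one]
    congr 1
    ext u
    rw [Finset.mem_inter, mem_nb, Finset.mem_filter]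
    exact and_comm
  have h1 : ((Q ×ˢ Q).filter fun p => adj X p.1 p.2) =
      ((Q ×ˢ Q).filter fun p => p.1 < p.2 ∧ adj X p.1 p.2) ∪
      ((Q ×ˢ Q).filter fun p => p.2 < p.1 ∧ adj X p.1 p.2) := by
    ext ⟨a, b⟩
    simp only [Finset.mem_filter, Finset.mem_union, Finset.mem_product]
    constructor
    · rintro ⟨h, h'⟩
      rcases lt_trichotomy a b with h2 | h2 | h2
      · exact Or.inl ⟨h, h2, h'⟩
      · exact absurd (h2 ▸ h') (not_adj_self hX _)
      · exact Or.inr ⟨h, h2, h'⟩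
    · rintro (⟨h, _, h'⟩ | ⟨h, _, h'⟩)
      · exact ⟨h, h'⟩
      · exact ⟨h, h'⟩
  have h2 : Disjoint ((Q ×ˢ Q).filter fun p => p.1 < p.2 ∧ adj X p.1 p.2)
      ((Q ×ˢ Q).filter fun p => p.2 < p.1 ∧ adj X p.1 p.2) := by
    rw [Finset.disjoint_left]
    rintro p h3 h4
    rw [Finset.mem_filter] at h3 h4
    exact absurd h3.2.1 (not_lt.2 h4.2.1.le)
  have h3 : ((Q ×ˢ Q).filter fun p => p.2 < p.1 ∧ adj X p.1 p.2).card =
      ((Q ×ˢ Q).filter fun p => p.1 < p.2 ∧ adj X p.1 p.2).card := by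
    refine Finset.card_bij (fun p _ => p.swap) ?_ ?_ ?_
    · rintro ⟨a, b⟩ h
      simp only [Finset.mem_filter, Finset.mem_product, Prod.swap] at h ⊢
      exact ⟨⟨h.1.2, h.1.1⟩, h.2.1, adj_symm h.2.2⟩
    · rintro p _ q _ h
      exact Prod.swap_injective h
    · rintro ⟨a, b⟩ h
      refine ⟨(b, a), ?_, rfl⟩
      simp only [Finset.mem_filter, Finset.mem_product] at h ⊢
      exact ⟨⟨h.1.2, h.1.1⟩, h.2.1, adj_symm h.2.2⟩
  have h4 : prs X Q = ((Q ×ˢ Q).filter fun p => p.1 < p.2 ∧ adj X p.1 p.2).card := rfl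
  rw [h0, h1, Finset.card_union_of_disjoint h2, h3, h4]
  ring

end CNT_

theorem stmt_CNT : Stmt_CNT := by
  intro X hX P
  classical
  have h1 : ∀ Q : Finset (Fin 11), ∑ v ∈ Q, dg X v =
      ∑ v ∈ Q, (nb X v ∩ P).card + ∑ v ∈ Q, (nb X v \ P).card := by
    intro Q
    rw [← Finset.sum_add_distrib]
    exact Finset.sum_congr rfl fun v _ => (Finset.card_inter_add_card_sdiff _ _).symm
  have h6 : sD X = ∑ v ∈ P, dg X v + ∑ u ∈ Pᶜ, dg X u := by
    unfold sD
    exact (Finset.sum_add_sum_compl P _).symm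
  have h7 := CNT_.swap X P
  have h8 := CNT_.inside hX Pᶜ
  have h9 : ∑ v ∈ Pᶜ, (nb X v \ P).card = ∑ v ∈ Pᶜ, (nb X v ∩ Pᶜ).card := by
    refine Finset.sum_congr rfl fun v _ => ?_
    congr 1
    ext u
    rw [Finset.mem_sdiff, Finset.mem_inter, Finset.mem_compl]
  have h10 := h1 P
  have h11 := h1 Pᶜ
  omega

end MPgap
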