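import Pool.Agent.Work.MP_def58e_gap.Interface

/-! MP_def58e_co, gap theorem, block DEG4 (helper50): degrees at most 4. -/

set_option autoImplicit false

namespace MPgap

open Finset

theorem stmt_DEG4 (h1 : Stmt_PL5) (h2 : Stmt_NBC) (h3 : Stmt_NBD) : Stmt_DEG4 := by
  intro X hX v
  by_contra hcon
  push Not at hcon
  have hc : 5 ≤ (nb X v).card := hcon
  obtain ⟨f, hf⟩ : (nb X v).Nonempty := Finset.card_pos.1 (by omega)
  have hadj : ∀ j ∈ nb X v, dt (X v) (X j) = 1 := fun j hj => by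
    simp only [nb, Finset.mem_filter] at hj
    exact hj.2
  have hc' : 4 ≤ ((nb X v).erase f).card := by
    rw [Finset.card_erase_of_mem hf]; omega
  obtain ⟨s, hs, hs4⟩ := Finset.exists_subset_card_eq hc'
  let g : Fin 4 ↪o Fin 11 := s.orderEmbOfFin hs4
  have hg : ∀ i, g i ∈ (nb X v).erase f := fun i => hs (Finset.orderEmbOfFin_mem s hs4 i)
  have hgf : ∀ i, g i ≠ f := fun i => (Finset.mem_erase.1 (hg i)).1
  have hgv : ∀ i, dt (X v) (X (g i)) = 1 := fun i => hadj _ (Finset.mem_erase.1 (hg i)).2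
  have hvf : dt (X v) (X f) = 1 := hadj f hf
  refine h1 (fun i => ((2 * dt (X f) (X (g i)) - 1) / 3, dt (X (g i)) (crs (X v) (X f)) / 3))
    (fun i => ?_) (fun i => ?_) (fun i j hij => ?_)
  · obtain ⟨p, hp, hpp, -⟩ := h2 (X v) (X f) (X (g i)) (hX.nrm v) (hX.nrm f) hvf (hX.nrm _) (hgv i)
    rw [hp] at hpp
    exact hpp
  · rcases hX.ips f (g i) (Ne.symm (hgf i)) with h | h
    · left; rw [h]; norm_num
    · right
      show (2 * dt (X f) (X (g i)) - 1) / 3 ≤ -1 / 3
      linarith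
  · have h := h3 (X v) (X f) (X (g i)) (X (g j)) (hX.nrm v) (hX.nrm f) hvf (hgv i) (hgv j)
    rcases hX.ips (g i) (g j) (fun he => hij (g.injective he)) with h' | h'
    · left; linarith
    · right; linarith

end MPgap
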