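import Pool.Agent.Work.MP_def58e_gap.Interface

/-! EM: at most `emax m` edges among `m ≤ 5` vertices (helper11) -/

namespace MPgap

open Finset

namespace EM_

open Classical in
/-- indicator of adjacency -/
noncomputable def d (X : Fin 11 → R3) (v w : Fin 11) : ℕ := if adj X v w then 1 else 0

/-- sum of the degrees inside a set -/
noncomputable def E (X : Fin 11 → R3) (A : Finset (Fin 11)) : ℕ := ∑ v ∈ A, ∑ w ∈ A, d X v w

theorem adj_symm {X : Fin 11 → R3} {i j : Fin 11} (h : adj X i j) : adj X j i := by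
  unfold adj at *
  have h2 : dt (X j) (X i) = dt (X i) (X j) := by unfold dt; ring
  rw [h2]; exact h

theorem d_symm (X : Fin 11 → R3) (i j : Fin 11) : d X i j = d X j i := by
  unfold d
  by_cases h : adj X i j
  · rw [if_pos h, if_pos (adj_symm h)]
  · rw [if_neg h, if_neg fun h2 => h (adj_symm h2)]

theorem d_self {X : Fin 11 → R3} (hX : GapR X) (i : Fin 11) : d X i i = 0 := by
  unfold d
  rw [if_neg]
  intro h
  unfold adj at h
  rw [hX.nrm] at h
  norm_num at h

theorem d_le (X : Fin 11 → R3) (i j : Fin 11) : d X i j ≤ 1 := by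
  unfold d
  split_ifs <;> omega

theorem adj_of_d {X : Fin 11 → R3} {i j : Fin 11} (h : 1 ≤ d X i j) : adj X i j := by
  unfold d at h
  by_contra hc
  rw [if_neg hc] at h
  omega

theorem prs_eq (X : Fin 11 → R3) (A : Finset (Fin 11)) :
    prs X A = ∑ v ∈ A, ∑ w ∈ A, if v < w then d X v w else 0 := by
  unfold prs
  rw [card_filter, sum_product]
  refine sum_congr rfl fun v _ => sum_congr rfl fun w _ => ?_
  unfold d
  by_cases h1 : v < w
  · by_cases h2 : adj X v w
    · rw [if_pos ⟨h1, h2⟩, if_pos h1, if_pos h2]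
    · rw [if_neg fun h => h2 h.2, if_pos h1, if_neg h2]
  · rw [if_neg fun h => h1 h.1, if_neg h1]

theorem E_eq {X : Fin 11 → R3} (hX : GapR X) (A : Finset (Fin 11)) : E X A = 2 * prs X A := by
  have h1 : E X A = (∑ v ∈ A, ∑ w ∈ A, if v < w then d X v w else 0)
      + ∑ v ∈ A, ∑ w ∈ A, if w < v then d X v w else 0 := by
    unfold E
    rw [← sum_add_distrib]
    refine sum_congr rfl fun v _ => ?_
    rw [← sum_add_distrib]
    refine sum_congr rfl fun w _ => ?_
    rcases lt_trichotomy v w with h | h | h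
    · rw [if_pos h, if_neg (not_lt.2 h.le), add_zero]
    · subst h
      rw [if_neg (lt_irrefl v), d_self hX]
    · rw [if_neg (not_lt.2 h.le), if_pos h, zero_add]
  have h2 : (∑ v ∈ A, ∑ w ∈ A, if w < v then d X v w else 0)
      = ∑ v ∈ A, ∑ w ∈ A, if v < w then d X v w else 0 := by
    rw [sum_comm]
    refine sum_congr rfl fun v _ => sum_congr rfl fun w _ => ?_
    rw [d_symm X w v]
  rw [h1, h2, prs_eq]
  omega

theorem row_le {X : Fin 11 → R3} (hX : GapR X) {A : Finset (Fin 11)} {v : Fin 11} (hv : v ∈ A) :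
    ∑ w ∈ A, d X v w ≤ A.card - 1 := by
  rw [← add_sum_erase A (fun w => d X v w) hv, d_self hX, zero_add, ← card_erase_of_mem hv]
  calc ∑ w ∈ A.erase v, d X v w ≤ ∑ _w ∈ A.erase v, 1 := sum_le_sum fun w _ => d_le X v w
    _ = _ := by simp

theorem row_full {X : Fin 11 → R3} (hX : GapR X) {A : Finset (Fin 11)} {v : Fin 11} (hv : v ∈ A)
    (h : A.card - 1 ≤ ∑ w ∈ A, d X v w) : ∀ w ∈ A, w ≠ v → adj X v w := by
  intro w hw hwv
  by_contra hc
  have h0 : d X v w = 0 := by
    unfold d
    rw [if_neg hc]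
  have hwe : w ∈ A.erase v := mem_erase.2 ⟨hwv, hw⟩
  rw [← add_sum_erase A (fun w => d X v w) hv, d_self hX, zero_add,
    ← add_sum_erase (A.erase v) (fun w => d X v w) hwe, h0, zero_add] at h
  have h1 : ∑ x ∈ (A.erase v).erase w, d X v x ≤ ((A.erase v).erase w).card := by
    calc ∑ x ∈ (A.erase v).erase w, d X v x ≤ ∑ _x ∈ (A.erase v).erase w, 1 :=
          sum_le_sum fun x _ => d_le X v x
      _ = _ := by simp
  rw [card_erase_of_mem hwe] at h1
  have h2 : 0 < (A.erase v).card := card_pos.2 ⟨w, hwe⟩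
  have h3 : (A.erase v).card = A.card - 1 := card_erase_of_mem hv
  omega

theorem E_erase {X : Fin 11 → R3} (hX : GapR X) {A : Finset (Fin 11)} {v : Fin 11} (hv : v ∈ A) :
    E X A = E X (A.erase v) + 2 * ∑ w ∈ A, d X v w := by
  unfold E
  rw [← add_sum_erase A (fun u => ∑ w ∈ A, d X u w) hv]
  have h1 : ∀ u ∈ A.erase v, ∑ w ∈ A, d X u w = d X v u + ∑ w ∈ A.erase v, d X u w := by
    intro u _
    rw [← add_sum_erase A (fun w => d X u w) hv, d_symm X u v]
  rw [sum_congr rfl h1, sum_add_distrib]
  have h2 : ∑ w ∈ A, d X v w = ∑ w ∈ A.erase v, d X v w := by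
    rw [← add_sum_erase A (fun w => d X v w) hv, d_self hX, zero_add]
  rw [h2]
  omega

theorem E_le {X : Fin 11 → R3} {A : Finset (Fin 11)} {k : ℕ}
    (h : ∀ v ∈ A, ∑ w ∈ A, d X v w ≤ k) : E X A ≤ A.card * k := by
  unfold E
  calc ∑ v ∈ A, ∑ w ∈ A, d X v w ≤ ∑ _v ∈ A, k := sum_le_sum h
    _ = A.card * k := by rw [sum_const, smul_eq_mul]

theorem four {X : Fin 11 → R3} (hX : GapR X) (h1 : Stmt_K4) {A : Finset (Fin 11)}
    (hA : A.card = 4) : prs X A ≤ 5 := by
  by_contra hc
  have hE := E_eq hX A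
  have hrow : ∀ v ∈ A, 3 ≤ ∑ w ∈ A, d X v w := by
    intro v hv
    by_contra h3
    have h4 := E_erase hX hv
    have h5 : E X (A.erase v) ≤ (A.erase v).card * 2 := by
      refine E_le fun u hu => ?_
      have := row_le hX hu
      rw [card_erase_of_mem hv, hA] at this
      exact this
    rw [card_erase_of_mem hv, hA] at h5
    omega
  have hadj : ∀ v ∈ A, ∀ w ∈ A, w ≠ v → adj X v w := fun v hv =>
    row_full hX hv (by rw [hA]; exact hrow v hv)
  obtain ⟨a, B, haB, hB, hBc⟩ := card_eq_succ.1 hA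
  obtain ⟨b, c, e, hbc, hbe, hce, hBe⟩ := card_eq_three.1 hBc
  subst hBe
  have ha : a ∈ A := by rw [← hB]; exact mem_insert_self _ _
  have hb : b ∈ A := by rw [← hB]; simp
  have hc' : c ∈ A := by rw [← hB]; simp
  have he : e ∈ A := by rw [← hB]; simp
  simp only [mem_insert, mem_singleton, not_or] at haB
  exact h1 X hX a b c e (hadj a ha b hb (Ne.symm haB.1)) (hadj a ha c hc' (Ne.symm haB.2.1))
    (hadj a ha e he (Ne.symm haB.2.2)) (hadj b hb c hc' (Ne.symm hbc))
    (hadj b hb e he (Ne.symm hbe)) (hadj c hc' e he (Ne.symm hce))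

end EM_

open EM_ in
theorem stmt_EM (h1 : Stmt_K4) (h2 : Stmt_TV3) (h3 : Stmt_DEG4) : Stmt_EM := by
  intro X hX A hA
  have hE := E_eq hX A
  rcases Nat.lt_or_ge A.card 4 with h | h
  · have h5 := E_le (X := X) (A := A) (k := A.card - 1) fun v hv => row_le hX hv
    interval_cases hm : A.card
    · simp only [emax]; omega
    · simp only [emax]; omega
    · simp only [emax]; omega
    · simp only [emax]; omega
  · rcases Nat.lt_or_ge A.card 5 with h4 | h4
    · have hm : A.card = 4 := by omega
      rw [hm]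
      exact four hX h1 hm
    · have hm : A.card = 5 := by omega
      rw [hm]
      show prs X A ≤ 7
      by_contra hc
      have hex : ∃ v ∈ A, 4 ≤ ∑ w ∈ A, d X v w := by
        by_contra hno
        have h6 : E X A ≤ A.card * 3 := by
          refine E_le fun v hv => ?_
          by_contra h7
          exact hno ⟨v, hv, by omega⟩
        rw [hm] at h6
        omega
      obtain ⟨v, hv, hv4⟩ := hex
      have hadj := row_full hX hv (by rw [hm]; exact hv4)
      have hle := row_le hX hv
      rw [hm] at hle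
      have hEe := E_erase hX hv
      have hsub : A.erase v ⊆ nb X v := by
        intro w hw
        rw [mem_erase] at hw
        classical
        unfold nb
        rw [mem_filter]
        exact ⟨mem_univ _, hadj w hw.2 hw.1⟩
      have hcard : (A.erase v).card = 4 := by rw [card_erase_of_mem hv, hm]
      have hdg : (nb X v).card ≤ 4 := h3 X hX v
      have heq : A.erase v = nb X v := eq_of_subset_of_card_le hsub (by rw [hcard]; exact hdg)
      have hdg4 : dg X v = 4 := by
        unfold dg
        rw [← heq, hcard]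
      have htv := h2 X hX v hdg4
      have htv2 : tv X v = prs X (A.erase v) := by
        unfold tv
        rw [heq]
      have hE2 := E_eq hX (A.erase v)
      omega

end MPgap
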