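import Pool.Agent.Work.MP_def58e_gap.Interface

/-!
# MP_def58e_co, gap theorem: block ENGINE (helper68)
-/

namespace MPgap

theorem ENGINE_.dt_comm (x y : R3) : dt x y = dt y x := by
  simp only [dt]
  ring

theorem stmt_ENGINE (h1 : Stmt_TOR) (h2 : Stmt_STAR) (h3 : Stmt_DEG4) (h4 : Stmt_GEN)
    (h5 : Stmt_STEP) (h6 : Stmt_SETM) (h7 : Stmt_PICK) : Stmt_ENGINE := by
  intro X hX pr lf C hpr hlf n
  induction n with
  | zero =>
    intro L _ h
    simp [chk] at h
  | succ k ih =>
    intro L hL h
    unfold chk at h
    rw [Bool.or_eq_true] at h
    rcases h with h | h
    · exact (hpr L hL h).elim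
    · rcases hp : pick L with _ | ⟨s, v, f, mk⟩
      · rw [hp] at h
        exact hlf L hL h
      · rw [hp] at h
        simp only [Bool.and_eq_true, Bool.or_eq_true, List.all_eq_true, beq_iff_eq] at h
        obtain ⟨hall, hmk⟩ := h
        obtain ⟨hmk03, hvL, z, hzL, hzf, hadz⟩ := h7 L s v f mk hp
        obtain ⟨i, hi, hi1, hi2, hi3⟩ := hL.mem _ hvL
        obtain ⟨j, hj, _⟩ := hL.mem _ hzL
        simp only at hi hi1 hi2 hi3
        rw [hzf] at hj
        have hadj : adj X i j := by
          have := (h1.2.2.1 f v).1 hadz
          unfold adj
          rw [hi, hj, ENGINE_.dt_comm]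
          exact this
        rcases Nat.lt_or_ge (dg X i) 4 with hd | hd
        · have hne : mk ≠ 3 := by
            intro h33
            have := hi3 h33
            omega
          have hc : chk pr lf k (setMark L v 2) = true := by
            rcases hmk with hmk | hmk
            · exact (hne hmk).elim
            · exact hmk
          exact ih _ (h6 X hX L v i hL hi (by omega)) hc
        · have hd4 : dg X i = 4 := le_antisymm (h3 X hX i) hd
          obtain ⟨pt, hpt, hpt1, hpt2⟩ := h2 X hX i j hadj hd4
          have hc := hall pt hpt
          rcases hg : gen v f pt with _ | gs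
          · rw [hg] at hc
            exact absurd hc (by simp)
          · rw [hg] at hc
            simp only at hc
            have hgs := h4 v f pt gs hg
            rw [← hi, ← hj] at hgs
            obtain ⟨L', hL', hInv⟩ := h5 X hX L v f gs i j hL ⟨_, hvL, rfl⟩ ⟨z, hzL, hzf⟩ hi hj
              hadj hd4
              (by
                intro g hg'
                have hm : toR g ∈ gs.map toR := List.mem_map_of_mem hg'
                rw [hgs, List.mem_map] at hm
                obtain ⟨e, he, he'⟩ := hm
                obtain ⟨m, hm⟩ := hpt1 e he
                exact ⟨m, by rw [hm, he']⟩)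
              (by
                intro m hm
                rcases hpt2 m hm with h | ⟨e, he, he'⟩
                · exact Or.inl h
                · right
                  have hm2 : X m ∈ pt.map fun e => comb e (X i) (X j) := by
                    rw [he']
                    exact List.mem_map_of_mem (f := fun e => comb e (X i) (X j)) he
                  rw [← hgs, List.mem_map] at hm2
                  obtain ⟨g, hg1, hg2⟩ := hm2
                  exact ⟨g, hg1, hg2.symm⟩)
            rw [hL'] at hc
            exact ih _ hInv hc

end MPgap
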