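import Pool.Agent.Work.MP_def58e_gap.Interface

/-! EVEN: handshake lemma. helper2 -/

namespace MPgap

open Finset

theorem stmt_EVEN : Stmt_EVEN := by
  intro X hX
  classical
  let G : SimpleGraph (Fin 11) :=
    { Adj := adj X
      symm := ⟨fun i j h => by
        unfold adj at *
        have h2 : dt (X j) (X i) = dt (X i) (X j) := by unfold dt; ring
        rw [h2]; exact h⟩
      loopless := ⟨fun i h => by
        unfold adj at h
        rw [hX.nrm] at h
        norm_num at h⟩ }
  have h1 : ∀ i, dg X i = G.degree i := by
    intro i
    unfold dg nb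
    rw [← SimpleGraph.card_neighborFinset_eq_degree]
    congr 1
    ext j
    simp [G]
  unfold sD
  rw [Finset.sum_congr rfl fun i _ => h1 i, SimpleGraph.sum_degrees_eq_twice_card_edges]
  exact even_two_mul _

end MPgap
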