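import Pool.Agent.Work.MP_def58e_gap.Interface

/-! MP_def58e_co, gap theorem, block FULL (helper50). -/

set_option autoImplicit false

namespace MPgap

open Finset

theorem stmt_FULL (h1 : Stmt_DEG4) : Stmt_FULL := by
  intro X hX
  have h2 : sD X ≤ ∑ i : Fin 11, (3 + if dg X i = 4 then 1 else 0) := by
    refine Finset.sum_le_sum fun i _ => ?_
    have := h1 X hX i
    split_ifs with h
    · omega
    · omega
  rw [Finset.sum_add_distrib, ← Finset.card_filter] at h2
  simpa using h2

end MPgap
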