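import Pool.Agent.Work.MP_def58e_gap.Interface

/-! Block GEN of the gap theorem (MP_def58e_co). helper6 -/

namespace MPgap

theorem GEN_.aux (x : ℤ) (h : x % (27 * SC) = 0) :
    ((x / (27 * SC) : ℤ) : ℝ) / (SC : ℝ) = (x : ℝ) / (27 * (SC : ℝ) * SC) := by
  have hS : (SC : ℝ) ≠ 0 := by norm_num [SC]
  have h1 : x = 27 * SC * (x / (27 * SC)) := by
    have := Int.emod_add_mul_ediv x (27 * SC)
    rw [h] at this
    linarith
  have h2 : (x : ℝ) = 27 * (SC : ℝ) * ((x / (27 * SC) : ℤ) : ℝ) := by
    exact_mod_cast h1
  rw [h2]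
  field_simp

theorem GEN_.comb (e v f g : Z3) (h : combZ e v f = some g) :
    toR g = comb e (toR v) (toR f) := by
  have hS : (SC : ℝ) ≠ 0 := by norm_num [SC]
  unfold combZ at h
  simp only at h
  split_ifs at h with hc
  simp only [Bool.and_eq_true, beq_iff_eq] at hc
  obtain ⟨⟨hx, hy⟩, hz⟩ := hc
  simp only [Option.some.injEq] at h
  rw [← h]
  refine Prod.ext ?_ (Prod.ext ?_ ?_)
  · simp only [toR, MPgap.comb, crs]
    rw [GEN_.aux _ hx]
    push_cast
    field_simp
  · simp only [toR, MPgap.comb, crs]
    rw [GEN_.aux _ hy]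
    push_cast
    field_simp
  · simp only [toR, MPgap.comb, crs]
    rw [GEN_.aux _ hz]
    push_cast
    field_simp

theorem stmt_GEN : Stmt_GEN := by
  intro v f pt
  induction pt with
  | nil =>
    intro gs h
    simp only [gen, Option.some.injEq] at h
    rw [← h]
    rfl
  | cons e l ih =>
    intro gs h
    unfold gen at h
    split at h
    · exact absurd h (by simp)
    · rename_i g hg
      split at h
      · exact absurd h (by simp)
      · rename_i gs' hgs
        simp only [Option.some.injEq] at h
        rw [← h, List.map_cons, List.map_cons, ih gs' hgs, GEN_.comb e v f g hg]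

end MPgap
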