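import Pool.Agent.Work.MP_def58e_gap.Interface

/-!
# MP_def58e_co, gap theorem, block GRAM (helper55): everything depends only on the inner products
-/

namespace MPgap

open Finset

theorem stmt_GRAM : Stmt_GRAM := by
  intro X X' h
  have hadj : ∀ i j, adj X' i j ↔ adj X i j := fun i j => by unfold adj; rw [h i j]
  have hgap : GapR X → GapR X' := fun g =>
    ⟨fun i => by rw [h i i]; exact g.nrm i, fun i j hij => by rw [h i j]; exact g.ips i j hij⟩
  have hnb : ∀ i, nb X' i = nb X i := fun i => by
    ext j
    simp only [nb, mem_filter, mem_univ, true_and]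
    exact hadj i j
  have hdg : ∀ i, dg X' i = dg X i := fun i => by unfold dg; rw [hnb i]
  have hprs : ∀ A, prs X' A = prs X A := fun A => by
    unfold prs
    congr 1
    ext p
    simp only [mem_filter, hadj]
  have htv : ∀ i, tv X' i = tv X i := fun i => by unfold tv; rw [hnb i, hprs]
  have hsD : sD X' = sD X := by unfold sD; exact Finset.sum_congr rfl fun i _ => hdg i
  have hsT : sT X' = sT X := by unfold sT; exact Finset.sum_congr rfl fun i _ => htv i
  refine ⟨hgap, hadj, hdg, htv, ?_, ?_⟩
  · rintro ⟨g, hc⟩
    exact ⟨hgap g, by rw [hsD]; exact hc⟩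
  · rintro ⟨g, hc, ht⟩
    exact ⟨hgap g, by rw [hsD]; exact hc, by rw [hsT]; exact ht⟩

end MPgap
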