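import Pool.Agent.Work.MP_def58e_gap.Interface

/-!
# MP_def58e_co, gap theorem: block INIT (the start states)
-/

namespace MPgap

open Finset

namespace INIT_

/-- the check for one pattern -/
def ck (pt : List Z3) : Bool :=
  match gen a0 f0 pt with
  | none => false
  | some gs => gs.length == 3 && decide ((a0 :: f0 :: gs).Nodup)

theorem ck_all : (pats.all ck) = true := by decide +kernel

theorem len3 : ∀ pt ∈ pats, pt.length = 3 := by decide +kernel

theorem ck_spec {pt : List Z3} (h : ck pt = true) :
    ∃ gs, gen a0 f0 pt = some gs ∧ gs.length = 3 ∧ (a0 :: f0 :: gs).Nodup := by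
  unfold ck at h
  cases hg : gen a0 f0 pt with
  | none => rw [hg] at h; exact absurd h (by simp)
  | some gs =>
    rw [hg] at h
    simp only [Bool.and_eq_true, beq_iff_eq, decide_eq_true_eq] at h
    exact ⟨gs, rfl, h.1, h.2⟩

end INIT_

theorem stmt_INIT (h1 : Stmt_STAR) (h2 : Stmt_TOR) (h3 : Stmt_GEN) : Stmt_INIT := by
  intro X hX v f g hv hf hvf hvg hfg dv df dg'
  obtain ⟨pt, hpt, hp1, hp2⟩ := h1 X hX v f hvf dv
  obtain ⟨gs, hgs, hlen, hnd⟩ := INIT_.ck_spec (List.all_eq_true.mp INIT_.ck_all pt hpt)
  have hmap := h3 a0 f0 pt gs hgs
  rw [← hv, ← hf] at hmap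
  have hptl := INIT_.len3 pt hpt
  -- the k-th entries
  have hget : ∀ k (hk : k < 3), toR (gs[k]'(by omega)) = comb (pt[k]'(by omega)) (X v) (X f) := by
    intro k hk
    have := congrArg (fun l => l[k]?) hmap
    simp only [List.getElem?_map] at this
    rw [List.getElem?_eq_getElem (by omega), List.getElem?_eq_getElem (by omega)] at this
    simpa using this
  -- the index of g
  obtain ⟨e, he, hge⟩ : ∃ e ∈ pt, X g = comb e (X v) (X f) := by
    rcases hp2 g hvg with h | h
    · exact absurd h.symm hfg
    · exact h
  obtain ⟨k, hk, hke⟩ := List.getElem_of_mem he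
  have hk3 : k < 3 := by omega
  refine ⟨pt, hpt, k, hk3,
    (a0, 1) :: (f0, 3) :: (gs.mapIdx fun i g => (g, if i == k then 3 else 0)), ?_, ?_⟩
  · unfold start
    rw [hgs]
  · refine ⟨?_, ?_⟩
    · have : (((a0, 1) :: (f0, 3) :: (gs.mapIdx fun i g => (g, if i == k then 3 else 0)) : St).map
          Prod.fst) = a0 :: f0 :: gs := by
        have h4 : (gs.mapIdx fun i g => (g, if i == k then 3 else 0)).map Prod.fst = gs := by
          apply List.ext_getElem
          · simp
          · intro i h1 h2
            simp
        rw [List.map_cons, List.map_cons, h4]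
      rw [this]
      exact hnd
    · intro z hz
      simp only [List.mem_cons] at hz
      rcases hz with rfl | rfl | hz
      · refine ⟨v, hv, ?_, ?_, ?_⟩
        · intro _
          refine ⟨dv, ?_⟩
          intro j hj
          rcases hp2 j hj with rfl | ⟨e', he', hje⟩
          · exact ⟨(f0, 3), by simp, hf⟩
          · obtain ⟨l, hl, hle⟩ := List.getElem_of_mem he'
            have hl3 : l < 3 := by omega
            refine ⟨(gs[l]'(by omega), if l == k then 3 else 0), ?_, ?_⟩
            · refine List.mem_cons_of_mem _ (List.mem_cons_of_mem _ ?_)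
              rw [List.mem_mapIdx]
              exact ⟨l, by omega, rfl⟩
            · rw [hje, ← hle]
              exact (hget l hl3).symm
        · intro h; exact absurd h (by decide)
        · intro h; exact absurd h (by decide)
      · refine ⟨f, hf, ?_, ?_, ?_⟩
        · intro h; exact absurd h (by decide)
        · intro h; exact absurd h (by decide)
        · intro _; exact df
      · rw [List.mem_mapIdx] at hz
        obtain ⟨l, hl, rfl⟩ := hz
        have hl3 : l < 3 := by omega
        by_cases hlk : l = k
        · subst hlk
          refine ⟨g, ?_, ?_, ?_, ?_⟩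
          · rw [hge, ← hke]
            exact (hget l hl3).symm
          · intro h; simp at h
          · intro h; simp at h
          · intro _; exact dg'
        · obtain ⟨j, hj⟩ := hp1 _ (List.getElem_mem (show l < pt.length by omega))
          refine ⟨j, ?_, ?_, ?_, ?_⟩
          · rw [hj]
            exact (hget l hl3).symm
          · intro h; simp [hlk] at h
          · intro h; simp [hlk] at h
          · intro h; simp [hlk] at h

end MPgap
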