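import Pool.Agent.Work.MP_def58e_gap.Interface

/-!
# MP_def58e_co, gap theorem: block LFA (leaf test for at least 20 edges), helper11
-/

namespace MPgap

open Finset

theorem stmt_LFA (h1 : Stmt_UP) (h2 : Stmt_USA) (h3 : Stmt_QP) (h4 : Stmt_BR) : Stmt_LFA := by
  intro X hX L hL hlf
  unfold lfA at hlf
  rw [Bool.and_eq_true, Bool.and_eq_true, decide_eq_true_eq] at hlf
  obtain ⟨⟨hcl, hlen⟩, hrest⟩ := hlf
  obtain ⟨hb1, hb2, -⟩ := h4 X hX.1 L hL
  by_cases h11 : L.length = 11
  · rw [if_pos (by rw [h11]; rfl), List.any_eq_true] at hrest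
    obtain ⟨M, hM, hall⟩ := hrest
    refine ⟨M, hM, ?_⟩
    rw [List.all_eq_true] at hall
    intro i
    have hu : ix X L = univ := by
      apply Finset.eq_univ_of_card
      rw [hb1, h11, Fintype.card_fin]
    have hi : i ∈ ix X L := by rw [hu]; exact mem_univ i
    obtain ⟨z, hz, hzi⟩ := (hb2 i).mp hi
    have h5 := hall z hz
    rw [List.contains_iff_mem] at h5
    exact ⟨z.1, h5, hzi⟩
  · exfalso
    rw [if_neg (by rw [beq_iff_eq]; exact h11), Bool.or_eq_true, decide_eq_true_eq,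
      Bool.and_eq_true, beq_iff_eq] at hrest
    rcases hrest with hr | ⟨hr1, hr2⟩
    · have h5 := (h1 X hX.1 L hL hcl hlen).1
      have h6 := hX.2
      omega
    · exact h3 X hX.1 L hL (h2 X hX L hL hcl hr1) hr2

end MPgap
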