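import Pool.Agent.Work.MP_def58e_gap.Interface

/-! Block LFB of the gap theorem (MP_def58e_co). helper33 -/

namespace MPgap

open Finset

theorem stmt_LFB (h1 : Stmt_UP) (h2 : Stmt_USB) (h3 : Stmt_QP) (h4 : Stmt_QA) (h5 : Stmt_RG)
    (h6 : Stmt_RA) : Stmt_LFB := by
  intro X hX L hL hlf
  obtain ⟨hG, hD, hT⟩ := hX
  unfold lfB at hlf
  simp only [Bool.and_eq_true, Bool.or_eq_true, decide_eq_true_eq] at hlf
  obtain ⟨⟨⟨hcl, hlt⟩, h6l⟩, hc⟩ := hlf
  obtain ⟨hup, huse⟩ := h1 X hG L hL hcl h6l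
  rw [hD] at hup huse
  rcases hc with (hc | ⟨hc, hq⟩) | ⟨hc, hq⟩
  · omega
  · have hU : Used X L := by
      rcases hc with hc | hc
      · exact (huse (by omega)).1
      · exact h2 X ⟨hG, hD, hT⟩ L hL hcl hc
    rcases hq with hq | hq
    · exact h3 X hG L hL hU hq
    · exact h4 X hG L hL hU hq
  · obtain ⟨hU, hp⟩ := huse (by omega)
    rcases hq with hq | hq
    · have hlen : L.length = 8 := by
        unfold rgamma at hq
        simp only [Bool.and_eq_true, beq_iff_eq] at hq
        exact hq.1.1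
      rw [hlen] at hp
      exact h5 X hG L hL hU hp hq
    · have hlen : L.length = 7 := by
        unfold ralpha at hq
        simp only [Bool.and_eq_true, beq_iff_eq] at hq
        exact hq.1.1.1
      rw [hlen] at hp
      exact h6 X ⟨hG, hD, hT⟩ L hL hU hp hq

end MPgap
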