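import Pool.Agent.Work.MP_def58e_gap.Interface

/-! Block NBC of the gap theorem (MP_def58e_co). helper6 -/

namespace MPgap

theorem stmt_NBC : Stmt_NBC := by
  intro v f g hv hf hvf hg hvg
  refine ⟨((2 * dt f g - 1) / 3, dt g (crs v f) / 3), rfl, ?_, ?_⟩
  · have key : (dt v v * dt f f - dt v f ^ 2) * dt g g = dt g (crs v f) ^ 2 +
        dt f f * dt v g ^ 2 + dt v v * dt f g ^ 2 - 2 * dt v f * dt v g * dt f g := by
      simp only [dt, crs]; ring
    rw [hv, hf, hvf, hg, hvg] at key
    simp only [pd]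
    linear_combination (-2 / 9 : ℝ) * key
  · have k1 : (dt v v * dt f f - dt v f ^ 2) * g.1 = dt g (crs v f) * (crs v f).1 +
        (dt f f * dt v g - dt v f * dt f g) * v.1 + (dt v v * dt f g - dt v f * dt v g) * f.1 := by
      simp only [dt, crs]; ring
    have k2 : (dt v v * dt f f - dt v f ^ 2) * g.2.1 = dt g (crs v f) * (crs v f).2.1 +
        (dt f f * dt v g - dt v f * dt f g) * v.2.1 +
        (dt v v * dt f g - dt v f * dt v g) * f.2.1 := by
      simp only [dt, crs]; ring
    have k3 : (dt v v * dt f f - dt v f ^ 2) * g.2.2 = dt g (crs v f) * (crs v f).2.2 +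
        (dt f f * dt v g - dt v f * dt f g) * v.2.2 +
        (dt v v * dt f g - dt v f * dt v g) * f.2.2 := by
      simp only [dt, crs]; ring
    rw [hv, hf, hvf, hvg] at k1 k2 k3
    refine Prod.ext ?_ (Prod.ext ?_ ?_)
    · linear_combination (1 / 3 : ℝ) * k1
    · linear_combination (1 / 3 : ℝ) * k2
    · linear_combination (1 / 3 : ℝ) * k3

end MPgap
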