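import Pool.Agent.Work.MP_def58e_gap.Interface

/-! Block NBD of the gap theorem (MP_def58e_co). helper6 -/

namespace MPgap

theorem stmt_NBD : Stmt_NBD := by
  intro v f g h hv hf hvf hvg hvh
  have key : (dt v v * dt f f - dt v f ^ 2) * dt g h = dt g (crs v f) * dt h (crs v f) +
      dt f f * (dt v g * dt v h) + dt v v * (dt f g * dt f h) -
      dt v f * (dt v g * dt f h + dt f g * dt v h) := by
    simp only [dt, crs]; ring
  rw [hv, hf, hvf, hvg, hvh] at key
  simp only [pd]
  linear_combination (1 / 3 : ℝ) * key

end MPgap
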