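import Pool.Agent.Work.MP_def58e_gap.Interface

/-! Block NC (helper23): common neighbours. -/

namespace MPgap

theorem stmt_NC : Stmt_NC := by
  constructor
  · rintro ⟨x1, x2, x3⟩ ⟨y1, y2, y3⟩ ⟨w1, w2, w3⟩ hx hy hw hxw hyw
    simp only [dt] at *
    nlinarith [sq_nonneg (x1 + y1 - w1), sq_nonneg (x2 + y2 - w2), sq_nonneg (x3 + y3 - w3)]
  · rintro ⟨x1, x2, x3⟩ ⟨y1, y2, y3⟩ ⟨w1, w2, w3⟩ hx hy hw hxw hyw hxy
    simp only [dt] at *
    set c1 := x2 * y3 - x3 * y2 with hc1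
    set c2 := x3 * y1 - x1 * y3 with hc2
    set c3 := x1 * y2 - x2 * y1 with hc3
    have hcc : c1 * c1 + c2 * c2 + c3 * c3 = 4 := by
      have : c1 * c1 + c2 * c2 + c3 * c3 =
          (x1 * x1 + x2 * x2 + x3 * x3) * (y1 * y1 + y2 * y2 + y3 * y3) -
            (x1 * y1 + x2 * y2 + x3 * y3) ^ 2 := by
        rw [hc1, hc2, hc3]; ring
      rw [this, hx, hy, hxy]; norm_num
    have hxc : x1 * c1 + x2 * c2 + x3 * c3 = 0 := by rw [hc1, hc2, hc3]; ring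
    have hyc : y1 * c1 + y2 * c2 + y3 * c3 = 0 := by rw [hc1, hc2, hc3]; ring
    set t := c1 * w1 + c2 * w2 + c3 * w3 with ht
    have ht2 : t ^ 2 = 4 := by
      have : t ^ 2 = (x1 * x1 + x2 * x2 + x3 * x3) * (y1 * y1 + y2 * y2 + y3 * y3) *
          (w1 * w1 + w2 * w2 + w3 * w3) + 2 * (x1 * y1 + x2 * y2 + x3 * y3) *
          (x1 * w1 + x2 * w2 + x3 * w3) * (y1 * w1 + y2 * w2 + y3 * w3) -
          (x1 * x1 + x2 * x2 + x3 * x3) * (y1 * w1 + y2 * w2 + y3 * w3) ^ 2 -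
          (y1 * y1 + y2 * y2 + y3 * y3) * (x1 * w1 + x2 * w2 + x3 * w3) ^ 2 -
          (w1 * w1 + w2 * w2 + w3 * w3) * (x1 * y1 + x2 * y2 + x3 * y3) ^ 2 := by
        rw [ht, hc1, hc2, hc3]; ring
      rw [this, hx, hy, hw, hxw, hyw, hxy]; norm_num
    have key : ∀ s : ℝ, s ^ 2 = 1 → s * t = 2 →
        2 * w1 - x1 - y1 - s * c1 = 0 ∧ 2 * w2 - x2 - y2 - s * c2 = 0 ∧
          2 * w3 - x3 - y3 - s * c3 = 0 := by
      intro s hs hst
      have h0 : (2 * w1 - x1 - y1 - s * c1) ^ 2 + (2 * w2 - x2 - y2 - s * c2) ^ 2 +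
          (2 * w3 - x3 - y3 - s * c3) ^ 2 = 0 := by
        have : (2 * w1 - x1 - y1 - s * c1) ^ 2 + (2 * w2 - x2 - y2 - s * c2) ^ 2 +
          (2 * w3 - x3 - y3 - s * c3) ^ 2 = 4 * (w1 * w1 + w2 * w2 + w3 * w3) +
            (x1 * x1 + x2 * x2 + x3 * x3) + (y1 * y1 + y2 * y2 + y3 * y3) +
            s ^ 2 * (c1 * c1 + c2 * c2 + c3 * c3) - 4 * (x1 * w1 + x2 * w2 + x3 * w3) -
            4 * (y1 * w1 + y2 * w2 + y3 * w3) - 4 * (s * t) +
            2 * (x1 * y1 + x2 * y2 + x3 * y3) + 2 * s * (x1 * c1 + x2 * c2 + x3 * c3) +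
            2 * s * (y1 * c1 + y2 * c2 + y3 * c3) := by
          rw [ht]; ring
        rw [this]
        rw [hx, hy, hw, hxw, hyw, hxy, hcc, hxc, hyc, hs, hst]; norm_num
      have h1 := sq_nonneg (2 * w1 - x1 - y1 - s * c1)
      have h2 := sq_nonneg (2 * w2 - x2 - y2 - s * c2)
      have h3 := sq_nonneg (2 * w3 - x3 - y3 - s * c3)
      refine ⟨?_, ?_, ?_⟩
      · exact pow_eq_zero_iff (two_ne_zero) |>.1 (by linarith)
      · exact pow_eq_zero_iff (two_ne_zero) |>.1 (by linarith)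
      · exact pow_eq_zero_iff (two_ne_zero) |>.1 (by linarith)
    have ht' : (t - 2) * (t + 2) = 0 := by nlinarith
    rcases mul_eq_zero.1 ht' with h | h
    · left
      obtain ⟨h1, h2, h3⟩ := key 1 (by norm_num) (by linarith)
      simp only [crs, Prod.mk_add_mk, Prod.mk.injEq]
      refine ⟨?_, ?_, ?_⟩ <;> linarith
    · right
      obtain ⟨h1, h2, h3⟩ := key (-1) (by norm_num) (by linarith)
      simp only [crs, Prod.mk_add_mk, Prod.mk_sub_mk, Prod.mk.injEq]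
      refine ⟨?_, ?_, ?_⟩ <;> linarith

end MPgap
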