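import Pool.Agent.Work.MP_def58e_gap.Interface

/-!
# MP_def58e_co, gap theorem, block PICK (helper55): what `pick` returns
-/

namespace MPgap

namespace PICK

/-- what we claim of a picked vertex, relative to the state `L` -/
def Ok (L : St) (r : ℕ × Z3 × Z3 × ℕ) : Prop :=
  (r.2.2.2 = 0 ∨ r.2.2.2 = 3) ∧ (r.2.1, r.2.2.2) ∈ L ∧ ∃ z ∈ L, z.1 = r.2.2.1 ∧
    adz r.2.2.1 r.2.1 = true

theorem foldl_inv {α β : Type*} (f : Option β → α → Option β) (P : β → Prop) :
    ∀ (l : List α) (o : Option β), (∀ r, o = some r → P r) →
      (∀ (o : Option β) (z : α), z ∈ l → (∀ r, o = some r → P r) → ∀ r, f o z = some r → P r) →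
      ∀ r, l.foldl f o = some r → P r := by
  intro l
  induction l with
  | nil => intro o ho _ r hr; exact ho r hr
  | cons a l ih =>
    intro o ho hf r hr
    rw [List.foldl_cons] at hr
    exact ih (f o a) (hf o a List.mem_cons_self ho)
      (fun o z hz => hf o z (List.mem_cons_of_mem _ hz)) r hr

end PICK

theorem stmt_PICK : Stmt_PICK := by
  intro L s v f mk h
  have key : PICK.Ok L (s, v, f, mk) := by
    unfold pick at h
    refine PICK.foldl_inv _ (PICK.Ok L) L none (fun r hr => by cases hr) ?_ _ h
    intro o z hz ho r hr
    by_cases hm : (z.2 == 0 || z.2 == 3) = true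
    · simp only [hm, if_true] at hr
      have hm' : z.2 = 0 ∨ z.2 = 3 := by
        simpa [Bool.or_eq_true, beq_iff_eq] using hm
      cases hL : L.filter (fun y => adz y.1 z.1) with
      | nil => rw [hL] at hr; exact ho r hr
      | cons g t =>
        rw [hL] at hr
        have hg : g ∈ L.filter (fun y => adz y.1 z.1) := by rw [hL]; exact List.mem_cons_self
        have hg2 := List.mem_filter.1 hg
        simp only at hr
        generalize (2 * (t.length + 1) + (if (z.2 == 3) = true then 20 else 0)) = sc at hr
        have hnew : PICK.Ok L (sc, z.1, g.1, z.2) := ⟨hm', hz, g, hg2.1, rfl, hg2.2⟩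
        cases o with
        | none =>
          simp only [Option.some.injEq] at hr
          rw [← hr]; exact hnew
        | some q =>
          simp only at hr
          by_cases hq : q.1 < sc
          · rw [if_pos hq] at hr
            rw [← Option.some.inj hr]; exact hnew
          · rw [if_neg hq] at hr
            exact ho r hr
    · have hm2 : (z.2 == 0 || z.2 == 3) = false := by simpa using hm
      simp only [hm2] at hr
      exact ho r hr
  obtain ⟨h1, h2, z, hz, h3, h4⟩ := key
  exact ⟨h1, h2, z, hz, h3, h4⟩

end MPgap
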