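import Pool.Agent.Work.MP_def58e_gap.Defs

/-!
# MP_def58e_co, gap theorem: interface of the parts (B) (stars) and (C) (search), helper90

Every `Stmt_X` is one block; the proof on paper is in the docstring.
-/

namespace MPgap

open Finset

/-! ## (B) stars -/

/-- inner product of the plane in the coordinates `(cos θ, sin θ / √2)` -/
def pd (p q : ℝ × ℝ) : ℝ := p.1 * q.1 + 2 * (p.2 * q.2)

/-- PL4: plane unit vectors `P 0, P 1, P 2` and `(1, 0)` with pairwise cosines `1/3` or `≤ -1/3`.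
Proof: `P i = (cos θ_i, sin θ_i / √2)`, `0 ≤ θ_i < 2π`, `T = arccos (1/3)`, `π/3 < T < π/2`.
`θ_i ∈ {T, 2π - T} ∪ [π - T, π + T]` and `|θ_i - θ_j| ∈ {T, 2π - T} ∪ [π - T, π + T]` for `i ≠ j`.
Case both `T` and `2π - T` occur: the third is `2T`, `π` or `2π - 2T`. Case only `T`: the other two
are `{2T, 3T}`, `{2T, π+T}` or `{π, π+T}`; only `2π - T`: mirror image; none: `π-T, π, π+T`.
All by `linarith`; then `cos 2T = -7/9`, `sin 2T = 4√2/9`, `cos 3T = -23/27`, `sin 3T = -10√2/27`. -/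
def Stmt_PL4 : Prop := ∀ P : Fin 3 → ℝ × ℝ, (∀ i, pd (P i) (P i) = 1) →
  (∀ i, (P i).1 = 1 / 3 ∨ (P i).1 ≤ -1 / 3) →
  (∀ i j, i ≠ j → pd (P i) (P j) = 1 / 3 ∨ pd (P i) (P j) ≤ -1 / 3) →
  ∃ pt ∈ pats, (∀ e ∈ pt, ∃ i, P i = ((e.2.1 : ℝ) / 27, (e.2.2 : ℝ) / 27)) ∧
    ∀ i, ∃ e ∈ pt, P i = ((e.2.1 : ℝ) / 27, (e.2.2 : ℝ) / 27)

/-- PL5: there are no five. (From PL4 applied to `P 0, P 1, P 2` and `P 0, P 1, P 3`, .. or
directly: the sum of the five gaps of the angles is at least `5T` or `4T + (π - T)`, both are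
not `2π`: a gap is `T` or at least `π - T`; with at most 3 gaps `T` the sum is `≥ 3T + 2(π-T) > 2π`;
`4T + (π - T) = π + 3T > 2π`; `5 T ≠ 2π` because `cos 5T ≠ 1`.) -/
def Stmt_PL5 : Prop := ∀ P : Fin 4 → ℝ × ℝ, (∀ i, pd (P i) (P i) = 1) →
  (∀ i, (P i).1 = 1 / 3 ∨ (P i).1 ≤ -1 / 3) →
  (∀ i j, i ≠ j → pd (P i) (P j) = 1 / 3 ∨ pd (P i) (P j) ≤ -1 / 3) → False

/-- NBC: coordinates of a neighbour `g` of `v` in the basis `v, f, v × f`. Proof: `β = (2 g·f - 1)/3`,
`γ = g·(v×f)/3`; Gram matrix `[2,1,0;1,2,0;0,0,3]`; all identities follow from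
`|v×f|² (x·y) = (x·w)(y·w) + |f|²(x·v)(y·v) + |v|²(x·f)(y·f) - (v·f)((x·v)(y·f) + (x·f)(y·v))`,
`w = v × f`, which is `ring`. -/
def Stmt_NBC : Prop := ∀ v f g : R3, dt v v = 2 → dt f f = 2 → dt v f = 1 → dt g g = 2 →
  dt v g = 1 → ∃ p : ℝ × ℝ, p = ((2 * dt f g - 1) / 3, dt g (crs v f) / 3) ∧ pd p p = 1 ∧
    g = (((1 - p.1) / 2) * v.1 + p.1 * f.1 + p.2 * (crs v f).1,
      ((1 - p.1) / 2) * v.2.1 + p.1 * f.2.1 + p.2 * (crs v f).2.1,
      ((1 - p.1) / 2) * v.2.2 + p.1 * f.2.2 + p.2 * (crs v f).2.2)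

/-- NBD: inner product of two neighbours. -/
def Stmt_NBD : Prop := ∀ v f g h : R3, dt v v = 2 → dt f f = 2 → dt v f = 1 → dt v g = 1 →
  dt v h = 1 →
  dt g h = 1 / 2 + 3 / 2 * pd ((2 * dt f g - 1) / 3, dt g (crs v f) / 3)
    ((2 * dt f h - 1) / 3, dt h (crs v f) / 3)

/-- STAR: from PL4, NBC, NBD. -/
def Stmt_STAR : Prop := ∀ X : Fin 11 → R3, GapR X → ∀ v f, adj X v f → dg X v = 4 →
  ∃ pt ∈ pats, (∀ e ∈ pt, ∃ j, X j = comb e (X v) (X f)) ∧
    ∀ j, adj X v j → j = f ∨ ∃ e ∈ pt, X j = comb e (X v) (X f)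

/-- DEG4: from PL5, NBC, NBD. -/
def Stmt_DEG4 : Prop := ∀ X : Fin 11 → R3, GapR X → ∀ v, dg X v ≤ 4

/-- TV2: from STAR: in each of the ten patterns at least two of the six pairs of
`f, e1, e2, e3` have inner product 1 (e.g. `f` and `pT`: `pd = 1/3`). -/
def Stmt_TV2 : Prop := ∀ X : Fin 11 → R3, GapR X → ∀ v, dg X v = 4 → 2 ≤ tv X v

/-- K4: four vectors of norm `√2` with pairwise inner products 1 do not exist in `ℝ³`
(Gram determinant 5; or: `x = b + c + d - (3/4)..`; see `no_four` of helper11's PW.lean). -/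
def Stmt_K4 : Prop := ∀ X : Fin 11 → R3, GapR X → ∀ a b c d, adj X a b → adj X a c → adj X a d →
  adj X b c → adj X b d → adj X c d → False

/-- TV3: `tv ≤ 3` for a vertex of degree 4 (from STAR). -/
def Stmt_TV3 : Prop := ∀ X : Fin 11 → R3, GapR X → ∀ v, dg X v = 4 → tv X v ≤ 3

/-- EM: at most `emax m` edges among `m ≤ 5` vertices. `m = 4`: K4. `m = 5`: 8 edges: the complement
has 2 edges; if they share a vertex then there is a K4, if not then the fifth vertex has degree 4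
and `tv = 4` (TV3 and DEG4: its neighbours are the other four); 9 or 10 edges: K4. -/
def Stmt_EM : Prop := ∀ X : Fin 11 → R3, GapR X → ∀ A : Finset (Fin 11), A.card ≤ 5 →
  prs X A ≤ emax A.card

/-- ANTI: star with exactly the triangles `v b c`, `v b d`: the fourth neighbour is opposite to `b`.
From STAR with `f = b`: patterns with two neighbours of `f` = both `pT` and `nT` occur; third
`p2` or `n2` would be adjacent to `pT` resp. `nT`; so it is `pPi`, `comb pPi v b = v - b`. -/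
def Stmt_ANTI : Prop := ∀ X : Fin 11 → R3, GapR X → ∀ v b c d p, dg X v = 4 → adj X v b →
  adj X v c → adj X v d → adj X v p → b ≠ c → b ≠ d → c ≠ d → b ≠ p → c ≠ p → d ≠ p →
  adj X b c → adj X b d → ¬ adj X c p → ¬ adj X d p → X p = X v - X b

/-! ## counting -/

/-- EVEN: handshake. -/
def Stmt_EVEN : Prop := ∀ X : Fin 11 → R3, GapR X → Even (sD X)

/-- FULL: number of vertices of degree 4 (from DEG4): `sD ≤ 4F + 3(11-F)`. -/
def Stmt_FULL : Prop := ∀ X : Fin 11 → R3, GapR X →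
  sD X ≤ 33 + (univ.filter fun i => dg X i = 4).card

/-- CASES: from EVEN, FULL, TV2: `sD ≥ 36`; `sD = 36`: at least 3 vertices of degree 4, `sT ≥ 6`,
contradiction; `sD = 38`: CaseB; else CaseA. -/
def Stmt_CASES : Prop := ∀ X : Fin 11 → R3, Good X → CaseA X ∨ CaseB X

/-- ST1: `F` = set of the vertices of degree 4. If each has at most one neighbour in `F` then
`4|F| ≤ |F| + Σ_{D} dg = |F| + sD - 4|F|`. -/
def Stmt_ST1 : Prop := ∀ X : Fin 11 → R3, GapR X →
  sD X < 7 * (univ.filter fun i => dg X i = 4).card →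
  ∃ v f g, dg X v = 4 ∧ dg X f = 4 ∧ dg X g = 4 ∧ adj X v f ∧ adj X v g ∧ f ≠ g

/-- ST2 (uses TV2): the case of 19 edges, 5 vertices of degree 4. Suppose each `v ∈ F` has at most
one neighbour in `F`. Let `Tri` be the set of the triangles, `3 |Tri| = sT ≤ 15`. Each triangle has
at most two vertices in `F`, each `v ∈ F` is in at least two triangles, so `10 ≤ Σ_{v∈F} tv v =
Σ_{τ} |τ ∩ F| ≤ 2 |Tri| ≤ 10`: each triangle has exactly two vertices in `F`, so each `v ∈ F` has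
exactly one neighbour in `F`: a fixed point free involution of a set with 5 elements. -/
def Stmt_ST2 : Prop := ∀ X : Fin 11 → R3, GapR X → sT X ≤ 15 →
  (univ.filter fun i => dg X i = 4).card = 5 →
  ∃ v f g, dg X v = 4 ∧ dg X f = 4 ∧ dg X g = 4 ∧ adj X v f ∧ adj X v g ∧ f ≠ g

/-- START: from FULL, ST1, ST2. -/
def Stmt_START : Prop := ∀ X : Fin 11 → R3, CaseA X ∨ CaseB X →
  ∃ v f g, dg X v = 4 ∧ dg X f = 4 ∧ dg X g = 4 ∧ adj X v f ∧ adj X v g ∧ f ≠ g

/-- CNT: double counting of the edges relative to a set `P`. -/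
def Stmt_CNT : Prop := ∀ X : Fin 11 → R3, GapR X → ∀ P : Finset (Fin 11),
  sD X = ∑ i ∈ P, (nb X i ∩ P).card + 2 * ∑ i ∈ P, (nb X i \ P).card + 2 * prs X Pᶜ

/-! ## bridge between the lists of the search and the indices -/

/-- TOR -/
def Stmt_TOR : Prop := (∀ a b : Z3, toR a = toR b → a = b) ∧
  (∀ a b : Z3, dt (toR a) (toR b) = (dz a b : ℝ) / ((SC : ℝ) * SC)) ∧
  (∀ a b : Z3, adz a b = true ↔ dt (toR a) (toR b) = 1) ∧
  (∀ a b : Z3, okz a b = true ↔ dt (toR a) (toR b) = 1 ∨ dt (toR a) (toR b) ≤ 0)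

/-- BR (from TOR): for a realised state: `|ix| = length`, degrees, triangles. (`X` is injective.
`tvz` counts ordered pairs and divides by 2.) -/
def Stmt_BR : Prop := ∀ X : Fin 11 → R3, GapR X → ∀ L : St, Inv X L →
  (ix X L).card = L.length ∧ (∀ i, i ∈ ix X L ↔ ∃ z ∈ L, X i = toR z.1) ∧
  ∀ z ∈ L, ∀ i, X i = toR z.1 → dgz L z.1 = (nb X i ∩ ix X L).card ∧
    tvz L z.1 = prs X (nb X i ∩ ix X L)

/-- BS (from TOR): sums over the state. -/
def Stmt_BS : Prop := ∀ X : Fin 11 → R3, GapR X → ∀ L : St, Inv X L → ∀ (g : Z3 × ℕ → ℕ)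
  (h : Fin 11 → ℕ),
  ((∀ z ∈ L, ∀ i, X i = toR z.1 → g z = h i) → (L.map g).sum = ∑ i ∈ ix X L, h i) ∧
  ((∀ z ∈ L, ∀ i, X i = toR z.1 → g z ≤ h i) → (L.map g).sum ≤ ∑ i ∈ ix X L, h i)

/-- BC (from TOR): counting marks: for a decidable predicate on marks. -/
def Stmt_BC : Prop := ∀ X : Fin 11 → R3, GapR X → ∀ L : St, Inv X L → ∀ (q : Z3 × ℕ → Bool)
  (A : Finset (Fin 11)), (∀ z ∈ L, q z = true → ∀ i, X i = toR z.1 → i ∈ A) →
  (L.filter q).length ≤ A.card

/-! ## soundness of the tests -/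

/-- PRA: from DEG4, BR, BC. (`CaseA`: at most four vertices have degree `≤ 3`, because
`40 ≤ sD ≤ 44 - #`.) -/
def Stmt_PRA : Prop := ∀ X : Fin 11 → R3, CaseA X → ∀ L : St, Inv X L → prA L = true → False

/-- PRB: from DEG4, TV2, FULL, BR, BS, BC. `F` = number of vertices of degree 4: `5 ≤ F`,
`nFull ≤ F`, `nDef ≤ 11 - F`, `sumT L ≤ sT ≤ 15`, `ext L + 2F ≤ sT` (for mark 2: `tvz ≤ tv`, for the
marks 1, 3: `tvz - 2 ≤ tv - 2`, and `tv ≥ 2` on all vertices of degree 4). -/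
def Stmt_PRB : Prop := ∀ X : Fin 11 → R3, CaseB X → ∀ L : St, Inv X L → prB L = true → False

/-- UP: from DEG4, EM, CNT, BR, BS: for closed states `(nb i \ ix).card ≤ stub` (mark 1: 0;
mark 2: `dg ≤ 3`), and `prs` of the complement `≤ emax`. Equality case: all are equalities. -/
def Stmt_UP : Prop := ∀ X : Fin 11 → R3, GapR X → ∀ L : St, Inv X L → closed L = true →
  6 ≤ L.length →
  sD X ≤ sumD L + 2 * stubs L + 2 * emax (11 - L.length) ∧
  (sumD L + 2 * stubs L + 2 * emax (11 - L.length) ≤ sD X →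
    Used X L ∧ prs X (ix X L)ᶜ = emax (11 - L.length))

/-- USA: from DEG4, BR, BC: `CaseA` and four vertices of mark 2: they have degree exactly 3. -/
def Stmt_USA : Prop := ∀ X : Fin 11 → R3, CaseA X → ∀ L : St, Inv X L → closed L = true →
  nDef L = 4 → Used X L

/-- USB: from DEG4, TV2, FULL, BR, BS: `CaseB`, `ext L ≥ 4`: `ext L + 2F ≤ sT ≤ 15` (see PRB), so
`F = 5`, `sD = 38 = 20 + 18`, so all vertices of degree `≤ 3` have degree exactly 3. -/
def Stmt_USB : Prop := ∀ X : Fin 11 → R3, CaseB X → ∀ L : St, Inv X L → closed L = true →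
  4 ≤ ext L → Used X L

/-- NC: no common neighbour if the inner product is `< -1`; for orthogonal vectors the common
neighbours are `(p + q ± p × q)/2`. -/
def Stmt_NC : Prop := (∀ x y w : R3, dt x x = 2 → dt y y = 2 → dt w w = 2 → dt x w = 1 →
    dt y w = 1 → -1 ≤ dt x y) ∧
  (∀ x y w : R3, dt x x = 2 → dt y y = 2 → dt w w = 2 → dt x w = 1 → dt y w = 1 → dt x y = 0 →
    (w + w = x + y + crs x y ∨ w + w = x + y - crs x y))

/-- QP: from TOR, BR, NC: two vertices without common neighbour have disjoint sets of neighbours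
outside of the state, of sizes `stub` (Used), in a set with `11 - length` elements. -/
def Stmt_QP : Prop := ∀ X : Fin 11 → R3, GapR X → ∀ L : St, Inv X L → Used X L →
  qpair L = true → False

/-- QA: from TOR, BR, BS, NC: `conf` = no common neighbour outside of the state; so the sets
`nb i \ ix` are pairwise disjoint, total size `stubs L > 11 - length`. -/
def Stmt_QA : Prop := ∀ X : Fin 11 → R3, GapR X → ∀ L : St, Inv X L → Used X L →
  qall L = true → False

/-- RG: from DEG4, TV2, TOR, BR, BS. `M` = complement of `ix`, 3 elements, pairwise adjacent. Four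
vertices `p` of the state have exactly one neighbour in `M`; so some `w ∈ M` has two of them, `p, q`,
as neighbours, `nb w = {m1, m2, p, q}`; `p, q` are not adjacent, `p, m1` are not adjacent (`w` is
the only neighbour of `p` in `M`): `tv w = 1`, contradiction to TV2. -/
def Stmt_RG : Prop := ∀ X : Fin 11 → R3, GapR X → ∀ L : St, Inv X L → Used X L →
  prs X (ix X L)ᶜ = 3 → rgamma L = true → False

/-- RA: from DEG4, TV2, ANTI, TOR, BR, BS. `M` = complement, 4 elements `a, b, c, d`, all adjacent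
but `c, d`. Four vertices of the state have exactly one neighbour in `M`. `tv a, tv b ≥ 2`,
`tv c, tv d ≥ 1`, `Σ_{ix} tv ≥ sumT L ≥ 9`, sum `≥ 15`, so all are equalities. `dg c = 4` would give
`tv c ≥ 2`; so `a, b, c, d` have each at most one neighbour in the state, hence exactly one.
`nb a = {b, c, d, p}`, `tv a = 2` (only `bc, bd`), so ANTI: `X p = X a - X b`; in the same way
`X q = X b - X a`; `dt (X p) (X q) = -2`, excluded by `ralpha`. -/
def Stmt_RA : Prop := ∀ X : Fin 11 → R3, CaseB X → ∀ L : St, Inv X L → Used X L →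
  prs X (ix X L)ᶜ = 5 → ralpha L = true → False

/-- LFA: from UP, USA, QP, BR. -/
def Stmt_LFA : Prop := ∀ X : Fin 11 → R3, CaseA X → ∀ L : St, Inv X L → lfA tab L = true →
  ∃ M ∈ tab, ∀ i, ∃ v ∈ M, X i = toR v

/-- LFB: from UP, USB, QP, QA, RG, RA. -/
def Stmt_LFB : Prop := ∀ X : Fin 11 → R3, CaseB X → ∀ L : St, Inv X L → lfB L = true → False

/-! ## soundness of the search -/

/-- GEN: exactness of `combZ`. -/
def Stmt_GEN : Prop := ∀ (v f : Z3) (pt gs : List Z3), gen v f pt = some gs →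
  gs.map toR = pt.map fun e => comb e (toR v) (toR f)

/-- STEP (from TOR, BR): if `i` has degree 4 and its neighbours are `j` and the vectors `gs`, then
`step` gives a realised state. (`ins`: the new vector is some `X k`; if it is not in the list then
the list has less than 11 elements, all inner products are allowed.) -/
def Stmt_STEP : Prop := ∀ X : Fin 11 → R3, GapR X → ∀ (L : St) (v f : Z3) (gs : List Z3)
  (i j : Fin 11), Inv X L → (∃ z ∈ L, z.1 = v) → (∃ z ∈ L, z.1 = f) → X i = toR v → X j = toR f →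
  adj X i j → dg X i = 4 → (∀ g ∈ gs, ∃ k, X k = toR g) →
  (∀ k, adj X i k → k = j ∨ ∃ g ∈ gs, X k = toR g) →
  ∃ L', step L v f gs = some L' ∧ Inv X L'

/-- SETM (from TOR): the branch of degree at most 3. -/
def Stmt_SETM : Prop := ∀ X : Fin 11 → R3, GapR X → ∀ (L : St) (v : Z3) (i : Fin 11), Inv X L →
  X i = toR v → dg X i ≤ 3 → Inv X (setMark L v 2)

/-- PICK: (`foldl`, invariant) -/
def Stmt_PICK : Prop := ∀ (L : St) (s : ℕ) (v f : Z3) (mk : ℕ), pick L = some (s, v, f, mk) →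
  (mk = 0 ∨ mk = 3) ∧ (v, mk) ∈ L ∧ ∃ z ∈ L, z.1 = f ∧ adz f v = true

/-- ENGINE: from TOR, STAR, DEG4, GEN, STEP, SETM, PICK, induction on `n`. -/
def Stmt_ENGINE : Prop := ∀ X : Fin 11 → R3, GapR X → ∀ (pr lf : St → Bool) (C : Prop),
  (∀ L, Inv X L → pr L = true → False) → (∀ L, Inv X L → lf L = true → C) →
  ∀ (n : ℕ) (L : St), Inv X L → chk pr lf n L = true → C

/-- ROT: rotation to the standard position. `X' i = α a0 + β f0 + γ (a0 × f0)` (real scale:
`a0 = (1,1,0)`, `f0 = (1,0,1)`, `a0 × f0 = (1,-1,-1)`) with `α = (2 x·v - x·f)/3`,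
`β = (2 x·f - x·v)/3`, `γ = x·(v×f)/3`; identity of NBC. -/
def Stmt_ROT : Prop := ∀ X : Fin 11 → R3, GapR X → ∀ v f, adj X v f →
  ∃ X' : Fin 11 → R3, (∀ i j, dt (X' i) (X' j) = dt (X i) (X j)) ∧ X' v = toR a0 ∧ X' f = toR f0

/-- GRAM: everything depends only on the inner products. -/
def Stmt_GRAM : Prop := ∀ X X' : Fin 11 → R3, (∀ i j, dt (X' i) (X' j) = dt (X i) (X j)) →
  (GapR X → GapR X') ∧ (∀ i j, adj X' i j ↔ adj X i j) ∧ (∀ i, dg X' i = dg X i) ∧
    (∀ i, tv X' i = tv X i) ∧ (CaseA X → CaseA X') ∧ (CaseB X → CaseB X')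

/-- INIT: from STAR, TOR, GEN: the start states. `gen a0 f0 pt` is evaluated by `decide`/`rfl`
for the ten patterns. -/
def Stmt_INIT : Prop := ∀ X : Fin 11 → R3, GapR X → ∀ v f g, X v = toR a0 → X f = toR f0 →
  adj X v f → adj X v g → f ≠ g → dg X v = 4 → dg X f = 4 → dg X g = 4 →
  ∃ pt ∈ pats, ∃ k < 3, ∃ L, start pt k = some L ∧ Inv X L

/-- TAB: from `gramOK = true` (kernel) and TOR. -/
def Stmt_TAB : Prop := ∀ X : Fin 11 → R3, GapR X → ∀ M ∈ tab, (∀ i, ∃ v ∈ M, X i = toR v) →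
  ∃ k < 4, ∃ p : Fin 11 → Fin 11, Function.Bijective p ∧
    ∀ i j, dt (X i) (X j) = dt (canR k (p i)) (canR k (p j))

/-- RUNA, RUNB: kernel evaluation (`decide +kernel`), one theorem per start. -/
def Stmt_RUNA : Prop := ∀ pt ∈ pats, ∀ k < 3, runA pt k = true
def Stmt_RUNB : Prop := ∀ pt ∈ pats, ∀ k < 3, runB pt k = true

/-- CLS: from CASES, START, ROT, GRAM, INIT, ENGINE, PRA, PRB, LFA, LFB, RUNA, RUNB, TAB. -/
def Stmt_CLS : Prop := ∀ X : Fin 11 → R3, Good X → ∃ k < 4, ∃ p : Fin 11 → Fin 11,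
  Function.Bijective p ∧ ∀ i j, dt (X i) (X j) = dt (canR k (p i)) (canR k (p j))

end MPgap
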