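import Mathlib
import Pool.Agent.Work.MP_def58e_gap.Interface

set_option autoImplicit false

/-! # MP_def58e_co, gap theorem: block PL4 (helper93) -/

namespace MPgap

namespace PL4_

open Real

/-- the angle `arccos (1/3)` -/
noncomputable def T : ℝ := arccos (1 / 3)

theorem cosT : cos T = 1 / 3 := cos_arccos (by norm_num) (by norm_num)

theorem T_gt : π / 3 < T := by
  by_contra h
  push Not at h
  have h1 : cos (π / 3) ≤ cos T := cos_le_cos_of_nonneg_of_le_pi (arccos_nonneg _)
    (by linarith [pi_pos]) h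
  rw [cos_pi_div_three, cosT] at h1
  norm_num at h1

theorem T_lt : T < π / 2 := by
  by_contra h
  push Not at h
  have h1 : cos T ≤ cos (π / 2) := cos_le_cos_of_nonneg_of_le_pi (by linarith [pi_pos])
    (arccos_le_pi _) h
  rw [cos_pi_div_two, cosT] at h1
  norm_num at h1

theorem sinT : sin T = 2 * √2 / 3 := by
  have h1 : 0 ≤ sin T := sin_nonneg_of_nonneg_of_le_pi (arccos_nonneg _) (arccos_le_pi _)
  have h2 : sin T ^ 2 = 8 / 9 := by
    rw [sin_sq, cosT]; norm_num
  have h3 : (2 * √2 / 3) ^ 2 = 8 / 9 := by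
    rw [div_pow, mul_pow, sq_sqrt (by norm_num)]; norm_num
  have h4 : 0 ≤ 2 * √2 / 3 := by positivity
  nlinarith [sq_nonneg (sin T - 2 * √2 / 3), sq_nonneg (sin T + 2 * √2 / 3)]

/-- a value of a cosine allowed -/
def Ok (c : ℝ) : Prop := c = 1 / 3 ∨ c ≤ -1 / 3

theorem arccos_ok {c : ℝ} (h : Ok c) : arccos c = T ∨ π - T ≤ arccos c := by
  rcases h with h | h
  · left; rw [h]; rfl
  · right
    have h1 : arccos (-(1 / 3)) = π - T := arccos_neg _
    rw [← h1]
    exact arccos_le_arccos (by linarith)

/-- point with angle `t` -/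
noncomputable def pt (t : ℝ) : ℝ × ℝ := (cos t, sin t / √2)

theorem pd_pt (s t : ℝ) : pd (pt s) (pt t) = cos (t - s) := by
  unfold pd pt
  have h : √2 * √2 = 2 := mul_self_sqrt (by norm_num)
  have h' : √2 ≠ 0 := by positivity
  have e : 2 * (sin s / √2 * (sin t / √2)) = sin s * sin t := by
    field_simp
    rw [sq, h]
    ring
  simp only
  rw [e, cos_sub]
  ring

theorem ang {p : ℝ × ℝ} (hp : pd p p = 1) (h : Ok p.1) :
    ∃ t, p = pt t ∧ (t = T ∨ t = 2 * π - T ∨ (π - T ≤ t ∧ t ≤ π + T)) := by
  have hs : √2 * √2 = 2 := mul_self_sqrt (by norm_num)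
  have hs' : √2 ≠ 0 := by positivity
  have hs0 : 0 < √2 := by positivity
  unfold pd at hp
  have h1 : p.1 ≤ 1 := by nlinarith [sq_nonneg p.2, sq_nonneg (p.1 - 1)]
  have h2 : -1 ≤ p.1 := by nlinarith [sq_nonneg p.2, sq_nonneg (p.1 + 1)]
  have h3 : 1 - p.1 ^ 2 = (√2 * p.2) ^ 2 := by
    rw [mul_pow, sq √2, hs]; nlinarith
  have hT := T_lt
  have hok := arccos_ok h
  have hpi := arccos_le_pi p.1
  rcases le_or_gt 0 p.2 with h4 | h4
  · refine ⟨arccos p.1, ?_, ?_⟩
    · unfold pt
      rw [cos_arccos h2 h1, sin_arccos, h3, sqrt_sq (by positivity)]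
      refine Prod.ext rfl ?_
      simp only
      field_simp
    · rcases hok with h5 | h5
      · exact Or.inl h5
      · exact Or.inr (Or.inr ⟨h5, by linarith [pi_pos, T_gt]⟩)
  · refine ⟨2 * π - arccos p.1, ?_, ?_⟩
    · unfold pt
      rw [cos_two_pi_sub, sin_two_pi_sub, cos_arccos h2 h1, sin_arccos, h3, sqrt_sq_eq_abs,
        abs_of_neg (mul_neg_of_pos_of_neg hs0 h4)]
      refine Prod.ext rfl ?_
      simp only
      field_simp
    · rcases hok with h5 | h5
      · right; left; rw [h5]
      · exact Or.inr (Or.inr ⟨by linarith [pi_pos, T_gt], by linarith⟩)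

theorem dif {d : ℝ} (h0 : 0 ≤ d) (h1 : d ≤ 2 * π) (h : Ok (cos d)) :
    d = T ∨ d = 2 * π - T ∨ (π - T ≤ d ∧ d ≤ π + T) := by
  have hT := T_lt
  have hok := arccos_ok h
  rcases le_total d π with h2 | h2
  · rw [arccos_cos h0 h2] at hok
    rcases hok with h5 | h5
    · exact Or.inl h5
    · exact Or.inr (Or.inr ⟨h5, by linarith [pi_pos, T_gt]⟩)
  · have e : cos d = cos (2 * π - d) := (cos_two_pi_sub d).symm
    rw [e, arccos_cos (by linarith) (by linarith)] at hok
    rcases hok with h5 | h5
    · right; left; linarith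
    · exact Or.inr (Or.inr ⟨by linarith [pi_pos, T_gt], by linarith⟩)

/-- value of a pattern vector -/
noncomputable def val (e : Z3) : ℝ × ℝ := ((e.2.1 : ℝ) / 27, (e.2.2 : ℝ) / 27)

theorem v_pT : pt T = val pT := by
  have h' : √2 ≠ 0 := by positivity
  unfold pt val pT
  rw [cosT, sinT]
  refine Prod.ext (by norm_num) ?_
  simp only
  push_cast
  field_simp
  norm_num

theorem v_nT : pt (2 * π - T) = val nT := by
  have h' : √2 ≠ 0 := by positivity
  unfold pt val nT
  rw [cos_two_pi_sub, sin_two_pi_sub, cosT, sinT]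
  refine Prod.ext (by norm_num) ?_
  simp only
  push_cast
  field_simp
  norm_num

theorem c2 : cos (2 * T) = -7 / 9 := by rw [cos_two_mul, cosT]; norm_num

theorem s2 : sin (2 * T) = 4 * √2 / 9 := by rw [sin_two_mul, cosT, sinT]; ring

theorem c3 : cos (3 * T) = -23 / 27 := by rw [cos_three_mul, cosT]; norm_num

theorem s3 : sin (3 * T) = -10 * √2 / 27 := by
  have hs : √2 * √2 = 2 := mul_self_sqrt (by norm_num)
  have e : 3 * T = 2 * T + T := by ring
  rw [e, sin_add, s2, c2, cosT, sinT]
  ring

theorem v_p2 : pt (2 * T) = val p2 := by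
  have h' : √2 ≠ 0 := by positivity
  unfold pt val p2
  rw [c2, s2]
  refine Prod.ext (by norm_num) ?_
  simp only
  push_cast
  field_simp
  norm_num

theorem v_n2 : pt (2 * π - 2 * T) = val n2 := by
  have h' : √2 ≠ 0 := by positivity
  unfold pt val n2
  rw [cos_two_pi_sub, sin_two_pi_sub, c2, s2]
  refine Prod.ext (by norm_num) ?_
  simp only
  push_cast
  field_simp
  norm_num

theorem v_p3 : pt (3 * T) = val p3 := by
  have h' : √2 ≠ 0 := by positivity
  unfold pt val p3
  rw [c3, s3]
  refine Prod.ext (by norm_num) ?_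
  simp only
  push_cast
  field_simp

theorem v_n3 : pt (2 * π - 3 * T) = val n3 := by
  have h' : √2 ≠ 0 := by positivity
  unfold pt val n3
  rw [cos_two_pi_sub, sin_two_pi_sub, c3, s3]
  refine Prod.ext (by norm_num) ?_
  simp only
  push_cast
  field_simp

theorem v_pPi : pt π = val pPi := by
  unfold pt val pPi
  rw [cos_pi, sin_pi]
  refine Prod.ext (by norm_num) (by norm_num)

theorem v_piP : pt (π + T) = val piP := by
  have h' : √2 ≠ 0 := by positivity
  unfold pt val piP
  rw [add_comm, cos_add_pi, sin_add_pi, cosT, sinT]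
  refine Prod.ext (by norm_num) ?_
  simp only
  push_cast
  field_simp
  norm_num

theorem v_piM : pt (π - T) = val piM := by
  have h' : √2 ≠ 0 := by positivity
  unfold pt val piM
  rw [cos_pi_sub, sin_pi_sub, cosT, sinT]
  refine Prod.ext (by norm_num) ?_
  simp only
  push_cast
  field_simp
  norm_num

/-- conclusion for three points -/
def Con (A B C : ℝ × ℝ) : Prop := ∃ q ∈ pats, (∀ e ∈ q, val e = A ∨ val e = B ∨ val e = C) ∧
  (∃ e ∈ q, A = val e) ∧ (∃ e ∈ q, B = val e) ∧ (∃ e ∈ q, C = val e)

theorem con_of {x y z : Z3} (hq : ∃ q ∈ pats, q = [x, y, z] ∨ q = [x, z, y] ∨ q = [y, x, z] ∨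
    q = [y, z, x] ∨ q = [z, x, y] ∨ q = [z, y, x]) {a b c : ℝ} (h1 : pt a = val x)
    (h2 : pt b = val y) (h3 : pt c = val z) : Con (pt a) (pt b) (pt c) := by
  obtain ⟨q, hq, h⟩ := hq
  refine ⟨q, hq, ?_⟩
  rw [h1, h2, h3]
  rcases h with rfl | rfl | rfl | rfl | rfl | rfl <;> simp

theorem sorted {a b c : ℝ} (hab : a < b) (hbc : b < c)
    (ha : a = T ∨ a = 2 * π - T ∨ (π - T ≤ a ∧ a ≤ π + T))
    (hb : b = T ∨ b = 2 * π - T ∨ (π - T ≤ b ∧ b ≤ π + T))
    (hc : c = T ∨ c = 2 * π - T ∨ (π - T ≤ c ∧ c ≤ π + T))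
    (h1 : Ok (cos (b - a))) (h2 : Ok (cos (c - b))) : Con (pt a) (pt b) (pt c) := by
  have hT := T_lt
  have hT' := T_gt
  have hpi := pi_pos
  have ha0 : T ≤ a := by rcases ha with h | h | h <;> linarith
  have hc0 : c ≤ 2 * π - T := by rcases hc with h | h | h <;> linarith
  have d1 := dif (d := b - a) (by linarith) (by linarith) h1
  have d2 := dif (d := c - b) (by linarith) (by linarith) h2
  have d1' : b = a + T ∨ a + (π - T) ≤ b := by
    rcases d1 with h | h | h
    · left; linarith
    · exfalso; linarith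
    · right; linarith [h.1]
  have d2' : c = b + T ∨ b + (π - T) ≤ c := by
    rcases d2 with h | h | h
    · left; linarith
    · exfalso; linarith
    · right; linarith [h.1]
  have ha' : a = T ∨ π - T ≤ a := by
    rcases ha with h | h | h
    · exact Or.inl h
    · exfalso; linarith
    · exact Or.inr h.1
  have hc' : c = 2 * π - T ∨ c ≤ π + T := by
    rcases hc with h | h | h
    · exfalso; linarith
    · exact Or.inl h
    · exact Or.inr h.2
  rcases ha' with ha' | ha' <;> rcases hc' with hc' | hc'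
  · -- T, ?, 2π - T
    rcases d1' with d1' | d1'
    · rcases d2' with d2' | d2'
      · exfalso; linarith
      · have e : b = 2 * T := by linarith
        subst ha' hc' e
        exact con_of (x := pT) (y := p2) (z := nT) ⟨[pT, p2, nT], by simp [pats], by simp⟩
          v_pT v_p2 v_nT
    · rcases d2' with d2' | d2'
      · have e : b = 2 * π - 2 * T := by linarith
        subst ha' hc' e
        exact con_of (x := pT) (y := n2) (z := nT) ⟨[nT, n2, pT], by simp [pats], by simp⟩
          v_pT v_n2 v_nT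
      · have e : b = π := by linarith
        subst ha' hc' e
        exact con_of (x := pT) (y := pPi) (z := nT) ⟨[pT, pPi, nT], by simp [pats], by simp⟩
          v_pT v_pPi v_nT
  · -- T, ?, ≤ π + T
    rcases d1' with d1' | d1'
    · have e : b = 2 * T := by linarith
      rcases d2' with d2' | d2'
      · have e2 : c = 3 * T := by linarith
        subst ha' e e2
        exact con_of (x := pT) (y := p2) (z := p3) ⟨[pT, p2, p3], by simp [pats], by simp⟩
          v_pT v_p2 v_p3
      · have e2 : c = π + T := by linarith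
        subst ha' e e2
        exact con_of (x := pT) (y := p2) (z := piP) ⟨[pT, p2, piP], by simp [pats], by simp⟩
          v_pT v_p2 v_piP
    · rcases d2' with d2' | d2'
      · have e : b = π := by linarith
        have e2 : c = π + T := by linarith
        subst ha' e e2
        exact con_of (x := pT) (y := pPi) (z := piP) ⟨[pT, pPi, piP], by simp [pats], by simp⟩
          v_pT v_pPi v_piP
      · exfalso; linarith
  · -- ≥ π - T, ?, 2π - T
    rcases d2' with d2' | d2'
    · have e : b = 2 * π - 2 * T := by linarith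
      rcases d1' with d1' | d1'
      · have e2 : a = 2 * π - 3 * T := by linarith
        subst hc' e e2
        exact con_of (x := n3) (y := n2) (z := nT) ⟨[nT, n2, n3], by simp [pats], by simp⟩
          v_n3 v_n2 v_nT
      · have e2 : a = π - T := by linarith
        subst hc' e e2
        exact con_of (x := piM) (y := n2) (z := nT) ⟨[nT, n2, piM], by simp [pats], by simp⟩
          v_piM v_n2 v_nT
    · rcases d1' with d1' | d1'
      · have e : b = π := by linarith
        have e2 : a = π - T := by linarith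
        subst hc' e e2
        exact con_of (x := piM) (y := pPi) (z := nT) ⟨[nT, pPi, piM], by simp [pats], by simp⟩
          v_piM v_pPi v_nT
      · exfalso; linarith
  · -- both arcs
    have g1 : a + T ≤ b := by rcases d1' with h | h <;> linarith
    have g2 : b + T ≤ c := by rcases d2' with h | h <;> linarith
    have e1 : a = π - T := by linarith
    have e2 : b = π := by linarith
    have e3 : c = π + T := by linarith
    subst e1 e2 e3
    exact con_of (x := piM) (y := pPi) (z := piP) ⟨[piM, pPi, piP], by simp [pats], by simp⟩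
      v_piM v_pPi v_piP

end PL4_

open PL4_ Real in
theorem stmt_PL4 : Stmt_PL4 := by
  intro P h1 h2 h3
  choose t ht1 ht2 using fun i => ang (h1 i) (h2 i)
  have hne : ∀ i j, i ≠ j → t i ≠ t j := by
    intro i j hij h
    have h4 := h3 i j hij
    rw [ht1 i, ht1 j, pd_pt, h, sub_self, cos_zero] at h4
    rcases h4 with h4 | h4 <;> norm_num at h4
  have hok : ∀ i j, i ≠ j → Ok (cos (t j - t i)) := by
    intro i j hij
    have h4 := h3 i j hij
    rw [ht1 i, ht1 j, pd_pt] at h4
    exact h4
  have fin : ∀ i j k : Fin 3, (∀ l, l = i ∨ l = j ∨ l = k) → i ≠ j → j ≠ k → t i < t j →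
      t j < t k → ∃ pt ∈ pats, (∀ e ∈ pt, ∃ i, P i = ((e.2.1 : ℝ) / 27, (e.2.2 : ℝ) / 27)) ∧
        ∀ i, ∃ e ∈ pt, P i = ((e.2.1 : ℝ) / 27, (e.2.2 : ℝ) / 27) := by
    intro i j k hall hij hjk h5 h6
    obtain ⟨q, hq, g1, g2, g3, g4⟩ := sorted h5 h6 (ht2 i) (ht2 j) (ht2 k) (hok i j hij)
      (hok j k hjk)
    rw [← ht1 i] at g1 g2
    rw [← ht1 j] at g1 g3
    rw [← ht1 k] at g1 g4
    refine ⟨q, hq, ?_, ?_⟩
    · intro e he
      rcases g1 e he with h | h | h
      · exact ⟨i, h.symm⟩
      · exact ⟨j, h.symm⟩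
      · exact ⟨k, h.symm⟩
    · intro l
      rcases hall l with rfl | rfl | rfl
      · exact g2
      · exact g3
      · exact g4
  rcases lt_or_gt_of_ne (hne 0 1 (by decide)) with a | a <;>
  rcases lt_or_gt_of_ne (hne 1 2 (by decide)) with b | b <;>
  rcases lt_or_gt_of_ne (hne 0 2 (by decide)) with c | c
  · exact fin 0 1 2 (by decide) (by decide) (by decide) a b
  · exact absurd (a.trans b) (not_lt_of_gt c)
  · exact fin 0 2 1 (by decide) (by decide) (by decide) c b
  · exact fin 2 0 1 (by decide) (by decide) (by decide) c a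
  · exact fin 1 0 2 (by decide) (by decide) (by decide) a c
  · exact fin 1 2 0 (by decide) (by decide) (by decide) b c
  · exact absurd (c.trans b) (not_lt_of_gt a)
  · exact fin 2 1 0 (by decide) (by decide) (by decide) b a

end MPgap
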