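import Pool.Agent.Work.MP_def58e_gap.Interface

/-! MP_def58e_co, gap theorem, block PL5 (helper84): no five plane vectors. -/

set_option autoImplicit false

namespace MPgap

namespace PL5_

/-- allowed pair -/
def Ok (p q : ℝ × ℝ) : Prop := pd p q = 1 / 3 ∨ pd p q ≤ -1 / 3

theorem ok_le {p q : ℝ × ℝ} (h : Ok p q) : p.1 * q.1 + 2 * (p.2 * q.2) ≤ 1 / 3 := by
  rcases h with h | h <;> unfold pd at h <;> linarith

theorem ok_symm {p q : ℝ × ℝ} (h : Ok p q) : Ok q p := by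
  unfold Ok pd at *
  rcases h with h | h
  · left; linarith
  · right; linarith

theorem pos_cases {p : ℝ × ℝ} (hu : pd p p = 1) (hx : p.1 = 1 / 3) : p.2 = 2 / 3 ∨ p.2 = -2 / 3 := by
  unfold pd at hu
  rw [hx] at hu
  have h : (p.2 - 2 / 3) * (p.2 + 2 / 3) = 0 := by nlinarith
  rcases mul_eq_zero.1 h with h | h
  · left; linarith
  · right; linarith

theorem pos_pair {p q : ℝ × ℝ} (hp : pd p p = 1) (hq : pd q q = 1) (hx : p.1 = 1 / 3)
    (hy : q.1 = 1 / 3) (h : Ok p q) : q.2 = -p.2 := by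
  have h1 := ok_le h
  rw [hx, hy] at h1
  rcases pos_cases hp hx with h2 | h2 <;> rcases pos_cases hq hy with h3 | h3
  · exfalso; rw [h2, h3] at h1; norm_num at h1
  · linarith
  · linarith
  · exfalso; rw [h2, h3] at h1; norm_num at h1

theorem L3 {a b c : ℝ × ℝ} (ha : pd a a = 1) (hb : pd b b = 1) (hc : pd c c = 1)
    (xa : a.1 = 1 / 3) (xb : b.1 = 1 / 3) (xc : c.1 = 1 / 3) (hab : Ok a b) (hac : Ok a c)
    (hbc : Ok b c) : False := by
  have h1 := pos_pair ha hb xa xb hab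
  have h2 := pos_pair ha hc xa xc hac
  have h3 := pos_pair hb hc xb xc hbc
  rcases pos_cases ha xa with h | h <;> linarith

theorem three {c : ℝ × ℝ} (hc : pd c c = 1) (xc : c.1 ≤ -1 / 3)
    (h1 : c.1 / 3 + 4 / 3 * c.2 = 1 / 3 ∨ c.1 / 3 + 4 / 3 * c.2 ≤ -1 / 3)
    (h2 : c.1 / 3 - 4 / 3 * c.2 = 1 / 3 ∨ c.1 / 3 - 4 / 3 * c.2 ≤ -1 / 3) :
    (c.1 = -1 ∧ c.2 = 0) ∨ (c.1 = -7 / 9 ∧ c.2 = 4 / 9) ∨ (c.1 = -7 / 9 ∧ c.2 = -4 / 9) := by
  unfold pd at hc
  rcases h1 with h1 | h1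
  · have hx : c.1 = 1 - 4 * c.2 := by linarith
    rw [hx] at hc
    have h : c.2 * (9 * c.2 - 4) = 0 := by nlinarith
    rcases mul_eq_zero.1 h with h | h
    · rw [h] at hx; linarith
    · right; left
      have : c.2 = 4 / 9 := by linarith
      exact ⟨by linarith, this⟩
  · rcases h2 with h2 | h2
    · have hx : c.1 = 1 + 4 * c.2 := by linarith
      rw [hx] at hc
      have h : c.2 * (9 * c.2 + 4) = 0 := by nlinarith
      rcases mul_eq_zero.1 h with h | h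
      · rw [h] at hx; linarith
      · right; right
        have : c.2 = -4 / 9 := by linarith
        exact ⟨by linarith, this⟩
    · left
      have h3 : c.1 ≤ -1 := by linarith
      have h4 : c.2 * c.2 ≤ 0 := by nlinarith
      have h5 : c.2 = 0 := by
        have := mul_self_nonneg c.2
        exact mul_self_eq_zero.1 (le_antisymm h4 this)
      rw [h5] at hc
      have h6 : (c.1 + 1) * (c.1 - 1) = 0 := by nlinarith
      rcases mul_eq_zero.1 h6 with h6 | h6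
      · exact ⟨by linarith, h5⟩
      · linarith

theorem L2 {a b c d : ℝ × ℝ} (ha : pd a a = 1) (hb : pd b b = 1) (hc : pd c c = 1)
    (hd : pd d d = 1) (xa : a.1 = 1 / 3) (xb : b.1 = 1 / 3) (xc : c.1 ≤ -1 / 3) (xd : d.1 ≤ -1 / 3)
    (hab : Ok a b) (hac : Ok a c) (had : Ok a d) (hbc : Ok b c) (hbd : Ok b d) (hcd : Ok c d) :
    False := by
  have h1 := pos_pair ha hb xa xb hab
  have key : ∀ e : ℝ × ℝ, pd e e = 1 → e.1 ≤ -1 / 3 → Ok a e → Ok b e →
      (e.1 = -1 ∧ e.2 = 0) ∨ (e.1 = -7 / 9 ∧ e.2 = 4 / 9) ∨ (e.1 = -7 / 9 ∧ e.2 = -4 / 9) := by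
    intro e he xe hae hbe
    unfold Ok pd at hae hbe
    rcases pos_cases ha xa with h2 | h2
    · rw [xa, h2] at hae
      rw [xb, h1, h2] at hbe
      refine three he xe ?_ ?_
      · rcases hae with h | h
        · left; linarith
        · right; linarith
      · rcases hbe with h | h
        · left; linarith
        · right; linarith
    · rw [xa, h2] at hae
      rw [xb, h1, h2] at hbe
      refine three he xe ?_ ?_
      · rcases hbe with h | h
        · left; linarith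
        · right; linarith
      · rcases hae with h | h
        · left; linarith
        · right; linarith
  have hle := ok_le hcd
  unfold Ok pd at hcd
  rcases key c hc xc hac hbc with ⟨c1, c2⟩ | ⟨c1, c2⟩ | ⟨c1, c2⟩ <;>
    rcases key d hd xd had hbd with ⟨d1, d2⟩ | ⟨d1, d2⟩ | ⟨d1, d2⟩ <;>
    rw [c1, c2, d1, d2] at hcd <;> norm_num at hcd

/-- the angle -/
noncomputable def T : ℝ := Real.arccos (1 / 3)

theorem cosT : Real.cos T = 1 / 3 := Real.cos_arccos (by norm_num) (by norm_num)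

theorem T_pos : 0 < T := Real.arccos_pos.2 (by norm_num)

theorem T_lt : T < Real.pi / 2 := Real.arccos_lt_pi_div_two.2 (by norm_num)

theorem le_T {x : ℝ} (h1 : |x| ≤ Real.pi) (h : 1 / 3 ≤ Real.cos x) : |x| ≤ T := by
  by_contra hc
  push Not at hc
  have h2 := Real.strictAntiOn_cos (a := T) (b := |x|)
    ⟨T_pos.le, by linarith [T_lt, Real.pi_pos]⟩ ⟨abs_nonneg _, h1⟩ hc
  rw [Real.cos_abs, cosT] at h2
  linarith

theorem T_le {x : ℝ} (h : Real.cos x ≤ 1 / 3) : T ≤ |x| := by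
  by_contra hc
  push Not at hc
  have h2 := Real.strictAntiOn_cos (a := |x|) (b := T)
    ⟨abs_nonneg _, by linarith [T_lt, Real.pi_pos]⟩ ⟨T_pos.le, by linarith [T_lt, Real.pi_pos]⟩ hc
  rw [Real.cos_abs, cosT] at h2
  linarith

/-- the angle of a point on the left -/
theorem ang {p : ℝ × ℝ} (hp : pd p p = 1) (hx : p.1 ≤ -1 / 3) : ∃ φ : ℝ, |φ| ≤ T ∧
    Real.cos φ = -p.1 ∧ Real.sin φ = √2 * p.2 := by
  unfold pd at hp
  have h2 : √2 * √2 = 2 := Real.mul_self_sqrt (by norm_num)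
  have hs : (√2 * p.2) ^ 2 = 1 - p.1 ^ 2 := by
    calc (√2 * p.2) ^ 2 = (√2 * √2) * (p.2 * p.2) := by ring
      _ = 1 - p.1 ^ 2 := by rw [h2]; linarith
  have hs1 : |√2 * p.2| ≤ 1 := by
    rw [← sq_le_one_iff_abs_le_one, hs]
    nlinarith [sq_nonneg p.1]
  obtain ⟨ha, hb⟩ := abs_le.1 hs1
  have hc : Real.cos (Real.arcsin (√2 * p.2)) = -p.1 := by
    rw [Real.cos_arcsin, hs, show 1 - (1 - p.1 ^ 2) = (-p.1) ^ 2 by ring,
      Real.sqrt_sq (by linarith)]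
  refine ⟨Real.arcsin (√2 * p.2), ?_, hc, Real.sin_arcsin ha hb⟩
  refine le_T ?_ (by rw [hc]; linarith)
  rw [abs_le]
  have h3 := Real.neg_pi_div_two_le_arcsin (√2 * p.2)
  have h4 := Real.arcsin_le_pi_div_two (√2 * p.2)
  constructor <;> linarith [Real.pi_pos]

theorem far {p q : ℝ × ℝ} {φ ψ : ℝ} (h : Ok p q) (h1 : Real.cos φ = -p.1)
    (h2 : Real.sin φ = √2 * p.2) (h3 : Real.cos ψ = -q.1) (h4 : Real.sin ψ = √2 * q.2) :
    T ≤ φ - ψ ∨ T ≤ ψ - φ := by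
  have h5 : T ≤ |φ - ψ| := by
    refine T_le ?_
    rw [Real.cos_sub, h1, h2, h3, h4]
    have h6 : √2 * √2 = 2 := Real.mul_self_sqrt (by norm_num)
    calc -p.1 * -q.1 + √2 * p.2 * (√2 * q.2) = p.1 * q.1 + (√2 * √2) * (p.2 * q.2) := by ring
      _ ≤ 1 / 3 := by rw [h6]; exact ok_le h
  rcases le_abs.1 h5 with h | h
  · exact Or.inl h
  · exact Or.inr (by linarith)

theorem L0 {a b c d : ℝ × ℝ} (ha : pd a a = 1) (hb : pd b b = 1) (hc : pd c c = 1)
    (hd : pd d d = 1) (xa : a.1 ≤ -1 / 3) (xb : b.1 ≤ -1 / 3) (xc : c.1 ≤ -1 / 3)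
    (xd : d.1 ≤ -1 / 3)
    (hab : Ok a b) (hac : Ok a c) (had : Ok a d) (hbc : Ok b c) (hbd : Ok b d) (hcd : Ok c d) :
    False := by
  obtain ⟨α, a1, a2, a3⟩ := ang ha xa
  obtain ⟨β, b1, b2, b3⟩ := ang hb xb
  obtain ⟨γ, c1, c2, c3⟩ := ang hc xc
  obtain ⟨δ, d1, d2, d3⟩ := ang hd xd
  rw [abs_le] at a1 b1 c1 d1
  have e1 := far hab a2 a3 b2 b3
  have e2 := far hac a2 a3 c2 c3
  have e3 := far had a2 a3 d2 d3
  have e4 := far hbc b2 b3 c2 c3
  have e5 := far hbd b2 b3 d2 d3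
  have e6 := far hcd c2 c3 d2 d3
  have hT := T_pos
  rcases e1 with e1 | e1 <;> rcases e2 with e2 | e2 <;> rcases e3 with e3 | e3 <;>
    rcases e4 with e4 | e4 <;> rcases e5 with e5 | e5 <;> rcases e6 with e6 | e6 <;> linarith

/-- the extreme position -/
theorem ext_T {p : ℝ × ℝ} (hp : pd p p = 1) (h1 : Real.cos T = -p.1)
    (h2 : Real.sin T = √2 * p.2) : p.1 = -1 / 3 ∧ p.2 = 2 / 3 := by
  rw [cosT] at h1
  have hx : p.1 = -1 / 3 := by linarith
  refine ⟨hx, ?_⟩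
  have hs : 0 < Real.sin T := Real.sin_pos_of_pos_of_lt_pi T_pos (by linarith [T_lt, Real.pi_pos])
  rw [h2] at hs
  have hy : 0 < p.2 := by
    by_contra hc
    push Not at hc
    have := mul_nonpos_of_nonneg_of_nonpos (Real.sqrt_nonneg 2) hc
    linarith
  unfold pd at hp
  rw [hx] at hp
  have h : (p.2 - 2 / 3) * (p.2 + 2 / 3) = 0 := by nlinarith
  rcases mul_eq_zero.1 h with h | h
  · linarith
  · linarith

theorem L1 {a b c d : ℝ × ℝ} (ha : pd a a = 1) (hb : pd b b = 1) (hc : pd c c = 1)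
    (hd : pd d d = 1) (xa : a.1 = 1 / 3) (xb : b.1 ≤ -1 / 3) (xc : c.1 ≤ -1 / 3)
    (xd : d.1 ≤ -1 / 3)
    (hab : Ok a b) (hac : Ok a c) (had : Ok a d) (hbc : Ok b c) (hbd : Ok b d) (hcd : Ok c d) :
    False := by
  obtain ⟨β, b1, b2, b3⟩ := ang hb xb
  obtain ⟨γ, c1, c2, c3⟩ := ang hc xc
  obtain ⟨δ, d1, d2, d3⟩ := ang hd xd
  rw [abs_le] at b1 c1 d1
  have e4 := far hbc b2 b3 c2 c3
  have e5 := far hbd b2 b3 d2 d3
  have e6 := far hcd c2 c3 d2 d3
  have hT := T_pos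
  rcases pos_cases ha xa with hy | hy
  · have key : ∀ (p : ℝ × ℝ) (φ : ℝ), pd p p = 1 → Ok a p → Real.cos φ = -p.1 →
        Real.sin φ = √2 * p.2 → φ ≠ T := by
      rintro p φ hp hap h1 h2 rfl
      obtain ⟨h3, h4⟩ := ext_T hp h1 h2
      have := ok_le hap
      rw [xa, hy, h3, h4] at this
      norm_num at this
    have f1 := lt_of_le_of_ne b1.2 (key b β hb hab b2 b3)
    have f2 := lt_of_le_of_ne c1.2 (key c γ hc hac c2 c3)
    have f3 := lt_of_le_of_ne d1.2 (key d δ hd had d2 d3)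
    rcases e4 with e4 | e4 <;> rcases e5 with e5 | e5 <;> rcases e6 with e6 | e6 <;> linarith
  · have key : ∀ (p : ℝ × ℝ) (φ : ℝ), pd p p = 1 → Ok a p → Real.cos φ = -p.1 →
        Real.sin φ = √2 * p.2 → φ ≠ -T := by
      rintro p φ hp hap h1 h2 rfl
      rw [Real.cos_neg] at h1
      rw [Real.sin_neg] at h2
      have hp' : pd (p.1, -p.2) (p.1, -p.2) = 1 := by
        unfold pd at hp ⊢
        simp only
        linarith
      obtain ⟨h3, h4⟩ := ext_T hp' h1 (by simp only; linarith)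
      simp only at h3 h4
      have := ok_le hap
      rw [xa, hy, h3, show p.2 = -(2 / 3) by linarith] at this
      norm_num at this
    have f1 := lt_of_le_of_ne b1.1 (Ne.symm (key b β hb hab b2 b3))
    have f2 := lt_of_le_of_ne c1.1 (Ne.symm (key c γ hc hac c2 c3))
    have f3 := lt_of_le_of_ne d1.1 (Ne.symm (key d δ hd had d2 d3))
    rcases e4 with e4 | e4 <;> rcases e5 with e5 | e5 <;> rcases e6 with e6 | e6 <;> linarith

end PL5_

open PL5_ in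
theorem stmt_PL5 : Stmt_PL5 := by
  intro P hu hx hP
  have o : ∀ i j, i ≠ j → Ok (P i) (P j) := fun i j h => hP i j h
  have o01 := o 0 1 (by decide)
  have o02 := o 0 2 (by decide)
  have o03 := o 0 3 (by decide)
  have o12 := o 1 2 (by decide)
  have o13 := o 1 3 (by decide)
  have o23 := o 2 3 (by decide)
  have o10 := ok_symm o01
  have o20 := ok_symm o02
  have o30 := ok_symm o03
  have o21 := ok_symm o12
  have o31 := ok_symm o13
  have o32 := ok_symm o23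
  rcases hx 0 with x0 | x0 <;> rcases hx 1 with x1 | x1 <;> rcases hx 2 with x2 | x2 <;>
    rcases hx 3 with x3 | x3
  · exact L3 (hu 0) (hu 1) (hu 2) x0 x1 x2 o01 o02 o12
  · exact L3 (hu 0) (hu 1) (hu 2) x0 x1 x2 o01 o02 o12
  · exact L3 (hu 0) (hu 1) (hu 3) x0 x1 x3 o01 o03 o13
  · exact L2 (hu 0) (hu 1) (hu 2) (hu 3) x0 x1 x2 x3 o01 o02 o03 o12 o13 o23
  · exact L3 (hu 0) (hu 2) (hu 3) x0 x2 x3 o02 o03 o23
  · exact L2 (hu 0) (hu 2) (hu 1) (hu 3) x0 x2 x1 x3 o02 o01 o03 o21 o23 o13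
  · exact L2 (hu 0) (hu 3) (hu 1) (hu 2) x0 x3 x1 x2 o03 o01 o02 o31 o32 o12
  · exact L1 (hu 0) (hu 1) (hu 2) (hu 3) x0 x1 x2 x3 o01 o02 o03 o12 o13 o23
  · exact L3 (hu 1) (hu 2) (hu 3) x1 x2 x3 o12 o13 o23
  · exact L2 (hu 1) (hu 2) (hu 0) (hu 3) x1 x2 x0 x3 o12 o10 o13 o20 o23 o03
  · exact L2 (hu 1) (hu 3) (hu 0) (hu 2) x1 x3 x0 x2 o13 o10 o12 o30 o32 o02
  · exact L1 (hu 1) (hu 0) (hu 2) (hu 3) x1 x0 x2 x3 o10 o12 o13 o02 o03 o23
  · exact L2 (hu 2) (hu 3) (hu 0) (hu 1) x2 x3 x0 x1 o23 o20 o21 o30 o31 o01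
  · exact L1 (hu 2) (hu 0) (hu 1) (hu 3) x2 x0 x1 x3 o20 o21 o23 o01 o03 o13
  · exact L1 (hu 3) (hu 0) (hu 1) (hu 2) x3 x0 x1 x2 o30 o31 o32 o01 o02 o12
  · exact L0 (hu 0) (hu 1) (hu 2) (hu 3) x0 x1 x2 x3 o01 o02 o03 o12 o13 o23

end MPgap
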