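import Pool.Agent.Work.MP_def58e_gap.Interface

/-!
# MP_def58e_co, gap theorem: block PRA (helper9)

Soundness of the pruning test in the case of at least 20 edges: every vertex has degree at most 4,
so at most four vertices have degree at most 3.
-/

namespace MPgap

open Finset

namespace PRA_

theorem inj {X : Fin 11 → R3} (hX : GapR X) {i j : Fin 11} (h : X i = X j) : i = j := by
  by_contra hne
  have h2 := hX.nrm i
  have h3 := hX.ips i j hne
  rw [← h, h2] at h3
  rcases h3 with h3 | h3 <;> linarith

/-- at most four vertices of degree at most three -/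
theorem four (h1 : Stmt_DEG4) {X : Fin 11 → R3} (hX : CaseA X) :
    (univ.filter fun i => dg X i ≤ 3).card ≤ 4 := by
  classical
  have hs : sD X + (univ.filter fun i => dg X i ≤ 3).card ≤ 44 := by
    have e1 : (univ.filter fun i => dg X i ≤ 3).card
        = ∑ i : Fin 11, if dg X i ≤ 3 then 1 else 0 := by
      rw [Finset.card_filter]
    rw [e1, sD, ← Finset.sum_add_distrib]
    have e2 : ∀ i ∈ (univ : Finset (Fin 11)), dg X i + (if dg X i ≤ 3 then 1 else 0) ≤ 4 := by
      intro i _
      have h4 := h1 X hX.1 i
      split_ifs with h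
      · omega
      · omega
    have e3 := Finset.sum_le_sum e2
    have e4 : ∑ i : Fin 11, 4 = 44 := by simp
    rw [e4] at e3
    exact e3
  have h40 := hX.2
  omega

end PRA_

open PRA_ in
theorem stmt_PRA (h1 : Stmt_DEG4) (h2 : Stmt_BR) (h3 : Stmt_BC) : Stmt_PRA := by
  intro X hX L hL hp
  classical
  obtain ⟨_, _, hbr⟩ := h2 X hX.1 L hL
  rw [prA, Bool.or_eq_true] at hp
  rcases hp with hp | hp
  · rw [badDeg, List.any_eq_true] at hp
    obtain ⟨z, hz, hd⟩ := hp
    obtain ⟨i, hi, _, hm2, _⟩ := hL.mem z hz
    have hle : dgz L z.1 ≤ dg X i := by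
      rw [(hbr z hz i hi).1]
      exact Finset.card_le_card Finset.inter_subset_left
    have h4 := h1 X hX.1 i
    simp only [Bool.or_eq_true, Bool.and_eq_true, decide_eq_true_eq, beq_iff_eq] at hd
    rcases hd with hd | ⟨hz2, hd⟩
    · omega
    · have h5 := hm2 hz2
      omega
  · rw [decide_eq_true_eq] at hp
    have hc := h3 X hX.1 L hL (fun z => z.2 == 2) (univ.filter fun i => dg X i ≤ 3) (by
      intro z hz hq i hi
      obtain ⟨j, hj, _, hm2, _⟩ := hL.mem z hz
      have hij : i = j := inj hX.1 (hi.trans hj.symm)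
      subst hij
      simp only [beq_iff_eq] at hq
      simp only [Finset.mem_filter, Finset.mem_univ, true_and]
      exact hm2 hq)
    have h4 := four h1 hX
    have h6 : nDef L = (L.filter fun z => z.2 == 2).length := rfl
    rw [h6] at hp
    exact absurd (lt_of_lt_of_le hp (hc.trans h4)) (lt_irrefl _)

end MPgap
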