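import Pool.Agent.Work.MP_def58e_gap.G_USB

/-!
# MP_def58e_co, gap theorem: block PRB (helper35)
-/

namespace MPgap

open Finset

open UP_ USB_ in
theorem stmt_PRB (h1 : Stmt_DEG4) (h2 : Stmt_TV2) (h3 : Stmt_FULL) (h4 : Stmt_BR) (h5 : Stmt_BS)
    (h6 : Stmt_BC) : Stmt_PRB := by
  intro X hC L hL hpr
  obtain ⟨hX, hsD, hsT⟩ := hC
  have hF' : sD X ≤ 33 + nF X := h3 X hX
  have hE := ext_le h2 h4 h5 hX hL
  have hF5 : 5 ≤ nF X := by omega
  -- marks 1 and 3
  have hfull : nFull L ≤ nF X := by
    unfold nFull nF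
    refine h6 X hX L hL _ _ ?_
    intro z hz hq i hi
    obtain ⟨j, hj, hm1, -, hm3⟩ := hL.mem z hz
    have hij : i = j := inj hX (hi.trans hj.symm)
    subst hij
    rw [Finset.mem_filter]
    refine ⟨Finset.mem_univ _, ?_⟩
    have hq' : z.2 = 1 ∨ z.2 = 3 := by simpa using hq
    rcases hq' with h | h
    · exact (hm1 h).1
    · exact hm3 h
  have hdef : nDef L ≤ 11 - nF X := by
    have hle : nDef L ≤ (univ.filter fun i => ¬ dg X i = 4).card := by
      unfold nDef
      refine h6 X hX L hL _ _ ?_
      intro z hz hq i hi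
      have hq' : z.2 = 2 := by simpa using hq
      have := mark2 hX hL hz hi hq'
      rw [Finset.mem_filter]
      exact ⟨Finset.mem_univ _, by omega⟩
    have hsplit := Finset.card_filter_add_card_filter_not (s := (univ : Finset (Fin 11)))
      (p := fun i => dg X i = 4)
    rw [Finset.card_univ, Fintype.card_fin] at hsplit
    unfold nF
    omega
  have hnF : nF X ≤ 11 := by
    unfold nF
    exact (Finset.card_le_univ _).trans (by simp)
  have hsumT : sumT L ≤ sT X := by
    have h : sumT L ≤ ∑ i ∈ ix X L, tv X i := by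
      unfold sumT
      exact (h5 X hX L hL (fun z => tvz L z.1) (fun i => tv X i)).2
        fun z hz i hi => tvz_le h4 hX hL hz hi
    refine h.trans ?_
    unfold sT
    exact Finset.sum_le_univ_sum_of_nonneg (fun i => Nat.zero_le _)
  have hbad : badDeg L = false := by
    by_contra hb
    have hb' : badDeg L = true := by simpa using hb
    unfold badDeg at hb'
    obtain ⟨z, hz, hz2⟩ := List.any_eq_true.mp hb'
    obtain ⟨i, hi, -⟩ := hL.mem z hz
    have hd := ((h4 X hX L hL).2.2 z hz i hi).1
    have hs := card_split X i (ix X L)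
    have h4' := h1 X hX i
    have hz3 : 4 < dgz L z.1 ∨ (z.2 = 2 ∧ 3 < dgz L z.1) := by simpa using hz2
    rcases hz3 with h | ⟨h, h'⟩
    · omega
    · have := mark2 hX hL hz hi h
      omega
  unfold prB at hpr
  rw [hbad] at hpr
  have hpr' : (11 < nDef L + max 5 (nFull L) ∨ 15 < sumT L) ∨
      15 < ext L + 2 * max 5 (nFull L) := by
    simpa only [Bool.false_or, Bool.or_eq_true, decide_eq_true_eq] using hpr
  have hmax : max 5 (nFull L) ≤ nF X := max_le hF5 hfull
  rcases hpr' with (h | h) | h
  · omega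
  · omega
  · omega

end MPgap
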