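import Pool.Agent.Work.MP_def58e_gap.Interface

/-!
# MP_def58e_co, gap theorem: block QA (helper64)
-/

namespace MPgap

open Finset

namespace QA_

theorem mem_nb {X : Fin 11 → R3} {i k : Fin 11} : k ∈ nb X i ↔ dt (X i) (X k) = 1 := by
  unfold nb adj
  rw [Finset.mem_filter]
  exact ⟨fun h => h.2, fun h => ⟨Finset.mem_univ _, h⟩⟩

theorem dt_add_self (x w : R3) : dt x (w + w) = 2 * dt x w := by
  unfold dt
  simp only [Prod.fst_add, Prod.snd_add]
  ring

theorem SC_pos : (0 : ℝ) < (SC : ℝ) := by unfold SC; norm_num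

theorem inj {X : Fin 11 → R3} (hX : GapR X) {i j : Fin 11} (h : X i = X j) : i = j := by
  by_contra hij
  have h1 := hX.ips i j hij
  have h2 := hX.nrm i
  rw [← h, h2] at h1
  rcases h1 with h1 | h1 <;> norm_num at h1

/-- twice the candidates are the scaled real vectors -/
theorem cand_toR (s : ℤ) (p q : Z3) (hc : crossExact p q = true) :
    toR (cand s p q) = toR p + toR q + (s : ℝ) • crs (toR p) (toR q) := by
  unfold crossExact at hc
  simp only [Bool.and_eq_true, beq_iff_eq] at hc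
  obtain ⟨⟨h1, h2⟩, h3⟩ := hc
  have hS : (SC : ℤ) ≠ 0 := by unfold SC; norm_num
  have hSR := SC_pos
  obtain ⟨a, ha⟩ := Int.dvd_of_emod_eq_zero h1
  obtain ⟨b, hb⟩ := Int.dvd_of_emod_eq_zero h2
  obtain ⟨c, hc⟩ := Int.dvd_of_emod_eq_zero h3
  have ha' : (p.2.1 : ℝ) * q.2.2 - p.2.2 * q.2.1 = SC * a := by exact_mod_cast ha
  have hb' : (p.2.2 : ℝ) * q.1 - p.1 * q.2.2 = SC * b := by exact_mod_cast hb
  have hc' : (p.1 : ℝ) * q.2.1 - p.2.1 * q.1 = SC * c := by exact_mod_cast hc
  have e1 : (p.2.1 * q.2.2 - p.2.2 * q.2.1) / SC = a := by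
    rw [ha]; exact Int.mul_ediv_cancel_left _ hS
  have e2 : (p.2.2 * q.1 - p.1 * q.2.2) / SC = b := by
    rw [hb]; exact Int.mul_ediv_cancel_left _ hS
  have e3 : (p.1 * q.2.1 - p.2.1 * q.1) / SC = c := by
    rw [hc]; exact Int.mul_ediv_cancel_left _ hS
  have hne : (SC : ℝ) ≠ 0 := hSR.ne'
  unfold cand toR crs
  simp only [e1, e2, e3, Prod.mk_add_mk, Prod.smul_mk, smul_eq_mul]
  push_cast
  refine Prod.ext ?_ (Prod.ext ?_ ?_)
  · show _ = _
    have : (p.2.1 : ℝ) / SC * (q.2.2 / SC) - p.2.2 / SC * (q.2.1 / SC) = a / SC := by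
      field_simp
      linarith
    rw [this]
    ring
  · show _ = _
    have : (p.2.2 : ℝ) / SC * (q.1 / SC) - p.1 / SC * (q.2.2 / SC) = b / SC := by
      field_simp
      linarith
    rw [this]
    ring
  · show _ = _
    have : (p.1 : ℝ) / SC * (q.2.1 / SC) - p.2.1 / SC * (q.1 / SC) = c / SC := by
      field_simp
      linarith
    rw [this]
    ring

/-- a blocked candidate is not twice a vector outside of the state -/
theorem blocked_false (hT : Stmt_TOR) {X : Fin 11 → R3} (hX : GapR X) {L : St} (hL : Inv X L)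
    {k : Fin 11} (hk : ¬ ∃ z ∈ L, X k = toR z.1) {c2 : Z3} (hb : blocked L c2 = true)
    (hw : X k + X k = toR c2) : False := by
  unfold blocked at hb
  rw [List.any_eq_true] at hb
  obtain ⟨z, hzL, hz⟩ := hb
  have hSR := SC_pos
  rw [Bool.or_eq_true] at hz
  rcases hz with hz | hz
  · simp only [Bool.and_eq_true, beq_iff_eq] at hz
    obtain ⟨⟨h1, h2⟩, h3⟩ := hz
    apply hk
    refine ⟨z, hzL, ?_⟩
    have w1 := congrArg Prod.fst hw
    have w2 := congrArg (fun v : R3 => v.2.1) hw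
    have w3 := congrArg (fun v : R3 => v.2.2) hw
    simp only [toR, Prod.fst_add, Prod.snd_add] at w1 w2 w3
    rw [← h1] at w1
    rw [← h2] at w2
    rw [← h3] at w3
    push_cast at w1 w2 w3
    unfold toR
    refine Prod.ext ?_ (Prod.ext ?_ ?_)
    · show (X k).1 = _
      have : (2 : ℝ) * z.1.1 / SC = 2 * (z.1.1 / SC) := by ring
      linarith
    · show (X k).2.1 = _
      have : (2 : ℝ) * z.1.2.1 / SC = 2 * (z.1.2.1 / SC) := by ring
      linarith
    · show (X k).2.2 = _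
      have : (2 : ℝ) * z.1.2.2 / SC = 2 * (z.1.2.2 / SC) := by ring
      linarith
  · rw [Bool.and_eq_true, decide_eq_true_eq] at hz
    obtain ⟨h1, h2⟩ := hz
    have h2' : dz z.1 c2 ≠ 2 * (SC * SC) := by
      intro h
      rw [h] at h2
      simp at h2
    obtain ⟨l, hl, -⟩ := hL.mem z hzL
    have hlk : l ≠ k := by
      rintro rfl
      exact hk ⟨z, hzL, hl⟩
    have hd : 2 * dt (X l) (X k) = (dz z.1 c2 : ℝ) / ((SC : ℝ) * SC) := by
      rw [← dt_add_self, hw, hl, hT.2.1]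
    have hSS : (0 : ℝ) < (SC : ℝ) * SC := mul_pos hSR hSR
    have hpos : 0 < dt (X l) (X k) := by
      have : (0 : ℝ) < (dz z.1 c2 : ℝ) / ((SC : ℝ) * SC) := by
        apply div_pos _ hSS
        exact_mod_cast h1
      linarith
    rcases hX.ips l k hlk with h | h
    · rw [h, eq_div_iff hSS.ne'] at hd
      apply h2'
      have : ((dz z.1 c2 : ℤ) : ℝ) = ((2 * (SC * SC) : ℤ) : ℝ) := by
        push_cast
        linarith
      exact_mod_cast this
    · linarith

end QA_

open QA_ in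
theorem stmt_QA (h1 : Stmt_TOR) (h2 : Stmt_BR) (h3 : Stmt_BS) (h4 : Stmt_NC) : Stmt_QA := by
  classical
  intro X hX L hL hU hq
  obtain ⟨hcard, hix, -⟩ := h2 X hX L hL
  unfold qall at hq
  rw [Bool.and_eq_true, decide_eq_true_eq] at hq
  obtain ⟨hlt, hall⟩ := hq
  have hsum : stubs L = ∑ i ∈ ix X L, ((nb X i) \ (ix X L)).card := by
    unfold stubs
    exact (h3 X hX L hL (stub L) (fun i => ((nb X i) \ (ix X L)).card)).1
      (fun z hz i hi => (hU z hz i hi).symm)
  have hdisj : ∀ i ∈ ix X L, ∀ j ∈ ix X L, i ≠ j →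
      Disjoint ((nb X i) \ (ix X L)) ((nb X j) \ (ix X L)) := by
    intro i hi j hj hij
    rw [Finset.disjoint_left]
    intro k hk1 hk2
    rw [Finset.mem_sdiff, mem_nb] at hk1 hk2
    obtain ⟨z, hzL, hz⟩ := (hix i).1 hi
    obtain ⟨y, hyL, hy⟩ := (hix j).1 hj
    have hkn : ¬ ∃ z ∈ L, X k = toR z.1 := fun h => hk1.2 ((hix k).2 h)
    have hzpos : 0 < stub L z := by
      rw [← hU z hzL i hz]
      exact Finset.card_pos.2 ⟨k, Finset.mem_sdiff.2 ⟨mem_nb.2 hk1.1, hk1.2⟩⟩
    have hypos : 0 < stub L y := by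
      rw [← hU y hyL j hy]
      exact Finset.card_pos.2 ⟨k, Finset.mem_sdiff.2 ⟨mem_nb.2 hk2.1, hk2.2⟩⟩
    rw [List.all_eq_true] at hall
    have ha := hall z (List.mem_filter.2 ⟨hzL, by simpa using hzpos⟩)
    rw [List.all_eq_true] at ha
    have hb := ha y (List.mem_filter.2 ⟨hyL, by simpa using hypos⟩)
    rw [Bool.or_eq_true, beq_iff_eq] at hb
    rcases hb with hb | hb
    · apply hij
      apply inj hX
      rw [hz, hy, hb]
    · unfold conf at hb
      rw [Bool.or_eq_true, decide_eq_true_eq] at hb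
      have hSS : (0 : ℝ) < (SC : ℝ) * SC := mul_pos SC_pos SC_pos
      have hxy : dt (X i) (X j) = (dz z.1 y.1 : ℝ) / ((SC : ℝ) * SC) := by
        rw [hz, hy, h1.2.1]
      rcases hb with hb | hb
      · have hge := h4.1 (X i) (X j) (X k) (hX.nrm i) (hX.nrm j) (hX.nrm k) hk1.1 hk2.1
        rw [hxy, le_div_iff₀ hSS] at hge
        have hb' : ((dz z.1 y.1 : ℤ) : ℝ) < ((-(SC * SC) : ℤ) : ℝ) := by exact_mod_cast hb
        push_cast at hb'
        linarith
      · simp only [Bool.and_eq_true, beq_iff_eq] at hb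
        obtain ⟨⟨⟨h0, hce⟩, hb1⟩, hb2⟩ := hb
        have h00 : dt (X i) (X j) = 0 := by rw [hxy, h0]; simp
        have hw := h4.2 (X i) (X j) (X k) (hX.nrm i) (hX.nrm j) (hX.nrm k) hk1.1 hk2.1 h00
        rcases hw with hw | hw
        · refine blocked_false h1 hX hL hkn hb1 ?_
          rw [hw, cand_toR 1 z.1 y.1 hce, hz, hy, Int.cast_one, one_smul]
        · refine blocked_false h1 hX hL hkn hb2 ?_
          rw [hw, cand_toR (-1) z.1 y.1 hce, hz, hy, Int.cast_neg, Int.cast_one, neg_smul,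
            one_smul, sub_eq_add_neg]
  have hbU : (∑ i ∈ ix X L, ((nb X i) \ (ix X L)).card) =
      ((ix X L).biUnion fun i => (nb X i) \ (ix X L)).card :=
    (Finset.card_biUnion hdisj).symm
  have hsub : ((ix X L).biUnion fun i => (nb X i) \ (ix X L)) ⊆ (ix X L)ᶜ := by
    intro k hk
    rw [Finset.mem_biUnion] at hk
    obtain ⟨i, -, hk⟩ := hk
    rw [Finset.mem_sdiff] at hk
    exact Finset.mem_compl.2 hk.2
  have hle := Finset.card_le_card hsub
  rw [Finset.card_compl, Fintype.card_fin, hcard] at hle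
  have hcl : L.length ≤ 11 := by
    rw [← hcard]
    exact (Finset.card_le_univ _).trans (by rw [Fintype.card_fin])
  rw [← hbU, ← hsum] at hle
  omega

end MPgap
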