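import Pool.Agent.Work.MP_def58e_gap.Interface

/-!
# MP_def58e_co, gap theorem: block QP (helper68)
-/

namespace MPgap.QP_

theorem SC_pos : (0 : ℝ) < ((SC : ℤ) : ℝ) := by
  unfold SC
  norm_num

/-- a scaled integer inner product below `-SC²` -/
theorem lt_of_dz {a b : Z3} (h1 : Stmt_TOR) (h : dz a b < -(SC * SC)) :
    dt (toR a) (toR b) < -1 := by
  rw [h1.2.1 a b, div_lt_iff₀ (mul_pos SC_pos SC_pos)]
  have h' : ((dz a b : ℤ) : ℝ) < ((-(SC * SC) : ℤ) : ℝ) := by exact_mod_cast h
  push_cast at h'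
  linarith

end MPgap.QP_

namespace MPgap

open Finset

theorem stmt_QP (h1 : Stmt_TOR) (h2 : Stmt_BR) (h3 : Stmt_NC) : Stmt_QP := by
  intro X hX L hL hU hq
  classical
  unfold qpair at hq
  simp only [List.any_eq_true, Bool.and_eq_true, decide_eq_true_eq] at hq
  obtain ⟨z, hz, y, hy, hd, hc⟩ := hq
  obtain ⟨i, hi, -⟩ := hL.mem z hz
  obtain ⟨j, hj, -⟩ := hL.mem y hy
  have hlt : dt (X i) (X j) < -1 := by
    rw [hi, hj]
    exact QP_.lt_of_dz h1 hd
  have hdis : Disjoint (nb X i \ ix X L) (nb X j \ ix X L) := by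
    rw [Finset.disjoint_left]
    intro w hw1 hw2
    rw [Finset.mem_sdiff] at hw1 hw2
    have ha : adj X i w := (Finset.mem_filter.1 hw1.1).2
    have hb : adj X j w := (Finset.mem_filter.1 hw2.1).2
    have := h3.1 (X i) (X j) (X w) (hX.nrm i) (hX.nrm j) (hX.nrm w) ha hb
    linarith
  have hsub : (nb X i \ ix X L) ∪ (nb X j \ ix X L) ⊆ (ix X L)ᶜ := by
    intro w hw
    rw [Finset.mem_union, Finset.mem_sdiff, Finset.mem_sdiff] at hw
    rw [Finset.mem_compl]
    rcases hw with hw | hw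
    · exact hw.2
    · exact hw.2
  have hcard := Finset.card_le_card hsub
  rw [Finset.card_union_of_disjoint hdis, Finset.card_compl, Fintype.card_fin,
    (h2 X hX L hL).1, hU z hz i hi, hU y hy j hj] at hcard
  have hle : (ix X L).card ≤ 11 := by
    have := Finset.card_le_univ (ix X L)
    simpa using this
  rw [(h2 X hX L hL).1] at hle
  omega

end MPgap
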