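import Mathlib
import Pool.Agent.Work.MP_def58e_gap.Interface
import Pool.Agent.Work.MP_def58e_gap.G_CNT

set_option autoImplicit false

/-! # MP_def58e_co, gap theorem: block RA (helper93) -/

namespace MPgap

open Finset

namespace RA_

open CNT_

theorem adj_comm {X : Fin 11 → R3} {i j : Fin 11} : adj X i j ↔ adj X j i :=
  ⟨adj_symm, adj_symm⟩

open Classical in
/-- an adjacent pair counts -/
theorem pair_mem {X : Fin 11 → R3} {A : Finset (Fin 11)} {u v : Fin 11} (hu : u ∈ A) (hv : v ∈ A)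
    (h : adj X u v) (hne : u ≠ v) : (min u v, max u v) ∈ (A ×ˢ A).filter fun p =>
      p.1 < p.2 ∧ adj X p.1 p.2 := by
  rw [Finset.mem_filter, Finset.mem_product]
  rcases lt_or_gt_of_ne hne with h1 | h1
  · rw [min_eq_left h1.le, max_eq_right h1.le]
    exact ⟨⟨hu, hv⟩, h1, h⟩
  · rw [min_eq_right h1.le, max_eq_left h1.le]
    exact ⟨⟨hv, hu⟩, h1, adj_symm h⟩

theorem one_le {X : Fin 11 → R3} {A : Finset (Fin 11)} {u v : Fin 11} (hu : u ∈ A) (hv : v ∈ A)
    (h : adj X u v) (hne : u ≠ v) : 1 ≤ prs X A := by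
  classical
  exact Finset.card_pos.2 ⟨_, pair_mem hu hv h hne⟩

theorem two_le {X : Fin 11 → R3} {A : Finset (Fin 11)} {u v w : Fin 11} (hu : u ∈ A) (hv : v ∈ A)
    (hw : w ∈ A) (h : adj X u v) (h' : adj X u w) (hne : u ≠ v) (hne' : u ≠ w) (hvw : v ≠ w) :
    2 ≤ prs X A := by
  classical
  refine Finset.one_lt_card.2 ⟨_, pair_mem hu hv h hne, _, pair_mem hu hw h' hne', ?_⟩
  intro he
  have h1 := (Prod.mk.inj he).1
  have h2 := (Prod.mk.inj he).2
  rcases lt_or_gt_of_ne hne with a | a <;> rcases lt_or_gt_of_ne hne' with b | b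
  · rw [max_eq_right a.le, max_eq_right b.le] at h2; exact hvw h2
  · rw [min_eq_left a.le, min_eq_right b.le] at h1; exact hne' h1
  · rw [min_eq_right a.le, min_eq_left b.le] at h1; exact hne h1.symm
  · rw [min_eq_right a.le, min_eq_right b.le] at h1; exact hvw h1

/-- four vertices with five edges -/
theorem four {X : Fin 11 → R3} (hX : GapR X) {M : Finset (Fin 11)} (hM : M.card = 4)
    (h5 : prs X M = 5) : ∃ a b c d, M = {a, b, c, d} ∧ a ≠ b ∧ a ≠ c ∧ a ≠ d ∧ b ≠ c ∧ b ≠ d ∧
      c ≠ d ∧ adj X a b ∧ adj X a c ∧ adj X a d ∧ adj X b c ∧ adj X b d ∧ ¬ adj X c d := by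
  classical
  have hin := inside hX M
  rw [h5] at hin
  have hsub : ∀ v ∈ M, nb X v ∩ M ⊆ M.erase v := by
    intro v _ u hu
    rw [Finset.mem_inter, mem_nb] at hu
    rw [Finset.mem_erase]
    exact ⟨fun h => not_adj_self hX v (h ▸ hu.1), hu.2⟩
  have hle : ∀ v ∈ M, (nb X v ∩ M).card ≤ 3 := by
    intro v hv
    have := Finset.card_le_card (hsub v hv)
    rw [Finset.card_erase_of_mem hv, hM] at this
    exact this
  obtain ⟨c, hc, hc3⟩ : ∃ c ∈ M, (nb X c ∩ M).card < 3 := by
    by_contra hcon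
    push Not at hcon
    have : ∑ v ∈ M, 3 ≤ ∑ v ∈ M, (nb X v ∩ M).card := Finset.sum_le_sum hcon
    rw [hin, Finset.sum_const, hM] at this
    norm_num at this
  obtain ⟨d, hd, hcd⟩ : ∃ d ∈ M.erase c, ¬ adj X c d := by
    by_contra hcon
    push Not at hcon
    have : M.erase c ⊆ nb X c ∩ M := by
      intro u hu
      rw [Finset.mem_inter, mem_nb]
      exact ⟨hcon u hu, Finset.mem_of_mem_erase hu⟩
    have := Finset.card_le_card this
    rw [Finset.card_erase_of_mem hc, hM] at this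
    omega
  have hdM := Finset.mem_of_mem_erase hd
  have hdc := Finset.ne_of_mem_erase hd
  have hd3 : (nb X d ∩ M).card ≤ 2 := by
    have h1 : nb X d ∩ M ⊆ (M.erase d).erase c := by
      intro u hu
      rw [Finset.mem_erase]
      refine ⟨?_, hsub d hdM hu⟩
      rintro rfl
      rw [Finset.mem_inter, mem_nb] at hu
      exact hcd (adj_symm hu.1)
    have := Finset.card_le_card h1
    rw [Finset.card_erase_of_mem (Finset.mem_erase.2 ⟨hdc.symm, hc⟩),
      Finset.card_erase_of_mem hdM, hM] at this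
    exact this
  have hcard2 : ((M.erase c).erase d).card = 2 := by
    rw [Finset.card_erase_of_mem hd, Finset.card_erase_of_mem hc, hM]
  obtain ⟨a, b, hab, hset⟩ := Finset.card_eq_two.1 hcard2
  have haM : a ∈ (M.erase c).erase d := by rw [hset]; simp
  have hbM : b ∈ (M.erase c).erase d := by rw [hset]; simp
  have ha1 := Finset.ne_of_mem_erase haM
  have ha2 := Finset.ne_of_mem_erase (Finset.mem_of_mem_erase haM)
  have ha3 := Finset.mem_of_mem_erase (Finset.mem_of_mem_erase haM)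
  have hb1 := Finset.ne_of_mem_erase hbM
  have hb2 := Finset.ne_of_mem_erase (Finset.mem_of_mem_erase hbM)
  have hb3 := Finset.mem_of_mem_erase (Finset.mem_of_mem_erase hbM)
  have hMeq : M = {a, b, c, d} := by
    rw [← Finset.insert_erase hc, ← Finset.insert_erase hd, hset]
    ext u
    simp only [Finset.mem_insert, Finset.mem_singleton]
    tauto
  have hs : (nb X a ∩ M).card + (nb X b ∩ M).card + (nb X c ∩ M).card + (nb X d ∩ M).card =
      10 := by
    have : ∑ v ∈ ({a, b, c, d} : Finset (Fin 11)), (nb X v ∩ M).card = 2 * 5 := by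
      rw [← hMeq]; exact hin
    rw [Finset.sum_insert (by simp [hab, ha1, ha2]), Finset.sum_insert (by simp [hb1, hb2]),
      Finset.sum_insert (by simp [hdc.symm]), Finset.sum_singleton] at this
    omega
  have hla := hle a ha3
  have hlb := hle b hb3
  have full : ∀ v ∈ M, (nb X v ∩ M).card = 3 → ∀ u ∈ M, u ≠ v → adj X v u := by
    intro v hv h3 u hu huv
    have : nb X v ∩ M = M.erase v := Finset.eq_of_subset_of_card_le (hsub v hv) (by
      rw [Finset.card_erase_of_mem hv, hM, h3])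
    have h4 : u ∈ nb X v ∩ M := by rw [this]; exact Finset.mem_erase.2 ⟨huv, hu⟩
    rw [Finset.mem_inter, mem_nb] at h4
    exact h4.1
  have fa := full a ha3 (by omega)
  have fb := full b hb3 (by omega)
  exact ⟨a, b, c, d, hMeq, hab, ha2, ha1, hb2, hb1, hdc.symm, fa b hb3 hab.symm,
    fa c hc ha2.symm, fa d hdM ha1.symm, fb c hc hb2.symm, fb d hdM hb1.symm, hcd⟩

theorem prs_mono (X : Fin 11 → R3) {A B : Finset (Fin 11)} (h : A ⊆ B) : prs X A ≤ prs X B := by
  classical
  unfold prs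
  apply Finset.card_le_card
  intro p hp
  rw [Finset.mem_filter, Finset.mem_product] at hp ⊢
  exact ⟨⟨h hp.1.1, h hp.1.2⟩, hp.2⟩

end RA_

open RA_ CNT_ in
theorem stmt_RA (h1 : Stmt_DEG4) (h2 : Stmt_TV2) (h3 : Stmt_ANTI) (h4 : Stmt_TOR) (h5 : Stmt_BR)
    (h6 : Stmt_BS) (_h7 : Stmt_CNT) : Stmt_RA := by
  classical
  intro X hB L hL hU hp hr
  obtain ⟨hG, _, hT15⟩ := hB
  obtain ⟨hcard, hix, hdt⟩ := h5 X hG L hL
  unfold ralpha at hr
  simp only [Bool.and_eq_true, beq_iff_eq, decide_eq_true_eq] at hr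
  obtain ⟨⟨⟨hlen, hst⟩, hsT⟩, hall⟩ := hr
  rw [List.all_eq_true] at hall
  have hone : ∀ z ∈ L, 0 < stub L z → stub L z = 1 ∧
      ∀ y ∈ L, 0 < stub L y → dz z.1 y.1 ≠ -(2 * (SC * SC)) := by
    intro z hz hz0
    have hz1 := hall z (by rw [List.mem_filter]; exact ⟨hz, by simpa using hz0⟩)
    simp only [Bool.and_eq_true, beq_iff_eq] at hz1
    refine ⟨hz1.1, ?_⟩
    intro y hy hy0 hd
    have hy1 := List.all_eq_true.mp hz1.2 y
      (by rw [List.mem_filter]; exact ⟨hy, by simpa using hy0⟩)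
    rw [hd] at hy1
    simp at hy1
  set I := ix X L with hI
  have hMc : (Iᶜ).card = 4 := by
    rw [Finset.card_compl, hcard, hlen]; simp
  obtain ⟨a, b, c, d, hM, hab, hac, had, hbc, hbd, hcd, aab, aac, aad, abc, abd, ncd⟩ :=
    four hG hMc hp
  have hmem : ∀ i, i ∈ I ∨ i = a ∨ i = b ∨ i = c ∨ i = d := by
    intro i
    by_cases h : i ∈ I
    · exact Or.inl h
    · right
      have : i ∈ Iᶜ := Finset.mem_compl.2 h
      rw [hM] at this
      simpa using this
  have hnI : ∀ i, i ∈ ({a, b, c, d} : Finset (Fin 11)) → i ∉ I := by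
    intro i hi
    rw [← hM] at hi
    exact Finset.mem_compl.1 hi
  have naI := hnI a (by simp)
  have nbI := hnI b (by simp)
  have ncI := hnI c (by simp)
  have ndI := hnI d (by simp)
  -- free places
  have hfree : ∀ i ∈ I, ∀ w, w ∉ I → adj X i w → ∃ z ∈ L, X i = toR z.1 ∧ 0 < stub L z ∧
      ∀ w', w' ∉ I → adj X i w' → w' = w := by
    intro i hi w hw hiw
    obtain ⟨z, hz, hXz⟩ := (hix i).mp hi
    have hcz := hU z hz i hXz
    have hw1 : w ∈ nb X i \ I := by rw [Finset.mem_sdiff, mem_nb]; exact ⟨hiw, hw⟩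
    have hpos : 0 < stub L z := by rw [← hcz]; exact Finset.card_pos.2 ⟨w, hw1⟩
    refine ⟨z, hz, hXz, hpos, ?_⟩
    intro w' hw' hiw'
    rw [(hone z hz hpos).1] at hcz
    have hw2 : w' ∈ nb X i \ I := by rw [Finset.mem_sdiff, mem_nb]; exact ⟨hiw', hw'⟩
    exact Finset.card_le_one.1 hcz.le w' hw2 w hw1
  have hsum : ∑ i ∈ I, (nb X i \ I).card = 4 := by
    have := (h6 X hG L hL (fun z => stub L z) (fun i => (nb X i \ ix X L).card)).1
      (fun z hz i hi => (hU z hz i hi).symm)
    rw [← hI] at this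
    rw [← this]
    exact hst
  have hsum2 : (nb X a ∩ I).card + (nb X b ∩ I).card + (nb X c ∩ I).card + (nb X d ∩ I).card =
      4 := by
    have h8 := CNT_.swap X I
    rw [hsum, hM, Finset.sum_insert (by simp [hab, hac, had]),
      Finset.sum_insert (by simp [hbc, hbd]), Finset.sum_insert (by simp [hcd]),
      Finset.sum_singleton] at h8
    omega
  -- triangles
  have hta : 2 ≤ tv X a := two_le (mem_nb.2 aab) (mem_nb.2 aac) (mem_nb.2 aad) abc abd hbc hbd hcd
  have htb : 2 ≤ tv X b := two_le (mem_nb.2 (adj_symm aab)) (mem_nb.2 abc) (mem_nb.2 abd)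
    aac aad hac had hcd
  have htc : 1 ≤ tv X c := one_le (mem_nb.2 (adj_symm aac)) (mem_nb.2 (adj_symm abc)) aab hab
  have htd : 1 ≤ tv X d := one_le (mem_nb.2 (adj_symm aad)) (mem_nb.2 (adj_symm abd)) aab hab
  have hIT : 9 ≤ ∑ i ∈ I, tv X i := by
    refine hsT.trans ?_
    unfold sumT
    refine (h6 X hG L hL (fun z => tvz L z.1) (fun i => tv X i)).2 ?_
    intro z hz i hi
    rw [(hdt z hz i hi).2]
    exact prs_mono X Finset.inter_subset_left
  have hsplit : ∑ i ∈ I, tv X i + (tv X a + tv X b + tv X c + tv X d) = sT X := by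
    unfold sT
    rw [← Finset.sum_add_sum_compl I, hM, Finset.sum_insert (by simp [hab, hac, had]),
      Finset.sum_insert (by simp [hbc, hbd]), Finset.sum_insert (by simp [hcd]),
      Finset.sum_singleton]
    ring
  have hdc : dg X c ≠ 4 := fun h => by
    have := h2 X hG c h
    omega
  have hdd : dg X d ≠ 4 := fun h => by
    have := h2 X hG d h
    omega
  -- degrees
  have hdeg : ∀ v, dg X v = (nb X v ∩ I).card + (nb X v \ I).card := fun v =>
    (Finset.card_inter_add_card_sdiff _ _).symm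
  have oa : 3 ≤ (nb X a \ I).card := by
    have hs : ({b, c, d} : Finset (Fin 11)) ⊆ nb X a \ I := by
      intro u hu
      simp only [Finset.mem_insert, Finset.mem_singleton] at hu
      rw [Finset.mem_sdiff, mem_nb]
      rcases hu with rfl | rfl | rfl
      · exact ⟨aab, nbI⟩
      · exact ⟨aac, ncI⟩
      · exact ⟨aad, ndI⟩
    have := Finset.card_le_card hs
    rwa [Finset.card_eq_three.2 ⟨b, c, d, hbc, hbd, hcd, rfl⟩] at this
  have ob : 3 ≤ (nb X b \ I).card := by
    have hs : ({a, c, d} : Finset (Fin 11)) ⊆ nb X b \ I := by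
      intro u hu
      simp only [Finset.mem_insert, Finset.mem_singleton] at hu
      rw [Finset.mem_sdiff, mem_nb]
      rcases hu with rfl | rfl | rfl
      · exact ⟨adj_symm aab, naI⟩
      · exact ⟨abc, ncI⟩
      · exact ⟨abd, ndI⟩
    have := Finset.card_le_card hs
    rwa [Finset.card_eq_three.2 ⟨a, c, d, hac, had, hcd, rfl⟩] at this
  have oc : 2 ≤ (nb X c \ I).card := by
    have hs : ({a, b} : Finset (Fin 11)) ⊆ nb X c \ I := by
      intro u hu
      simp only [Finset.mem_insert, Finset.mem_singleton] at hu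
      rw [Finset.mem_sdiff, mem_nb]
      rcases hu with rfl | rfl
      · exact ⟨adj_symm aac, naI⟩
      · exact ⟨adj_symm abc, nbI⟩
    have := Finset.card_le_card hs
    rwa [Finset.card_pair hab] at this
  have od : 2 ≤ (nb X d \ I).card := by
    have hs : ({a, b} : Finset (Fin 11)) ⊆ nb X d \ I := by
      intro u hu
      simp only [Finset.mem_insert, Finset.mem_singleton] at hu
      rw [Finset.mem_sdiff, mem_nb]
      rcases hu with rfl | rfl
      · exact ⟨adj_symm aad, naI⟩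
      · exact ⟨adj_symm abd, nbI⟩
    have := Finset.card_le_card hs
    rwa [Finset.card_pair hab] at this
  have da := hdeg a
  have db := hdeg b
  have dc := hdeg c
  have dd := hdeg d
  have d4a := h1 X hG a
  have d4b := h1 X hG b
  have d4c := h1 X hG c
  have d4d := h1 X hG d
  have ea : (nb X a ∩ I).card = 1 := by omega
  have eb : (nb X b ∩ I).card = 1 := by omega
  have dga : dg X a = 4 := by omega
  have dgb : dg X b = 4 := by omega
  obtain ⟨p, hpset⟩ := Finset.card_eq_one.1 ea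
  obtain ⟨q, hqset⟩ := Finset.card_eq_one.1 eb
  have hp1 : p ∈ nb X a ∩ I := by rw [hpset]; simp
  have hq1 : q ∈ nb X b ∩ I := by rw [hqset]; simp
  rw [Finset.mem_inter, mem_nb] at hp1 hq1
  obtain ⟨zp, hzp, hXp, hsp, hup⟩ := hfree p hp1.2 a naI (adj_symm hp1.1)
  obtain ⟨zq, hzq, hXq, hsq, huq⟩ := hfree q hq1.2 b nbI (adj_symm hq1.1)
  have nep : ∀ w, w ∉ I → w ≠ p := fun w hw h => hw (h ▸ hp1.2)
  have neq : ∀ w, w ∉ I → w ≠ q := fun w hw h => hw (h ▸ hq1.2)
  have Ap := h3 X hG a b c d p dga aab aac aad hp1.1 hbc hbd hcd (nep b nbI) (nep c ncI)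
    (nep d ndI) abc abd (fun h => hac.symm (hup c ncI (adj_symm h)))
    (fun h => had.symm (hup d ndI (adj_symm h)))
  have Aq := h3 X hG b a c d q dgb (adj_symm aab) abc abd hq1.1 hac had hcd (neq a naI)
    (neq c ncI) (neq d ndI) aac aad (fun h => hbc.symm (huq c ncI (adj_symm h)))
    (fun h => hbd.symm (huq d ndI (adj_symm h)))
  have hdt2 : dt (X p) (X q) = -2 := by
    rw [Ap, Aq]
    have n1 := hG.nrm a
    have n2 := hG.nrm b
    unfold adj dt at aab
    unfold dt at n1 n2 ⊢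
    simp only [Prod.fst_sub, Prod.snd_sub]
    linarith
  have hne := (hone zp hzp hsp).2 zq hzq hsq
  apply hne
  rw [hXp, hXq, h4.2.1] at hdt2
  have hSC : ((SC : ℝ) * SC) ≠ 0 := by
    have : (SC : ℝ) ≠ 0 := by norm_num [SC]
    exact mul_ne_zero this this
  rw [div_eq_iff hSC] at hdt2
  have : (dz zp.1 zq.1 : ℝ) = ((-(2 * (SC * SC)) : ℤ) : ℝ) := by
    rw [hdt2]; push_cast; ring
  exact_mod_cast this

end MPgap
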