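import Pool.Agent.Work.MP_def58e_gap.Interface

/-! Block RG of the gap theorem (MP_def58e_co). helper33 -/

namespace MPgap

open Finset

namespace RG_

lemma dt_comm (x y : R3) : dt x y = dt y x := by unfold dt; ring

lemma adj_comm {X : Fin 11 → R3} {i j : Fin 11} : adj X i j ↔ adj X j i := by
  unfold adj; rw [dt_comm]

lemma mem_nb {X : Fin 11 → R3} {i j : Fin 11} : j ∈ nb X i ↔ adj X i j := by
  classical
  unfold nb
  simp

lemma not_adj_self {X : Fin 11 → R3} (hG : GapR X) (i : Fin 11) : ¬ adj X i i := by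
  intro h
  have h1 := hG.nrm i
  unfold adj at h
  linarith

lemma card_lt (M : Finset (Fin 11)) (hM : M.card = 3) :
    ((M ×ˢ M).filter fun p => p.1 < p.2).card = 3 := by
  have hoff : M.offDiag = ((M ×ˢ M).filter fun p => p.1 < p.2) ∪
      ((M ×ˢ M).filter fun p => p.2 < p.1) := by
    ext p
    rw [Finset.mem_offDiag, Finset.mem_union, Finset.mem_filter, Finset.mem_filter,
      Finset.mem_product, ne_iff_lt_or_gt]
    tauto
  have hdis : Disjoint ((M ×ˢ M).filter fun p => p.1 < p.2)
      ((M ×ˢ M).filter fun p => p.2 < p.1) := by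
    rw [Finset.disjoint_left]
    intro p h1 h2
    exact lt_asymm (Finset.mem_filter.mp h1).2 (Finset.mem_filter.mp h2).2
  have hsw : ((M ×ˢ M).filter fun p => p.2 < p.1).card =
      ((M ×ˢ M).filter fun p => p.1 < p.2).card := by
    refine Finset.card_bij (fun p _ => p.swap) ?_ ?_ ?_
    · intro p hp
      rw [Finset.mem_filter, Finset.mem_product] at hp ⊢
      exact ⟨⟨hp.1.2, hp.1.1⟩, hp.2⟩
    · intro p _ q _ h
      exact Prod.swap_injective h
    · intro p hp
      rw [Finset.mem_filter, Finset.mem_product] at hp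
      refine ⟨p.swap, ?_, Prod.swap_swap p⟩
      rw [Finset.mem_filter, Finset.mem_product]
      exact ⟨⟨hp.1.2, hp.1.1⟩, hp.2⟩
  have h1 := Finset.card_union_of_disjoint hdis
  rw [← hoff, Finset.offDiag_card, hM, hsw] at h1
  omega

end RG_

open RG_ in
theorem stmt_RG (h1 : Stmt_DEG4) (h2 : Stmt_TV2) (h3 : Stmt_TOR) (h4 : Stmt_BR)
    (h5 : Stmt_BS) : Stmt_RG := by
  classical
  intro X hG L hL hU hp hr
  obtain ⟨hcard, hix, _⟩ := h4 X hG L hL
  unfold rgamma at hr
  simp only [Bool.and_eq_true, beq_iff_eq] at hr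
  obtain ⟨⟨hlen, hst⟩, hall⟩ := hr
  rw [List.all_eq_true] at hall
  have hadz := h3.2.2.1
  -- facts on the entries with a free place
  have hone : ∀ z ∈ L, 0 < stub L z → stub L z = 1 ∧
      ∀ y ∈ L, 0 < stub L y → ¬ dt (toR z.1) (toR y.1) = 1 := by
    intro z hz hz0
    have hz1 := hall z (by rw [List.mem_filter]; exact ⟨hz, by simpa using hz0⟩)
    simp only [Bool.and_eq_true, beq_iff_eq] at hz1
    refine ⟨hz1.1, ?_⟩
    intro y hy hy0 hd
    have hy1 := List.all_eq_true.mp hz1.2 y
      (by rw [List.mem_filter]; exact ⟨hy, by simpa using hy0⟩)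
    rw [← hadz] at hd
    rw [hd] at hy1
    simp at hy1
  set M : Finset (Fin 11) := (ix X L)ᶜ with hMdef
  have hMc : M.card = 3 := by
    rw [hMdef, Finset.card_compl, hcard, hlen]; simp
  have hmemM : ∀ i, i ∈ M ↔ i ∉ ix X L := by intro i; rw [hMdef, Finset.mem_compl]
  -- all pairs of M are adjacent
  have hMadj : ∀ a ∈ M, ∀ b ∈ M, a ≠ b → adj X a b := by
    have hsub : ((M ×ˢ M).filter fun p => p.1 < p.2 ∧ adj X p.1 p.2) ⊆
        ((M ×ˢ M).filter fun p => p.1 < p.2) := by
      intro p hp'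
      rw [Finset.mem_filter] at hp' ⊢
      exact ⟨hp'.1, hp'.2.1⟩
    have heq := Finset.eq_of_subset_of_card_le hsub (by
      rw [card_lt M hMc]
      exact hp.ge)
    have hlt : ∀ a ∈ M, ∀ b ∈ M, a < b → adj X a b := by
      intro a ha b hb hab
      have : (a, b) ∈ ((M ×ˢ M).filter fun p => p.1 < p.2) := by
        rw [Finset.mem_filter, Finset.mem_product]; exact ⟨⟨ha, hb⟩, hab⟩
      rw [← heq, Finset.mem_filter] at this
      exact this.2.2
    intro a ha b hb hab
    rcases lt_or_gt_of_ne hab with h | h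
    · exact hlt a ha b hb h
    · exact adj_comm.mp (hlt b hb a ha h)
  -- free places of an index of the state
  have hfree : ∀ i ∈ ix X L, ∃ z ∈ L, X i = toR z.1 ∧ (nb X i \ ix X L).card = stub L z := by
    intro i hi
    obtain ⟨z, hz, hXz⟩ := (hix i).mp hi
    exact ⟨z, hz, hXz, hU z hz i hXz⟩
  have hsum : ∑ i ∈ ix X L, (nb X i \ ix X L).card = 4 := by
    have := (h5 X hG L hL (fun z => stub L z) (fun i => (nb X i \ ix X L).card)).1
      (fun z hz i hi => (hU z hz i hi).symm)
    rw [← this]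
    exact hst
  have hdc : ∑ i ∈ ix X L, (nb X i \ ix X L).card = ∑ w ∈ M, (nb X w ∩ ix X L).card := by
    have e1 : ∀ i ∈ ix X L, (nb X i \ ix X L).card = ∑ w ∈ M, if adj X i w then 1 else 0 := by
      intro i _
      rw [← Finset.card_filter]
      congr 1
      ext w
      rw [Finset.mem_sdiff, Finset.mem_filter, mem_nb, hmemM]
      tauto
    have e2 : ∀ w ∈ M, (nb X w ∩ ix X L).card = ∑ i ∈ ix X L, if adj X i w then 1 else 0 := by
      intro w _
      rw [← Finset.card_filter]
      congr 1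
      ext i
      rw [Finset.mem_inter, Finset.mem_filter, mem_nb, adj_comm]
      tauto
    rw [Finset.sum_congr rfl e1, Finset.sum_congr rfl e2, Finset.sum_comm]
  have hex : ∃ w ∈ M, 1 < (nb X w ∩ ix X L).card := by
    apply Finset.exists_lt_of_sum_lt
    rw [← hdc, hsum]
    simp [hMc]
  obtain ⟨w, hw, hw2⟩ := hex
  -- degree of w
  have hsubn : (M.erase w) ∪ (nb X w ∩ ix X L) ⊆ nb X w := by
    intro a ha
    rcases Finset.mem_union.mp ha with ha | ha
    · rw [Finset.mem_erase] at ha
      exact mem_nb.mpr (hMadj w hw a ha.2 (Ne.symm ha.1))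
    · exact (Finset.mem_inter.mp ha).1
  have hdisj : Disjoint (M.erase w) (nb X w ∩ ix X L) := by
    rw [Finset.disjoint_left]
    intro a ha ha'
    exact (hmemM a).mp (Finset.mem_of_mem_erase ha) (Finset.mem_inter.mp ha').2
  have hce : (M.erase w).card = 2 := by rw [Finset.card_erase_of_mem hw, hMc]
  have hle := Finset.card_le_card hsubn
  rw [Finset.card_union_of_disjoint hdisj, hce] at hle
  have hd4 := h1 X hG w
  have hdg : dg X w = 4 := by
    have : dg X w = (nb X w).card := rfl
    omega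
  have htv := h2 X hG w hdg
  -- at most one adjacent pair of neighbours
  have hkey : ∀ a b, adj X w a → adj X w b → adj X a b → a ∈ M := by
    intro a b hwa hwb hab
    by_contra haM
    have haix : a ∈ ix X L := by
      by_contra h; exact haM ((hmemM a).mpr h)
    obtain ⟨z, hz, hXz, hcz⟩ := hfree a haix
    have hwmem : w ∈ nb X a \ ix X L := by
      rw [Finset.mem_sdiff, mem_nb]
      exact ⟨adj_comm.mp hwa, (hmemM w).mp hw⟩
    have hpos : 0 < stub L z := by
      rw [← hcz]; exact Finset.card_pos.mpr ⟨w, hwmem⟩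
    obtain ⟨hz1, hz2⟩ := hone z hz hpos
    by_cases hb : b ∈ ix X L
    · obtain ⟨y, hy, hXy, hcy⟩ := hfree b hb
      have hwmem' : w ∈ nb X b \ ix X L := by
        rw [Finset.mem_sdiff, mem_nb]
        exact ⟨adj_comm.mp hwb, (hmemM w).mp hw⟩
      have hpos' : 0 < stub L y := by
        rw [← hcy]; exact Finset.card_pos.mpr ⟨w, hwmem'⟩
      refine hz2 y hy hpos' ?_
      rw [← hXz, ← hXy]
      exact hab
    · have hbmem : b ∈ nb X a \ ix X L := by
        rw [Finset.mem_sdiff, mem_nb]
        exact ⟨hab, hb⟩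
      rw [hz1] at hcz
      have := Finset.card_le_one.mp hcz.le w hwmem b hbmem
      rw [← this] at hwb
      exact not_adj_self hG w hwb
  have hone' : tv X w ≤ 1 := by
    unfold tv prs
    rw [Finset.card_le_one]
    have hprop : ∀ p ∈ ((nb X w ×ˢ nb X w).filter fun p => p.1 < p.2 ∧ adj X p.1 p.2),
        p.1 ∈ M.erase w ∧ p.2 ∈ M.erase w ∧ p.1 < p.2 := by
      intro p hp'
      rw [Finset.mem_filter, Finset.mem_product, mem_nb, mem_nb] at hp'
      obtain ⟨⟨ha, hb⟩, hlt, hab⟩ := hp'
      have haM := hkey p.1 p.2 ha hb hab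
      have hbM := hkey p.2 p.1 hb ha (adj_comm.mp hab)
      refine ⟨?_, ?_, hlt⟩
      · rw [Finset.mem_erase]
        exact ⟨fun h => not_adj_self hG w (h ▸ ha), haM⟩
      · rw [Finset.mem_erase]
        exact ⟨fun h => not_adj_self hG w (h ▸ hb), hbM⟩
    obtain ⟨x, y, hxy, hM2⟩ := Finset.card_eq_two.mp hce
    intro p hp' q hq'
    obtain ⟨p1, p2, p3⟩ := hprop p hp'
    obtain ⟨q1, q2, q3⟩ := hprop q hq'
    rw [hM2, Finset.mem_insert, Finset.mem_singleton] at p1 p2 q1 q2
    ext1
    · rcases p1 with p1 | p1 <;> rcases p2 with p2 | p2 <;> rcases q1 with q1 | q1 <;>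
        rcases q2 with q2 | q2 <;> rw [p1, p2] at p3 <;> rw [q1, q2] at q3 <;> rw [p1, q1] <;>
        first
          | exact absurd p3 (lt_irrefl _)
          | exact absurd q3 (lt_irrefl _)
          | exact absurd p3 (lt_asymm q3)
    · rcases p1 with p1 | p1 <;> rcases p2 with p2 | p2 <;> rcases q1 with q1 | q1 <;>
        rcases q2 with q2 | q2 <;> rw [p1, p2] at p3 <;> rw [q1, q2] at q3 <;> rw [p2, q2] <;>
        first
          | exact absurd p3 (lt_irrefl _)
          | exact absurd q3 (lt_irrefl _)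
          | exact absurd p3 (lt_asymm q3)
  omega

end MPgap
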