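import Pool.Agent.Work.MP_def58e_gap.Interface

/-!
# MP_def58e_co, gap theorem: block ROT (helper68)
-/

namespace MPgap.ROT_

/-- the inner product in the basis `v, f, v × f` -/
theorem ip (v f x y : R3) (hv : dt v v = 2) (hf : dt f f = 2) (hvf : dt v f = 1) :
    3 * dt x y = dt x (crs v f) * dt y (crs v f) + 2 * (dt x v * dt y v) + 2 * (dt x f * dt y f)
      - (dt x v * dt y f + dt x f * dt y v) := by
  have key : (dt v v * dt f f - dt v f * dt v f) * dt x y =
      dt x (crs v f) * dt y (crs v f) + dt f f * (dt x v * dt y v) + dt v v * (dt x f * dt y f)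
      - dt v f * (dt x v * dt y f + dt x f * dt y v) := by
    simp only [dt, crs]
    ring
  rw [hv, hf, hvf] at key
  linarith

/-- the vector with coordinates `a, b, c` in the basis `(1,1,0), (1,0,1), (1,-1,-1)` -/
noncomputable def U (a b c : ℝ) : R3 :=
  ((2 * a - b) / 3 + (2 * b - a) / 3 + c / 3, (2 * a - b) / 3 - c / 3, (2 * b - a) / 3 - c / 3)

theorem U_ip (a b c a' b' c' : ℝ) : dt (U a b c) (U a' b' c') =
    (c * c' + 2 * (a * a') + 2 * (b * b') - (a * b' + b * a')) / 3 := by
  simp only [dt, U]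
  ring

/-- the rotated vector -/
noncomputable def T (v f x : R3) : R3 := U (dt x v) (dt x f) (dt x (crs v f))

theorem T_ip (v f x y : R3) (hv : dt v v = 2) (hf : dt f f = 2) (hvf : dt v f = 1) :
    dt (T v f x) (T v f y) = dt x y := by
  have h := ip v f x y hv hf hvf
  unfold T
  rw [U_ip]
  linarith

theorem dt_comm (x y : R3) : dt x y = dt y x := by
  simp only [dt]
  ring

theorem dt_crs_left (v f : R3) : dt v (crs v f) = 0 := by
  simp only [dt, crs]
  ring

theorem dt_crs_right (v f : R3) : dt f (crs v f) = 0 := by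
  simp only [dt, crs]
  ring

theorem SC_ne : ((SC : ℤ) : ℝ) ≠ 0 := by
  unfold SC
  norm_num

theorem U_a0 : U 2 1 0 = toR a0 := by
  have h := SC_ne
  refine Prod.ext ?_ (Prod.ext ?_ ?_)
  · simp only [U, toR, a0, div_self h]
    norm_num
  · simp only [U, toR, a0, div_self h]
    norm_num
  · simp only [U, toR, a0]
    norm_num

theorem U_f0 : U 1 2 0 = toR f0 := by
  have h := SC_ne
  refine Prod.ext ?_ (Prod.ext ?_ ?_)
  · simp only [U, toR, f0, div_self h]
    norm_num
  · simp only [U, toR, f0]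
    norm_num
  · simp only [U, toR, f0, div_self h]
    norm_num

end MPgap.ROT_

namespace MPgap

theorem stmt_ROT (_h1 : Stmt_NBC) : Stmt_ROT := by
  intro X hX v f hvf
  have hv := hX.nrm v
  have hf := hX.nrm f
  refine ⟨fun i => ROT_.T (X v) (X f) (X i), ?_, ?_, ?_⟩
  · intro i j
    exact ROT_.T_ip _ _ _ _ hv hf hvf
  · unfold adj at hvf
    simp only [ROT_.T, hv, hvf, ROT_.dt_crs_left, ROT_.U_a0]
  · unfold adj at hvf
    have hfv : dt (X f) (X v) = 1 := by
      rw [ROT_.dt_comm]
      exact hvf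
    simp only [ROT_.T, hf, hfv, ROT_.dt_crs_right, ROT_.U_f0]

end MPgap
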