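import Pool.Agent.Work.MP_def58e_gap.Interface

/-!
# MP_def58e_co, gap theorem: block ST1 (a vertex of degree 4 with two neighbours of degree 4)
-/

namespace MPgap

open Finset

namespace ST1_

theorem adj_symm {X : Fin 11 → R3} {i j : Fin 11} (h : adj X i j) : adj X j i := by
  unfold adj dt at *
  rw [← h]
  ring

theorem mem_nb {X : Fin 11 → R3} {i j : Fin 11} : j ∈ nb X i ↔ adj X i j := by
  classical
  unfold nb
  exact ⟨fun h => (Finset.mem_filter.1 h).2, fun h => Finset.mem_filter.2 ⟨Finset.mem_univ _, h⟩⟩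

/-- double counting of the edges between a set and its complement -/
theorem swap (X : Fin 11 → R3) (F : Finset (Fin 11)) :
    ∑ v ∈ F, (nb X v \ F).card = ∑ u ∈ Fᶜ, (nb X u ∩ F).card := by
  classical
  have h1 : ∀ v, (nb X v \ F).card = ∑ u ∈ Fᶜ, if adj X v u then 1 else 0 := by
    intro v
    rw [← Finset.sum_filter, Finset.sum_const, smul_eq_mul, mul_one]
    congr 1
    ext u
    rw [Finset.mem_sdiff, mem_nb, Finset.mem_filter, Finset.mem_compl]
    exact and_comm
  have h2 : ∀ u, (nb X u ∩ F).card = ∑ v ∈ F, if adj X v u then 1 else 0 := by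
    intro u
    rw [← Finset.sum_filter, Finset.sum_const, smul_eq_mul, mul_one]
    congr 1
    ext v
    rw [Finset.mem_inter, mem_nb, Finset.mem_filter]
    exact ⟨fun h => ⟨h.2, adj_symm h.1⟩, fun h => ⟨adj_symm h.2, h.1⟩⟩
  rw [Finset.sum_congr rfl fun v _ => h1 v, Finset.sum_congr rfl fun u _ => h2 u,
    Finset.sum_comm]

end ST1_

theorem stmt_ST1 : Stmt_ST1 := by
  intro X _ hlt
  classical
  set F : Finset (Fin 11) := univ.filter fun i => dg X i = 4 with hF
  by_contra hno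
  have h1 : ∀ v ∈ F, (nb X v ∩ F).card ≤ 1 := by
    intro v hv
    by_contra hc
    push Not at hc
    obtain ⟨f, hf, g, hg, hfg⟩ := Finset.one_lt_card.1 hc
    rw [Finset.mem_inter, ST1_.mem_nb] at hf hg
    have hd : ∀ i ∈ F, dg X i = 4 := fun i hi => (Finset.mem_filter.1 hi).2
    exact hno ⟨v, f, g, hd v hv, hd f hf.2, hd g hg.2, hf.1, hg.1, hfg⟩
  have h2 : ∑ v ∈ F, dg X v = 4 * F.card := by
    rw [Finset.sum_congr rfl (fun v hv => (Finset.mem_filter.1 hv).2), Finset.sum_const,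
      smul_eq_mul, mul_comm]
  have h3 : ∑ v ∈ F, dg X v = ∑ v ∈ F, (nb X v ∩ F).card + ∑ v ∈ F, (nb X v \ F).card := by
    rw [← Finset.sum_add_distrib]
    exact Finset.sum_congr rfl fun v _ => (Finset.card_inter_add_card_sdiff _ _).symm
  have h4 : ∑ v ∈ F, (nb X v ∩ F).card ≤ F.card := by
    calc ∑ v ∈ F, (nb X v ∩ F).card ≤ ∑ v ∈ F, 1 := Finset.sum_le_sum h1
      _ = F.card := by rw [Finset.sum_const, smul_eq_mul, mul_one]
  have h5 : ∑ u ∈ Fᶜ, (nb X u ∩ F).card ≤ ∑ u ∈ Fᶜ, dg X u :=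
    Finset.sum_le_sum fun u _ => Finset.card_le_card Finset.inter_subset_left
  have h6 : sD X = ∑ v ∈ F, dg X v + ∑ u ∈ Fᶜ, dg X u := by
    unfold sD
    exact (Finset.sum_add_sum_compl F _).symm
  have h7 := ST1_.swap X F
  omega

end MPgap
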