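import Pool.Agent.Work.MP_def58e_gap.Interface
import Pool.Agent.Work.MP_def58e_gap.G_CNT

/-!
# MP_def58e_co, gap theorem: block ST2 (19 edges and 5 vertices of degree 4)
-/

namespace MPgap

open Finset

namespace ST2_

open Classical in
/-- indicator of an ordered triangle -/
noncomputable def tr (X : Fin 11 → R3) (i j k : Fin 11) : ℕ :=
  if adj X i j ∧ adj X i k ∧ adj X j k then 1 else 0

/-- cyclic symmetry of the indicator -/
theorem tr_cyc (X : Fin 11 → R3) (i j k : Fin 11) : tr X i j k = tr X j k i := by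
  unfold tr
  have h : (adj X i j ∧ adj X i k ∧ adj X j k) ↔ (adj X j k ∧ adj X j i ∧ adj X k i) :=
    ⟨fun h => ⟨h.2.2, CNT_.adj_symm h.1, CNT_.adj_symm h.2.1⟩,
      fun h => ⟨CNT_.adj_symm h.2.1, CNT_.adj_symm h.2.2, h.1⟩⟩
  by_cases h1 : adj X i j ∧ adj X i k ∧ adj X j k
  · rw [if_pos h1, if_pos (h.1 h1)]
  · rw [if_neg h1, if_neg fun h2 => h1 (h.2 h2)]

/-- the ordered triangles at a vertex -/
theorem sum_tr {X : Fin 11 → R3} (hX : GapR X) (i : Fin 11) :
    ∑ j, ∑ k, tr X i j k = 2 * tv X i := by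
  classical
  unfold tv
  rw [← CNT_.inside hX (nb X i)]
  have h1 : ∀ j, ∑ k, tr X i j k = if j ∈ nb X i then (nb X j ∩ nb X i).card else 0 := by
    intro j
    by_cases hj : j ∈ nb X i
    · rw [if_pos hj]
      have hj' := CNT_.mem_nb.1 hj
      have h2 : ∀ k, tr X i j k = if k ∈ nb X j ∩ nb X i then 1 else 0 := by
        intro k
        unfold tr
        by_cases hk : k ∈ nb X j ∩ nb X i
        · rw [if_pos hk]
          rw [Finset.mem_inter, CNT_.mem_nb, CNT_.mem_nb] at hk
          rw [if_pos ⟨hj', hk.2, hk.1⟩]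
        · rw [if_neg hk]
          rw [Finset.mem_inter, CNT_.mem_nb, CNT_.mem_nb] at hk
          rw [if_neg fun h => hk ⟨h.2.2, h.2.1⟩]
      rw [Finset.sum_congr rfl fun k _ => h2 k, Finset.sum_ite_mem, Finset.univ_inter,
        Finset.sum_const, smul_eq_mul, mul_one]
    · rw [if_neg hj]
      refine Finset.sum_eq_zero fun k _ => ?_
      unfold tr
      exact if_neg fun h => hj (CNT_.mem_nb.2 h.1)
  rw [Finset.sum_congr rfl fun j _ => h1 j, Finset.sum_ite_mem, Finset.univ_inter]

/-- a vertex with a triangle -/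
theorem ex_tr {X : Fin 11 → R3} (hX : GapR X) (i : Fin 11) (h : 0 < tv X i) :
    ∃ j k, tr X i j k = 1 := by
  by_contra hno
  push Not at hno
  have h0 : ∑ j, ∑ k, tr X i j k = 0 := by
    refine Finset.sum_eq_zero fun j _ => Finset.sum_eq_zero fun k _ => ?_
    have h1 := hno j k
    unfold tr at *
    by_cases h2 : adj X i j ∧ adj X i k ∧ adj X j k
    · rw [if_pos h2] at h1
      exact absurd rfl h1
    · exact if_neg h2
  have h1 := sum_tr hX i
  omega

end ST2_

theorem stmt_ST2 (h1 : Stmt_TV2) : Stmt_ST2 := by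
  intro X hX hT hc
  classical
  set F : Finset (Fin 11) := univ.filter fun i => dg X i = 4 with hF
  have hd : ∀ i ∈ F, dg X i = 4 := fun i hi => (Finset.mem_filter.1 hi).2
  by_contra hno
  have hle : ∀ v ∈ F, (nb X v ∩ F).card ≤ 1 := by
    intro v hv
    by_contra hc
    push Not at hc
    obtain ⟨f, hf, g, hg, hfg⟩ := Finset.one_lt_card.1 hc
    rw [Finset.mem_inter, CNT_.mem_nb] at hf hg
    exact hno ⟨v, f, g, hd v hv, hd f hf.2, hd g hg.2, hf.1, hg.1, hfg⟩
  -- weights
  let f : Fin 11 → ℕ := fun i => if i ∈ F then 1 else 0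
  have hf1 : ∀ i, i ∈ F → f i = 1 := fun i hi => if_pos hi
  have hf0 : ∀ i, i ∉ F → f i = 0 := fun i hi => if_neg hi
  have hA : ∑ i, ∑ j, ∑ k, ST2_.tr X i j k = 2 * sT X := by
    unfold sT
    rw [Finset.mul_sum]
    exact Finset.sum_congr rfl fun i _ => ST2_.sum_tr hX i
  have hB : ∑ i, ∑ j, ∑ k, f i * ST2_.tr X i j k = 2 * ∑ i ∈ F, tv X i := by
    have h2 : ∀ i, ∑ j, ∑ k, f i * ST2_.tr X i j k = if i ∈ F then 2 * tv X i else 0 := by
      intro i
      have h3 : ∑ j, ∑ k, f i * ST2_.tr X i j k = f i * ∑ j, ∑ k, ST2_.tr X i j k := by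
        rw [Finset.mul_sum]
        exact Finset.sum_congr rfl fun j _ => (Finset.mul_sum _ _ _).symm
      rw [h3, ST2_.sum_tr hX i]
      by_cases hi : i ∈ F
      · rw [hf1 i hi, if_pos hi, one_mul]
      · rw [hf0 i hi, if_neg hi, zero_mul]
    rw [Finset.sum_congr rfl fun i _ => h2 i, Finset.sum_ite_mem, Finset.univ_inter,
      Finset.mul_sum]
  have hB2 : ∑ i, ∑ j, ∑ k, f j * ST2_.tr X i j k = 2 * ∑ i ∈ F, tv X i := by
    rw [← hB, Finset.sum_comm]
    refine Finset.sum_congr rfl fun j _ => ?_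
    rw [Finset.sum_comm]
    refine Finset.sum_congr rfl fun k _ => Finset.sum_congr rfl fun i _ => ?_
    rw [ST2_.tr_cyc X i j k]
  have hB3 : ∑ i, ∑ j, ∑ k, f k * ST2_.tr X i j k = 2 * ∑ i ∈ F, tv X i := by
    have h2 : ∑ i, ∑ j, ∑ k, f k * ST2_.tr X i j k = ∑ i, ∑ k, ∑ j, f k * ST2_.tr X i j k :=
      Finset.sum_congr rfl fun i _ => Finset.sum_comm
    rw [← hB, h2, Finset.sum_comm]
    refine Finset.sum_congr rfl fun k _ => Finset.sum_congr rfl fun i _ =>
      Finset.sum_congr rfl fun j _ => ?_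
    rw [← ST2_.tr_cyc X k i j]
  have hC : 10 ≤ ∑ i ∈ F, tv X i := by
    calc 10 = ∑ i ∈ F, 2 := by rw [Finset.sum_const, hc, smul_eq_mul]
      _ ≤ ∑ i ∈ F, tv X i := Finset.sum_le_sum fun i hi => h1 X hX i (hd i hi)
  -- a triangle has at most two vertices in F
  have htri : ∀ i j k, ST2_.tr X i j k = 1 → f i + f j + f k ≤ 2 := by
    intro i j k h
    have h3 : adj X i j ∧ adj X i k ∧ adj X j k := by
      by_contra h4
      unfold ST2_.tr at h
      rw [if_neg h4] at h
      exact absurd h (by norm_num)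
    by_contra h5
    have hi : i ∈ F := by
      by_contra h6
      have h7 := hf0 i h6
      have h8 : f j ≤ 1 := by
        by_cases h9 : j ∈ F
        · exact (hf1 j h9).le
        · exact (hf0 j h9).le.trans (by norm_num)
      have h9 : f k ≤ 1 := by
        by_cases h9 : k ∈ F
        · exact (hf1 k h9).le
        · exact (hf0 k h9).le.trans (by norm_num)
      omega
    have hj : j ∈ F := by
      by_contra h6
      have h7 := hf0 j h6
      have h8 := hf1 i hi
      have h9 : f k ≤ 1 := by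
        by_cases h9 : k ∈ F
        · exact (hf1 k h9).le
        · exact (hf0 k h9).le.trans (by norm_num)
      omega
    have hk : k ∈ F := by
      by_contra h6
      have h7 := hf0 k h6
      have h8 := hf1 i hi
      have h9 := hf1 j hj
      omega
    have hjk : j ≠ k := by
      intro h6
      rw [h6] at h3
      exact CNT_.not_adj_self hX k h3.2.2
    exact hno ⟨i, j, k, hd i hi, hd j hj, hd k hk, h3.1, h3.2.1, hjk⟩
  have h01 : ∀ i j k, ST2_.tr X i j k = 0 ∨ ST2_.tr X i j k = 1 := by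
    intro i j k
    unfold ST2_.tr
    by_cases h2 : adj X i j ∧ adj X i k ∧ adj X j k
    · rw [if_pos h2]
      exact Or.inr rfl
    · rw [if_neg h2]
      exact Or.inl rfl
  have hpt : ∀ i j k, f i * ST2_.tr X i j k + f j * ST2_.tr X i j k + f k * ST2_.tr X i j k ≤
      2 * ST2_.tr X i j k := by
    intro i j k
    rcases h01 i j k with h | h
    · rw [h]
      norm_num
    · have h2 := htri i j k h
      rw [h]
      omega
  have hsum : ∑ i, ∑ j, ∑ k, (f i * ST2_.tr X i j k + f j * ST2_.tr X i j k +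
      f k * ST2_.tr X i j k) = 6 * ∑ i ∈ F, tv X i := by
    simp only [Finset.sum_add_distrib]
    rw [hB, hB2, hB3]
    ring
  have hsum2 : ∑ i, ∑ j, ∑ k, 2 * ST2_.tr X i j k = 4 * sT X := by
    simp only [← Finset.mul_sum]
    rw [hA]
    ring
  -- each triangle has exactly two vertices in F
  have heq : ∀ i j k, ST2_.tr X i j k = 1 → f i + f j + f k = 2 := by
    intro i j k h
    by_contra hne
    have h2 := htri i j k h
    have hlt : ∑ i, ∑ j, ∑ k, (f i * ST2_.tr X i j k + f j * ST2_.tr X i j k +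
        f k * ST2_.tr X i j k) < ∑ i, ∑ j, ∑ k, 2 * ST2_.tr X i j k := by
      refine Finset.sum_lt_sum (fun i _ => Finset.sum_le_sum fun j _ => Finset.sum_le_sum
        fun k _ => hpt i j k) ⟨i, Finset.mem_univ _, ?_⟩
      refine Finset.sum_lt_sum (fun j _ => Finset.sum_le_sum
        fun k _ => hpt i j k) ⟨j, Finset.mem_univ _, ?_⟩
      refine Finset.sum_lt_sum (fun k _ => hpt i j k) ⟨k, Finset.mem_univ _, ?_⟩
      rw [h]
      omega
    rw [hsum, hsum2] at hlt
    omega
  have hone : ∀ v ∈ F, (nb X v ∩ F).card = 1 := by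
    intro v hv
    refine le_antisymm (hle v hv) ?_
    have h2 : 0 < tv X v := lt_of_lt_of_le (by norm_num) (h1 X hX v (hd v hv))
    obtain ⟨j, k, hjk⟩ := ST2_.ex_tr hX v h2
    have h3 : adj X v j ∧ adj X v k ∧ adj X j k := by
      by_contra h4
      unfold ST2_.tr at hjk
      rw [if_neg h4] at hjk
      exact absurd hjk (by norm_num)
    have h4 := heq v j k hjk
    have h5 := hf1 v hv
    refine Finset.card_pos.2 ?_
    by_cases hj : j ∈ F
    · exact ⟨j, Finset.mem_inter.2 ⟨CNT_.mem_nb.2 h3.1, hj⟩⟩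
    · by_cases hk : k ∈ F
      · exact ⟨k, Finset.mem_inter.2 ⟨CNT_.mem_nb.2 h3.2.1, hk⟩⟩
      · have h6 := hf0 j hj
        have h7 := hf0 k hk
        omega
  have h5 : ∑ v ∈ F, (nb X v ∩ F).card = 5 := by
    rw [Finset.sum_congr rfl hone, Finset.sum_const, hc, smul_eq_mul]
  have h6 := CNT_.inside hX F
  omega

end MPgap
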