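import Pool.Agent.Work.MP_def58e_gap.Interface

/-!
# MP_def58e_co, gap theorem, block STAR (helper46)
-/

namespace MPgap

open Finset

namespace STAR_

/-- coordinates of a neighbour -/
noncomputable def co (v f g : R3) : ℝ × ℝ := ((2 * dt f g - 1) / 3, dt g (crs v f) / 3)

theorem pat_lin : ∀ pt ∈ pats, ∀ e ∈ pt, 2 * e.1 = 27 - e.2.1 := by
  decide

theorem comb_of (v f g : R3) (e : Z3) (he : 2 * e.1 = 27 - e.2.1)
    (hp : co v f g = ((e.2.1 : ℝ) / 27, (e.2.2 : ℝ) / 27))
    (hg : g = (((1 - (co v f g).1) / 2) * v.1 + (co v f g).1 * f.1 + (co v f g).2 * (crs v f).1,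
      ((1 - (co v f g).1) / 2) * v.2.1 + (co v f g).1 * f.2.1 + (co v f g).2 * (crs v f).2.1,
      ((1 - (co v f g).1) / 2) * v.2.2 + (co v f g).1 * f.2.2 +
        (co v f g).2 * (crs v f).2.2)) : g = comb e v f := by
  have he' : (2 : ℝ) * e.1 = 27 - e.2.1 := by exact_mod_cast he
  have he2 : (e.1 : ℝ) = (27 - e.2.1) / 2 := by linarith
  rw [hp] at hg
  rw [hg]
  unfold comb
  rw [he2]
  refine Prod.ext ?_ (Prod.ext ?_ ?_)
  · simp only
    ring
  · simp only
    ring
  · simp only
    ring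

end STAR_

open STAR_ in
theorem stmt_STAR (h1 : Stmt_PL4) (h2 : Stmt_NBC) (h3 : Stmt_NBD) : Stmt_STAR := by
  intro X hX v f hvf hdg
  classical
  have hff : f ∈ nb X v := by
    unfold nb
    simpa using hvf
  have hc3 : ((nb X v).erase f).card = 3 := by
    rw [card_erase_of_mem hff]
    have : (nb X v).card = 4 := hdg
    omega
  obtain ⟨x, y, z, hxy, hxz, hyz, hE⟩ := card_eq_three.1 hc3
  -- the three indices
  set jj : Fin 3 → Fin 11 := ![x, y, z] with hjj
  have hmem : ∀ i, jj i ∈ (nb X v).erase f := by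
    intro i
    rw [hE]
    fin_cases i <;> simp [jj]
  have hne : ∀ i, jj i ≠ f := fun i => (mem_erase.1 (hmem i)).1
  have hadj : ∀ i, dt (X v) (X (jj i)) = 1 := by
    intro i
    have h := (mem_erase.1 (hmem i)).2
    unfold nb at h
    simpa [adj] using h
  have hinj : ∀ i k, i ≠ k → jj i ≠ jj k := by
    intro i k hik
    fin_cases i <;> fin_cases k <;> simp_all [jj, Ne.symm hxy, Ne.symm hxz, Ne.symm hyz] <;>
      first
        | exact fun h => hxy h.symm
        | exact fun h => hxz h.symm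
        | exact fun h => hyz h.symm
  have hcov : ∀ j, adj X v j → j = f ∨ ∃ i, j = jj i := by
    intro j hj
    by_cases hjf : j = f
    · exact Or.inl hjf
    · right
      have : j ∈ (nb X v).erase f := by
        rw [mem_erase]
        refine ⟨hjf, ?_⟩
        unfold nb
        simpa using hj
      rw [hE] at this
      simp only [mem_insert, mem_singleton] at this
      rcases this with h | h | h
      · exact ⟨0, by simpa [jj] using h⟩
      · exact ⟨1, by simpa [jj] using h⟩
      · exact ⟨2, by simpa [jj] using h⟩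
  have hvv := hX.nrm v
  have hfn := hX.nrm f
  set P : Fin 3 → ℝ × ℝ := fun i => co (X v) (X f) (X (jj i)) with hP
  have hnbc : ∀ i, pd (P i) (P i) = 1 ∧
      X (jj i) = (((1 - (P i).1) / 2) * (X v).1 + (P i).1 * (X f).1 +
        (P i).2 * (crs (X v) (X f)).1,
      ((1 - (P i).1) / 2) * (X v).2.1 + (P i).1 * (X f).2.1 + (P i).2 * (crs (X v) (X f)).2.1,
      ((1 - (P i).1) / 2) * (X v).2.2 + (P i).1 * (X f).2.2 +
        (P i).2 * (crs (X v) (X f)).2.2) := by
    intro i
    obtain ⟨p, hp, hpp, hg⟩ := h2 (X v) (X f) (X (jj i)) hvv hfn hvf (hX.nrm _) (hadj i)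
    have : P i = p := by
      rw [hp]
      rfl
    rw [this]
    exact ⟨hpp, hg⟩
  obtain ⟨pt, hpt, ha, hb⟩ := h1 P (fun i => (hnbc i).1) (by
      intro i
      rcases hX.ips f (jj i) (Ne.symm (hne i)) with h | h
      · left
        show (2 * dt (X f) (X (jj i)) - 1) / 3 = 1 / 3
        rw [h]
        norm_num
      · right
        show (2 * dt (X f) (X (jj i)) - 1) / 3 ≤ -1 / 3
        linarith) (by
      intro i k hik
      have h := h3 (X v) (X f) (X (jj i)) (X (jj k)) hvv hfn hvf (hadj i) (hadj k)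
      have h' : dt (X (jj i)) (X (jj k)) = 1 / 2 + 3 / 2 * pd (P i) (P k) := h
      rcases hX.ips (jj i) (jj k) (hinj i k hik) with h4 | h4
      · left
        linarith
      · right
        linarith)
  refine ⟨pt, hpt, ?_, ?_⟩
  · intro e he
    obtain ⟨i, hi⟩ := ha e he
    exact ⟨jj i, comb_of _ _ _ e (pat_lin pt hpt e he) hi (hnbc i).2⟩
  · intro j hj
    rcases hcov j hj with h | ⟨i, rfl⟩
    · exact Or.inl h
    · right
      obtain ⟨e, he, hi⟩ := hb i
      exact ⟨e, he, comb_of _ _ _ e (pat_lin pt hpt e he) hi (hnbc i).2⟩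

end MPgap
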