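import Pool.Agent.Work.MP_def58e_gap.Interface

/-! MP_def58e_co, gap theorem, block START (helper50). -/

set_option autoImplicit false

namespace MPgap

open Finset

theorem stmt_START (h1 : Stmt_FULL) (h2 : Stmt_ST1) (h3 : Stmt_ST2) : Stmt_START := by
  intro X hX
  rcases hX with ⟨hg, h40⟩ | ⟨hg, h38, h15⟩
  · have hf := h1 X hg
    exact h2 X hg (by omega)
  · have hf := h1 X hg
    by_cases h5 : (univ.filter fun i => dg X i = 4).card = 5
    · exact h3 X hg h15 h5
    · exact h2 X hg (by omega)

end MPgap
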