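import Pool.Agent.Work.MP_def58e_gap.Interface

/-!
# MP_def58e_co, gap theorem: block STEP
-/

namespace MPgap.STEP_

open Finset

lemma map_fst_setMark (L : St) (v : Z3) (k : ℕ) :
    (setMark L v k).map Prod.fst = L.map Prod.fst := by
  unfold setMark
  rw [List.map_map]
  apply List.map_congr_left
  intro z _
  simp only [Function.comp]
  split_ifs <;> rfl

lemma exists_fst {X : Fin 11 → R3} {j : Fin 11} {L M : St} (h : L.map Prod.fst = M.map Prod.fst)
    (hj : ∃ y ∈ L, X j = toR y.1) : ∃ y ∈ M, X j = toR y.1 := by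
  obtain ⟨y, hy, hjy⟩ := hj
  have h1 : y.1 ∈ M.map Prod.fst := by
    rw [← h]
    exact List.mem_map_of_mem hy
  obtain ⟨w, hw, hwy⟩ := List.mem_map.1 h1
  exact ⟨w, hw, by rw [hwy]; exact hjy⟩

lemma ins_ok (h1 : Stmt_TOR) (h2 : Stmt_BR) {X : Fin 11 → R3} (hX : GapR X) {L : St}
    (hL : Inv X L) {g : Z3} {k : Fin 11} (hk : X k = toR g) :
    ∃ L', ins L g = some L' ∧ Inv X L' ∧ (∀ z ∈ L, z ∈ L') ∧ ∃ z ∈ L', z.1 = g := by
  unfold ins
  by_cases hany : L.any (fun z => z.1 == g) = true
  · rw [if_pos hany]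
    refine ⟨L, rfl, hL, fun z hz => hz, ?_⟩
    rw [List.any_eq_true] at hany
    obtain ⟨z, hz, hzg⟩ := hany
    exact ⟨z, hz, by simpa using hzg⟩
  · rw [if_neg hany]
    have hnot : ∀ z ∈ L, z.1 ≠ g := by
      intro z hz hzg
      apply hany
      rw [List.any_eq_true]
      exact ⟨z, hz, by simpa using hzg⟩
    obtain ⟨c1, c2, _⟩ := h2 X hX L hL
    have hkix : k ∉ ix X L := by
      intro h
      obtain ⟨z, hz, hzk⟩ := (c2 k).1 h
      exact hnot z hz (h1.1 _ _ (by rw [← hzk, hk]))
    have hlen : L.length < 11 := by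
      rw [← c1]
      have h3 : (ix X L) ⊂ univ := by
        rw [Finset.ssubset_univ_iff]
        intro h
        exact hkix (by rw [h]; exact Finset.mem_univ k)
      have h4 := Finset.card_lt_card h3
      simpa using h4
    have hall : L.all (fun z => okz z.1 g) = true := by
      rw [List.all_eq_true]
      intro z hz
      rw [h1.2.2.2]
      obtain ⟨k', hk', _⟩ := hL.mem z hz
      rw [← hk', ← hk]
      apply hX.ips
      rintro rfl
      exact hnot z hz (h1.1 _ _ (by rw [← hk', hk]))
    rw [if_pos (by simp [hlen, hall])]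
    refine ⟨L ++ [(g, 0)], rfl, ?_, ?_, ?_⟩
    · constructor
      · rw [List.map_append, List.nodup_append]
        refine ⟨hL.nodup, by simp, ?_⟩
        intro a ha b hb
        simp only [List.map_cons, List.map_nil, List.mem_singleton] at hb
        rw [hb]
        obtain ⟨z, hz, hza⟩ := List.mem_map.1 ha
        rw [← hza]
        exact hnot z hz
      · intro z hz
        rw [List.mem_append, List.mem_singleton] at hz
        rcases hz with hz | hz
        · obtain ⟨i, hi, a1, a2, a3⟩ := hL.mem z hz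
          refine ⟨i, hi, fun h => ⟨(a1 h).1, fun j hj => ?_⟩, a2, a3⟩
          obtain ⟨y, hy, hjy⟩ := (a1 h).2 j hj
          exact ⟨y, List.mem_append_left _ hy, hjy⟩
        · subst hz
          refine ⟨k, hk, fun h => ?_, fun h => ?_, fun h => ?_⟩
          · exact absurd h (by norm_num)
          · exact absurd h (by norm_num)
          · exact absurd h (by norm_num)
    · intro z hz
      exact List.mem_append_left _ hz
    · exact ⟨(g, 0), List.mem_append_right _ (List.mem_singleton.2 rfl), rfl⟩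

lemma insAll_ok (h1 : Stmt_TOR) (h2 : Stmt_BR) {X : Fin 11 → R3} (hX : GapR X) :
    ∀ (gs : List Z3) (L : St), Inv X L → (∀ g ∈ gs, ∃ k, X k = toR g) →
    ∃ L', insAll gs L = some L' ∧ Inv X L' ∧ (∀ z ∈ L, z ∈ L') ∧ ∀ g ∈ gs, ∃ z ∈ L', z.1 = g := by
  intro gs
  induction gs with
  | nil =>
    intro L hL _
    exact ⟨L, rfl, hL, fun z hz => hz, by simp⟩
  | cons g gs ih =>
    intro L hL hgs
    obtain ⟨k, hk⟩ := hgs g (List.mem_cons_self)
    obtain ⟨L1, a1, a2, a3, a4⟩ := ins_ok h1 h2 hX hL hk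
    obtain ⟨L2, b1, b2, b3, b4⟩ := ih L1 a2 (fun g' hg' => hgs g' (List.mem_cons_of_mem _ hg'))
    refine ⟨L2, ?_, b2, fun z hz => b3 z (a3 z hz), ?_⟩
    · unfold insAll
      rw [a1]
      exact b1
    · intro g' hg'
      rcases List.mem_cons.1 hg' with h | h
      · subst h
        obtain ⟨z, hz, hzg⟩ := a4
        exact ⟨z, b3 z hz, hzg⟩
      · exact b4 g' h

end MPgap.STEP_

namespace MPgap

open Finset

theorem stmt_STEP (h1 : Stmt_TOR) (h2 : Stmt_BR) : Stmt_STEP := by
  intro X hX L v f gs i j hL hv hf hi hj hij hdg hgs hnb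
  have hall : L.all (fun z => !(adz z.1 v) || z.1 == f || gs.contains z.1) = true := by
    rw [List.all_eq_true]
    intro z hz
    by_cases ha : adz z.1 v = true
    · obtain ⟨k, hk, _⟩ := hL.mem z hz
      have h3 : dt (toR z.1) (toR v) = 1 := (h1.2.2.1 _ _).1 ha
      have h4 : adj X i k := by
        unfold adj
        rw [hi, hk]
        rw [← h3]
        unfold dt
        ring
      rcases hnb k h4 with h5 | ⟨g, hg, h5⟩
      · subst h5
        have h6 : z.1 = f := h1.1 _ _ (by rw [← hk, hj])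
        simp [h6]
      · have h6 : z.1 = g := h1.1 _ _ (by rw [← hk, h5])
        have h7 : z.1 ∈ gs := by
          rw [h6]
          exact hg
        simp [h7]
    · rw [Bool.not_eq_true] at ha
      simp [ha]
  obtain ⟨L1, a1, a2, a3, a4⟩ := STEP_.insAll_ok h1 h2 hX gs L hL hgs
  have hfst := STEP_.map_fst_setMark L1 v 1
  refine ⟨setMark L1 v 1, ?_, ?_⟩
  · unfold step
    rw [if_pos hall, a1]
  · constructor
    · rw [hfst]
      exact a2.nodup
    · intro z hz
      unfold setMark at hz
      obtain ⟨z0, hz0, hz0z⟩ := List.mem_map.1 hz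
      by_cases hzv : z0.1 = v
      · have h3 : z = (z0.1, 1) := by
          rw [← hz0z]
          simp [hzv]
        rw [h3]
        refine ⟨i, by rw [hi, hzv], fun _ => ⟨hdg, fun k hk => ?_⟩, fun h => ?_, fun h => ?_⟩
        · apply STEP_.exists_fst hfst.symm
          rcases hnb k hk with h5 | ⟨g, hg, h5⟩
          · subst h5
            obtain ⟨y, hy, hyf⟩ := hf
            exact ⟨y, a3 y hy, by rw [hyf, hj]⟩
          · obtain ⟨y, hy, hyg⟩ := a4 g hg
            exact ⟨y, hy, by rw [hyg, h5]⟩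
        · exact absurd h (by norm_num)
        · exact absurd h (by norm_num)
      · have h3 : z = z0 := by
          rw [← hz0z]
          simp [hzv]
        rw [h3]
        obtain ⟨k, hk, b1, b2, b3⟩ := a2.mem z0 hz0
        exact ⟨k, hk, fun h => ⟨(b1 h).1, fun l hl => STEP_.exists_fst hfst.symm ((b1 h).2 l hl)⟩,
          b2, b3⟩

end MPgap
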