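import Pool.Agent.Work.MP_def58e_gap.Interface

/-! Block TAB (helper23): the table of the configurations. -/

namespace MPgap

namespace TAB

theorem gram_true : gramOK = true := by decide +kernel

theorem dec_length (n c : ℕ) : (dec n c).length = n := by
  induction n generalizing c with
  | zero => rfl
  | succ n ih => simp [dec, ih]

theorem dz_up (a b : Z3) : dz (up a) (up b) = 177147 * 177147 * dz a b := by
  unfold dz up
  ring

theorem inj {X : Fin 11 → R3} (hX : GapR X) : Function.Injective X := by
  intro i j hij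
  by_contra hne
  have h1 := hX.nrm i
  have h2 := hX.ips i j hne
  rw [← hij, h1] at h2
  rcases h2 with h | h <;> norm_num at h

end TAB

open TAB in
theorem stmt_TAB (h1 : Stmt_TOR) : Stmt_TAB := by
  intro X hX M hM hcov
  unfold tab at hM
  rw [List.mem_map] at hM
  obtain ⟨m, hm, rfl⟩ := hM
  have hg := gram_true
  unfold gramOK at hg
  rw [List.all_eq_true] at hg
  have hgm := hg m hm
  rw [Bool.and_eq_true, decide_eq_true_eq, List.all_eq_true] at hgm
  obtain ⟨hk, hgr⟩ := hgm
  have hlen : (dec 11 m.2).length = 11 := dec_length _ _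
  have hidx : ∀ i, ∃ q : Fin 11, X i = toR (up ((dec 11 m.2).getD q.val 0)) := by
    intro i
    obtain ⟨v, hv, hXi⟩ := hcov i
    rw [List.mem_map] at hv
    obtain ⟨w, hw, rfl⟩ := hv
    obtain ⟨n, hn, hnw⟩ := List.mem_iff_getElem.1 hw
    refine ⟨⟨n, by omega⟩, ?_⟩
    rw [hXi, List.getD_eq_getElem _ _ hn, hnw]
  choose p hp using hidx
  have hpi : Function.Injective p := by
    intro i j hij
    apply inj hX
    rw [hp i, hp j, hij]
  refine ⟨m.1, hk, p, Finite.injective_iff_bijective.1 hpi, ?_⟩
  intro i j
  have hd : dz ((dec 11 m.2).getD (p i).val 0) ((dec 11 m.2).getD (p j).val 0)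
      = dz ((can m.1).getD (p i).val 0) ((can m.1).getD (p j).val 0) := by
    have h2 := hgr (p i).val (List.mem_range.2 (p i).isLt)
    rw [List.all_eq_true] at h2
    have h3 := h2 (p j).val (List.mem_range.2 (p j).isLt)
    simpa using h3
  rw [hp i, hp j, h1.2.1, dz_up, hd]
  unfold canR dt dz SC
  push_cast
  ring

end MPgap
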