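import Pool.Agent.Work.MP_def58e_gap.Interface

/-! MP_def58e_co, gap theorem, block TOR (helper50). -/

set_option autoImplicit false

namespace MPgap

open Finset

namespace TOR_

theorem SC_pos : (0 : ℝ) < (SC : ℝ) := by
  have : (0 : ℤ) < SC := by norm_num [SC]
  exact_mod_cast this

theorem dt_toR (a b : Z3) : dt (toR a) (toR b) = (dz a b : ℝ) / ((SC : ℝ) * SC) := by
  have h := SC_pos.ne'
  simp only [dt, toR, dz]
  push_cast
  field_simp

theorem one_iff (a b : Z3) : dz a b = SC * SC ↔ dt (toR a) (toR b) = 1 := by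
  have h : (0 : ℝ) < (SC : ℝ) * SC := mul_pos SC_pos SC_pos
  rw [dt_toR, div_eq_one_iff_eq h.ne']
  norm_cast

theorem le_iff (a b : Z3) : dz a b ≤ 0 ↔ dt (toR a) (toR b) ≤ 0 := by
  have h : (0 : ℝ) < (SC : ℝ) * SC := mul_pos SC_pos SC_pos
  rw [dt_toR, div_le_iff₀ h, zero_mul]
  norm_cast

end TOR_

open TOR_ in
theorem stmt_TOR : Stmt_TOR := by
  refine ⟨?_, dt_toR, ?_, ?_⟩
  · intro a b h
    have h0 := SC_pos.ne'
    have h1 : (a.1 : ℝ) / SC = (b.1 : ℝ) / SC := congrArg Prod.fst h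
    have h2 : (a.2.1 : ℝ) / SC = (b.2.1 : ℝ) / SC := congrArg (fun x : R3 => x.2.1) h
    have h3 : (a.2.2 : ℝ) / SC = (b.2.2 : ℝ) / SC := congrArg (fun x : R3 => x.2.2) h
    rw [div_left_inj' h0] at h1 h2 h3
    have h4 : a.1 = b.1 := by exact_mod_cast h1
    have h5 : a.2.1 = b.2.1 := by exact_mod_cast h2
    have h6 : a.2.2 = b.2.2 := by exact_mod_cast h3
    exact Prod.ext h4 (Prod.ext h5 h6)
  · intro a b
    rw [adz, beq_iff_eq, one_iff]
  · intro a b
    rw [okz, Bool.or_eq_true, beq_iff_eq, decide_eq_true_iff, one_iff, le_iff]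

end MPgap
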