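import Pool.Agent.Work.MP_def58e_gap.Interface

/-! MP_def58e_co, gap theorem, block TV2 (helper65): at least two triangles at a vertex of
degree 4. -/

namespace MPgap

open Finset

namespace TV2_

lemma dt_comm (x y : R3) : dt x y = dt y x := by unfold dt; ring

lemma adj_symm {X : Fin 11 → R3} {i j : Fin 11} (h : adj X i j) : adj X j i := by
  unfold adj at *; rw [dt_comm]; exact h

/-- integer Gram form of two combinations -/
def gz (e e' : Z3) : ℤ :=
  2 * e.1 * e'.1 + e.1 * e'.2.1 + e.2.1 * e'.1 + 2 * e.2.1 * e'.2.1 + 3 * e.2.2 * e'.2.2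

lemma dt_comb (e e' : Z3) (v f : R3) (hv : dt v v = 2) (hf : dt f f = 2) (hvf : dt v f = 1) :
    dt (comb e v f) (comb e' v f) = (gz e e' : ℝ) / 729 := by
  have h : dt (comb e v f) (comb e' v f) =
      ((e.1 : ℝ) * e'.1 * dt v v + ((e.1 : ℝ) * e'.2.1 + (e.2.1 : ℝ) * e'.1) * dt v f +
        (e.2.1 : ℝ) * e'.2.1 * dt f f +
        (e.2.2 : ℝ) * e'.2.2 * (dt v v * dt f f - dt v f ^ 2)) / 729 := by
    unfold dt comb crs
    ring
  rw [h, hv, hf, hvf]
  unfold gz
  push_cast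
  ring

/-- the vector `f` -/
def e0 : Z3 := (0, 27, 0)

/-- the vector `v` -/
def ev : Z3 := (27, 0, 0)

lemma comb_e0 (v f : R3) : comb e0 v f = f := by
  unfold comb e0
  ext <;> (simp only []; push_cast; ring)

lemma comb_ev (v f : R3) : comb ev v f = v := by
  unfold comb ev
  ext <;> (simp only []; push_cast; ring)

lemma patsv : ∀ pt ∈ pats, ∀ e ∈ e0 :: pt, gz ev e = 729 := by decide +kernel

lemma pats2 : ∀ pt ∈ pats, ∃ a ∈ e0 :: pt, ∃ b ∈ e0 :: pt, ∃ c ∈ e0 :: pt, ∃ d ∈ e0 :: pt,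
    gz a b = 729 ∧ gz c d = 729 ∧ ¬ (a = c ∧ b = d) ∧ ¬ (a = d ∧ b = c) := by decide +kernel

/-- one pair, ordered -/
def od (a b : Fin 11) : Fin 11 × Fin 11 := if a < b then (a, b) else (b, a)

lemma two_pairs {X : Fin 11 → R3} (hX : GapR X) (S : Finset (Fin 11)) {p q r s : Fin 11}
    (hp : p ∈ S) (hq : q ∈ S) (hr : r ∈ S) (hs : s ∈ S) (h1 : adj X p q) (h2 : adj X r s)
    (n1 : ¬ (p = r ∧ q = s)) (n2 : ¬ (p = s ∧ q = r)) : 2 ≤ prs X S := by
  classical
  have hne : ∀ {i j}, adj X i j → i ≠ j := by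
    intro i j h hij
    rw [hij] at h
    have h3 : dt (X j) (X j) = 1 := h
    rw [hX.nrm] at h3
    norm_num at h3
  have key : ∀ {a b : Fin 11}, a ∈ S → b ∈ S → adj X a b →
      od a b ∈ (S ×ˢ S).filter fun z => z.1 < z.2 ∧ adj X z.1 z.2 := by
    intro a b ha hb hab
    rw [mem_filter, mem_product]
    unfold od
    by_cases h : a < b
    · rw [if_pos h]; exact ⟨⟨ha, hb⟩, h, hab⟩
    · rw [if_neg h]
      have h4 : b < a := lt_of_le_of_ne (not_lt.mp h) (hne hab).symm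
      exact ⟨⟨hb, ha⟩, h4, adj_symm hab⟩
  have hod : od p q ≠ od r s := by
    intro h
    unfold od at h
    by_cases h5 : p < q <;> by_cases h6 : r < s
    · rw [if_pos h5, if_pos h6] at h; exact n1 ⟨congrArg Prod.fst h, congrArg Prod.snd h⟩
    · rw [if_pos h5, if_neg h6] at h; exact n2 ⟨congrArg Prod.fst h, congrArg Prod.snd h⟩
    · rw [if_neg h5, if_pos h6] at h; exact n2 ⟨congrArg Prod.snd h, congrArg Prod.fst h⟩
    · rw [if_neg h5, if_neg h6] at h; exact n1 ⟨congrArg Prod.snd h, congrArg Prod.fst h⟩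
  have hsub : ({od p q, od r s} : Finset (Fin 11 × Fin 11)) ⊆
      (S ×ˢ S).filter fun z => z.1 < z.2 ∧ adj X z.1 z.2 := by
    intro z hz
    rw [mem_insert, mem_singleton] at hz
    rcases hz with rfl | rfl
    · exact key hp hq h1
    · exact key hr hs h2
  have hc := card_le_card hsub
  rw [card_pair hod] at hc
  unfold prs
  refine le_trans hc (le_of_eq ?_)
  congr 1

end TV2_

open Classical TV2_ in
theorem stmt_TV2 (h1 : Stmt_STAR) : Stmt_TV2 := by
  intro X hX v hdg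
  have hne : (nb X v).Nonempty := by
    rw [← card_pos]
    unfold dg at hdg
    omega
  obtain ⟨f, hf⟩ := hne
  have hvf : adj X v f := by
    unfold nb at hf
    exact (mem_filter.mp hf).2
  obtain ⟨pt, hpt, hex, -⟩ := h1 X hX v f hvf hdg
  have hv := hX.nrm v
  have hff := hX.nrm f
  have hvf' : dt (X v) (X f) = 1 := hvf
  have hex' : ∀ e ∈ e0 :: pt, ∃ j, X j = comb e (X v) (X f) := by
    intro e he
    rcases List.mem_cons.mp he with rfl | he
    · exact ⟨f, (comb_e0 _ _).symm⟩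
    · exact hex e he
  have hnb : ∀ e ∈ e0 :: pt, ∀ j, X j = comb e (X v) (X f) → j ∈ nb X v := by
    intro e he j hj
    unfold nb
    rw [mem_filter]
    refine ⟨mem_univ _, ?_⟩
    unfold adj
    rw [hj]
    have h3 := dt_comb ev e (X v) (X f) hv hff hvf'
    rw [comb_ev, patsv pt hpt e he] at h3
    rw [h3]; norm_num
  obtain ⟨a, ha, b, hb, c, hc, d, hd, hab, hcd, m1, m2⟩ := pats2 pt hpt
  obtain ⟨p, hp⟩ := hex' a ha
  obtain ⟨q, hq⟩ := hex' b hb
  obtain ⟨r, hr⟩ := hex' c hc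
  obtain ⟨s, hs⟩ := hex' d hd
  have hinj : ∀ x y : Z3, comb x (X v) (X f) = comb y (X v) (X f) → x = y := by
    intro x y hxy
    -- inner products with v, f and the cross product
    have g1 : ((x.1 : ℝ) - y.1) * 2 + ((x.2.1 : ℝ) - y.2.1) = 0 := by
      have e1 : dt (comb ev (X v) (X f)) (comb x (X v) (X f)) =
          dt (comb ev (X v) (X f)) (comb y (X v) (X f)) := by rw [hxy]
      rw [dt_comb _ _ _ _ hv hff hvf', dt_comb _ _ _ _ hv hff hvf'] at e1
      unfold gz ev at e1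
      push_cast at e1
      linarith
    have g2 : ((x.1 : ℝ) - y.1) + ((x.2.1 : ℝ) - y.2.1) * 2 = 0 := by
      have e1 : dt (comb e0 (X v) (X f)) (comb x (X v) (X f)) =
          dt (comb e0 (X v) (X f)) (comb y (X v) (X f)) := by rw [hxy]
      rw [dt_comb _ _ _ _ hv hff hvf', dt_comb _ _ _ _ hv hff hvf'] at e1
      unfold gz e0 at e1
      push_cast at e1
      linarith
    have g3 : ((x.2.2 : ℝ) - y.2.2) = 0 := by
      have e1 : dt (comb ((0, 0, 27) : Z3) (X v) (X f)) (comb x (X v) (X f)) =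
          dt (comb ((0, 0, 27) : Z3) (X v) (X f)) (comb y (X v) (X f)) := by rw [hxy]
      rw [dt_comb _ _ _ _ hv hff hvf', dt_comb _ _ _ _ hv hff hvf'] at e1
      unfold gz at e1
      push_cast at e1
      linarith
    have k1 : (x.1 : ℝ) = y.1 := by linarith
    have k2 : (x.2.1 : ℝ) = y.2.1 := by linarith
    have k3 : (x.2.2 : ℝ) = y.2.2 := by linarith
    have k1' : x.1 = y.1 := by exact_mod_cast k1
    have k2' : x.2.1 = y.2.1 := by exact_mod_cast k2
    have k3' : x.2.2 = y.2.2 := by exact_mod_cast k3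
    exact Prod.ext k1' (Prod.ext k2' k3')
  refine two_pairs hX (nb X v) (hnb a ha p hp) (hnb b hb q hq) (hnb c hc r hr) (hnb d hd s hs)
    ?_ ?_ ?_ ?_
  · unfold adj
    rw [hp, hq, dt_comb _ _ _ _ hv hff hvf', hab]; norm_num
  · unfold adj
    rw [hr, hs, dt_comb _ _ _ _ hv hff hvf', hcd]; norm_num
  · rintro ⟨rfl, rfl⟩
    exact m1 ⟨hinj _ _ (hp.symm.trans hr), hinj _ _ (hq.symm.trans hs)⟩
  · rintro ⟨rfl, rfl⟩
    exact m2 ⟨hinj _ _ (hp.symm.trans hs), hinj _ _ (hq.symm.trans hr)⟩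

end MPgap
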