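import Pool.Agent.Work.MP_def58e_gap.Interface

/-! TV3: at most three triangles at a vertex of degree 4. helper2 -/

namespace MPgap

open Finset

namespace TV3_

lemma dt_comm (x y : R3) : dt x y = dt y x := by unfold dt; ring

lemma adj_symm {X : Fin 11 → R3} {i j : Fin 11} (h : adj X i j) : adj X j i := by
  unfold adj at *; rw [dt_comm]; exact h

lemma inj {X : Fin 11 → R3} (hX : GapR X) {i j : Fin 11} (h : X i = X j) : i = j := by
  by_contra hne
  rcases hX.ips i j hne with h1 | h1 <;> rw [h, hX.nrm] at h1 <;> norm_num at h1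

/-- integer Gram form of two combinations -/
def gz (e e' : Z3) : ℤ :=
  2 * e.1 * e'.1 + e.1 * e'.2.1 + e.2.1 * e'.1 + 2 * e.2.1 * e'.2.1 + 3 * e.2.2 * e'.2.2

/-- integer product with `f` -/
def fz (e : Z3) : ℤ := e.1 + 2 * e.2.1

lemma dt_comb (e e' : Z3) (v f : R3) (hv : dt v v = 2) (hf : dt f f = 2) (hvf : dt v f = 1) :
    dt (comb e v f) (comb e' v f) = (gz e e' : ℝ) / 729 := by
  have h : dt (comb e v f) (comb e' v f) =
      ((e.1 : ℝ) * e'.1 * dt v v + ((e.1 : ℝ) * e'.2.1 + (e.2.1 : ℝ) * e'.1) * dt v f +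
        (e.2.1 : ℝ) * e'.2.1 * dt f f +
        (e.2.2 : ℝ) * e'.2.2 * (dt v v * dt f f - dt v f ^ 2)) / 729 := by
    unfold dt comb crs
    ring
  rw [h, hv, hf, hvf]
  unfold gz
  push_cast
  ring

lemma dt_f_comb (e : Z3) (v f : R3) (hf : dt f f = 2) (hvf : dt v f = 1) :
    dt f (comb e v f) = (fz e : ℝ) / 27 := by
  have h : dt f (comb e v f) = ((e.1 : ℝ) * dt v f + (e.2.1 : ℝ) * dt f f) / 27 := by
    unfold dt comb crs
    ring
  rw [h, hf, hvf]
  unfold fz
  push_cast
  ring

lemma gz_of (e e' : Z3) (h : (gz e e' : ℝ) / 729 = 1) : gz e e' = 729 := by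
  have h1 : (gz e e' : ℝ) = 729 := by linarith
  exact_mod_cast h1

lemma fz_of (e : Z3) (h : (fz e : ℝ) / 27 = 1) : fz e = 27 := by
  have h1 : (fz e : ℝ) = 27 := by linarith
  exact_mod_cast h1

/-- number of adjacent pairs of the pattern -/
def cnt (e1 e2 e3 : Z3) : ℕ :=
  (if fz e1 = 27 then 1 else 0) + (if fz e2 = 27 then 1 else 0) + (if fz e3 = 27 then 1 else 0) +
    (if gz e1 e2 = 729 then 1 else 0) + (if gz e1 e3 = 729 then 1 else 0) +
    (if gz e2 e3 = 729 then 1 else 0)

lemma pats3 : ∀ pt ∈ pats, ∃ e1 e2 e3, pt = [e1, e2, e3] ∧ cnt e1 e2 e3 ≤ 3 := by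
  intro pt hpt
  unfold pats at hpt
  simp only [List.mem_cons, List.not_mem_nil, or_false] at hpt
  rcases hpt with h | h | h | h | h | h | h | h | h | h <;>
  exact ⟨_, _, _, h, by decide⟩

lemma ite_le_ite (p q : Prop) [Decidable p] [Decidable q] (h : p → q) :
    (if p then 1 else 0 : ℕ) ≤ (if q then 1 else 0 : ℕ) := by
  by_cases hp : p
  · simp [hp, h hp]
  · simp [hp]

/-- one pair, ordered -/
def od (a b : Fin 11) : Fin 11 × Fin 11 := if a < b then (a, b) else (b, a)

lemma prs_le (X : Fin 11 → R3) (a b c d : Fin 11) (P : Fin 6 → Prop) [∀ i, Decidable (P i)]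
    (h0 : adj X a b → P 0) (h1 : adj X a c → P 1) (h2 : adj X a d → P 2)
    (h3 : adj X b c → P 3) (h4 : adj X b d → P 4) (h5 : adj X c d → P 5) :
    prs X {a, b, c, d} ≤ (if P 0 then 1 else 0) + (if P 1 then 1 else 0) + (if P 2 then 1 else 0) +
      (if P 3 then 1 else 0) + (if P 4 then 1 else 0) + (if P 5 then 1 else 0) := by
  classical
  let Q : Fin 6 → Finset (Fin 11 × Fin 11) := fun i =>
    if P i then {![od a b, od a c, od a d, od b c, od b d, od c d] i} else ∅
  have hQ : ∀ i, (Q i).card ≤ if P i then 1 else 0 := by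
    intro i
    by_cases h : P i <;> simp [Q, h]
  have hsub : (((({a, b, c, d} : Finset (Fin 11)) ×ˢ ({a, b, c, d} : Finset (Fin 11)))).filter
      fun p => p.1 < p.2 ∧ adj X p.1 p.2) ⊆ Q 0 ∪ Q 1 ∪ Q 2 ∪ Q 3 ∪ Q 4 ∪ Q 5 := by
    rintro ⟨p, q⟩ hp
    rw [mem_filter, mem_product] at hp
    obtain ⟨⟨hp1, hq1⟩, hlt, hadj⟩ := hp
    simp only [mem_insert, mem_singleton] at hp1 hq1
    have hlt' : p < q := hlt
    have hadj' : adj X p q := hadj
    have hadj'' : adj X q p := adj_symm hadj'
    have hnl : ¬ q < p := not_lt.mpr hlt'.le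
    have hodp : od p q = (p, q) := by simp [od, hlt']
    have hodq : od q p = (p, q) := by simp [od, hnl]
    simp only [mem_union]
    rcases hp1 with rfl | rfl | rfl | rfl <;> rcases hq1 with rfl | rfl | rfl | rfl <;>
    first
      | exact absurd hlt' (lt_irrefl _)
      | (left; left; left; left; left
         first
           | (have hh := h0 hadj'; simp [Q, hh, hodp]; done)
           | (have hh := h0 hadj''; simp [Q, hh, hodq]; done))
      | (left; left; left; left; right
         first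
           | (have hh := h1 hadj'; simp [Q, hh, hodp]; done)
           | (have hh := h1 hadj''; simp [Q, hh, hodq]; done))
      | (left; left; left; right
         first
           | (have hh := h2 hadj'; simp [Q, hh, hodp]; done)
           | (have hh := h2 hadj''; simp [Q, hh, hodq]; done))
      | (left; left; right
         first
           | (have hh := h3 hadj'; simp [Q, hh, hodp]; done)
           | (have hh := h3 hadj''; simp [Q, hh, hodq]; done))
      | (left; right
         first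
           | (have hh := h4 hadj'; simp [Q, hh, hodp]; done)
           | (have hh := h4 hadj''; simp [Q, hh, hodq]; done))
      | (right
         first
           | (have hh := h5 hadj'; simp [Q, hh, hodp]; done)
           | (have hh := h5 hadj''; simp [Q, hh, hodq]; done))
  have hcard := card_le_card hsub
  have c1 := card_union_le (Q 0 ∪ Q 1 ∪ Q 2 ∪ Q 3 ∪ Q 4) (Q 5)
  have c2 := card_union_le (Q 0 ∪ Q 1 ∪ Q 2 ∪ Q 3) (Q 4)
  have c3 := card_union_le (Q 0 ∪ Q 1 ∪ Q 2) (Q 3)
  have c4 := card_union_le (Q 0 ∪ Q 1) (Q 2)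
  have c5 := card_union_le (Q 0) (Q 1)
  have q0 := hQ 0
  have q1 := hQ 1
  have q2 := hQ 2
  have q3 := hQ 3
  have q4 := hQ 4
  have q5 := hQ 5
  unfold prs
  refine le_trans (le_of_eq ?_) (le_trans hcard (by omega))
  congr 1

end TV3_

open TV3_ in
theorem stmt_TV3 (h1 : Stmt_STAR) : Stmt_TV3 := by
  intro X hX v hv
  classical
  have hne : (nb X v).Nonempty := by
    rw [← card_pos]
    have : (nb X v).card = 4 := hv
    omega
  obtain ⟨f, hf⟩ := hne
  have hvf : adj X v f := by
    unfold nb at hf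
    exact (mem_filter.mp hf).2
  obtain ⟨pt, hpt, hex, hall⟩ := h1 X hX v f hvf hv
  obtain ⟨e1, e2, e3, rfl, hc⟩ := pats3 pt hpt
  obtain ⟨j1, hj1⟩ := hex e1 (by simp)
  obtain ⟨j2, hj2⟩ := hex e2 (by simp)
  obtain ⟨j3, hj3⟩ := hex e3 (by simp)
  have hsub : nb X v ⊆ {f, j1, j2, j3} := by
    intro j hj
    have hvj : adj X v j := by
      unfold nb at hj
      exact (mem_filter.mp hj).2
    simp only [mem_insert, mem_singleton]
    rcases hall j hvj with h | ⟨e, he, hje⟩
    · exact Or.inl h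
    · simp only [List.mem_cons, List.not_mem_nil, or_false] at he
      rcases he with rfl | rfl | rfl
      · exact Or.inr (Or.inl (inj hX (hje.trans hj1.symm)))
      · exact Or.inr (Or.inr (Or.inl (inj hX (hje.trans hj2.symm))))
      · exact Or.inr (Or.inr (Or.inr (inj hX (hje.trans hj3.symm))))
  have hmono : prs X (nb X v) ≤ prs X {f, j1, j2, j3} := by
    unfold prs
    exact card_le_card (filter_subset_filter _ (product_subset_product hsub hsub))
  have hvv := hX.nrm v
  have hff := hX.nrm f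
  have hvf' : dt (X v) (X f) = 1 := hvf
  have hF : ∀ (e : Z3) (j : Fin 11), X j = comb e (X v) (X f) → adj X f j → fz e = 27 := by
    intro e j hj ha
    unfold adj at ha
    rw [hj, dt_f_comb e _ _ hff hvf'] at ha
    exact fz_of e ha
  have hG : ∀ (e e' : Z3) (j j' : Fin 11), X j = comb e (X v) (X f) →
      X j' = comb e' (X v) (X f) → adj X j j' → gz e e' = 729 := by
    intro e e' j j' hj hj' ha
    unfold adj at ha
    rw [hj, hj', dt_comb e e' _ _ hvv hff hvf'] at ha
    exact gz_of e e' ha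
  have hfin := prs_le X f j1 j2 j3
    (fun i => ![fz e1 = 27, fz e2 = 27, fz e3 = 27, gz e1 e2 = 729, gz e1 e3 = 729,
      gz e2 e3 = 729] i) (hF e1 j1 hj1) (hF e2 j2 hj2) (hF e3 j3 hj3)
    (hG e1 e2 j1 j2 hj1 hj2) (hG e1 e3 j1 j3 hj1 hj3) (hG e2 e3 j2 j3 hj2 hj3)
  unfold tv
  refine hmono.trans (hfin.trans (le_trans ?_ hc))
  unfold cnt
  exact Nat.add_le_add (Nat.add_le_add (Nat.add_le_add (Nat.add_le_add (Nat.add_le_add
    (ite_le_ite _ _ (fun h => h)) (ite_le_ite _ _ (fun h => h)))
    (ite_le_ite _ _ (fun h => h))) (ite_le_ite _ _ (fun h => h)))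
    (ite_le_ite _ _ (fun h => h))) (ite_le_ite _ _ (fun h => h))

end MPgap
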