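import Pool.Agent.Work.MP_def58e_gap.Interface

/-!
# MP_def58e_co, gap theorem: block UP (helper35)
-/

namespace MPgap

open Finset

namespace UP_

open Classical in
/-- an index of the vector `v` -/
noncomputable def idx (X : Fin 11 → R3) (v : R3) : Fin 11 :=
  if h : ∃ i, X i = v then h.choose else 0

theorem idx_spec {X : Fin 11 → R3} {v : R3} {i : Fin 11} (h : X i = v) : X (idx X v) = v := by
  have hex : ∃ i, X i = v := ⟨i, h⟩
  unfold idx
  rw [dif_pos hex]
  exact hex.choose_spec

theorem inj {X : Fin 11 → R3} (hX : GapR X) {i j : Fin 11} (h : X i = X j) : i = j := by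
  by_contra hne
  have h2 : dt (X i) (X j) = 2 := by rw [← h]; exact hX.nrm i
  rcases hX.ips i j hne with h1 | h1
  · rw [h2] at h1; norm_num at h1
  · rw [h2] at h1; norm_num at h1

theorem idx_eq {X : Fin 11 → R3} (hX : GapR X) {v : R3} {i : Fin 11} (h : X i = v) :
    idx X v = i := inj hX ((idx_spec h).trans h.symm)

theorem card_split (X : Fin 11 → R3) (i : Fin 11) (P : Finset (Fin 11)) :
    (nb X i \ P).card + (nb X i ∩ P).card = dg X i := by
  unfold dg
  rw [Finset.card_sdiff_add_card_inter]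

/-- a vertex of mark 1 has no neighbours outside -/
theorem mark1 {X : Fin 11 → R3} (h4 : Stmt_BR) (hX : GapR X) {L : St} (hL : Inv X L)
    {z : Z3 × ℕ} (hz : z ∈ L) {i : Fin 11} (hi : X i = toR z.1) (hm : z.2 = 1) :
    (nb X i \ ix X L).card = 0 := by
  obtain ⟨j, hj, h1, -⟩ := hL.mem z hz
  have hij : i = j := inj hX (hi.trans hj.symm)
  subst hij
  have h := (h1 hm).2
  rw [Finset.card_eq_zero, Finset.sdiff_eq_empty_iff_subset]
  intro k hk
  have hk' : adj X i k := by
    unfold nb at hk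
    simpa using hk
  obtain ⟨y, hy, hy2⟩ := h k hk'
  exact ((h4 X hX L hL).2.1 k).2 ⟨y, hy, hy2⟩

/-- the degree of a vertex of mark 2 -/
theorem mark2 {X : Fin 11 → R3} (hX : GapR X) {L : St} (hL : Inv X L)
    {z : Z3 × ℕ} (hz : z ∈ L) {i : Fin 11} (hi : X i = toR z.1) (hm : z.2 = 2) :
    dg X i ≤ 3 := by
  obtain ⟨j, hj, -, h2, -⟩ := hL.mem z hz
  have hij : i = j := inj hX (hi.trans hj.symm)
  subst hij
  exact h2 hm

/-- free places -/
theorem le_stub {X : Fin 11 → R3} (h4 : Stmt_BR) (hX : GapR X) {L : St} (hL : Inv X L)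
    (hc : closed L = true) {z : Z3 × ℕ} (hz : z ∈ L) {i : Fin 11} (hi : X i = toR z.1) :
    (nb X i \ ix X L).card ≤ stub L z := by
  have hcz : z.2 = 1 ∨ z.2 = 2 := by
    unfold closed at hc
    have := List.all_eq_true.mp hc z hz
    simpa using this
  rcases hcz with hm | hm
  · rw [mark1 h4 hX hL hz hi hm]; exact Nat.zero_le _
  · have h3 := mark2 hX hL hz hi hm
    have hs := card_split X i (ix X L)
    have hd := ((h4 X hX L hL).2.2 z hz i hi).1
    unfold stub
    rw [hm]
    simp only [beq_self_eq_true, if_true]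
    omega

end UP_

open UP_ in
theorem stmt_UP (_h1 : Stmt_DEG4) (h2 : Stmt_EM) (h3 : Stmt_CNT) (h4 : Stmt_BR)
    (h5 : Stmt_BS) : Stmt_UP := by
  intro X hX L hL hc h6
  have hBR := h4 X hX L hL
  have hcard := hBR.1
  have hcnt := h3 X hX (ix X L)
  -- the sum of the inner degrees
  have hin : sumD L = ∑ i ∈ ix X L, (nb X i ∩ ix X L).card := by
    unfold sumD
    refine (h5 X hX L hL (fun z => dgz L z.1) (fun i => (nb X i ∩ ix X L).card)).1 ?_
    intro z hz i hi
    exact (hBR.2.2 z hz i hi).1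
  -- the sum of the outer degrees
  have hout : (L.map fun z => (nb X (idx X (toR z.1)) \ ix X L).card).sum =
      ∑ i ∈ ix X L, (nb X i \ ix X L).card := by
    refine (h5 X hX L hL (fun z => (nb X (idx X (toR z.1)) \ ix X L).card)
      (fun i => (nb X i \ ix X L).card)).1 ?_
    intro z hz i hi
    show (nb X (idx X (toR z.1)) \ ix X L).card = _
    rw [idx_eq hX hi]
  have hle : ∀ z ∈ L, (nb X (idx X (toR z.1)) \ ix X L).card ≤ stub L z := by
    intro z hz
    obtain ⟨i, hi, -⟩ := hL.mem z hz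
    rw [idx_eq hX hi]
    exact le_stub h4 hX hL hc hz hi
  have hsum : (L.map fun z => (nb X (idx X (toR z.1)) \ ix X L).card).sum ≤ stubs L := by
    unfold stubs
    exact List.sum_le_sum hle
  have hcc : (ix X L)ᶜ.card = 11 - L.length := by
    rw [Finset.card_compl, hcard, Fintype.card_fin]
  have hem : prs X (ix X L)ᶜ ≤ emax (11 - L.length) := by
    have := h2 X hX (ix X L)ᶜ (by rw [hcc]; omega)
    rwa [hcc] at this
  refine ⟨by omega, fun hge => ⟨?_, by omega⟩⟩
  have hEq : (L.map fun z => (nb X (idx X (toR z.1)) \ ix X L).card).sum = stubs L := by omega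
  intro z hz i hi
  refine le_antisymm (le_stub h4 hX hL hc hz hi) ?_
  by_contra hlt
  have hlt' : (nb X (idx X (toR z.1)) \ ix X L).card < stub L z := by
    rw [idx_eq hX hi]; omega
  have := List.sum_lt_sum (l := L) (fun z => (nb X (idx X (toR z.1)) \ ix X L).card)
    (fun z => stub L z) hle ⟨z, hz, hlt'⟩
  unfold stubs at hEq
  omega

end MPgap
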