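import Pool.Agent.Work.MP_def58e_gap.G_UP

/-!
# MP_def58e_co, gap theorem: block USB (helper35)
-/

namespace MPgap

open Finset

namespace USB_

open UP_

open Classical in
theorem prs_mono (X : Fin 11 → R3) {A B : Finset (Fin 11)} (h : A ⊆ B) : prs X A ≤ prs X B := by
  unfold prs
  apply Finset.card_le_card
  intro p hp
  rw [Finset.mem_filter, Finset.mem_product] at hp ⊢
  exact ⟨⟨h hp.1.1, h hp.1.2⟩, hp.2⟩

/-- number of vertices of degree 4 -/
noncomputable def nF (X : Fin 11 → R3) : ℕ := (univ.filter fun i => dg X i = 4).card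

/-- `sT - 2 F` as a sum -/
theorem sum_h (h2 : Stmt_TV2) {X : Fin 11 → R3} (hX : GapR X) :
    (∑ i, (tv X i - if dg X i = 4 then 2 else 0)) + 2 * nF X = sT X := by
  unfold nF sT
  rw [Finset.card_filter, Finset.mul_sum, ← Finset.sum_add_distrib]
  refine Finset.sum_congr rfl fun i _ => ?_
  by_cases h : dg X i = 4
  · rw [if_pos h, if_pos h]
    have := h2 X hX i h
    omega
  · rw [if_neg h, if_neg h]
    omega

theorem tvz_le (h4 : Stmt_BR) {X : Fin 11 → R3} (hX : GapR X) {L : St} (hL : Inv X L)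
    {z : Z3 × ℕ} (hz : z ∈ L) {i : Fin 11} (hi : X i = toR z.1) : tvz L z.1 ≤ tv X i := by
  rw [((h4 X hX L hL).2.2 z hz i hi).2]
  unfold tv
  exact prs_mono X Finset.inter_subset_left

theorem ext_le (h2 : Stmt_TV2) (h4 : Stmt_BR) (h5 : Stmt_BS) {X : Fin 11 → R3} (hX : GapR X)
    {L : St} (hL : Inv X L) : ext L + 2 * nF X ≤ sT X := by
  have h : ext L ≤ ∑ i ∈ ix X L, (tv X i - if dg X i = 4 then 2 else 0) := by
    unfold ext
    refine (h5 X hX L hL (fun z => if z.2 == 2 then tvz L z.1 else if z.2 == 0 then 0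
      else tvz L z.1 - 2) (fun i => tv X i - if dg X i = 4 then 2 else 0)).2 ?_
    intro z hz i hi
    have ht := tvz_le h4 hX hL hz hi
    show (if z.2 == 2 then tvz L z.1 else if z.2 == 0 then 0 else tvz L z.1 - 2) ≤
      tv X i - if dg X i = 4 then 2 else 0
    by_cases hm : z.2 = 2
    · have h3 := mark2 hX hL hz hi hm
      rw [if_pos (by rw [hm]; rfl), if_neg (by omega)]
      omega
    · rw [if_neg (by simpa using hm)]
      by_cases hm0 : z.2 = 0
      · rw [if_pos (by rw [hm0]; rfl)]
        exact Nat.zero_le _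
      · rw [if_neg (by simpa using hm0)]
        split_ifs <;> omega
  have hmono : ∑ i ∈ ix X L, (tv X i - if dg X i = 4 then 2 else 0) ≤
      ∑ i, (tv X i - if dg X i = 4 then 2 else 0) :=
    Finset.sum_le_univ_sum_of_nonneg (fun i => Nat.zero_le _)
  have := sum_h h2 hX
  omega

end USB_

open UP_ USB_ in
theorem stmt_USB (h1 : Stmt_DEG4) (h2 : Stmt_TV2) (h3 : Stmt_FULL) (h4 : Stmt_BR) (h5 : Stmt_BS)
    (_h6 : Stmt_BC) : Stmt_USB := by
  intro X hC L hL hc he
  obtain ⟨hX, hsD, hsT⟩ := hC
  have hF := h3 X hX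
  have hF' : sD X ≤ 33 + nF X := hF
  have hE := ext_le h2 h4 h5 hX hL
  have hF5 : nF X = 5 := by omega
  -- all other vertices have degree exactly 3
  have hdeg : ∀ i, dg X i ≤ 3 → dg X i = 3 := by
    intro i hi
    by_contra hne
    have hlt : dg X i < 3 := by omega
    have hs : sD X < ∑ j, (3 + if dg X j = 4 then 1 else 0) := by
      unfold sD
      refine Finset.sum_lt_sum (fun j _ => ?_) ⟨i, Finset.mem_univ _, ?_⟩
      · have := h1 X hX j
        split_ifs <;> omega
      · rw [if_neg (by omega)]; omega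
    rw [Finset.sum_add_distrib, ← Finset.card_filter] at hs
    have h33 : ∑ _j : Fin 11, 3 = 33 := by simp
    rw [h33] at hs
    have : (univ.filter fun i => dg X i = 4).card = 5 := hF5
    omega
  intro z hz i hi
  have hcz : z.2 = 1 ∨ z.2 = 2 := by
    unfold closed at hc
    have := List.all_eq_true.mp hc z hz
    simpa using this
  rcases hcz with hm | hm
  · rw [mark1 h4 hX hL hz hi hm]
    unfold stub
    rw [hm]
    rfl
  · have h3 := hdeg i (mark2 hX hL hz hi hm)
    have hs := card_split X i (ix X L)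
    have hd := ((h4 X hX L hL).2.2 z hz i hi).1
    unfold stub
    rw [hm]
    simp only [beq_self_eq_true, if_true]
    omega

end MPgap
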