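import Pool.Agent.Work.MP_def58e_gap.CAPV

/-!
# MP_def58e_co, gap class: block LENSV (helper42)
-/

open MeasureTheory Set
open scoped ENNReal

namespace MPdef58eGap

open MPdef58e

noncomputable section

/-- the radial width in the direction `φ` -/
def hw42 (φ : ℝ) : ℝ := Real.cos φ / Real.sqrt (Real.cos φ ^ 2 + 1 / 3) - 1 / Real.sqrt 2

theorem hw42_cont : Continuous hw42 := by
  unfold hw42
  refine (Real.continuous_cos.div ?_ fun φ => ?_).sub continuous_const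
  · exact Real.continuous_sqrt.comp (by fun_prop)
  · exact (Real.sqrt_pos.2 (by positivity)).ne'

theorem inv_sqrt2_42 : 1 / Real.sqrt 2 = Real.sqrt 2 / 2 := by
  have hs : Real.sqrt 2 ^ 2 = 2 := Real.sq_sqrt (by norm_num)
  have hs0 : Real.sqrt 2 ≠ 0 := by positivity
  rw [div_eq_div_iff hs0 two_ne_zero]; nlinarith

/-- the width is not positive if the cosine is at most `1/√3` -/
theorem hw42_nonpos {φ : ℝ} (h : Real.cos φ ≤ 1 / Real.sqrt 3) : hw42 φ ≤ 0 := by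
  unfold hw42
  have hp : 0 < Real.cos φ ^ 2 + 1 / 3 := by positivity
  have hs : 0 < Real.sqrt (Real.cos φ ^ 2 + 1 / 3) := Real.sqrt_pos.2 hp
  rw [sub_nonpos, div_le_iff₀ hs]
  rcases le_or_gt (Real.cos φ) 0 with h0 | h0
  · exact h0.trans (by positivity)
  · have h3 : (0 : ℝ) < Real.sqrt 3 := by positivity
    have h32 : Real.sqrt 3 ^ 2 = 3 := Real.sq_sqrt (by norm_num)
    have h4 : Real.cos φ ^ 2 ≤ 1 / 3 := by
      calc Real.cos φ ^ 2 ≤ (1 / Real.sqrt 3) ^ 2 := by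
            exact pow_le_pow_left₀ h0.le h 2
        _ = 1 / 3 := by rw [div_pow, h32]; norm_num
    have h5 : Real.sqrt (2 * Real.cos φ ^ 2) ≤ Real.sqrt (Real.cos φ ^ 2 + 1 / 3) :=
      Real.sqrt_le_sqrt (by linarith)
    rw [Real.sqrt_mul (by norm_num), Real.sqrt_sq h0.le] at h5
    have h6 : 1 / Real.sqrt 2 * (Real.sqrt 2 * Real.cos φ) = Real.cos φ := by
      have : Real.sqrt 2 ≠ 0 := by positivity
      field_simp
    calc Real.cos φ = 1 / Real.sqrt 2 * (Real.sqrt 2 * Real.cos φ) := h6.symm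
      _ ≤ _ := mul_le_mul_of_nonneg_left h5 (by positivity)

/-- primitive of the width -/
theorem hasDeriv_hw42 (φ : ℝ) : HasDerivAt (fun φ : ℝ => Real.arcsin (Real.sqrt 3 / 2 * Real.sin φ) -
    φ / Real.sqrt 2) (hw42 φ) φ := by
  have h32 : Real.sqrt 3 ^ 2 = 3 := Real.sq_sqrt (by norm_num)
  have h3 : (0 : ℝ) < Real.sqrt 3 := by positivity
  have hsc := Real.sin_sq_add_cos_sq φ
  have hq : (Real.sqrt 3 / 2 * Real.sin φ) ^ 2 = 3 / 4 * Real.sin φ ^ 2 := by
    rw [mul_pow, div_pow, h32]; norm_num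
  have hlt : (Real.sqrt 3 / 2 * Real.sin φ) ^ 2 < 1 := by
    rw [hq]; nlinarith [sq_nonneg (Real.cos φ)]
  have h1 : Real.sqrt 3 / 2 * Real.sin φ ≠ -1 := by
    intro h; rw [h] at hlt; norm_num at hlt
  have h2 : Real.sqrt 3 / 2 * Real.sin φ ≠ 1 := by
    intro h; rw [h] at hlt; norm_num at hlt
  have h4 := (Real.hasDerivAt_arcsin h1 h2).comp φ ((Real.hasDerivAt_sin φ).const_mul (Real.sqrt 3 / 2))
  have h5 := h4.sub ((hasDerivAt_id φ).div_const (Real.sqrt 2))
  refine h5.congr_deriv ?_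
  unfold hw42
  have e1 : 1 - (Real.sqrt 3 / 2 * Real.sin φ) ^ 2 = 3 / 4 * (Real.cos φ ^ 2 + 1 / 3) := by
    rw [hq]; nlinarith
  have e2 : Real.sqrt (3 / 4 : ℝ) = Real.sqrt 3 / 2 := by
    rw [Real.sqrt_div (by norm_num)]
    congr 1
    rw [show (4 : ℝ) = 2 ^ 2 by norm_num, Real.sqrt_sq (by norm_num)]
  rw [e1, Real.sqrt_mul (by norm_num), e2]
  congr 1
  have hs : 0 < Real.sqrt (Real.cos φ ^ 2 + 1 / 3) := Real.sqrt_pos.2 (by positivity)
  field_simp

theorem sin_bb42 : Real.sin bb = Real.sqrt 2 / Real.sqrt 3 := by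
  unfold bb
  rw [Real.sin_arctan, Real.sq_sqrt (by norm_num)]
  norm_num

theorem cos_bb42 : Real.cos bb = 1 / Real.sqrt 3 := by
  unfold bb
  rw [Real.cos_arctan, Real.sq_sqrt (by norm_num)]
  norm_num

theorem bb_pos42 : 0 < bb := by
  unfold bb
  rw [← Real.arctan_zero]
  exact Real.arctan_strictMono (by positivity)

theorem bb_lt42 : bb < Real.pi / 2 := Real.arctan_lt_pi_div_two _

theorem arcsin_q42 : Real.arcsin (Real.sqrt 3 / 2 * (Real.sqrt 2 / Real.sqrt 3)) = Real.pi / 4 := by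
  have h3 : Real.sqrt 3 ≠ 0 := by positivity
  have e : Real.sqrt 3 / 2 * (Real.sqrt 2 / Real.sqrt 3) = Real.sqrt 2 / 2 := by field_simp
  rw [e, ← Real.sin_pi_div_four]
  exact Real.arcsin_sin (by linarith [Real.pi_pos]) (by linarith [Real.pi_pos])

/-- the integral of the width -/
theorem int_hw42 : ∫ φ in (-bb)..bb, hw42 φ = hh := by
  rw [intervalIntegral.integral_eq_sub_of_hasDerivAt (fun φ _ => hasDeriv_hw42 φ)
    (hw42_cont.intervalIntegrable _ _)]
  rw [Real.sin_neg, sin_bb42, mul_neg, Real.arcsin_neg, arcsin_q42]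
  unfold hh
  have h := inv_sqrt2_42
  have e1 : bb / Real.sqrt 2 = bb * (Real.sqrt 2 / 2) := by rw [← h]; ring
  have e2 : -bb / Real.sqrt 2 = -(bb * (Real.sqrt 2 / 2)) := by rw [← h]; ring
  rw [e1, e2]
  ring

/-- coordinates of the neighbour -/
theorem coord_n42 {v n : E3} (hv : ‖v‖ = 1) (hn : ‖n‖ = 1) (hvn : inner ℝ v n = (1 / 2 : ℝ)) :
    ‖(1 / Real.sqrt 3) • ((2 : ℝ) • n - v)‖ = 1 ∧
      inner ℝ v ((1 / Real.sqrt 3) • ((2 : ℝ) • n - v)) = (0 : ℝ) ∧
      inner ℝ ((1 / Real.sqrt 3) • ((2 : ℝ) • n - v)) n = Real.sqrt 3 / 2 := by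
  have h32 : Real.sqrt 3 ^ 2 = 3 := Real.sq_sqrt (by norm_num)
  have h3 : (0 : ℝ) < Real.sqrt 3 := by positivity
  have hvv : inner ℝ v v = (1 : ℝ) := by rw [real_inner_self_eq_norm_sq, hv]; norm_num
  have hnn : inner ℝ n n = (1 : ℝ) := by rw [real_inner_self_eq_norm_sq, hn]; norm_num
  have hnv : inner ℝ n v = (1 / 2 : ℝ) := by rw [real_inner_comm]; exact hvn
  refine ⟨?_, ?_, ?_⟩
  · have h : ‖(1 / Real.sqrt 3) • ((2 : ℝ) • n - v)‖ ^ 2 = 1 ^ 2 := by
      rw [← real_inner_self_eq_norm_sq]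
      simp only [inner_smul_left, inner_smul_right, inner_sub_left, inner_sub_right, conj_trivial]
      rw [hvv, hnn, hvn, hnv]
      field_simp
      nlinarith
    exact (pow_left_inj₀ (norm_nonneg _) (by norm_num) two_ne_zero).1 h
  · simp only [inner_smul_right, inner_sub_right]
    rw [hvv, hvn]
    ring
  · simp only [inner_smul_left, inner_sub_left, conj_trivial]
    rw [hnn, hvn]
    field_simp
    nlinarith

theorem stmt_LENSV (h : Stmt_GNO) : Stmt_LENSV := by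
  intro v n hv hn hvn
  obtain ⟨he, hve, hen⟩ := coord_n42 hv hn hvn
  obtain ⟨M, hM, hF⟩ := h v _ hv he hve
  have h32 : Real.sqrt 3 ^ 2 = 3 := Real.sq_sqrt (by norm_num)
  have h3 : (0 : ℝ) < Real.sqrt 3 := by positivity
  have m1 : (M n).1 = 1 / 2 := by rw [hM.2.1, hvn]
  have m2 : (M n).2.1 = Real.sqrt 3 / 2 := by rw [hM.2.2.1, hen]
  have m3 : (M n).2.2 = 0 := by
    have hnn := coord_norm hM n
    rw [hn, m1, m2] at hnn
    have : (M n).2.2 ^ 2 = 0 := by nlinarith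
    exact pow_eq_zero_iff two_ne_zero |>.1 this
  have hset : lensS v n = {x : E3 | ‖x‖ ≤ 1 ∧ 0 < inner ℝ v x ∧
      (M x).1⁻¹ • (M x).2 ∈ {w : ℝ × ℝ | w.1 ^ 2 + w.2 ^ 2 < 1 ∧ 1 ≤ Real.sqrt 3 * w.1}} := by
    have key : ∀ x, 0 < (M x).1 → (inner ℝ v x ≤ inner ℝ n x ↔
        1 ≤ Real.sqrt 3 * ((M x).1⁻¹ • (M x).2).1) := by
      intro x h0
      rw [coord_inner hM h0 n, m1, m2, m3, ← hM.2.1]
      rw [le_mul_iff_one_le_right h0]
      constructor <;> intro h <;> linarith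
    ext x
    constructor
    · rintro ⟨h1, h2, h4⟩
      have h0 : 0 < (M x).1 := by
        rw [hM.2.1]
        exact lt_of_le_of_lt (by positivity) h2
      exact ⟨h1, by rw [← hM.2.1]; exact h0, (cap_iff42 hM h0).1 h2, (key x h0).1 h4⟩
    · rintro ⟨h1, h2, h4, h5⟩
      have h0 : 0 < (M x).1 := by rw [hM.2.1]; exact h2
      exact ⟨h1, (cap_iff42 hM h0).2 h4, (key x h0).2 h5⟩
  have hms : MeasurableSet {w : ℝ × ℝ | w.1 ^ 2 + w.2 ^ 2 < 1 ∧ 1 ≤ Real.sqrt 3 * w.1} :=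
    MeasurableSet.inter (s₁ := {w : ℝ × ℝ | w.1 ^ 2 + w.2 ^ 2 < 1})
      (s₂ := {w : ℝ × ℝ | 1 ≤ Real.sqrt 3 * w.1})
      (measurableSet_lt (by fun_prop) measurable_const)
      (measurableSet_le measurable_const (by fun_prop))
  rw [hset, hF _ hms]
  have hin : ∀ φ : ℝ, ∫⁻ r in {r : ℝ | 0 < r ∧ (r * Real.cos φ, r * Real.sin φ) ∈
      {w : ℝ × ℝ | w.1 ^ 2 + w.2 ^ 2 < 1 ∧ 1 ≤ Real.sqrt 3 * w.1}},
        ENNReal.ofReal (r * (1 / Real.sqrt (1 + r ^ 2)) ^ 3 / 3) ≤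
      ENNReal.ofReal (hw42 φ / 3) := by
    intro φ
    have hsc := Real.sin_sq_add_cos_sq φ
    have hr : ∀ r : ℝ, (r * Real.cos φ) ^ 2 + (r * Real.sin φ) ^ 2 = r ^ 2 := by
      intro r
      calc (r * Real.cos φ) ^ 2 + (r * Real.sin φ) ^ 2 =
        r ^ 2 * (Real.sin φ ^ 2 + Real.cos φ ^ 2) := by ring
        _ = r ^ 2 := by rw [hsc, mul_one]
    rcases le_or_gt (Real.cos φ) (1 / Real.sqrt 3) with hc | hc
    · have hs : {r : ℝ | 0 < r ∧ (r * Real.cos φ, r * Real.sin φ) ∈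
        {w : ℝ × ℝ | w.1 ^ 2 + w.2 ^ 2 < 1 ∧ 1 ≤ Real.sqrt 3 * w.1}} = ∅ := by
        ext r
        simp only [Set.mem_ofPred_eq, Set.mem_empty_iff_false, iff_false]
        rw [hr]
        rintro ⟨h1, h2, h4⟩
        have h5 : r < 1 := by nlinarith
        have h6 : Real.sqrt 3 * (r * Real.cos φ) ≤ r := by
          have : Real.sqrt 3 * Real.cos φ ≤ 1 := by
            calc Real.sqrt 3 * Real.cos φ ≤ Real.sqrt 3 * (1 / Real.sqrt 3) :=
                  mul_le_mul_of_nonneg_left hc h3.le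
              _ = 1 := by field_simp
          nlinarith
        linarith
      rw [hs]
      simp
    · have hc0 : 0 < Real.cos φ := lt_trans (by positivity) hc
      have hsub : {r : ℝ | 0 < r ∧ (r * Real.cos φ, r * Real.sin φ) ∈
        {w : ℝ × ℝ | w.1 ^ 2 + w.2 ^ 2 < 1 ∧ 1 ≤ Real.sqrt 3 * w.1}} ⊆
        Set.Icc (1 / (Real.sqrt 3 * Real.cos φ)) 1 := by
        intro r
        simp only [Set.mem_ofPred_eq, Set.mem_Icc]
        rw [hr]
        rintro ⟨h1, h2, h4⟩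
        refine ⟨?_, by nlinarith⟩
        rw [div_le_iff₀ (by positivity)]
        calc 1 ≤ Real.sqrt 3 * (r * Real.cos φ) := h4
          _ = _ := by ring
      refine (lintegral_mono_set hsub).trans ?_
      rw [setLIntegral_congr (Ioc_ae_eq_Icc (a := (1 / (Real.sqrt 3 * Real.cos φ))) (b := 1)).symm]
      rw [lint_ab42 ?_ (by positivity)]
      · refine ENNReal.ofReal_le_ofReal (le_of_eq ?_)
        unfold hw42
        congr 1
        have e1 : 1 + (1 / (Real.sqrt 3 * Real.cos φ)) ^ 2 =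
            (Real.cos φ ^ 2 + 1 / 3) / Real.cos φ ^ 2 := by
          rw [div_pow, mul_pow, h32]
          field_simp
        rw [e1, Real.sqrt_div (by positivity), Real.sqrt_sq hc0.le, one_div_div]
        norm_num
      · rw [div_le_one (by positivity)]
        have h5 : Real.sqrt 3 * (1 / Real.sqrt 3) = 1 := by field_simp
        calc (1 : ℝ) = Real.sqrt 3 * (1 / Real.sqrt 3) := h5.symm
          _ ≤ _ := mul_le_mul_of_nonneg_left hc.le h3.le
  refine (lintegral_mono hin).trans ?_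
  have hbb0 := bb_pos42
  have hbb1 := bb_lt42
  have hpi := Real.pi_pos
  have hzero : ∀ φ ∈ Set.Ioo (-Real.pi) Real.pi \ Set.Ioc (-bb) bb,
      ENNReal.ofReal (hw42 φ / 3) = 0 := by
    rintro φ ⟨⟨h1, h2⟩, h4⟩
    rw [ENNReal.ofReal_eq_zero]
    have : hw42 φ ≤ 0 := by
      apply hw42_nonpos
      rw [← cos_bb42, ← Real.cos_abs φ]
      have habs : bb ≤ |φ| := by
        by_contra hcon
        rw [not_le, abs_lt] at hcon
        exact h4 ⟨hcon.1, hcon.2.le⟩
      refine Real.cos_le_cos_of_nonneg_of_le_pi hbb0.le ?_ habs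
      rw [abs_le]
      exact ⟨h1.le, h2.le⟩
    linarith
  have hle : ∫⁻ φ in Set.Ioo (-Real.pi) Real.pi, ENNReal.ofReal (hw42 φ / 3) ≤
      ∫⁻ φ in Set.Ioc (-bb) bb, ENNReal.ofReal (hw42 φ / 3) := by
    rw [← lintegral_indicator measurableSet_Ioo, ← lintegral_indicator measurableSet_Ioc]
    refine lintegral_mono fun φ => ?_
    by_cases h1 : φ ∈ Set.Ioo (-Real.pi) Real.pi
    · by_cases h2 : φ ∈ Set.Ioc (-bb) bb
      · rw [Set.indicator_of_mem h1, Set.indicator_of_mem h2]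
      · rw [Set.indicator_of_mem h1, hzero φ ⟨h1, h2⟩]
        exact bot_le
    · rw [Set.indicator_of_notMem h1]
      exact bot_le
  refine hle.trans ?_
  rw [← ofReal_integral_eq_lintegral_ofReal]
  · refine ENNReal.ofReal_le_ofReal (le_of_eq ?_)
    rw [← intervalIntegral.integral_of_le (by linarith)]
    rw [intervalIntegral.integral_div, int_hw42]
  · exact ((hw42_cont.div_const 3).integrableOn_Icc (a := -bb) (b := bb)).mono_set
      Set.Ioc_subset_Icc_self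
  · filter_upwards [ae_restrict_mem measurableSet_Ioc] with φ hφ
    have h1 : 1 / Real.sqrt 3 ≤ Real.cos φ := by
      rw [← cos_bb42, ← Real.cos_abs φ]
      refine Real.cos_le_cos_of_nonneg_of_le_pi (abs_nonneg φ) (by linarith) ?_
      rw [abs_le]
      exact ⟨hφ.1.le, hφ.2⟩
    have hc0 : 0 < Real.cos φ := lt_of_lt_of_le (by positivity) h1
    have : 0 ≤ hw42 φ := by
      unfold hw42
      have hs : 0 < Real.sqrt (Real.cos φ ^ 2 + 1 / 3) := Real.sqrt_pos.2 (by positivity)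
      rw [sub_nonneg, le_div_iff₀ hs]
      have h4 : (1 / 3 : ℝ) ≤ Real.cos φ ^ 2 := by
        calc (1 / 3 : ℝ) = (1 / Real.sqrt 3) ^ 2 := by rw [div_pow, h32]; norm_num
          _ ≤ Real.cos φ ^ 2 := pow_le_pow_left₀ (by positivity) h1 2
      have h5 : Real.sqrt (Real.cos φ ^ 2 + 1 / 3) ≤ Real.sqrt (2 * Real.cos φ ^ 2) :=
        Real.sqrt_le_sqrt (by linarith)
      rw [Real.sqrt_mul (by norm_num), Real.sqrt_sq hc0.le] at h5
      have h6 : 1 / Real.sqrt 2 * (Real.sqrt 2 * Real.cos φ) = Real.cos φ := by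
        have : Real.sqrt 2 ≠ 0 := by positivity
        field_simp
      calc 1 / Real.sqrt 2 * Real.sqrt (Real.cos φ ^ 2 + 1 / 3) ≤
          1 / Real.sqrt 2 * (Real.sqrt 2 * Real.cos φ) :=
            mul_le_mul_of_nonneg_left h5 (by positivity)
        _ = Real.cos φ := h6
    show (0 : ℝ) ≤ hw42 φ / 3
    linarith

end

end MPdef58eGap
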