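import Pool.Agent.Work.MP_def58e_gap.InterfaceA

/-! MP_def58e_co, gap class, block NUM (helper50): the numerics. -/

set_option autoImplicit false

namespace MPdef58eGap

namespace NUM_

theorem arctan_le {t : ℝ} (ht : 0 ≤ t) : Real.arctan t ≤ t - t ^ 3 / 3 + t ^ 5 / 5 := by
  have hd : ∀ x : ℝ, HasDerivAt (fun x : ℝ => x - x ^ 3 / 3 + x ^ 5 / 5 - Real.arctan x)
      (1 - x ^ 2 + x ^ 4 - 1 / (1 + x ^ 2)) x := by
    intro x
    have h1 := (((hasDerivAt_id x).sub (((hasDerivAt_id x).pow 3).div_const 3)).add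
      (((hasDerivAt_id x).pow 5).div_const 5)).sub (Real.hasDerivAt_arctan x)
    refine h1.congr_deriv ?_
    simp only [id]
    ring
  have hm : MonotoneOn (fun x : ℝ => x - x ^ 3 / 3 + x ^ 5 / 5 - Real.arctan x) (Set.Ici 0) := by
    refine monotoneOn_of_deriv_nonneg (convex_Ici 0)
      (fun x _ => (hd x).continuousAt.continuousWithinAt)
      (fun x _ => (hd x).differentiableAt.differentiableWithinAt) fun x _ => ?_
    rw [(hd x).deriv]
    have h2 : (1 - x ^ 2 + x ^ 4 - 1 / (1 + x ^ 2)) = x ^ 6 / (1 + x ^ 2) := by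
      have : (1 + x ^ 2) ≠ 0 := by positivity
      field_simp
      ring
    rw [h2]
    positivity
  have h := hm (Set.mem_Ici.2 le_rfl) (Set.mem_Ici.2 ht) ht
  simp only [Real.arctan_zero] at h
  norm_num at h
  linarith

theorem le_arctan {t : ℝ} (ht : 0 ≤ t) : t - t ^ 3 / 3 ≤ Real.arctan t := by
  have hd : ∀ x : ℝ, HasDerivAt (fun x : ℝ => Real.arctan x - (x - x ^ 3 / 3))
      (1 / (1 + x ^ 2) - (1 - x ^ 2)) x := by
    intro x
    have h1 := (Real.hasDerivAt_arctan x).sub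
      ((hasDerivAt_id x).sub (((hasDerivAt_id x).pow 3).div_const 3))
    refine h1.congr_deriv ?_
    simp only [id]
    ring
  have hm : MonotoneOn (fun x : ℝ => Real.arctan x - (x - x ^ 3 / 3)) (Set.Ici 0) := by
    refine monotoneOn_of_deriv_nonneg (convex_Ici 0)
      (fun x _ => (hd x).continuousAt.continuousWithinAt)
      (fun x _ => (hd x).differentiableAt.differentiableWithinAt) fun x _ => ?_
    rw [(hd x).deriv]
    have h2 : 1 / (1 + x ^ 2) - (1 - x ^ 2) = x ^ 4 / (1 + x ^ 2) := by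
      have : (1 + x ^ 2) ≠ 0 := by positivity
      field_simp
      ring
    rw [h2]
    positivity
  have h := hm (Set.mem_Ici.2 le_rfl) (Set.mem_Ici.2 ht) ht
  simp only [Real.arctan_zero] at h
  norm_num at h
  linarith

theorem s2 : (1.414213 : ℝ) < Real.sqrt 2 ∧ Real.sqrt 2 < 1.414214 := by
  constructor
  · rw [Real.lt_sqrt (by norm_num)]; norm_num
  · rw [Real.sqrt_lt' (by norm_num)]; norm_num

theorem s3 : (1.732050 : ℝ) < Real.sqrt 3 ∧ Real.sqrt 3 < 1.732051 := by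
  constructor
  · rw [Real.lt_sqrt (by norm_num)]; norm_num
  · rw [Real.sqrt_lt' (by norm_num)]; norm_num

theorem bb_eq : bb = Real.pi / 2 - 2 * Real.arctan (Real.sqrt 3 - Real.sqrt 2) := by
  obtain ⟨h1, h2⟩ := s2
  obtain ⟨h3, h4⟩ := s3
  have h5 : Real.sqrt 2 * Real.sqrt 2 = 2 := Real.mul_self_sqrt (by norm_num)
  have h6 : Real.sqrt 3 * Real.sqrt 3 = 3 := Real.mul_self_sqrt (by norm_num)
  have h7 : 2 * (Real.sqrt 3 - Real.sqrt 2) / (1 - (Real.sqrt 3 - Real.sqrt 2) ^ 2) =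
      (Real.sqrt 2)⁻¹ := by
    have h8 : 1 - (Real.sqrt 3 - Real.sqrt 2) ^ 2 ≠ 0 := by nlinarith
    have h9 : Real.sqrt 2 ≠ 0 := by linarith
    rw [div_eq_iff h8, eq_comm, inv_mul_eq_iff_eq_mul₀ h9]
    nlinarith
  rw [Real.two_mul_arctan (by linarith) (by linarith), h7,
    Real.arctan_inv_of_pos (by linarith), bb]
  ring

theorem bb_bounds : Real.pi / 2 - 0.6155702 < bb ∧ bb < Real.pi / 2 - 0.6142 := by
  obtain ⟨h1, h2⟩ := s2
  obtain ⟨h3, h4⟩ := s3
  rw [bb_eq]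
  have ht : (0.317836 : ℝ) < Real.sqrt 3 - Real.sqrt 2 := by linarith
  have ht' : Real.sqrt 3 - Real.sqrt 2 < (0.317838 : ℝ) := by linarith
  have h5 : Real.arctan (Real.sqrt 3 - Real.sqrt 2) < Real.arctan 0.317838 :=
    Real.arctan_strictMono ht'
  have h6 : Real.arctan 0.317836 < Real.arctan (Real.sqrt 3 - Real.sqrt 2) :=
    Real.arctan_strictMono ht
  have h7 := arctan_le (t := 0.317838) (by norm_num)
  have h8 := le_arctan (t := 0.317836) (by norm_num)
  norm_num at h7 h8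
  constructor <;> linarith

end NUM_

open NUM_ in
theorem stmt_NUM : Stmt_NUM := by
  obtain ⟨h1, h2⟩ := s2
  obtain ⟨h3, h4⟩ := bb_bounds
  have h5 := Real.pi_gt_d6
  have h6 := Real.pi_lt_d6
  have h7 : Real.sqrt 2 * Real.sqrt 2 = 2 := Real.mul_self_sqrt (by norm_num)
  have h8 : Real.pi / Real.sqrt 2 = Real.sqrt 2 * Real.pi / 2 := by
    rw [div_eq_div_iff (by linarith) (by norm_num)]
    nlinarith
  have h9 : Real.sqrt 2 * bb > Real.sqrt 2 * (Real.pi / 2 - 0.6155702) :=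
    mul_lt_mul_of_pos_left h3 (by linarith)
  have h10 : Real.sqrt 2 * bb < Real.sqrt 2 * (Real.pi / 2 - 0.6142) :=
    mul_lt_mul_of_pos_left h4 (by linarith)
  have h11 : Real.sqrt 2 * Real.pi > 1.414213 * 3.141592 := by nlinarith
  have h12 : Real.sqrt 2 * Real.pi < 1.414214 * 3.141593 := by nlinarith
  unfold Stmt_NUM cc hh kk
  rw [h8]
  refine ⟨?_, ?_, ?_, ?_, ?_, ?_⟩ <;> nlinarith

end MPdef58eGap
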