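import Pool.Agent.Work.MP_def58e_gap.GNO

/-!
# MP_def58e_co, gap class: block PW (helper11): the cap inequality at one vector
-/

open MeasureTheory Set
open scoped ENNReal

namespace MPdef58eGap

open MPdef58e

noncomputable section

/-- two unit vectors at angle at least `90°` are not both nearer than `45°` to `x` -/
theorem near {a b x : E3} (ha : ‖a‖ = 1) (hb : ‖b‖ = 1)
    (h1 : ‖x‖ / Real.sqrt 2 < inner ℝ a x) (h2 : ‖x‖ / Real.sqrt 2 < inner ℝ b x) :
    ¬ inner ℝ a b ≤ (0 : ℝ) := by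
  intro h
  have hs : 0 < Real.sqrt 2 := by positivity
  have hs2 : Real.sqrt 2 ^ 2 = 2 := Real.sq_sqrt (by norm_num)
  have h3 : ‖a + b‖ ^ 2 ≤ 2 := by
    have := norm_add_sq_real a b
    rw [ha, hb] at this
    linarith
  have h4 : inner ℝ (a + b) x ≤ ‖a + b‖ * ‖x‖ := real_inner_le_norm _ _
  rw [inner_add_left] at h4
  have hx : 0 ≤ ‖x‖ := norm_nonneg x
  have h5 : ‖a + b‖ ≤ Real.sqrt 2 := Real.le_sqrt_of_sq_le h3
  have h6 : ‖a + b‖ * ‖x‖ ≤ Real.sqrt 2 * ‖x‖ := mul_le_mul_of_nonneg_right h5 hx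
  have h7 : ‖x‖ / Real.sqrt 2 + ‖x‖ / Real.sqrt 2 = Real.sqrt 2 * ‖x‖ := by
    rw [← add_div, div_eq_iff hs.ne']
    calc ‖x‖ + ‖x‖ = Real.sqrt 2 ^ 2 * ‖x‖ := by rw [hs2]; ring
      _ = _ := by ring
  linarith

/-- no four unit vectors of three-space have all inner products `1/2` -/
theorem no_four {a b c d : E3} (ha : ‖a‖ = 1) (hb : ‖b‖ = 1) (hc : ‖c‖ = 1) (hd : ‖d‖ = 1)
    (hab : inner ℝ a b = (1 / 2 : ℝ)) (hac : inner ℝ a c = (1 / 2 : ℝ))
    (had : inner ℝ a d = (1 / 2 : ℝ)) (hbc : inner ℝ b c = (1 / 2 : ℝ))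
    (hbd : inner ℝ b d = (1 / 2 : ℝ)) (hcd : inner ℝ c d = (1 / 2 : ℝ)) : False := by
  obtain ⟨M, -, hM1, hM2, -⟩ := exists_coord ha
  have fb : (M b).1 = 1 / 2 := by rw [hM1, hab]
  have fc : (M c).1 = 1 / 2 := by rw [hM1, hac]
  have fd : (M d).1 = 1 / 2 := by rw [hM1, had]
  have hbb : inner ℝ b b = (1 : ℝ) := by rw [real_inner_self_eq_norm_sq, hb]; norm_num
  have hcc : inner ℝ c c = (1 : ℝ) := by rw [real_inner_self_eq_norm_sq, hc]; norm_num
  have hdd : inner ℝ d d = (1 : ℝ) := by rw [real_inner_self_eq_norm_sq, hd]; norm_num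
  rw [hM2, fb] at hbb
  rw [hM2, fc] at hcc
  rw [hM2, fd] at hdd
  rw [hM2, fb, fc] at hbc
  rw [hM2, fb, fd] at hbd
  rw [hM2, fc, fd] at hcd
  set b1 := (M b).2.1
  set b2 := (M b).2.2
  set c1 := (M c).2.1
  set c2 := (M c).2.2
  set d1 := (M d).2.1
  set d2 := (M d).2.2
  have e1 : b1 * b1 + b2 * b2 = 3 / 4 := by linarith
  have e2 : c1 * c1 + c2 * c2 = 3 / 4 := by linarith
  have e3 : d1 * d1 + d2 * d2 = 3 / 4 := by linarith
  have e4 : b1 * c1 + b2 * c2 = 1 / 4 := by linarith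
  have e5 : b1 * d1 + b2 * d2 = 1 / 4 := by linarith
  have e6 : c1 * d1 + c2 * d2 = 1 / 4 := by linarith
  have id : (b1 * b1 + b2 * b2) * ((c1 * c1 + c2 * c2) * (d1 * d1 + d2 * d2) -
        (c1 * d1 + c2 * d2) * (c1 * d1 + c2 * d2)) -
      (b1 * c1 + b2 * c2) * ((b1 * c1 + b2 * c2) * (d1 * d1 + d2 * d2) -
        (c1 * d1 + c2 * d2) * (b1 * d1 + b2 * d2)) +
      (b1 * d1 + b2 * d2) * ((b1 * c1 + b2 * c2) * (c1 * d1 + c2 * d2) -
        (c1 * c1 + c2 * c2) * (b1 * d1 + b2 * d2)) = 0 := by ring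
  rw [e1, e2, e3, e4, e5, e6] at id
  norm_num at id

theorem meas_ip (v : E3) : Measurable fun x : E3 => (inner ℝ v x : ℝ) := by fun_prop

theorem capS_meas (v : E3) : MeasurableSet (capS v) := by
  unfold capS
  exact (measurableSet_le measurable_norm measurable_const).inter
    (measurableSet_lt (measurable_norm.div_const _) (meas_ip v))

theorem lensS_meas (v n : E3) : MeasurableSet (lensS v n) := by
  unfold lensS
  exact (measurableSet_le measurable_norm measurable_const).inter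
    ((measurableSet_lt (measurable_norm.div_const _) (meas_ip v)).inter
      (measurableSet_le (meas_ip v) (meas_ip n)))

theorem triS_meas (v n n' : E3) : MeasurableSet (triS v n n') := by
  unfold triS
  exact (measurableSet_le measurable_norm measurable_const).inter
    ((measurableSet_lt (measurable_norm.div_const _) (meas_ip v)).inter
      ((measurableSet_lt (meas_ip v) (meas_ip n)).inter (measurableSet_lt (meas_ip v) (meas_ip n'))))

open Classical in
/-- the pointwise inequality -/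
theorem pointwise {u : Fin 11 → E3} (hu : Gap u) (i : Fin 11) (x : E3) :
    (capS (u i)).indicator (1 : E3 → ℝ≥0∞) x +
      ∑ p ∈ Finset.univ.filter (fun p : Fin 11 × Fin 11 => p.1 < p.2 ∧
          inner ℝ (u i) (u p.1) = (1 / 2 : ℝ) ∧ inner ℝ (u i) (u p.2) = (1 / 2 : ℝ) ∧
          inner ℝ (u p.1) (u p.2) = (1 / 2 : ℝ)),
        (triS (u i) (u p.1) (u p.2)).indicator (1 : E3 → ℝ≥0∞) x ≤
    (cell u i ∩ Metric.closedBall 0 1).indicator (1 : E3 → ℝ≥0∞) x +
      ∑ j ∈ Finset.univ.filter (fun j : Fin 11 => inner ℝ (u i) (u j) = (1 / 2 : ℝ)),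
        (lensS (u i) (u j)).indicator (1 : E3 → ℝ≥0∞) x := by
  obtain ⟨hn, hg⟩ := hu
  by_cases hx : x ∈ capS (u i)
  · -- the set of the lenses which contain `x`
    set N := Finset.univ.filter (fun j : Fin 11 => inner ℝ (u i) (u j) = (1 / 2 : ℝ)) with hN
    set P := Finset.univ.filter (fun p : Fin 11 × Fin 11 => p.1 < p.2 ∧
          inner ℝ (u i) (u p.1) = (1 / 2 : ℝ) ∧ inner ℝ (u i) (u p.2) = (1 / 2 : ℝ) ∧
          inner ℝ (u p.1) (u p.2) = (1 / 2 : ℝ)) with hP
    set S := N.filter (fun j => x ∈ lensS (u i) (u j)) with hS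
    set T := P.filter (fun p => x ∈ triS (u i) (u p.1) (u p.2)) with hT
    have hself : inner ℝ (u i) (u i) = (1 : ℝ) := by
      rw [real_inner_self_eq_norm_sq, hn i]; norm_num
    have eS : ∑ j ∈ N, (lensS (u i) (u j)).indicator (1 : E3 → ℝ≥0∞) x = (S.card : ℝ≥0∞) := by
      rw [hS, Finset.card_filter, Nat.cast_sum]
      refine Finset.sum_congr rfl fun j _ => ?_
      by_cases h : x ∈ lensS (u i) (u j)
      · rw [indicator_of_mem h, if_pos h]; simp
      · rw [indicator_of_notMem h, if_neg h]; simp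
    have eT : ∑ p ∈ P, (triS (u i) (u p.1) (u p.2)).indicator (1 : E3 → ℝ≥0∞) x
        = (T.card : ℝ≥0∞) := by
      rw [hT, Finset.card_filter, Nat.cast_sum]
      refine Finset.sum_congr rfl fun p _ => ?_
      by_cases h : x ∈ triS (u i) (u p.1) (u p.2)
      · rw [indicator_of_mem h, if_pos h]; simp
      · rw [indicator_of_notMem h, if_neg h]; simp
    rw [eS, eT, indicator_of_mem hx]
    have hxi := hx.2
    -- members of `S` are pairwise adjacent
    have hSmem : ∀ j ∈ S, inner ℝ (u i) (u j) = (1 / 2 : ℝ) ∧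
        ‖x‖ / Real.sqrt 2 < inner ℝ (u j) x := by
      intro j hj
      obtain ⟨h1, h2⟩ := Finset.mem_filter.1 hj
      exact ⟨(Finset.mem_filter.1 h1).2, lt_of_lt_of_le h2.2.1 h2.2.2⟩
    have hadj : ∀ a ∈ S, ∀ b ∈ S, a ≠ b → inner ℝ (u a) (u b) = (1 / 2 : ℝ) := by
      intro a ha b hb hab
      rcases hg a b hab with h | h
      · exact h
      · exact absurd h (near (hn a) (hn b) (hSmem a ha).2 (hSmem b hb).2)
    have hcard : S.card ≤ 2 := by
      by_contra hc
      push Not at hc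
      obtain ⟨a, ha, b, hb, c, hc', hab, hac, hbc⟩ := Finset.two_lt_card.1 hc
      exact no_four (hn i) (hn a) (hn b) (hn c) (hSmem a ha).1 (hSmem b hb).1 (hSmem c hc').1
        (hadj a ha b hb hab) (hadj a ha c hc' hac) (hadj b hb c hc' hbc)
    have hTS : ∀ p ∈ T, p.1 < p.2 ∧ p.1 ∈ S ∧ p.2 ∈ S := by
      intro p hp
      obtain ⟨h1, h2⟩ := Finset.mem_filter.1 hp
      obtain ⟨-, h3, h4, h5, -⟩ := Finset.mem_filter.1 h1
      refine ⟨h3, ?_, ?_⟩
      · exact Finset.mem_filter.2 ⟨Finset.mem_filter.2 ⟨Finset.mem_univ _, h4⟩,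
          h2.1, h2.2.1, h2.2.2.1.le⟩
      · exact Finset.mem_filter.2 ⟨Finset.mem_filter.2 ⟨Finset.mem_univ _, h5⟩,
          h2.1, h2.2.1, h2.2.2.2.le⟩
    have hT1 : T.card ≤ 1 := by
      rw [Finset.card_le_one]
      intro p hp p' hp'
      obtain ⟨h1, h2, h3⟩ := hTS p hp
      obtain ⟨h1', h2', h3'⟩ := hTS p' hp'
      have hsub : ∀ a ∈ S, a = p.1 ∨ a = p.2 := by
        intro a ha
        by_contra hc
        push Not at hc
        have : 2 < S.card := Finset.two_lt_card.2 ⟨a, ha, p.1, h2, p.2, h3, hc.1, hc.2, h1.ne⟩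
        omega
      rcases hsub _ h2' with e1 | e1 <;> rcases hsub _ h3' with e2 | e2
      · rw [e1, e2] at h1'; exact absurd h1' (lt_irrefl _)
      · exact Prod.ext e1.symm e2.symm
      · rw [e1, e2] at h1'; exact absurd (h1.trans h1') (lt_irrefl _)
      · rw [e1, e2] at h1'; exact absurd h1' (lt_irrefl _)
    rcases Nat.eq_zero_or_pos S.card with h0 | hpos
    · -- `x` is in the cell
      have hSe : S = ∅ := Finset.card_eq_zero.1 h0
      have hT0 : T.card = 0 := by
        rw [Finset.card_eq_zero, Finset.eq_empty_iff_forall_notMem]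
        intro p hp
        have := (hTS p hp).2.1
        rw [hSe] at this
        exact Finset.notMem_empty _ this
      have hnot : ∀ j, j ≠ i → ¬ inner ℝ (u i) x ≤ (inner ℝ (u j) x : ℝ) := by
        intro j hj h
        have hadj : inner ℝ (u i) (u j) = (1 / 2 : ℝ) := by
          rcases hg i j hj.symm with h' | h'
          · exact h'
          · exact absurd h' (near (hn i) (hn j) hxi (lt_of_lt_of_le hxi h))
        have : j ∈ S := Finset.mem_filter.2 ⟨Finset.mem_filter.2 ⟨Finset.mem_univ _, hadj⟩,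
          hx.1, hxi, h⟩
        rw [hSe] at this
        exact Finset.notMem_empty _ this
      have hcell : x ∈ cell u i ∩ Metric.closedBall 0 1 := by
        refine ⟨⟨lt_of_le_of_lt (by positivity) hxi, fun j hj => ?_, fun j hj => ?_⟩, ?_⟩
        · exact not_le.1 (hnot j hj.ne)
        · exact (not_le.1 (hnot j hj.ne')).le
        · rw [Metric.mem_closedBall, dist_zero_right]; exact hx.1
      rw [indicator_of_mem hcell, hT0]
      simp
    · have hle : 1 + T.card ≤ S.card := by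
        rcases Nat.lt_or_ge S.card 2 with h2 | h2
        · have h1 : S.card = 1 := by omega
          have hT0 : T.card = 0 := by
            rw [Finset.card_eq_zero, Finset.eq_empty_iff_forall_notMem]
            intro p hp
            obtain ⟨h3, h4, h5⟩ := hTS p hp
            exact h3.ne (Finset.card_le_one.1 h1.le _ h4 _ h5)
          omega
        · omega
      calc (1 : E3 → ℝ≥0∞) x + (T.card : ℝ≥0∞) = ((1 + T.card : ℕ) : ℝ≥0∞) := by
            push_cast; rfl
        _ ≤ (S.card : ℝ≥0∞) := by exact_mod_cast hle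
        _ ≤ _ := le_add_left le_rfl
  · have h1 : ∀ n n', x ∉ triS (u i) n n' := fun n n' h => hx ⟨h.1, h.2.1⟩
    rw [indicator_of_notMem hx, Finset.sum_eq_zero fun p _ => indicator_of_notMem (h1 _ _) _]
    simp

theorem stmt_PW (h1 : Stmt_CAPV) (h2 : Stmt_LENSV) (h3 : Stmt_TRIV) : Stmt_PW := by
  classical
  intro u hu i
  set N := Finset.univ.filter (fun j : Fin 11 => inner ℝ (u i) (u j) = (1 / 2 : ℝ)) with hN
  set P := Finset.univ.filter (fun p : Fin 11 × Fin 11 => p.1 < p.2 ∧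
        inner ℝ (u i) (u p.1) = (1 / 2 : ℝ) ∧ inner ℝ (u i) (u p.2) = (1 / 2 : ℝ) ∧
        inner ℝ (u p.1) (u p.2) = (1 / 2 : ℝ)) with hP
  have hdg : dg u i = N.card := by
    unfold dg
    rw [hN]
  have htv : tv u i = P.card := by
    unfold tv
    rw [hP]
  have hD : MeasurableSet (cell u i ∩ Metric.closedBall (0 : E3) 1) :=
    (cell_measurable u i).inter Metric.isClosed_closedBall.measurableSet
  have key := lintegral_mono (μ := (volume : Measure E3)) fun x => pointwise hu i x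
  rw [lintegral_add_left (measurable_one.indicator (capS_meas _)),
    lintegral_add_left (measurable_one.indicator hD),
    lintegral_finsetSum _ fun p _ => measurable_one.indicator (triS_meas _ _ _),
    lintegral_finsetSum _ fun j _ => measurable_one.indicator (lensS_meas _ _),
    lintegral_indicator_one (capS_meas _), lintegral_indicator_one hD] at key
  simp only [lintegral_indicator_one (triS_meas _ _ _), lintegral_indicator_one (lensS_meas _ _)]
    at key
  have hT : (P.card : ℝ≥0∞) * ENNReal.ofReal (kk / 3) ≤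
      ∑ p ∈ P, volume (triS (u i) (u p.1) (u p.2)) := by
    rw [← nsmul_eq_mul]
    refine Finset.card_nsmul_le_sum _ _ _ fun p hp => ?_
    obtain ⟨-, -, a1, a2, a3⟩ := Finset.mem_filter.1 hp
    exact h3 _ _ _ (hu.1 _) (hu.1 _) (hu.1 _) a1 a2 a3
  have hL : ∑ j ∈ N, volume (lensS (u i) (u j)) ≤ (N.card : ℝ≥0∞) * ENNReal.ofReal (hh / 3) := by
    rw [← nsmul_eq_mul]
    refine Finset.sum_le_card_nsmul _ _ _ fun j hj => ?_
    exact h2 _ _ (hu.1 _) (hu.1 _) (Finset.mem_filter.1 hj).2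
  rw [hdg, htv]
  calc ENNReal.ofReal (cc / 3) + (P.card : ℝ≥0∞) * ENNReal.ofReal (kk / 3)
      ≤ volume (capS (u i)) + ∑ p ∈ P, volume (triS (u i) (u p.1) (u p.2)) :=
        add_le_add (h1 _ (hu.1 i)) hT
    _ ≤ volume (cell u i ∩ Metric.closedBall 0 1) + ∑ j ∈ N, volume (lensS (u i) (u j)) := key
    _ ≤ _ := by gcongr

end

end MPdef58eGap
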