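import Pool.Agent.Work.MP_def58e_gap.Interface

/-!
# MP_def58e_co, gap theorem: kernel evaluation of the search, case A, star number 3 (helper90)
-/

namespace MPgap

set_option maxRecDepth 100000

theorem runA_3_0 : runA [pT, pPi, nT] 0 = true := by decide +kernel

theorem runA_3_1 : runA [pT, pPi, nT] 1 = true := by decide +kernel

theorem runA_3_2 : runA [pT, pPi, nT] 2 = true := by decide +kernel

end MPgap
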