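import Pool.Agent.Work.MP_def58e_gap.RunA1
import Pool.Agent.Work.MP_def58e_gap.RunA2
import Pool.Agent.Work.MP_def58e_gap.RunA3
import Pool.Agent.Work.MP_def58e_gap.RunA4
import Pool.Agent.Work.MP_def58e_gap.RunA5
import Pool.Agent.Work.MP_def58e_gap.RunA6
import Pool.Agent.Work.MP_def58e_gap.RunA7
import Pool.Agent.Work.MP_def58e_gap.RunA8
import Pool.Agent.Work.MP_def58e_gap.RunA9
import Pool.Agent.Work.MP_def58e_gap.RunA10
import Pool.Agent.Work.MP_def58e_gap.RunB1
import Pool.Agent.Work.MP_def58e_gap.RunB2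
import Pool.Agent.Work.MP_def58e_gap.RunB3
import Pool.Agent.Work.MP_def58e_gap.RunB4
import Pool.Agent.Work.MP_def58e_gap.RunB5
import Pool.Agent.Work.MP_def58e_gap.RunB6
import Pool.Agent.Work.MP_def58e_gap.RunB7
import Pool.Agent.Work.MP_def58e_gap.RunB8
import Pool.Agent.Work.MP_def58e_gap.RunB9
import Pool.Agent.Work.MP_def58e_gap.RunB10

/-!
# MP_def58e_co, gap theorem: all the kernel evaluations (helper90)
-/

namespace MPgap

theorem lt_three {P : ℕ → Prop} (h0 : P 0) (h1 : P 1) (h2 : P 2) : ∀ k < 3, P k := by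
  intro k hk
  match k, hk with
  | 0, _ => exact h0
  | 1, _ => exact h1
  | 2, _ => exact h2

theorem stmt_RUNA : Stmt_RUNA := by
  intro pt hpt
  simp only [pats, List.mem_cons, List.not_mem_nil, or_false] at hpt
  rcases hpt with rfl | rfl | rfl | rfl | rfl | rfl | rfl | rfl | rfl | rfl
  · exact lt_three runA_1_0 runA_1_1 runA_1_2
  · exact lt_three runA_2_0 runA_2_1 runA_2_2
  · exact lt_three runA_3_0 runA_3_1 runA_3_2
  · exact lt_three runA_4_0 runA_4_1 runA_4_2
  · exact lt_three runA_5_0 runA_5_1 runA_5_2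
  · exact lt_three runA_6_0 runA_6_1 runA_6_2
  · exact lt_three runA_7_0 runA_7_1 runA_7_2
  · exact lt_three runA_8_0 runA_8_1 runA_8_2
  · exact lt_three runA_9_0 runA_9_1 runA_9_2
  · exact lt_three runA_10_0 runA_10_1 runA_10_2

theorem stmt_RUNB : Stmt_RUNB := by
  intro pt hpt
  simp only [pats, List.mem_cons, List.not_mem_nil, or_false] at hpt
  rcases hpt with rfl | rfl | rfl | rfl | rfl | rfl | rfl | rfl | rfl | rfl
  · exact lt_three runB_1_0 runB_1_1 runB_1_2
  · exact lt_three runB_2_0 runB_2_1 runB_2_2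
  · exact lt_three runB_3_0 runB_3_1 runB_3_2
  · exact lt_three runB_4_0 runB_4_1 runB_4_2
  · exact lt_three runB_5_0 runB_5_1 runB_5_2
  · exact lt_three runB_6_0 runB_6_1 runB_6_2
  · exact lt_three runB_7_0 runB_7_1 runB_7_2
  · exact lt_three runB_8_0 runB_8_1 runB_8_2
  · exact lt_three runB_9_0 runB_9_1 runB_9_2
  · exact lt_three runB_10_0 runB_10_1 runB_10_2

end MPgap
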