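import Pool.Agent.Work.MP_def58e_gap.LENSV

/-!
# MP_def58e_co, gap class: block TRIV (helper11)
-/

open MeasureTheory Set
open scoped ENNReal

namespace MPdef58eGap

open MPdef58e

noncomputable section

namespace TRIV_

/-- coordinates of the two neighbours -/
theorem coord_nn {v n n' : E3} (hv : ‖v‖ = 1) (hn : ‖n‖ = 1) (hn' : ‖n'‖ = 1)
    (h1 : inner ℝ v n = (1 / 2 : ℝ)) (h2 : inner ℝ v n' = (1 / 2 : ℝ))
    (h3 : inner ℝ n n' = (1 / 2 : ℝ)) :
    ‖(1 / Real.sqrt 2) • (n + n' - v)‖ = 1 ∧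
      inner ℝ v ((1 / Real.sqrt 2) • (n + n' - v)) = (0 : ℝ) ∧
      inner ℝ ((1 / Real.sqrt 2) • (n + n' - v)) n = 1 / Real.sqrt 2 ∧
      inner ℝ ((1 / Real.sqrt 2) • (n + n' - v)) n' = 1 / Real.sqrt 2 := by
  have hs : Real.sqrt 2 ^ 2 = 2 := Real.sq_sqrt (by norm_num)
  have hs0 : (0 : ℝ) < Real.sqrt 2 := by positivity
  have hvv : inner ℝ v v = (1 : ℝ) := by rw [real_inner_self_eq_norm_sq, hv]; norm_num
  have hnn : inner ℝ n n = (1 : ℝ) := by rw [real_inner_self_eq_norm_sq, hn]; norm_num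
  have hnn' : inner ℝ n' n' = (1 : ℝ) := by rw [real_inner_self_eq_norm_sq, hn']; norm_num
  have h1' : inner ℝ n v = (1 / 2 : ℝ) := by rw [real_inner_comm]; exact h1
  have h2' : inner ℝ n' v = (1 / 2 : ℝ) := by rw [real_inner_comm]; exact h2
  have h3' : inner ℝ n' n = (1 / 2 : ℝ) := by rw [real_inner_comm]; exact h3
  refine ⟨?_, ?_, ?_, ?_⟩
  · have h : ‖(1 / Real.sqrt 2) • (n + n' - v)‖ ^ 2 = 1 ^ 2 := by
      rw [← real_inner_self_eq_norm_sq]
      simp only [inner_smul_left, inner_smul_right, inner_sub_left, inner_sub_right,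
        inner_add_left, inner_add_right, conj_trivial]
      rw [hvv, hnn, hnn', h1, h2, h3, h1', h2', h3']
      field_simp
      nlinarith
    exact (pow_left_inj₀ (norm_nonneg _) (by norm_num) two_ne_zero).1 h
  · simp only [inner_smul_right, inner_sub_right, inner_add_right]
    rw [hvv, h1, h2]
    ring
  · simp only [inner_smul_left, inner_sub_left, inner_add_left, conj_trivial]
    rw [hnn, h1, h3']
    ring
  · simp only [inner_smul_left, inner_sub_left, inner_add_left, conj_trivial]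
    rw [hnn', h2, h3]
    ring

theorem cont_shift : Continuous fun φ : ℝ => hw42 (|φ| + (Real.pi / 2 - bb)) / 3 :=
  (hw42_cont.comp (continuous_abs.add continuous_const)).div_const 3

/-- half of the integral -/
theorem int_half :
    ∫ φ in (0 : ℝ)..(2 * bb - Real.pi / 2), hw42 (φ + (Real.pi / 2 - bb)) = kk / 2 := by
  rw [intervalIntegral.integral_comp_add_right (fun θ => hw42 θ)]
  rw [intervalIntegral.integral_eq_sub_of_hasDerivAt (fun φ _ => hasDeriv_hw42 φ)
    (hw42_cont.intervalIntegrable _ _)]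
  have e1 : 2 * bb - Real.pi / 2 + (Real.pi / 2 - bb) = bb := by ring
  have e2 : (0 : ℝ) + (Real.pi / 2 - bb) = Real.pi / 2 - bb := by ring
  rw [e1, e2, sin_bb42, arcsin_q42, Real.sin_pi_div_two_sub, cos_bb42]
  have h3 : Real.sqrt 3 ≠ 0 := by positivity
  have e3 : Real.sqrt 3 / 2 * (1 / Real.sqrt 3) = 1 / 2 := by field_simp
  rw [e3]
  have e4 : Real.arcsin (1 / 2) = Real.pi / 6 := by
    rw [← Real.sin_pi_div_six]
    exact Real.arcsin_sin (by linarith [Real.pi_pos]) (by linarith [Real.pi_pos])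
  rw [e4]
  unfold kk
  have h := inv_sqrt2_42
  have e5 : bb / Real.sqrt 2 = bb * (Real.sqrt 2 / 2) := by rw [← h]; ring
  have e6 : (Real.pi / 2 - bb) / Real.sqrt 2 = (Real.pi / 2 - bb) * (Real.sqrt 2 / 2) := by
    rw [← h]; ring
  have e7 : Real.pi / Real.sqrt 2 = Real.pi * (Real.sqrt 2 / 2) := by rw [← h]; ring
  rw [e5, e6, e7]
  ring

theorem int_full (hm : 0 ≤ 2 * bb - Real.pi / 2) :
    ∫ φ in (-(2 * bb - Real.pi / 2))..(2 * bb - Real.pi / 2),
      hw42 (|φ| + (Real.pi / 2 - bb)) / 3 = kk / 3 := by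
  set m := 2 * bb - Real.pi / 2 with hmdef
  have hI : ∀ a b : ℝ, IntervalIntegrable (fun φ : ℝ => hw42 (|φ| + (Real.pi / 2 - bb)) / 3)
      volume a b := fun a b => cont_shift.intervalIntegrable a b
  rw [← intervalIntegral.integral_add_adjacent_intervals (hI (-m) 0) (hI 0 m)]
  have h1 : ∫ φ in (0 : ℝ)..m, hw42 (|φ| + (Real.pi / 2 - bb)) / 3 = kk / 2 / 3 := by
    rw [← int_half, ← intervalIntegral.integral_div]
    refine intervalIntegral.integral_congr fun φ hφ => ?_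
    rw [Set.uIcc_of_le hm] at hφ
    simp only [abs_of_nonneg hφ.1]
  have h2 : ∫ φ in (-m)..(0 : ℝ), hw42 (|φ| + (Real.pi / 2 - bb)) / 3 =
      ∫ φ in (0 : ℝ)..m, hw42 (|φ| + (Real.pi / 2 - bb)) / 3 := by
    have h := intervalIntegral.integral_comp_neg (a := (0 : ℝ)) (b := m)
      (fun φ : ℝ => hw42 (|φ| + (Real.pi / 2 - bb)) / 3)
    rw [neg_zero] at h
    rw [← h]
    simp only [abs_neg]
  rw [h2, h1]
  ring

theorem ofReal_int_le {μ : Measure ℝ} {f : ℝ → ℝ} (hf : Integrable f μ) :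
    ENNReal.ofReal (∫ φ, f φ ∂μ) ≤ ∫⁻ φ, ENNReal.ofReal (f φ) ∂μ := by
  have hp : Integrable (fun φ => max (f φ) 0) μ := hf.pos_part
  calc ENNReal.ofReal (∫ φ, f φ ∂μ) ≤ ENNReal.ofReal (∫ φ, max (f φ) 0 ∂μ) :=
        ENNReal.ofReal_le_ofReal (integral_mono hf hp fun φ => le_max_left _ _)
    _ = ∫⁻ φ, ENNReal.ofReal (max (f φ) 0) ∂μ :=
        ofReal_integral_eq_lintegral_ofReal hp (ae_of_all _ fun φ => le_max_right _ _)
    _ = ∫⁻ φ, ENNReal.ofReal (f φ) ∂μ := by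
        refine lintegral_congr fun φ => ?_
        rw [ENNReal.ofReal_max, ENNReal.ofReal_zero]
        exact max_eq_left bot_le

theorem m_pos : 0 < 2 * bb - Real.pi / 2 := by
  have h : Real.pi / 4 < bb := by
    unfold bb
    rw [← Real.arctan_one]
    refine Real.arctan_strictMono ?_
    rw [Real.lt_sqrt (by norm_num)]
    norm_num
  linarith

/-- `√3 cos θ` -/
theorem cos_shift (φ : ℝ) : Real.sqrt 3 * Real.cos (φ + (Real.pi / 2 - bb)) =
    Real.sqrt 2 * Real.cos φ - Real.sin φ := by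
  have h3 : Real.sqrt 3 ≠ 0 := by positivity
  have e : φ + (Real.pi / 2 - bb) = Real.pi / 2 - (bb - φ) := by ring
  rw [e, Real.cos_pi_div_two_sub, Real.sin_sub, sin_bb42, cos_bb42]
  field_simp

end TRIV_

open TRIV_ in
theorem stmt_TRIV (h : Stmt_GNO) : Stmt_TRIV := by
  intro v n n' hv hn hn' hvn hvn' hnn'
  obtain ⟨he, hve, hen, hen'⟩ := coord_nn hv hn hn' hvn hvn' hnn'
  obtain ⟨M, hM, hF⟩ := h v _ hv he hve
  have hs : Real.sqrt 2 ^ 2 = 2 := Real.sq_sqrt (by norm_num)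
  have hs0 : (0 : ℝ) < Real.sqrt 2 := by positivity
  have h32 : Real.sqrt 3 ^ 2 = 3 := Real.sq_sqrt (by norm_num)
  have h30 : (0 : ℝ) < Real.sqrt 3 := by positivity
  have hinv := inv_sqrt2_42
  have m1 : (M n).1 = 1 / 2 := by rw [hM.2.1, hvn]
  have m2 : (M n).2.1 = Real.sqrt 2 / 2 := by rw [hM.2.2.1, hen, hinv]
  have m1' : (M n').1 = 1 / 2 := by rw [hM.2.1, hvn']
  have m2' : (M n').2.1 = Real.sqrt 2 / 2 := by rw [hM.2.2.1, hen', hinv]
  have m3 : (M n).2.2 ^ 2 = 1 / 4 := by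
    have hnn := coord_norm hM n
    rw [hn, m1, m2] at hnn
    nlinarith
  have m3' : (M n').2.2 ^ 2 = 1 / 4 := by
    have hnn := coord_norm hM n'
    rw [hn', m1', m2'] at hnn
    nlinarith
  have m4 : (M n).2.2 * (M n').2.2 = -(1 / 4) := by
    have := hM.2.2.2 n n'
    rw [hnn', m1, m1', m2, m2'] at this
    nlinarith
  set y := (M n).2.2 with hy
  have m5 : (M n').2.2 = -y := by
    have h0 : ((M n').2.2 + y) ^ 2 = 0 := by nlinarith
    have := pow_eq_zero_iff two_ne_zero |>.1 h0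
    linarith
  have hyabs : |2 * y| = 1 := by
    rw [← abs_one, ← sq_eq_sq_iff_abs_eq_abs]
    nlinarith
  set F : Set (ℝ × ℝ) := {w : ℝ × ℝ | w.1 ^ 2 + w.2 ^ 2 < 1 ∧ 1 + |w.2| < Real.sqrt 2 * w.1}
    with hFdef
  have hset : triS v n n' = {x : E3 | ‖x‖ ≤ 1 ∧ 0 < inner ℝ v x ∧
      (M x).1⁻¹ • (M x).2 ∈ F} := by
    have key : ∀ x, 0 < (M x).1 → ((inner ℝ v x < inner ℝ n x ∧ inner ℝ v x < inner ℝ n' x) ↔
        1 + |((M x).1⁻¹ • (M x).2).2| < Real.sqrt 2 * ((M x).1⁻¹ • (M x).2).1) := by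
      intro x h0
      rw [coord_inner hM h0 n, coord_inner hM h0 n', m1, m2, m1', m2', m5, ← hM.2.1]
      rw [← hy]
      rw [lt_mul_iff_one_lt_right h0, lt_mul_iff_one_lt_right h0]
      set w1 := ((M x).1⁻¹ • (M x).2).1
      set w2 := ((M x).1⁻¹ • (M x).2).2
      have ha : |w2| = |2 * y * w2| := by rw [abs_mul, hyabs, one_mul]
      rw [ha]
      have hiff : 1 + |2 * y * w2| < Real.sqrt 2 * w1 ↔
          |2 * y * w2| < Real.sqrt 2 * w1 - 1 := by
        constructor <;> intro h <;> linarith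
      rw [hiff, abs_lt]
      constructor
      · rintro ⟨h1, h2⟩
        constructor <;> linarith
      · rintro ⟨h1, h2⟩
        constructor <;> linarith
    ext x
    constructor
    · rintro ⟨h1, h2, h4, h5⟩
      have h0 : 0 < (M x).1 := by
        rw [hM.2.1]
        exact lt_of_le_of_lt (by positivity) h2
      exact ⟨h1, by rw [← hM.2.1]; exact h0, (cap_iff42 hM h0).1 h2, (key x h0).1 ⟨h4, h5⟩⟩
    · rintro ⟨h1, h2, h4, h5⟩
      have h0 : 0 < (M x).1 := by rw [hM.2.1]; exact h2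
      exact ⟨h1, (cap_iff42 hM h0).2 h4, (key x h0).2 h5⟩
  have hms : MeasurableSet F :=
    MeasurableSet.inter (s₁ := {w : ℝ × ℝ | w.1 ^ 2 + w.2 ^ 2 < 1})
      (s₂ := {w : ℝ × ℝ | 1 + |w.2| < Real.sqrt 2 * w.1})
      (measurableSet_lt (by fun_prop) measurable_const)
      (measurableSet_lt (by fun_prop) (by fun_prop))
  rw [hset, hF _ hms]
  have hm0 := m_pos
  have hbb0 := bb_pos42
  have hbb1 := bb_lt42
  have hpi := Real.pi_pos
  set m := 2 * bb - Real.pi / 2 with hmdef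
  -- the inner integral
  have hin : ∀ φ ∈ Set.Ioo (-m) m, ENNReal.ofReal (hw42 (|φ| + (Real.pi / 2 - bb)) / 3) ≤
      ∫⁻ r in {r : ℝ | 0 < r ∧ (r * Real.cos φ, r * Real.sin φ) ∈ F},
        ENNReal.ofReal (r * (1 / Real.sqrt (1 + r ^ 2)) ^ 3 / 3) := by
    intro φ hφ
    have habs : |φ| < m := by rw [abs_lt]; exact hφ
    set θ := |φ| + (Real.pi / 2 - bb) with hθ
    have hsc := Real.sin_sq_add_cos_sq φ
    have hr : ∀ r : ℝ, (r * Real.cos φ) ^ 2 + (r * Real.sin φ) ^ 2 = r ^ 2 := by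
      intro r
      calc (r * Real.cos φ) ^ 2 + (r * Real.sin φ) ^ 2 =
        r ^ 2 * (Real.sin φ ^ 2 + Real.cos φ ^ 2) := by ring
        _ = r ^ 2 := by rw [hsc, mul_one]
    have hθ1 : 0 ≤ θ := by
      have := abs_nonneg φ
      rw [hθ]; linarith
    have hθ2 : θ < bb := by rw [hθ]; linarith
    have hcos : 1 / Real.sqrt 3 < Real.cos θ := by
      rw [← cos_bb42]
      exact Real.cos_lt_cos_of_nonneg_of_le_pi hθ1 (by linarith) hθ2
    have hc0 : 0 < Real.cos θ := lt_trans (by positivity) hcos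
    have hsin : |Real.sin φ| = Real.sin |φ| := by
      rcases le_total 0 φ with h0 | h0
      · rw [abs_of_nonneg h0, abs_of_nonneg]
        exact Real.sin_nonneg_of_nonneg_of_le_pi h0 (by rw [abs_of_nonneg h0] at habs; linarith)
      · rw [abs_of_nonpos h0, Real.sin_neg, abs_of_nonpos]
        exact Real.sin_nonpos_of_nonpos_of_neg_pi_le h0
          (by rw [abs_of_nonpos h0] at habs; linarith)
    have hcs : Real.sqrt 3 * Real.cos θ = Real.sqrt 2 * Real.cos φ - |Real.sin φ| := by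
      rw [hθ, cos_shift, Real.cos_abs, hsin]
    have hone : 1 < Real.sqrt 3 * Real.cos θ := by
      have h5 : Real.sqrt 3 * (1 / Real.sqrt 3) = 1 := by field_simp
      calc (1 : ℝ) = Real.sqrt 3 * (1 / Real.sqrt 3) := h5.symm
        _ < _ := mul_lt_mul_of_pos_left hcos h30
    have hsup : Set.Ioo (1 / (Real.sqrt 3 * Real.cos θ)) 1 ⊆
        {r : ℝ | 0 < r ∧ (r * Real.cos φ, r * Real.sin φ) ∈ F} := by
      rintro r ⟨h1, h2⟩
      have hr0 : 0 < r := lt_trans (by positivity) h1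
      refine ⟨hr0, ?_, ?_⟩
      · show (r * Real.cos φ) ^ 2 + (r * Real.sin φ) ^ 2 < 1
        rw [hr]
        nlinarith
      · show 1 + |r * Real.sin φ| < Real.sqrt 2 * (r * Real.cos φ)
        rw [abs_mul, abs_of_pos hr0]
        rw [div_lt_iff₀ (by positivity), hcs] at h1
        linarith
    refine le_trans ?_ (lintegral_mono_set hsup)
    rw [setLIntegral_congr (Ioo_ae_eq_Ioc (a := (1 / (Real.sqrt 3 * Real.cos θ))) (b := 1))]
    rw [lint_ab42 ?_ (by positivity)]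
    · refine ENNReal.ofReal_le_ofReal (le_of_eq ?_)
      unfold hw42
      congr 1
      have e1 : 1 + (1 / (Real.sqrt 3 * Real.cos θ)) ^ 2 =
          (Real.cos θ ^ 2 + 1 / 3) / Real.cos θ ^ 2 := by
        rw [div_pow, mul_pow, h32]
        field_simp
      rw [e1, Real.sqrt_div (by positivity), Real.sqrt_sq hc0.le, one_div_div]
      norm_num
    · rw [div_le_one (by positivity)]
      exact hone.le
  have hsub : Set.Ioc (-m) m ⊆ Set.Ioo (-Real.pi) Real.pi := by
    rintro φ ⟨h1, h2⟩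
    constructor <;> linarith
  calc ENNReal.ofReal (kk / 3)
      = ENNReal.ofReal (∫ φ in Set.Ioc (-m) m, hw42 (|φ| + (Real.pi / 2 - bb)) / 3) := by
        rw [← int_full hm0.le, intervalIntegral.integral_of_le (by linarith)]
    _ ≤ ∫⁻ φ in Set.Ioc (-m) m, ENNReal.ofReal (hw42 (|φ| + (Real.pi / 2 - bb)) / 3) := by
        exact ofReal_int_le (cont_shift.integrableOn_Icc.mono_set Set.Ioc_subset_Icc_self)
    _ ≤ ∫⁻ φ in Set.Ioo (-m) m,
          ∫⁻ r in {r : ℝ | 0 < r ∧ (r * Real.cos φ, r * Real.sin φ) ∈ F},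
            ENNReal.ofReal (r * (1 / Real.sqrt (1 + r ^ 2)) ^ 3 / 3) := by
        rw [setLIntegral_congr (Ioo_ae_eq_Ioc (a := -m) (b := m)).symm]
        exact setLIntegral_mono' measurableSet_Ioo hin
    _ ≤ _ := lintegral_mono_set (Set.Ioo_subset_Ioc_self.trans hsub)

end

end MPdef58eGap
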