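import Pool.Agent.Work.MP_def58e_gap.LINK
import Pool.Agent.Work.MP_def58e_gap.A
import Pool.Agent.Work.MP_def58e_gap.PW
import Pool.Agent.Work.MP_def58e_gap.CAPV
import Pool.Agent.Work.MP_def58e_gap.LENSV
import Pool.Agent.Work.MP_def58e_gap.TRIV
import Pool.Agent.Work.MP_def58e_gap.GNO
import Pool.Agent.Work.MP_def58e_gap.NUM
import Pool.Agent.Work.MP_def58e_gap.E
import Pool.Agent.Work.MP_def58e_gap.G_CLS
import Pool.Agent.Work.MP_def58e_gap.G_CASES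
import Pool.Agent.Work.MP_def58e_gap.G_EVEN
import Pool.Agent.Work.MP_def58e_gap.G_FULL
import Pool.Agent.Work.MP_def58e_gap.G_TV2
import Pool.Agent.Work.MP_def58e_gap.G_TV3
import Pool.Agent.Work.MP_def58e_gap.G_STAR
import Pool.Agent.Work.MP_def58e_gap.G_PL4
import Pool.Agent.Work.MP_def58e_gap.G_PL5
import Pool.Agent.Work.MP_def58e_gap.G_NBC
import Pool.Agent.Work.MP_def58e_gap.G_NBD
import Pool.Agent.Work.MP_def58e_gap.G_DEG4
import Pool.Agent.Work.MP_def58e_gap.G_K4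
import Pool.Agent.Work.MP_def58e_gap.G_EM
import Pool.Agent.Work.MP_def58e_gap.G_ANTI
import Pool.Agent.Work.MP_def58e_gap.G_START
import Pool.Agent.Work.MP_def58e_gap.G_ST1
import Pool.Agent.Work.MP_def58e_gap.G_ST2
import Pool.Agent.Work.MP_def58e_gap.G_ROT
import Pool.Agent.Work.MP_def58e_gap.G_GRAM
import Pool.Agent.Work.MP_def58e_gap.G_INIT
import Pool.Agent.Work.MP_def58e_gap.G_GEN
import Pool.Agent.Work.MP_def58e_gap.G_STEP
import Pool.Agent.Work.MP_def58e_gap.G_SETM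
import Pool.Agent.Work.MP_def58e_gap.G_PICK
import Pool.Agent.Work.MP_def58e_gap.G_ENGINE
import Pool.Agent.Work.MP_def58e_gap.G_CNT
import Pool.Agent.Work.MP_def58e_gap.G_TOR
import Pool.Agent.Work.MP_def58e_gap.G_BR
import Pool.Agent.Work.MP_def58e_gap.G_BS
import Pool.Agent.Work.MP_def58e_gap.G_BC
import Pool.Agent.Work.MP_def58e_gap.G_PRA
import Pool.Agent.Work.MP_def58e_gap.G_PRB
import Pool.Agent.Work.MP_def58e_gap.G_UP
import Pool.Agent.Work.MP_def58e_gap.G_USA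
import Pool.Agent.Work.MP_def58e_gap.G_USB
import Pool.Agent.Work.MP_def58e_gap.G_NC
import Pool.Agent.Work.MP_def58e_gap.G_QP
import Pool.Agent.Work.MP_def58e_gap.G_QA
import Pool.Agent.Work.MP_def58e_gap.G_RG
import Pool.Agent.Work.MP_def58e_gap.G_RA
import Pool.Agent.Work.MP_def58e_gap.G_LFA
import Pool.Agent.Work.MP_def58e_gap.G_LFB
import Pool.Agent.Work.MP_def58e_gap.G_TAB
import Pool.Agent.Work.MP_def58e_gap.Runs

/-!
# MP_def58e_co, gap theorem: assembly (helper90)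

All the parts are put together; the parts were written by many seats (see the files).
-/

namespace MPgap

theorem f_STAR : Stmt_STAR := stmt_STAR stmt_PL4 stmt_NBC stmt_NBD
theorem f_DEG4 : Stmt_DEG4 := stmt_DEG4 stmt_PL5 stmt_NBC stmt_NBD
theorem f_TV2 : Stmt_TV2 := stmt_TV2 f_STAR
theorem f_TV3 : Stmt_TV3 := stmt_TV3 f_STAR
theorem f_EM : Stmt_EM := stmt_EM stmt_K4 f_TV3 f_DEG4
theorem f_ANTI : Stmt_ANTI := stmt_ANTI f_STAR
theorem f_FULL : Stmt_FULL := stmt_FULL f_DEG4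
theorem f_CASES : Stmt_CASES := stmt_CASES stmt_EVEN f_FULL f_TV2
theorem f_START : Stmt_START := stmt_START f_FULL stmt_ST1 (stmt_ST2 f_TV2)
theorem f_BR : Stmt_BR := stmt_BR stmt_TOR
theorem f_BS : Stmt_BS := stmt_BS stmt_TOR
theorem f_BC : Stmt_BC := stmt_BC stmt_TOR
theorem f_PRA : Stmt_PRA := stmt_PRA f_DEG4 f_BR f_BC
theorem f_PRB : Stmt_PRB := stmt_PRB f_DEG4 f_TV2 f_FULL f_BR f_BS f_BC
theorem f_UP : Stmt_UP := stmt_UP f_DEG4 f_EM stmt_CNT f_BR f_BS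
theorem f_USA : Stmt_USA := stmt_USA f_DEG4 f_BR f_BC
theorem f_USB : Stmt_USB := stmt_USB f_DEG4 f_TV2 f_FULL f_BR f_BS f_BC
theorem f_QP : Stmt_QP := stmt_QP stmt_TOR f_BR stmt_NC
theorem f_QA : Stmt_QA := stmt_QA stmt_TOR f_BR f_BS stmt_NC
theorem f_RG : Stmt_RG := stmt_RG f_DEG4 f_TV2 stmt_TOR f_BR f_BS
theorem f_RA : Stmt_RA := stmt_RA f_DEG4 f_TV2 f_ANTI stmt_TOR f_BR f_BS stmt_CNT
theorem f_LFA : Stmt_LFA := stmt_LFA f_UP f_USA f_QP f_BR
theorem f_LFB : Stmt_LFB := stmt_LFB f_UP f_USB f_QP f_QA f_RG f_RA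
theorem f_STEP : Stmt_STEP := stmt_STEP stmt_TOR f_BR
theorem f_SETM : Stmt_SETM := stmt_SETM stmt_TOR
theorem f_ENGINE : Stmt_ENGINE :=
  stmt_ENGINE stmt_TOR f_STAR f_DEG4 stmt_GEN f_STEP f_SETM stmt_PICK
theorem f_ROT : Stmt_ROT := stmt_ROT stmt_NBC
theorem f_INIT : Stmt_INIT := stmt_INIT f_STAR stmt_TOR stmt_GEN
theorem f_TAB : Stmt_TAB := stmt_TAB stmt_TOR

/-- the classification of the eleven vectors -/
theorem f_CLS : Stmt_CLS :=
  stmt_CLS f_CASES f_START f_ROT stmt_GRAM f_INIT f_ENGINE f_PRA f_PRB f_LFA f_LFB stmt_RUNA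
    stmt_RUNB f_TAB

/-- the cap inequality -/
theorem f_A : MPdef58eGap.Stmt_A :=
  MPdef58eGap.stmt_A (MPdef58eGap.stmt_PW (MPdef58eGap.stmt_CAPV MPdef58eGap.stmt_GNO)
    (MPdef58eGap.stmt_LENSV MPdef58eGap.stmt_GNO) (MPdef58eGap.stmt_TRIV MPdef58eGap.stmt_GNO))
    MPdef58eGap.stmt_NUM

/-- the density theorem -/
theorem gap_density : ∀ C : Set MPdef58e.E3, MPdef58e.IsNeighbourPacking 11 C →
    MPdef58eGap.GapPacking C →
      12 / 13 * (Real.pi / Real.sqrt 18) ≤ MPdef58e.lowerDensity C :=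
  LINK_.density f_A f_CLS MPdef58eGap.stmt_E

end MPgap
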