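import Pool.Agent.Work.MP_def58e_gap.InterfaceD
import Pool.Agent.Work.MP_3892ce_gt.Tet

/-!
# MP_def58e_co, gap theorem: part (D), the volumes of the four polytopes (helper11)

The polytope `{y | ∀ c ∈ can k, c · y ≤ 27}` is covered by the simplices with vertex `0` over a
triangulation of its boundary (fan over each facet). A facet is stored as `(c, w0, a, b, t)`: the
vector `c` and the vertices `w0, a, b, t` (times 66) in cyclic order.
-/

open MeasureTheory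

namespace MPgap.D_

abbrev Facet := Z3 × Z3 × Z3 × Z3 × List Z3

/-- the facets with their vertices -/
def cert : ℕ → List Facet
  | 0 => [
    ((27, 27, 0), (33, 33, 33), (66, 0, 0), (22, 44, -44), [(11, 55, 11)]),
    ((27, 0, 27), (33, 33, 33), (0, 0, 66), (33, -33, 33), [(66, 0, 0)]),
    ((0, 27, 27), (33, 33, 33), (11, 55, 11), (-44, 44, 22), [(0, 0, 66)]),
    ((-9, 36, -9), (11, 55, 11), (22, 44, -44), (-33, 33, -33), [(-44, 44, 22)]),
    ((27, 0, -27), (66, 0, 0), (0, -66, -66), (22, 44, -44), []),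
    ((0, -27, 27), (0, 0, 66), (-33, -33, 33), (0, -66, 0), [(33, -33, 33)]),
    ((27, -27, 0), (66, 0, 0), (33, -33, 33), (0, -66, 0), [(0, -66, -66)]),
    ((-36, 9, -9), (-44, 44, 22), (-33, 33, -33), (-44, -22, -44), [(-55, -11, 11)]),
    ((-9, 9, -36), (22, 44, -44), (0, -66, -66), (-44, -22, -44), [(-33, 33, -33)]),
    ((-27, 0, 27), (0, 0, 66), (-44, 44, 22), (-55, -11, 11), [(-33, -33, 33)]),
    ((-27, -27, 0), (0, -66, -66), (0, -66, 0), (-33, -33, 33), [(-55, -11, 11), (-44, -22, -44)])]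
  | 1 => [
    ((27, 27, 0), (33, 33, 33), (66, 0, 0), (22, 44, -44), [(11, 55, 11)]),
    ((27, 0, 27), (33, 33, 33), (0, 0, 66), (33, -33, 33), [(66, 0, 0)]),
    ((0, 27, 27), (33, 33, 33), (11, 55, 11), (-44, 44, 22), [(0, 0, 66)]),
    ((-9, 36, -9), (11, 55, 11), (22, 44, -44), (-22, 22, -88), [(-44, 44, 22)]),
    ((27, 0, -27), (66, 0, 0), (33, -33, -33), (-22, 22, -88), [(22, 44, -44)]),
    ((-27, 0, 27), (0, 0, 66), (-44, 44, 22), (-55, -11, 11), [(-33, -33, 33)]),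
    ((0, -27, 27), (0, 0, 66), (-33, -33, 33), (0, -66, 0), [(33, -33, 33)]),
    ((27, -27, 0), (66, 0, 0), (33, -33, 33), (0, -66, 0), [(33, -33, -33)]),
    ((-27, -27, 0), (-33, -33, 33), (-55, -11, 11), (-44, -22, -44), [(0, -66, 0)]),
    ((-36, 9, -9), (-44, 44, 22), (-22, 22, -88), (-44, -22, -44), [(-55, -11, 11)]),
    ((0, -27, -27), (-22, 22, -88), (33, -33, -33), (0, -66, 0), [(-44, -22, -44)])]
  | 2 => [
    ((27, 27, 0), (33, 33, 33), (66, 0, 0), (22, 44, -44), [(11, 55, 11)]),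
    ((27, 0, 27), (33, 33, 33), (11, 11, 55), (22, -44, 44), [(66, 0, 0)]),
    ((0, 27, 27), (33, 33, 33), (11, 55, 11), (-44, 44, 22), [(-54, 24, 42), (11, 11, 55)]),
    ((-9, 36, -9), (11, 55, 11), (22, 44, -44), (-33, 33, -33), [(-44, 44, 22)]),
    ((27, 0, -27), (66, 0, 0), (33, -33, -33), (11, -11, -55), [(22, 44, -44)]),
    ((-9, -9, 36), (11, 11, 55), (-54, 24, 42), (-63, -27, 27), [(22, -44, 44)]),
    ((27, -27, 0), (66, 0, 0), (22, -44, 44), (11, -55, -11), [(33, -33, -33)]),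
    ((0, -27, -27), (33, -33, -33), (11, -55, -11), (-54, -42, -24), [(-44, -22, -44), (11, -11, -55)]),
    ((-9, 9, -36), (22, 44, -44), (11, -11, -55), (-44, -22, -44), [(-33, 33, -33)]),
    ((-36, 9, -9), (-44, 44, 22), (-33, 33, -33), (-44, -22, -44), [(-54, -42, -24), (-63, -27, 27), (-54, 24, 42)]),
    ((-9, -36, 9), (22, -44, 44), (-63, -27, 27), (-54, -42, -24), [(11, -55, -11)])]
  | _ => [
    ((27, 27, 0), (33, 33, 33), (66, 0, 0), (33, 33, -33), [(0, 66, 0)]),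
    ((27, 0, 27), (33, 33, 33), (0, 0, 66), (33, -33, 33), [(66, 0, 0)]),
    ((0, 27, 27), (33, 33, 33), (0, 66, 0), (-33, 33, 33), [(0, 0, 66)]),
    ((0, 27, -27), (0, 66, 0), (33, 33, -33), (0, 0, -66), [(-33, 33, -33)]),
    ((27, 0, -27), (66, 0, 0), (33, -33, -33), (0, 0, -66), [(33, 33, -33)]),
    ((0, -27, 27), (0, 0, 66), (-66, -66, 0), (0, -66, 0), [(33, -33, 33)]),
    ((27, -27, 0), (66, 0, 0), (33, -33, 33), (0, -66, 0), [(33, -33, -33)]),
    ((0, -27, -27), (0, 0, -66), (33, -33, -33), (0, -66, 0), [(-66, -66, 0)]),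
    ((-27, 0, 27), (0, 0, 66), (-33, 33, 33), (-66, 0, 0), [(-66, -66, 0)]),
    ((-27, 27, 0), (0, 66, 0), (-33, 33, -33), (-66, 0, 0), [(-33, 33, 33)]),
    ((-27, 0, -27), (0, 0, -66), (-66, -66, 0), (-66, 0, 0), [(-33, 33, -33)])]

def crz (a b : Z3) : Z3 :=
  (a.2.1 * b.2.2 - a.2.2 * b.2.1, a.2.2 * b.1 - a.1 * b.2.2, a.1 * b.2.1 - a.2.1 * b.1)

def dtz (w a b : Z3) : ℤ := dz w (crz a b)

/-- the edge `a b` of the facet `c` is cut out by another vector `c'` -/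
def okE (C : List Z3) (c a b : Z3) : Bool := C.any fun c' =>
  let d : Z3 := (c.1 - c'.1, c.2.1 - c'.2.1, c.2.2 - c'.2.2)
  let n : Z3 := crz a b
  decide (0 < dz d d) && decide (0 ≤ dz n d) && (n.1 * dz d d == dz n d * d.1) &&
    (n.2.1 * dz d d == dz n d * d.2.1) && (n.2.2 * dz d d == dz n d * d.2.2)

def okFan (C : List Z3) (c w : Z3) : Z3 → List Z3 → Bool
  | a, [] => okE C c a w
  | a, b :: t => okE C c a b && decide (0 < dtz w a b) && (dz c b == 1782) && okFan C c w b t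

def okF (C : List Z3) (F : Facet) : Bool :=
  (dz F.1 F.2.1 == 1782) && (dz F.1 F.2.2.1 == 1782) && okE C F.1 F.2.1 F.2.2.1 &&
    okFan C F.1 F.2.1 F.2.2.1 (F.2.2.2.1 :: F.2.2.2.2)

def tris (w : Z3) : Z3 → List Z3 → List (Z3 × Z3 × Z3)
  | _, [] => []
  | a, b :: t => (w, a, b) :: tris w b t

def allT (cs : List Facet) : List (Z3 × Z3 × Z3) :=
  cs.flatMap fun F => tris F.2.1 F.2.2.1 (F.2.2.2.1 :: F.2.2.2.2)

def okAll (C : List Z3) (cs : List Facet) : Bool :=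
  (cs.all fun F => okF C F) && (C.all fun c => cs.any fun F => F.1 == c) &&
    ((allT cs).all fun t => decide (0 ≤ dtz t.1 t.2.1 t.2.2)) &&
    decide (((allT cs).map fun t => dtz t.1 t.2.1 t.2.2).sum ≤ 3737448)

theorem ok0 : okAll (can 0) (cert 0) = true := by decide +kernel
theorem ok1 : okAll (can 1) (cert 1) = true := by decide +kernel
theorem ok2 : okAll (can 2) (cert 2) = true := by decide +kernel
theorem ok3 : okAll (can 3) (cert 3) = true := by decide +kernel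

theorem len0 : (can 0).length = 11 := by decide +kernel
theorem len1 : (can 1).length = 11 := by decide +kernel
theorem len2 : (can 2).length = 11 := by decide +kernel
theorem len3 : (can 3).length = 11 := by decide +kernel

/-! ### soundness -/

noncomputable section

/-- inner product of an integer vector and a point -/
def dr (z : Z3) (x : MPdef58e.E3) : ℝ := (z.1 : ℝ) * x 0 + (z.2.1 : ℝ) * x 1 + (z.2.2 : ℝ) * x 2

theorem edge {C : List Z3} {c a b : Z3} {x : MPdef58e.E3} (h : okE C c a b = true)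
    (hx : ∀ c' ∈ C, dr c' x ≤ dr c x) : 0 ≤ dr (crz a b) x := by
  unfold okE at h
  rw [List.any_eq_true] at h
  obtain ⟨c', hc', h⟩ := h
  simp only [Bool.and_eq_true, decide_eq_true_eq, beq_iff_eq] at h
  obtain ⟨⟨⟨⟨h1, h2⟩, h3⟩, h4⟩, h5⟩ := h
  have h6 := hx c' hc'
  set d : Z3 := (c.1 - c'.1, c.2.1 - c'.2.1, c.2.2 - c'.2.2) with hd
  set n : Z3 := crz a b with hn
  have h3' : (n.1 : ℝ) * (dz d d : ℝ) = (dz n d : ℝ) * (d.1 : ℝ) := by exact_mod_cast h3
  have h4' : (n.2.1 : ℝ) * (dz d d : ℝ) = (dz n d : ℝ) * (d.2.1 : ℝ) := by exact_mod_cast h4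
  have h5' : (n.2.2 : ℝ) * (dz d d : ℝ) = (dz n d : ℝ) * (d.2.2 : ℝ) := by exact_mod_cast h5
  have h1' : (0 : ℝ) < (dz d d : ℝ) := by exact_mod_cast h1
  have h2' : (0 : ℝ) ≤ (dz n d : ℝ) := by exact_mod_cast h2
  have h7 : dr d x = dr c x - dr c' x := by
    rw [hd]
    unfold dr
    push_cast
    ring
  have h8 : dr n x * (dz d d : ℝ) = (dz n d : ℝ) * dr d x := by
    have e : dr n x * (dz d d : ℝ) = ((n.1 : ℝ) * (dz d d : ℝ)) * x 0 +
        ((n.2.1 : ℝ) * (dz d d : ℝ)) * x 1 + ((n.2.2 : ℝ) * (dz d d : ℝ)) * x 2 := by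
      unfold dr; ring
    rw [e, h3', h4', h5']
    unfold dr; ring
  have h9 : 0 ≤ dr n x * (dz d d : ℝ) := by
    rw [h8, h7]
    exact mul_nonneg h2' (by linarith)
  by_contra hc
  push Not at hc
  have := mul_neg_of_neg_of_pos hc h1'
  linarith

theorem crz_neg (a b : Z3) (x : MPdef58e.E3) : dr (crz a b) x = -dr (crz b a) x := by
  unfold dr crz
  push_cast
  ring

/-- `x` is in the cone over the triangle `τ` of the facet `c` -/
structure InT (c : Z3) (x : MPdef58e.E3) (τ : Z3 × Z3 × Z3) : Prop where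
  pos : 0 < dtz τ.1 τ.2.1 τ.2.2
  c1 : 0 ≤ dr (crz τ.2.1 τ.2.2) x
  c2 : 0 ≤ dr (crz τ.2.2 τ.1) x
  c3 : 0 ≤ dr (crz τ.1 τ.2.1) x
  e1 : dz c τ.1 = 1782
  e2 : dz c τ.2.1 = 1782
  e3 : dz c τ.2.2 = 1782

theorem fan {C : List Z3} {c w : Z3} {x : MPdef58e.E3} (hw : dz c w = 1782)
    (hx : ∀ c' ∈ C, dr c' x ≤ dr c x) : ∀ (t : List Z3) (a : Z3), okFan C c w a t = true →
    dz c a = 1782 → 0 < dr (crz w a) x → ∃ τ ∈ tris w a t, InT c x τ := by
  intro t
  induction t with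
  | nil =>
    intro a h _ hpos
    exfalso
    have h1 := edge (x := x) h hx
    rw [crz_neg] at h1
    linarith
  | cons b t ih =>
    intro a h ha hpos
    unfold okFan at h
    simp only [Bool.and_eq_true, decide_eq_true_eq, beq_iff_eq] at h
    obtain ⟨⟨⟨h1, h2⟩, h3⟩, h4⟩ := h
    by_cases hb : 0 < dr (crz w b) x
    · obtain ⟨τ, hτ, hin⟩ := ih b h4 h3 hb
      exact ⟨τ, List.mem_cons_of_mem _ hτ, hin⟩
    · push Not at hb
      refine ⟨(w, a, b), List.mem_cons_self, ?_⟩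
      have h5 := edge (x := x) h1 hx
      have h6 : 0 ≤ dr (crz b w) x := by rw [crz_neg]; linarith
      exact ⟨h2, h5, h6, hpos.le, hw, ha, h3⟩

theorem facet {C : List Z3} {F : Facet} {x : MPdef58e.E3} (h : okF C F = true)
    (hx : ∀ c' ∈ C, dr c' x ≤ dr F.1 x) :
    ∃ τ ∈ tris F.2.1 F.2.2.1 (F.2.2.2.1 :: F.2.2.2.2), InT F.1 x τ := by
  unfold okF at h
  simp only [Bool.and_eq_true, beq_iff_eq] at h
  obtain ⟨⟨⟨hw, ha⟩, h1⟩, h2⟩ := h
  have h3 := edge (x := x) h1 hx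
  by_cases hpos : 0 < dr (crz F.2.1 F.2.2.1) x
  · exact fan hw hx _ _ h2 ha hpos
  · unfold okFan at h2
    simp only [Bool.and_eq_true, decide_eq_true_eq, beq_iff_eq] at h2
    obtain ⟨⟨⟨h4, h5⟩, h6⟩, h7⟩ := h2
    by_cases hb : 0 < dr (crz F.2.1 F.2.2.2.1) x
    · obtain ⟨τ, hτ, hin⟩ := fan hw hx _ _ h7 h6 hb
      exact ⟨τ, List.mem_cons_of_mem _ hτ, hin⟩
    · push Not at hb
      refine ⟨(F.2.1, F.2.2.1, F.2.2.2.1), List.mem_cons_self, ?_⟩
      have h8 := edge (x := x) h4 hx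
      have h9 : 0 ≤ dr (crz F.2.2.2.1 F.2.1) x := by rw [crz_neg]; linarith
      exact ⟨h5, h8, h9, h3, hw, ha, h6⟩

/-- a vertex -/
def vec (z : Z3) : MPdef58e.E3 :=
  WithLp.toLp 2 ![Real.sqrt 2 / 66 * (z.1 : ℝ), Real.sqrt 2 / 66 * (z.2.1 : ℝ),
    Real.sqrt 2 / 66 * (z.2.2 : ℝ)]

open Pool.Agent.Work.MP_3892ce_gt in
/-- the simplex over a triangle -/
def sx (τ : Z3 × Z3 × Z3) : Set MPdef58e.E3 := tetS 0 (vec τ.1) (vec τ.2.1) (vec τ.2.2)

theorem mem_sx {c : Z3} {x : MPdef58e.E3} {τ : Z3 × Z3 × Z3} (h : InT c x τ)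
    (hx : dr c x ≤ 27 * Real.sqrt 2) : x ∈ sx τ := by
  obtain ⟨w, a, b⟩ := τ
  obtain ⟨hpos, h1, h2, h3, e1, e2, e3⟩ := h
  simp only at hpos h1 h2 h3 e1 e2 e3
  have hs : 0 < Real.sqrt 2 := Real.sqrt_pos.mpr (by norm_num)
  have hss : Real.sqrt 2 * Real.sqrt 2 = 2 := Real.mul_self_sqrt (by norm_num)
  have hD : (0 : ℝ) < (dtz w a b : ℝ) := by exact_mod_cast hpos
  set D : ℝ := (dtz w a b : ℝ) with hDd
  have hD' : D = (w.1 : ℝ) * ((a.2.1 : ℝ) * b.2.2 - a.2.2 * b.2.1) +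
      w.2.1 * ((a.2.2 : ℝ) * b.1 - a.1 * b.2.2) + w.2.2 * ((a.1 : ℝ) * b.2.1 - a.2.1 * b.1) := by
    rw [hDd]
    unfold dtz dz crz
    push_cast
    ring
  set A : ℝ := dr (crz a b) x with hA
  set B : ℝ := dr (crz b w) x with hB
  set G : ℝ := dr (crz w a) x with hG
  have k0 : D * x 0 = A * w.1 + B * a.1 + G * b.1 := by
    rw [hD', hA, hB, hG]
    unfold dr crz
    push_cast
    ring
  have k1 : D * x 1 = A * w.2.1 + B * a.2.1 + G * b.2.1 := by
    rw [hD', hA, hB, hG]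
    unfold dr crz
    push_cast
    ring
  have k2 : D * x 2 = A * w.2.2 + B * a.2.2 + G * b.2.2 := by
    rw [hD', hA, hB, hG]
    unfold dr crz
    push_cast
    ring
  have e1' : (c.1 : ℝ) * w.1 + c.2.1 * w.2.1 + c.2.2 * w.2.2 = 1782 := by
    unfold dz at e1; exact_mod_cast e1
  have e2' : (c.1 : ℝ) * a.1 + c.2.1 * a.2.1 + c.2.2 * a.2.2 = 1782 := by
    unfold dz at e2; exact_mod_cast e2
  have e3' : (c.1 : ℝ) * b.1 + c.2.1 * b.2.1 + c.2.2 * b.2.2 = 1782 := by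
    unfold dz at e3; exact_mod_cast e3
  have hsum : (A + B + G) * 1782 = D * dr c x := by
    have e : D * dr c x = (c.1 : ℝ) * (D * x 0) + c.2.1 * (D * x 1) + c.2.2 * (D * x 2) := by
      unfold dr; ring
    rw [e, k0, k1, k2]
    linear_combination (-A) * e1' + (-B) * e2' + (-G) * e3'
  have hsum2 : (A + B + G) * 66 ≤ D * Real.sqrt 2 := by
    have h4 : D * dr c x ≤ D * (27 * Real.sqrt 2) := mul_le_mul_of_nonneg_left hx hD.le
    linarith
  have hDs : 0 < D * Real.sqrt 2 := mul_pos hD hs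
  refine ⟨1 - (A + B + G) * 66 / (D * Real.sqrt 2), A * 66 / (D * Real.sqrt 2),
    B * 66 / (D * Real.sqrt 2), G * 66 / (D * Real.sqrt 2), ?_, by positivity, by positivity,
    by positivity, by ring, ?_⟩
  · rw [sub_nonneg, div_le_one hDs]
    exact hsum2
  · have key : ∀ (u v t y : ℝ), D * y = A * u + B * v + G * t →
        y = A * 66 / (D * Real.sqrt 2) * (Real.sqrt 2 / 66 * u) +
          B * 66 / (D * Real.sqrt 2) * (Real.sqrt 2 / 66 * v) +
          G * 66 / (D * Real.sqrt 2) * (Real.sqrt 2 / 66 * t) := by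
      intro u v t y hy
      have h5 : A * 66 / (D * Real.sqrt 2) * (Real.sqrt 2 / 66 * u) +
          B * 66 / (D * Real.sqrt 2) * (Real.sqrt 2 / 66 * v) +
          G * 66 / (D * Real.sqrt 2) * (Real.sqrt 2 / 66 * t) = (A * u + B * v + G * t) / D := by
        field_simp
      rw [h5, ← hy]
      field_simp
    ext k
    fin_cases k
    · simpa [vec] using key _ _ _ _ k0
    · simpa [vec] using key _ _ _ _ k1
    · simpa [vec] using key _ _ _ _ k2

open Pool.Agent.Work.MP_3892ce_gt in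
theorem vol_sx (τ : Z3 × Z3 × Z3) (h : 0 ≤ dtz τ.1 τ.2.1 τ.2.2) :
    volume (sx τ) ≤ ENNReal.ofReal ((dtz τ.1 τ.2.1 τ.2.2 : ℝ) * (Real.sqrt 2 / 862488)) := by
  refine (volume_tetS_le _ _ _ _).trans ?_
  apply ENNReal.ofReal_le_ofReal
  have hss : Real.sqrt 2 * Real.sqrt 2 = 2 := Real.mul_self_sqrt (by norm_num)
  have h1 : det3 (vec τ.1 - 0) (vec τ.2.1 - 0) (vec τ.2.2 - 0) =
      Real.sqrt 2 / 143748 * (dtz τ.1 τ.2.1 τ.2.2 : ℝ) := by
    rw [sub_zero, sub_zero, sub_zero]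
    unfold det3 dtz dz crz vec
    simp only [Matrix.cons_val_zero, Matrix.cons_val_one, Matrix.cons_val]
    push_cast
    have e : ∀ D : ℝ, Real.sqrt 2 / 143748 * D = (Real.sqrt 2 * Real.sqrt 2) * Real.sqrt 2 / 287496
        * D := by
      intro D
      rw [hss]; ring
    rw [e]
    ring
  rw [h1, abs_of_nonneg (mul_nonneg (by positivity) (by exact_mod_cast h))]
  apply le_of_eq
  ring

theorem vol_union : ∀ T : List (Z3 × Z3 × Z3), (∀ τ ∈ T, 0 ≤ dtz τ.1 τ.2.1 τ.2.2) →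
    volume {x | ∃ τ ∈ T, x ∈ sx τ} ≤
      ENNReal.ofReal (((T.map fun τ => dtz τ.1 τ.2.1 τ.2.2).sum : ℝ) * (Real.sqrt 2 / 862488)) := by
  intro T
  induction T with
  | nil =>
    intro _
    have : {x : MPdef58e.E3 | ∃ τ ∈ ([] : List (Z3 × Z3 × Z3)), x ∈ sx τ} = ∅ := by
      ext x
      rw [Set.mem_ofPred_eq]
      simp
    rw [this, measure_empty]
    exact zero_le
  | cons τ T ih =>
    intro hT
    have h1 : {x : MPdef58e.E3 | ∃ σ ∈ τ :: T, x ∈ sx σ} ⊆ sx τ ∪ {x | ∃ σ ∈ T, x ∈ sx σ} := by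
      rintro x ⟨σ, hσ, hx⟩
      rcases List.mem_cons.mp hσ with rfl | hσ'
      · exact Or.inl hx
      · exact Or.inr ⟨σ, hσ', hx⟩
    have h0 : ∀ T : List (Z3 × Z3 × Z3), (∀ τ ∈ T, 0 ≤ dtz τ.1 τ.2.1 τ.2.2) →
        0 ≤ (T.map fun τ => dtz τ.1 τ.2.1 τ.2.2).sum := by
      intro T hT
      apply List.sum_nonneg
      intro y hy
      rw [List.mem_map] at hy
      obtain ⟨σ, hσ, rfl⟩ := hy
      exact hT σ hσ
    have hT' : ∀ σ ∈ T, 0 ≤ dtz σ.1 σ.2.1 σ.2.2 := fun σ hσ => hT σ (List.mem_cons_of_mem _ hσ)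
    refine (measure_mono h1).trans ((measure_union_le _ _).trans ?_)
    refine (add_le_add (vol_sx τ (hT τ List.mem_cons_self)) (ih hT')).trans ?_
    rw [← ENNReal.ofReal_add]
    · apply ENNReal.ofReal_le_ofReal
      rw [List.map_cons, List.sum_cons]
      push_cast
      apply le_of_eq
      ring
    · have := hT τ List.mem_cons_self
      have h2 : (0 : ℝ) ≤ (dtz τ.1 τ.2.1 τ.2.2 : ℝ) := by exact_mod_cast this
      positivity
    · have h2 : (0 : ℝ) ≤ ((T.map fun τ => dtz τ.1 τ.2.1 τ.2.2).sum : ℝ) := by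
        exact_mod_cast h0 T hT'
      positivity

theorem inner_cE (k : ℕ) (i : Fin 11) (x : MPdef58e.E3) :
    (inner ℝ (cE k i) x : ℝ) = dr ((can k).getD i 0) x / (27 * Real.sqrt 2) := by
  unfold cE dr
  rw [PiLp.inner_apply, Fin.sum_univ_three]
  simp only [Matrix.cons_val_zero, Matrix.cons_val_one, Matrix.cons_val]
  simp only [RCLike.inner_apply, conj_trivial]
  ring

theorem main (k : ℕ) (hlen : (can k).length = 11) (hok : okAll (can k) (cert k) = true) :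
    volume.real {x : MPdef58e.E3 | ∀ i : Fin 11, inner ℝ (cE k i) x ≤ (1 : ℝ)} ≤
      13 * Real.sqrt 2 / 3 := by
  classical
  unfold okAll at hok
  simp only [Bool.and_eq_true, decide_eq_true_eq] at hok
  obtain ⟨⟨⟨h1, h2⟩, h3⟩, h4⟩ := hok
  rw [List.all_eq_true] at h1 h2 h3
  have hs : 0 < Real.sqrt 2 := Real.sqrt_pos.mpr (by norm_num)
  have hsub : {x : MPdef58e.E3 | ∀ i : Fin 11, inner ℝ (cE k i) x ≤ (1 : ℝ)} ⊆
      {x | ∃ τ ∈ allT (cert k), x ∈ sx τ} := by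
    intro x hx
    rw [Set.mem_ofPred_eq] at hx
    have hle : ∀ c ∈ can k, dr c x ≤ 27 * Real.sqrt 2 := by
      intro c hc
      obtain ⟨n, hn, rfl⟩ := List.mem_iff_getElem.mp hc
      have hn' : n < 11 := by omega
      have h5 := hx ⟨n, hn'⟩
      rw [inner_cE, div_le_one (by positivity)] at h5
      rw [List.getD_eq_getElem _ _ hn] at h5
      exact h5
    have hne : (can k).toFinset.Nonempty := by
      rw [List.toFinset_nonempty_iff]
      intro h
      rw [h] at hlen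
      simp at hlen
    obtain ⟨c, hc, hmax⟩ := Finset.exists_max_image (can k).toFinset (fun c => dr c x) hne
    rw [List.mem_toFinset] at hc
    have hmax' : ∀ c' ∈ can k, dr c' x ≤ dr c x := fun c' hc' =>
      hmax c' (List.mem_toFinset.mpr hc')
    have h5 := h2 c hc
    rw [List.any_eq_true] at h5
    obtain ⟨F, hF, hFc⟩ := h5
    rw [beq_iff_eq] at hFc
    have h6 := facet (x := x) (h1 F hF) (by rw [hFc]; exact hmax')
    obtain ⟨τ, hτ, hin⟩ := h6
    refine ⟨τ, ?_, mem_sx hin (by rw [hFc]; exact hle c hc)⟩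
    unfold allT
    rw [List.mem_flatMap]
    exact ⟨F, hF, hτ⟩
  have h5 : ∀ τ ∈ allT (cert k), 0 ≤ dtz τ.1 τ.2.1 τ.2.2 := by
    intro τ hτ
    have := h3 τ hτ
    rwa [decide_eq_true_eq] at this
  have h6 := (measure_mono hsub).trans (vol_union _ h5)
  have h7 : ENNReal.ofReal ((((allT (cert k)).map fun τ => dtz τ.1 τ.2.1 τ.2.2).sum : ℝ) *
      (Real.sqrt 2 / 862488)) ≤ ENNReal.ofReal (13 * Real.sqrt 2 / 3) := by
    apply ENNReal.ofReal_le_ofReal
    have h8 : (((allT (cert k)).map fun τ => dtz τ.1 τ.2.1 τ.2.2).sum : ℝ) ≤ 3737448 := by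
      exact_mod_cast h4
    calc (((allT (cert k)).map fun τ => dtz τ.1 τ.2.1 τ.2.2).sum : ℝ) *
        (Real.sqrt 2 / 862488) ≤ 3737448 * (Real.sqrt 2 / 862488) :=
          mul_le_mul_of_nonneg_right h8 (by positivity)
      _ = 13 * Real.sqrt 2 / 3 := by ring
  rw [Measure.real]
  exact ENNReal.toReal_le_of_le_ofReal (by positivity) (h6.trans h7)

end

end MPgap.D_

namespace MPgap

theorem stmt_D : Stmt_D := by
  intro k hk
  interval_cases k
  · exact D_.main 0 D_.len0 D_.ok0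
  · exact D_.main 1 D_.len1 D_.ok1
  · exact D_.main 2 D_.len2 D_.ok2
  · exact D_.main 3 D_.len3 D_.ok3

end MPgap
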