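import Pool.Agent.Work.MP_def58e_gap.Table

/-!
# MP_def58e_co, gap theorem: definitions of the real side (helper90)

`X : Fin 11 → R3` are eleven vectors of norm `√2` with pairwise inner products `1` (adjacent) or
at most `0`.
-/

namespace MPgap

open Finset

abbrev R3 := ℝ × ℝ × ℝ

/-- inner product -/
def dt (x y : R3) : ℝ := x.1 * y.1 + x.2.1 * y.2.1 + x.2.2 * y.2.2

/-- cross product -/
def crs (x y : R3) : R3 :=
  (x.2.1 * y.2.2 - x.2.2 * y.2.1, x.2.2 * y.1 - x.1 * y.2.2, x.1 * y.2.1 - x.2.1 * y.1)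

/-- `(e.1 v + e.2.1 f + e.2.2 (v × f)) / 27` -/
noncomputable def comb (e : Z3) (v f : R3) : R3 :=
  (((e.1 : ℝ) * v.1 + e.2.1 * f.1 + e.2.2 * (crs v f).1) / 27,
    ((e.1 : ℝ) * v.2.1 + e.2.1 * f.2.1 + e.2.2 * (crs v f).2.1) / 27,
    ((e.1 : ℝ) * v.2.2 + e.2.1 * f.2.2 + e.2.2 * (crs v f).2.2) / 27)

structure GapR (X : Fin 11 → R3) : Prop where
  nrm : ∀ i, dt (X i) (X i) = 2
  ips : ∀ i j, i ≠ j → dt (X i) (X j) = 1 ∨ dt (X i) (X j) ≤ 0

/-- adjacency -/
def adj (X : Fin 11 → R3) (i j : Fin 11) : Prop := dt (X i) (X j) = 1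

open Classical in
/-- neighbours -/
noncomputable def nb (X : Fin 11 → R3) (i : Fin 11) : Finset (Fin 11) :=
  univ.filter fun j => adj X i j

/-- degree -/
noncomputable def dg (X : Fin 11 → R3) (i : Fin 11) : ℕ := (nb X i).card

open Classical in
/-- number of adjacent pairs in a set of indices -/
noncomputable def prs (X : Fin 11 → R3) (A : Finset (Fin 11)) : ℕ :=
  ((A ×ˢ A).filter fun p => p.1 < p.2 ∧ adj X p.1 p.2).card

/-- number of adjacent pairs of neighbours (= number of triangles at `i`) -/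
noncomputable def tv (X : Fin 11 → R3) (i : Fin 11) : ℕ := prs X (nb X i)

/-- twice the number of edges -/
noncomputable def sD (X : Fin 11 → R3) : ℕ := ∑ i, dg X i

/-- three times the number of triangles -/
noncomputable def sT (X : Fin 11 → R3) : ℕ := ∑ i, tv X i

/-- what the cap inequality gives (block A_thm) -/
structure Good (X : Fin 11 → R3) : Prop where
  gap : GapR X
  c35 : 35 ≤ sD X
  c36 : sD X ≤ 36 → sT X ≤ 5
  c38 : sD X ≤ 38 → sT X ≤ 15

/-- at least 20 edges -/
def CaseA (X : Fin 11 → R3) : Prop := GapR X ∧ 40 ≤ sD X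

/-- 19 edges and at most 5 triangles -/
def CaseB (X : Fin 11 → R3) : Prop := GapR X ∧ sD X = 38 ∧ sT X ≤ 15

/-! ### the link with the search -/

/-- the real vector of a scaled integer vector -/
noncomputable def toR (a : Z3) : R3 := ((a.1 : ℝ) / SC, (a.2.1 : ℝ) / SC, (a.2.2 : ℝ) / SC)

/-- the state `L` is realised by `X` -/
structure Inv (X : Fin 11 → R3) (L : St) : Prop where
  nodup : (L.map Prod.fst).Nodup
  mem : ∀ z ∈ L, ∃ i, X i = toR z.1 ∧
    (z.2 = 1 → dg X i = 4 ∧ ∀ j, adj X i j → ∃ y ∈ L, X j = toR y.1) ∧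
    (z.2 = 2 → dg X i ≤ 3) ∧ (z.2 = 3 → dg X i = 4)

open Classical in
/-- the indices of the vectors of the state -/
noncomputable def ix (X : Fin 11 → R3) (L : St) : Finset (Fin 11) :=
  univ.filter fun i => ∃ z ∈ L, X i = toR z.1

/-- all free places are used: every vertex of the state of degree at most 3 has `stub` neighbours
outside of the state -/
def Used (X : Fin 11 → R3) (L : St) : Prop :=
  ∀ z ∈ L, ∀ i, X i = toR z.1 → ((nb X i) \ (ix X L)).card = stub L z

/-- the vectors of a type -/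
noncomputable def canR (k : ℕ) (i : Fin 11) : R3 :=
  ((((can k).getD i 0).1 : ℝ) / 27, (((can k).getD i 0).2.1 : ℝ) / 27,
    (((can k).getD i 0).2.2 : ℝ) / 27)

end MPgap
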