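import Pool.Agent.Work.MP_def58e_gap.Interface

/-! MP_def58e_co, gap theorem, block CASES (helper50). -/

set_option autoImplicit false

namespace MPgap

open Finset

theorem stmt_CASES (h1 : Stmt_EVEN) (h2 : Stmt_FULL) (h3 : Stmt_TV2) : Stmt_CASES := by
  intro X hX
  have he := h1 X hX.gap
  have hf := h2 X hX.gap
  have h35 := hX.c35
  have ht : 2 * (univ.filter fun i => dg X i = 4).card ≤ sT X := by
    calc 2 * (univ.filter fun i => dg X i = 4).card
        = ∑ i ∈ univ.filter (fun i => dg X i = 4), 2 := by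
          rw [Finset.sum_const, smul_eq_mul, mul_comm]
      _ ≤ ∑ i ∈ univ.filter (fun i => dg X i = 4), tv X i :=
          Finset.sum_le_sum fun i hi => h3 X hX.gap i (Finset.mem_filter.1 hi).2
      _ ≤ sT X := Finset.sum_le_univ_sum_of_nonneg fun i => Nat.zero_le _
  rcases he with ⟨k, hk⟩
  by_cases h36 : sD X ≤ 36
  · have := hX.c36 h36
    omega
  · by_cases h38 : sD X ≤ 38
    · right
      exact ⟨hX.gap, by omega, hX.c38 h38⟩
    · left
      exact ⟨hX.gap, by omega⟩

end MPgap
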