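import Pool.Agent.Work.MP_def58e_gap.Interface

/-! MP_def58e_co, gap theorem, block K4 (helper50): no four vectors with pairwise products 1. -/

set_option autoImplicit false

namespace MPgap

open Finset

namespace K4_

theorem gram3 (a b c : R3) : (dt a (crs b c)) ^ 2 = dt a a * dt b b * dt c c +
    2 * dt a b * dt b c * dt a c - dt a a * (dt b c) ^ 2 - dt b b * (dt a c) ^ 2 -
    dt c c * (dt a b) ^ 2 := by
  simp only [dt, crs]
  ring

theorem expand (a b c d : R3) : dt a (crs b c) * dt d d = dt d a * dt d (crs b c) +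
    dt d b * dt d (crs c a) + dt d c * dt d (crs a b) := by
  simp only [dt, crs]
  ring

theorem dt_comm (a b : R3) : dt a b = dt b a := by
  simp only [dt]
  ring

theorem sq4 {x : ℝ} (h : x ^ 2 = 4) : x = 2 ∨ x = -2 := by
  have : (x - 2) * (x + 2) = 0 := by nlinarith
  rcases mul_eq_zero.1 this with h | h
  · left; linarith
  · right; linarith

theorem val3 (a b c : R3) (ha : dt a a = 2) (hb : dt b b = 2) (hc : dt c c = 2)
    (hab : dt a b = 1) (hbc : dt b c = 1) (hac : dt a c = 1) :
    dt a (crs b c) = 2 ∨ dt a (crs b c) = -2 := by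
  apply sq4
  rw [gram3, ha, hb, hc, hab, hbc, hac]
  norm_num

end K4_

open K4_ in
theorem stmt_K4 : Stmt_K4 := by
  intro X hX a b c d hab hac had hbc hbd hcd
  have ha := hX.nrm a
  have hb := hX.nrm b
  have hc := hX.nrm c
  have hd := hX.nrm d
  unfold adj at hab hac had hbc hbd hcd
  have hda := (dt_comm (X d) (X a)).trans had
  have hdb := (dt_comm (X d) (X b)).trans hbd
  have hdc := (dt_comm (X d) (X c)).trans hcd
  have hca := (dt_comm (X c) (X a)).trans hac
  have h := expand (X a) (X b) (X c) (X d)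
  rw [hd, hda, hdb, hdc] at h
  rcases val3 _ _ _ ha hb hc hab hbc hac with h1 | h1 <;>
  rcases val3 _ _ _ hd hb hc hdb hbc hdc with h2 | h2 <;>
  rcases val3 _ _ _ hd hc ha hdc hca hda with h3 | h3 <;>
  rcases val3 _ _ _ hd ha hb hda hab hdb with h4 | h4 <;>
  rw [h1, h2, h3, h4] at h <;> norm_num at h

end MPgap
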