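import Pool.Agent.Work.MP_def58e_gap.Interface

/-! Block SETM of the gap theorem (MP_def58e_co). helper6 -/

namespace MPgap

theorem SETM_.fst (L : St) (v : Z3) (k : ℕ) :
    (setMark L v k).map Prod.fst = L.map Prod.fst := by
  unfold setMark
  rw [List.map_map]
  apply List.map_congr_left
  intro z _
  simp only [Function.comp]
  split_ifs <;> rfl

theorem SETM_.mem (L : St) (v : Z3) (k : ℕ) (z : Z3) (h : z ∈ L.map Prod.fst) :
    ∃ y ∈ setMark L v k, y.1 = z := by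
  rw [← SETM_.fst L v k] at h
  obtain ⟨y, hy, h1⟩ := List.mem_map.1 h
  exact ⟨y, hy, h1⟩

theorem stmt_SETM (_h1 : Stmt_TOR) : Stmt_SETM := by
  intro X _ L v i hI hi hd
  have hex : ∀ j, (∃ y ∈ L, X j = toR y.1) → ∃ y ∈ setMark L v 2, X j = toR y.1 := by
    rintro j ⟨y, hy, hj⟩
    obtain ⟨y', hy', h'⟩ := SETM_.mem L v 2 y.1 (List.mem_map.2 ⟨y, hy, rfl⟩)
    exact ⟨y', hy', by rw [h']; exact hj⟩
  refine ⟨by rw [SETM_.fst]; exact hI.nodup, ?_⟩
  intro z hz
  obtain ⟨z', hz', he⟩ := List.mem_map.1 hz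
  by_cases hv : z'.1 = v
  · rw [if_pos (by simpa using hv)] at he
    rw [← he]
    refine ⟨i, by rw [hi, hv], fun h => absurd h (by simp), fun _ => hd,
      fun h => absurd h (by simp)⟩
  · rw [if_neg (by simpa using hv)] at he
    rw [← he]
    obtain ⟨i', h1, h2, h3, h4⟩ := hI.mem z' hz'
    exact ⟨i', h1, fun h => ⟨(h2 h).1, fun j hj => hex j ((h2 h).2 j hj)⟩, h3, h4⟩

end MPgap
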