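import Pool.Agent.Work.MP_def58e_gap.Interface

/-!
# MP_def58e_co, gap theorem: block USA (helper68)
-/

namespace MPgap

open Finset

/-- the vectors are distinct -/
theorem USA_.inj {X : Fin 11 → R3} (hX : GapR X) {i j : Fin 11} (h : X i = X j) : i = j := by
  by_contra hne
  have h2 := hX.nrm i
  have h3 := hX.ips i j hne
  rw [← h, h2] at h3
  rcases h3 with h3 | h3 <;> linarith

theorem stmt_USA (h1 : Stmt_DEG4) (h2 : Stmt_BR) (h3 : Stmt_BC) : Stmt_USA := by
  intro X hX L hL hcl hn
  classical
  obtain ⟨hG, h40⟩ := hX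
  have hdeg := h1 X hG
  set A : Finset (Fin 11) := univ.filter fun i => dg X i ≤ 3 with hA
  have hcard : 4 ≤ A.card := by
    have := h3 X hG L hL (fun z => z.2 == 2) A (by
      intro z hz hq i hi
      rw [hA, Finset.mem_filter]
      refine ⟨Finset.mem_univ _, ?_⟩
      obtain ⟨i', hi', -, hi2, -⟩ := hL.mem z hz
      have : i' = i := USA_.inj hG (hi'.trans hi.symm)
      subst this
      exact hi2 (by simpa using hq))
    unfold nDef at hn
    omega
  have hthree : ∀ i ∈ A, dg X i = 3 := by
    intro i hi
    by_contra hne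
    have hi' : dg X i ≤ 3 := (Finset.mem_filter.1 hi).2
    have hsum : sD X ≤ ∑ j : Fin 11, ((if j ∈ A then 3 else 4) : ℕ) := by
      unfold sD
      apply Finset.sum_le_sum
      intro j _
      by_cases hj : j ∈ A
      · rw [if_pos hj]
        exact (Finset.mem_filter.1 hj).2
      · rw [if_neg hj]
        exact hdeg j
    have hsum' : sD X < ∑ j : Fin 11, ((if j ∈ A then 3 else 4) : ℕ) := by
      unfold sD
      apply Finset.sum_lt_sum
      · intro j _
        by_cases hj : j ∈ A
        · rw [if_pos hj]
          exact (Finset.mem_filter.1 hj).2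
        · rw [if_neg hj]
          exact hdeg j
      · refine ⟨i, Finset.mem_univ _, ?_⟩
        rw [if_pos hi]
        omega
    have hval : ∑ j : Fin 11, ((if j ∈ A then 3 else 4) : ℕ) = 44 - A.card := by
      have h4 : ∑ j : Fin 11, ((if j ∈ A then 3 else 4) : ℕ) + A.card = 44 := by
        have h5 : A.card = ∑ j : Fin 11, ((if j ∈ A then 1 else 0) : ℕ) := by
          rw [Finset.sum_ite_mem, Finset.univ_inter, Finset.sum_const, smul_eq_mul, mul_one]
        rw [h5, ← Finset.sum_add_distrib]
        have h6 : ∀ j : Fin 11, ((if j ∈ A then 3 else 4) : ℕ) + (if j ∈ A then 1 else 0) = 4 := by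
          intro j
          by_cases hj : j ∈ A <;> simp [hj]
        rw [Finset.sum_congr rfl (fun j _ => h6 j)]
        simp
      omega
    omega
  intro z hz i hi
  obtain ⟨i', hi', hm1, hm2, -⟩ := hL.mem z hz
  have hii : i' = i := USA_.inj hG (hi'.trans hi.symm)
  subst hii
  have hc := List.all_eq_true.1 hcl z hz
  simp only [Bool.or_eq_true, beq_iff_eq] at hc
  rcases hc with hc | hc
  · have hs : stub L z = 0 := by
      unfold stub
      rw [hc]
      rfl
    rw [hs, Finset.card_eq_zero, Finset.sdiff_eq_empty_iff_subset]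
    intro j hj
    have hadj : adj X i' j := (Finset.mem_filter.1 hj).2
    rw [((h2 X hG L hL).2.1 j)]
    exact (hm1 hc).2 j hadj
  · have hiA : i' ∈ A := Finset.mem_filter.2 ⟨Finset.mem_univ _, hm2 hc⟩
    have hd := hthree i' hiA
    have hb := ((h2 X hG L hL).2.2 z hz i' hi).1
    have hs : stub L z = 3 - dgz L z.1 := by
      unfold stub
      rw [hc]
      rfl
    rw [hs, hb, ← hd]
    unfold dg
    have := Finset.card_sdiff_add_card_inter (nb X i') (ix X L)
    omega

end MPgap
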