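import Pool.Agent.Work.MP_def58e_gap.InterfaceD

/-!
# MP_def58e_co, gap theorem: equal Gram matrices give congruent configurations (helper11)
-/

open MeasureTheory

namespace MPgap.ISO_

open MPdef58e

/-- linear combination -/
noncomputable def lc (u : Fin 11 → E3) : (Fin 11 → ℝ) →ₗ[ℝ] E3 where
  toFun c := ∑ i, c i • u i
  map_add' c d := by
    rw [← Finset.sum_add_distrib]
    exact Finset.sum_congr rfl fun i _ => add_smul _ _ _
  map_smul' r c := by
    rw [RingHom.id_apply, Finset.smul_sum]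
    exact Finset.sum_congr rfl fun i _ => by rw [Pi.smul_apply, smul_eq_mul, mul_smul]

theorem lc_apply (u : Fin 11 → E3) (c : Fin 11 → ℝ) : lc u c = ∑ i, c i • u i := rfl

theorem lc_single (u : Fin 11 → E3) (i : Fin 11) : lc u (Pi.single i 1) = u i := by
  rw [lc_apply, Finset.sum_eq_single i]
  · rw [Pi.single_eq_same, one_smul]
  · intro j _ hj
    rw [Pi.single_eq_of_ne hj, zero_smul]
  · intro h
    exact absurd (Finset.mem_univ i) h

theorem inner_lc (u : Fin 11 → E3) (c : Fin 11 → ℝ) :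
    (inner ℝ (lc u c) (lc u c) : ℝ) = ∑ i, ∑ j, c i * c j * inner ℝ (u i) (u j) := by
  rw [lc_apply, sum_inner]
  apply Finset.sum_congr rfl
  intro i _
  rw [inner_sum]
  apply Finset.sum_congr rfl
  intro j _
  rw [real_inner_smul_left, real_inner_smul_right]
  ring

theorem norm_lc {u w : Fin 11 → E3} (h : ∀ i j, (inner ℝ (u i) (u j) : ℝ) = inner ℝ (w i) (w j))
    (c : Fin 11 → ℝ) : ‖lc u c‖ = ‖lc w c‖ := by
  have h1 : (inner ℝ (lc u c) (lc u c) : ℝ) = inner ℝ (lc w c) (lc w c) := by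
    rw [inner_lc, inner_lc]
    simp only [h]
  rw [real_inner_self_eq_norm_sq, real_inner_self_eq_norm_sq] at h1
  exact (pow_left_inj₀ (norm_nonneg _) (norm_nonneg _) two_ne_zero).mp h1

theorem exists_iso {u w : Fin 11 → E3}
    (h : ∀ i j, (inner ℝ (u i) (u j) : ℝ) = inner ℝ (w i) (w j)) :
    ∃ U : E3 ≃ₗᵢ[ℝ] E3, ∀ i, U (u i) = w i := by
  obtain ⟨s, hs⟩ := (lc u).rangeRestrict.exists_rightInverse_of_surjective
    (LinearMap.range_rangeRestrict _)
  have hs' : ∀ y : (lc u).range, lc u (s y) = (y : E3) := by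
    intro y
    have h1 := congrArg (fun f => ((f y : (lc u).range) : E3)) hs
    simpa using h1
  let L : (lc u).range →ₗᵢ[ℝ] E3 :=
    { toLinearMap := (lc w).comp s
      norm_map' := by
        intro y
        change ‖lc w (s y)‖ = ‖(y : E3)‖
        rw [← norm_lc h, hs'] }
  have hL : ∀ i, ∀ hi : u i ∈ (lc u).range, L ⟨u i, hi⟩ = w i := by
    intro i hi
    change lc w (s ⟨u i, hi⟩) = w i
    have h1 : lc u (s ⟨u i, hi⟩ - Pi.single i 1) = 0 := by
      rw [map_sub, hs', lc_single, sub_self]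
    have h2 : ‖lc w (s ⟨u i, hi⟩ - Pi.single i 1)‖ = 0 := by
      rw [← norm_lc h, h1, norm_zero]
    rw [norm_eq_zero, map_sub, lc_single, sub_eq_zero] at h2
    exact h2
  refine ⟨L.extend.toLinearIsometryEquiv rfl, ?_⟩
  intro i
  have hi : u i ∈ (lc u).range := ⟨Pi.single i 1, lc_single u i⟩
  rw [LinearIsometry.toLinearIsometryEquiv_apply]
  have h1 := LinearIsometry.extend_apply L ⟨u i, hi⟩
  rw [hL] at h1
  exact h1

end MPgap.ISO_

namespace MPgap

open MPdef58e

theorem stmt_ISO : Stmt_ISO := by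
  intro u w p hp h
  obtain ⟨U, hU⟩ := ISO_.exists_iso (u := u) (w := fun i => w (p i)) h
  have h1 : {x : E3 | ∀ i : Fin 11, inner ℝ (u i) x ≤ (1 : ℝ)} =
      U ⁻¹' {x : E3 | ∀ i : Fin 11, inner ℝ (w i) x ≤ (1 : ℝ)} := by
    ext x
    rw [Set.mem_preimage, Set.mem_ofPred_eq, Set.mem_ofPred_eq]
    have h2 : ∀ i, (inner ℝ (w (p i)) (U x) : ℝ) = inner ℝ (u i) x := by
      intro i
      rw [← hU i, LinearIsometryEquiv.inner_map_map]
    constructor
    · intro hx j
      obtain ⟨i, rfl⟩ := hp.2 j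
      rw [h2]
      exact hx i
    · intro hx i
      rw [← h2]
      exact hx (p i)
  have h3 : MeasurableSet {x : E3 | ∀ i : Fin 11, inner ℝ (w i) x ≤ (1 : ℝ)} := by
    have h4 : {x : E3 | ∀ i : Fin 11, inner ℝ (w i) x ≤ (1 : ℝ)} =
        ⋂ i : Fin 11, {x : E3 | inner ℝ (w i) x ≤ (1 : ℝ)} := by
      ext x
      rw [Set.mem_iInter]
      exact Iff.rfl
    rw [h4]
    apply MeasurableSet.iInter
    intro i
    exact (isClosed_le (by fun_prop) continuous_const).measurableSet
  rw [h1, U.measurePreserving.measure_preimage h3.nullMeasurableSet]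

end MPgap
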