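import Pool.Agent.Work.MP_def58e_gap.InterfaceA
import Pool.Agent.Work.MP_def58e_gap.Defs

/-!
# MP_def58e_co, gap theorem: interface of part (D), the volumes of the four polytopes (helper90)

The four types are the lists `MPgap.can k`, `k < 4` (eleven integer vectors of norm `27 √2`, decoded
from `MPgap.canC`): 0, 1 = hexagonal close packing minus one of the twelve, 2 = an exceptional
one, 3 = face-centred cubic minus one.
-/

open MeasureTheory

namespace MPgap

noncomputable section

/-- the unit vectors of a type -/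
def cE (k : ℕ) (i : Fin 11) : MPdef58e.E3 :=
  WithLp.toLp 2 ![(((can k).getD i 0).1 : ℝ) / (27 * Real.sqrt 2),
    (((can k).getD i 0).2.1 : ℝ) / (27 * Real.sqrt 2),
    (((can k).getD i 0).2.2 : ℝ) / (27 * Real.sqrt 2)]

/-- D: volume of the four polytopes (`13 √2/3` for the types 0, 1, 3, smaller for the type 2).
`x = 27 √2 y`: the polytope `{y | ∀ i, can_i · y ≤ 1}` is rational; in the scale `q = can/27` the
volume is at most `13/6` (rhombic dodecahedron 2 + pyramid 1/6). -/
def Stmt_D : Prop := ∀ k, k < 4 →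
  volume.real {x : MPdef58e.E3 | ∀ i : Fin 11, inner ℝ (cE k i) x ≤ (1 : ℝ)} ≤
    13 * Real.sqrt 2 / 3

/-- ISO: congruent configurations have the same volume (`p` = a permutation). -/
def Stmt_ISO : Prop := ∀ (u w : Fin 11 → MPdef58e.E3) (p : Fin 11 → Fin 11),
  Function.Bijective p → (∀ i j, (inner ℝ (u i) (u j) : ℝ) = inner ℝ (w (p i)) (w (p j))) →
  volume {x : MPdef58e.E3 | ∀ i : Fin 11, inner ℝ (u i) x ≤ (1 : ℝ)} =
    volume {x : MPdef58e.E3 | ∀ i : Fin 11, inner ℝ (w i) x ≤ (1 : ℝ)}

end

end MPgap
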