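import Pool.Agent.Work.MP_def58e_gap.Interface
import Pool.Agent.Work.MP_def58e_gap.D
import Pool.Agent.Work.MP_def58e_gap.ISO

/-!
# MP_def58e_co, gap theorem: the link between the parts (helper11)
-/

open MeasureTheory

namespace MPgap.LINK_

open Finset MPdef58e

noncomputable section

/-- the vectors of norm `√2` -/
def up (u : Fin 11 → E3) (i : Fin 11) : R3 :=
  (Real.sqrt 2 * u i 0, Real.sqrt 2 * u i 1, Real.sqrt 2 * u i 2)

theorem inner_eq (x y : E3) : (inner ℝ x y : ℝ) = x 0 * y 0 + x 1 * y 1 + x 2 * y 2 := by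
  rw [PiLp.inner_apply, Fin.sum_univ_three]
  simp only [RCLike.inner_apply, conj_trivial]
  ring

theorem dt_up (u : Fin 11 → E3) (i j : Fin 11) : dt (up u i) (up u j) = 2 * inner ℝ (u i) (u j) := by
  have hss : Real.sqrt 2 * Real.sqrt 2 = 2 := Real.mul_self_sqrt (by norm_num)
  rw [inner_eq]
  unfold dt up
  linear_combination (u i 0 * u j 0 + u i 1 * u j 1 + u i 2 * u j 2) * hss

theorem adj_up (u : Fin 11 → E3) (i j : Fin 11) :
    adj (up u) i j ↔ inner ℝ (u i) (u j) = (1 / 2 : ℝ) := by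
  unfold adj
  rw [dt_up]
  constructor <;> intro h <;> linarith

theorem gap_up {u : Fin 11 → E3} (h : MPdef58eGap.Gap u) : GapR (up u) := by
  constructor
  · intro i
    rw [dt_up, real_inner_self_eq_norm_sq, h.1 i]
    norm_num
  · intro i j hij
    rw [dt_up]
    rcases h.2 i j hij with h1 | h1
    · left; rw [h1]; norm_num
    · right; linarith

open Classical in
theorem nb_up (u : Fin 11 → E3) (i j : Fin 11) :
    j ∈ nb (up u) i ↔ inner ℝ (u i) (u j) = (1 / 2 : ℝ) := by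
  unfold nb
  rw [mem_filter, adj_up]
  exact ⟨fun h => h.2, fun h => ⟨mem_univ _, h⟩⟩

theorem dg_up (u : Fin 11 → E3) (i : Fin 11) : dg (up u) i = MPdef58eGap.dg u i := by
  classical
  unfold dg MPdef58eGap.dg
  congr 1
  ext j
  rw [nb_up, mem_filter]
  exact ⟨fun h => ⟨mem_univ _, h⟩, fun h => h.2⟩

theorem tv_up (u : Fin 11 → E3) (i : Fin 11) : tv (up u) i = MPdef58eGap.tv u i := by
  classical
  unfold tv prs MPdef58eGap.tv
  congr 1
  ext p
  rw [mem_filter, mem_filter, mem_product, nb_up, nb_up, adj_up]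
  constructor
  · rintro ⟨⟨h1, h2⟩, h3, h4⟩
    exact ⟨mem_univ _, h3, h1, h2, h4⟩
  · rintro ⟨-, h3, h1, h2, h4⟩
    exact ⟨⟨h1, h2⟩, h3, h4⟩

theorem good_up (hA : MPdef58eGap.Stmt_A) {u : Fin 11 → E3} (h : MPdef58eGap.Gap u) :
    Good (up u) := by
  obtain ⟨h1, h2, h3⟩ := hA u h
  have hD : sD (up u) = ∑ i, MPdef58eGap.dg u i := sum_congr rfl fun i _ => dg_up u i
  have hT : sT (up u) = ∑ i, MPdef58eGap.tv u i := sum_congr rfl fun i _ => tv_up u i
  refine ⟨gap_up h, ?_, ?_, ?_⟩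
  · rw [hD]; exact h1
  · rw [hD, hT]; exact h2
  · rw [hD, hT]; exact h3

theorem inner_cE_cE (k : ℕ) (i j : Fin 11) :
    (inner ℝ (cE k i) (cE k j) : ℝ) = dt (canR k i) (canR k j) / 2 := by
  have hs : Real.sqrt 2 ≠ 0 := Real.sqrt_ne_zero'.mpr (by norm_num)
  have hss : Real.sqrt 2 ^ 2 = 2 := Real.sq_sqrt (by norm_num)
  have e : ∀ a b : ℝ, a / (27 * Real.sqrt 2) * (b / (27 * Real.sqrt 2)) = a / 27 * (b / 27) / 2 := by
    intro a b
    rw [div_mul_div_comm, div_mul_div_comm, div_div]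
    congr 1
    linear_combination 729 * hss
  rw [inner_eq]
  unfold cE dt canR
  simp only [Matrix.cons_val_zero, Matrix.cons_val_one, Matrix.cons_val]
  rw [e, e, e]
  ring

/-- the volume of the polytope of eleven vectors -/
theorem vol_le (hA : MPdef58eGap.Stmt_A) (hC : Stmt_CLS) (u : Fin 11 → E3)
    (h : MPdef58eGap.Gap u) :
    volume.real {x : E3 | ∀ i, inner ℝ (u i) x ≤ (1 : ℝ)} ≤ 13 * Real.sqrt 2 / 3 := by
  obtain ⟨k, hk, p, hp, hG⟩ := hC (up u) (good_up hA h)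
  have h1 : ∀ i j, (inner ℝ (u i) (u j) : ℝ) = inner ℝ (cE k (p i)) (cE k (p j)) := by
    intro i j
    have h2 := hG i j
    rw [dt_up] at h2
    rw [inner_cE_cE, ← h2]
    ring
  have h3 := stmt_ISO u (cE k) p hp h1
  rw [Measure.real, h3]
  exact stmt_D k hk

/-- the density theorem -/
theorem density (hA : MPdef58eGap.Stmt_A) (hC : Stmt_CLS) (hE : MPdef58eGap.Stmt_E) :
    ∀ C : Set E3, IsNeighbourPacking 11 C → MPdef58eGap.GapPacking C →
      12 / 13 * (Real.pi / Real.sqrt 18) ≤ lowerDensity C :=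
  hE fun u hu => vol_le hA hC u hu

end

end MPgap.LINK_
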