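import Mathlib

/-!
# MP_def58e_co, gap theorem: the finite search (executable part), helper90

Vectors are scaled: a unit vector `u` is represented by `q = √2 u`, whose coordinates are integers
divided by `SC = 3 ^ 14`.  Two vectors are adjacent if `q · q' = 1` (angle 60 degrees).
Marks: 0 = open, 1 = degree 4 and all neighbours placed, 2 = degree at most 3, 3 = degree 4.
-/

namespace MPgap

/-- the scale -/
def SC : ℤ := 4782969

abbrev Z3 := ℤ × ℤ × ℤ

abbrev St := List (Z3 × ℕ)

def dz (a b : Z3) : ℤ := a.1 * b.1 + a.2.1 * b.2.1 + a.2.2 * b.2.2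

/-- adjacency of scaled integer vectors -/
def adz (a b : Z3) : Bool := dz a b == SC * SC

/-- allowed pair: adjacent or angle at least 90 degrees -/
def okz (a b : Z3) : Bool := dz a b == SC * SC || decide (dz a b ≤ 0)

/-- the nine positions of a neighbour of `v` relative to the neighbour `f`: coefficients (times 27)
of `v`, `f`, `v × f`; azimuths `T, -T, 2T, -2T, 3T, -3T, π, π+T, π-T`, `T = arccos (1/3)`. -/
def pT : Z3 := (9, 9, 18)
def nT : Z3 := (9, 9, -18)
def p2 : Z3 := (24, -21, 12)
def n2 : Z3 := (24, -21, -12)
def p3 : Z3 := (25, -23, -10)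
def n3 : Z3 := (25, -23, 10)
def pPi : Z3 := (27, -27, 0)
def piP : Z3 := (18, -9, -18)
def piM : Z3 := (18, -9, 18)

/-- the ten possible stars (the three other neighbours) -/
def pats : List (List Z3) :=
  [[pT, p2, piP], [nT, n2, piM], [pT, pPi, nT], [piM, pPi, piP], [pT, pPi, piP], [nT, pPi, piM],
    [pT, p2, p3], [nT, n2, n3], [pT, p2, nT], [nT, n2, pT]]

/-- exact combination `(e.1 v + e.2.1 f + e.2.2 (v × f)) / 27` -/
def combZ (e v f : Z3) : Option Z3 :=
  let d : ℤ := 27 * SC
  let x : ℤ := SC * (e.1 * v.1 + e.2.1 * f.1) + e.2.2 * (v.2.1 * f.2.2 - v.2.2 * f.2.1)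
  let y : ℤ := SC * (e.1 * v.2.1 + e.2.1 * f.2.1) + e.2.2 * (v.2.2 * f.1 - v.1 * f.2.2)
  let z : ℤ := SC * (e.1 * v.2.2 + e.2.1 * f.2.2) + e.2.2 * (v.1 * f.2.1 - v.2.1 * f.1)
  if x % d == 0 && y % d == 0 && z % d == 0 then some (x / d, y / d, z / d) else none

/-- the vectors of a star -/
def gen (v f : Z3) : List Z3 → Option (List Z3)
  | [] => some []
  | e :: l => match combZ e v f with
    | none => none
    | some g => match gen v f l with
      | none => none
      | some gs => some (g :: gs)

/-- add a vector; `none` = impossible -/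
def ins (L : St) (g : Z3) : Option St :=
  if L.any (fun z => z.1 == g) then some L
  else if decide (L.length < 11) && L.all (fun z => okz z.1 g) then some (L ++ [(g, 0)]) else none

def insAll : List Z3 → St → Option St
  | [], L => some L
  | g :: gs, L => match ins L g with
    | none => none
    | some L' => insAll gs L'

def setMark (L : St) (v : Z3) (k : ℕ) : St := L.map fun z => if z.1 == v then (z.1, k) else z

/-- the new state if the neighbours of `v` are `f` and `gs`; `none` = impossible -/
def step (L : St) (v f : Z3) (gs : List Z3) : Option St :=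
  if L.all (fun z => !(adz z.1 v) || z.1 == f || gs.contains z.1) then
    match insAll gs L with
    | none => none
    | some L' => some (setMark L' v 1)
  else none

/-- number of neighbours in the list -/
def dgz (L : St) (v : Z3) : ℕ := (L.filter fun z => adz z.1 v).length

/-- number of adjacent pairs of neighbours in the list -/
def tvz (L : St) (v : Z3) : ℕ :=
  ((L.filter fun z => adz z.1 v).map fun z => (L.filter fun y => adz y.1 v && adz y.1 z.1).length).sum / 2

/-- the vertex to be expanded: `(score, v, f, mark)` -/
def pick (L : St) : Option (ℕ × Z3 × Z3 × ℕ) :=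
  L.foldl (fun o z =>
    if z.2 == 0 || z.2 == 3 then
      match L.filter (fun y => adz y.1 z.1) with
      | [] => o
      | f :: t =>
        let s := 2 * (t.length + 1) + (if z.2 == 3 then 20 else 0)
        match o with
        | none => some (s, z.1, f.1, z.2)
        | some r => if r.1 < s then some (s, z.1, f.1, z.2) else o
    else o) none

/-- the search -/
def chk (pr lf : St → Bool) : ℕ → St → Bool
  | 0, _ => false
  | k + 1, L => pr L || match pick L with
    | none => lf L
    | some (_, v, f, mk) =>
      (pats.all fun pt => match gen v f pt with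
        | none => false
        | some gs => match step L v f gs with
          | none => true
          | some L' => chk pr lf k L') && (mk == 3 || chk pr lf k (setMark L v 2))

/-! ### the tests -/

def nFull (L : St) : ℕ := (L.filter fun z => z.2 == 1 || z.2 == 3).length
def nDef (L : St) : ℕ := (L.filter fun z => z.2 == 2).length

/-- a degree is too large -/
def badDeg (L : St) : Bool := L.any fun z => let d := dgz L z.1
  decide (4 < d) || (z.2 == 2 && decide (3 < d))

def prA (L : St) : Bool := badDeg L || decide (4 < nDef L)

def sumT (L : St) : ℕ := (L.map fun z => tvz L z.1).sum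

def ext (L : St) : ℕ := (L.map fun z =>
  if z.2 == 2 then tvz L z.1 else if z.2 == 0 then 0 else tvz L z.1 - 2).sum

def prB (L : St) : Bool := badDeg L || decide (11 < nDef L + max 5 (nFull L)) ||
  decide (15 < sumT L) || decide (15 < ext L + 2 * max 5 (nFull L))

/-- twice the number of edges in the list -/
def sumD (L : St) : ℕ := (L.map fun z => dgz L z.1).sum

/-- free places at the vertices of degree at most 3 -/
def stub (L : St) (z : Z3 × ℕ) : ℕ := if z.2 == 2 then 3 - dgz L z.1 else 0

def stubs (L : St) : ℕ := (L.map fun z => stub L z).sum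

/-- maximal number of edges among `m` vertices, `m ≤ 5` -/
def emax : ℕ → ℕ
  | 0 => 0
  | 1 => 0
  | 2 => 1
  | 3 => 3
  | 4 => 5
  | 5 => 7
  | _ => 100

def closed (L : St) : Bool := L.all fun z => z.2 == 1 || z.2 == 2

/-- two vectors of degree at most 3 without common neighbour whose free places do not fit -/
def qpair (L : St) : Bool := L.any fun z => L.any fun y =>
  decide (dz z.1 y.1 < -(SC * SC)) && decide (11 < stub L z + stub L y + L.length)

/-- `2 c` for the common neighbours `c` of two orthogonal vectors -/
def cand (s : ℤ) (p q : Z3) : Z3 :=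
  (p.1 + q.1 + s * ((p.2.1 * q.2.2 - p.2.2 * q.2.1) / SC),
    p.2.1 + q.2.1 + s * ((p.2.2 * q.1 - p.1 * q.2.2) / SC),
    p.2.2 + q.2.2 + s * ((p.1 * q.2.1 - p.2.1 * q.1) / SC))

def crossExact (p q : Z3) : Bool := (p.2.1 * q.2.2 - p.2.2 * q.2.1) % SC == 0 &&
  (p.2.2 * q.1 - p.1 * q.2.2) % SC == 0 && (p.1 * q.2.1 - p.2.1 * q.1) % SC == 0

/-- `c2 / 2` is in the list or not allowed -/
def blocked (L : St) (c2 : Z3) : Bool := L.any fun z =>
  (2 * z.1.1 == c2.1 && 2 * z.1.2.1 == c2.2.1 && 2 * z.1.2.2 == c2.2.2) ||
    (decide (0 < dz z.1 c2) && !(dz z.1 c2 == 2 * (SC * SC)))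

/-- no free common neighbour -/
def conf (L : St) (p q : Z3) : Bool := decide (dz p q < -(SC * SC)) ||
  (dz p q == 0 && crossExact p q && blocked L (cand 1 p q) && blocked L (cand (-1) p q))

/-- all vectors with free places are pairwise without free common neighbour -/
def qall (L : St) : Bool := decide (11 < stubs L + L.length) &&
  (L.filter fun z => decide (0 < stub L z)).all fun z =>
    (L.filter fun z => decide (0 < stub L z)).all fun y => z.1 == y.1 || conf L z.1 y.1

/-- pairwise non adjacent vectors with one free place -/
def rgamma (L : St) : Bool := L.length == 8 && stubs L == 4 &&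
  (L.filter fun z => decide (0 < stub L z)).all fun z => stub L z == 1 &&
    (L.filter fun z => decide (0 < stub L z)).all fun y => !(adz z.1 y.1)

def ralpha (L : St) : Bool := L.length == 7 && stubs L == 4 && decide (9 ≤ sumT L) &&
  (L.filter fun z => decide (0 < stub L z)).all fun z => stub L z == 1 &&
    (L.filter fun z => decide (0 < stub L z)).all fun y => !(dz z.1 y.1 == -(2 * (SC * SC)))

/-- leaf test for 19 edges -/
def lfB (L : St) : Bool := closed L && decide (L.length < 11) && decide (6 ≤ L.length) &&
  (decide (sumD L + 2 * stubs L + 2 * emax (11 - L.length) < 38) ||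
    ((decide (sumD L + 2 * stubs L + 2 * emax (11 - L.length) = 38) || decide (4 ≤ ext L)) &&
      (qpair L || qall L)) ||
    (decide (sumD L + 2 * stubs L + 2 * emax (11 - L.length) = 38) && (rgamma L || ralpha L)))

/-- leaf test for at least 20 edges; `tab` = table of the solutions -/
def lfA (tab : List (List Z3)) (L : St) : Bool := closed L && decide (6 ≤ L.length) &&
  (if L.length == 11 then tab.any fun M => L.all fun z => M.contains z.1
   else decide (sumD L + 2 * stubs L + 2 * emax (11 - L.length) < 40) ||
    (nDef L == 4 && qpair L))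

/-! ### the starts -/

def a0 : Z3 := (SC, SC, 0)
def f0 : Z3 := (SC, 0, SC)

/-- start: the star of `a0` with pattern `pt`, `f0` and the neighbour number `k` have degree 4 -/
def start (pt : List Z3) (k : ℕ) : Option St :=
  match gen a0 f0 pt with
  | none => none
  | some gs => some ((a0, 1) :: (f0, 3) :: (gs.mapIdx fun i g => (g, if i == k then 3 else 0)))

def runB (pt : List Z3) (k : ℕ) : Bool := match start pt k with
  | none => false
  | some L => chk prB lfB 12 L

end MPgap
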